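import Pool.Agent.Lib.MP_5c0be7_lc.K.Cert
import Pool.Agent.Lib.MP_5c0be7_lc.F.Tree

/-!
Project KM, block K, part 3: realisation of iteration trees. Definitions and statements.
-/

namespace Pool.Agent.KM

open Ordinal Tr
open scoped Classical

universe u

/-- `c + 1` is the longest level of `(E, b + 1)` in which no level from `t` on projects to `k`. -/
structure Lvl (E : Seq.{u}) (b k t c : Ordinal.{u}) : Prop where
  ta_le : t ≤ c
  st_le : c ≤ b
  noproj : NoProj E k t (c + 1)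
  max : c < b → rho E (c + 1) ≤ k

/-- One-sided agreement of two realisations on the sets named below `t`. -/
def Ag (N1 : Seq.{u}) (s1 : Ordinal.{u} → Ordinal.{u}) (N2 : Seq.{u})
    (s2 : Ordinal.{u} → Ordinal.{u}) (k t : Ordinal.{u}) : Prop :=
  s1 k ≤ s2 k ∧ ∀ m v : Tr.{u}, In t m → In (s1 k) v → (Nm N1 (m.map s1) v ↔ Nm N2 (m.map s2) v)

/-- The node that resurrects the image of level `c + 1`. -/
noncomputable def rn (C : Cfg.{u}) (n : Cn.{u}) (s : Ordinal.{u} → Ordinal.{u}) (c : Ordinal.{u}) :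
    Cn.{u} := (res C n (s c)).1

/-- The map of level `c + 1` into its resurrection. -/
noncomputable def rm (C : Cfg.{u}) (n : Cn.{u}) (s : Ordinal.{u} → Ordinal.{u}) (c : Ordinal.{u}) :
    Ordinal.{u} → Ordinal.{u} := (res C n (s c)).2 ∘ s

/-- A realisation of the roots of `T`. -/
structure RootRz (C : Cfg.{u}) (g : Ordinal.{u}) (T : IT.{u}) (n : Ordinal.{u} → Cn.{u})
    (s : Ordinal.{u} → Ordinal.{u} → Ordinal.{u}) : Prop where
  rz : ∀ i ≤ T.n, Rz C g (T.E i) (T.b i) (n i) (s i)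
  ag : ∀ i j k t c, i < j → j ≤ T.n → g ≤ k → ω < k → (∀ i' < i, T.la i' ≤ k) → k < T.la i →
    t ≤ T.la i → IsCard (T.E j) (T.b j + 1) k → IsNext (T.E j) (T.b j + 1) k t →
    Lvl (T.E i) (T.b i) k t c →
    Ag (n j).E (s j) (rn C (n i) (s i) c).E (rm C (n i) (s i) c) k t

/-- `th` is a thread for step `j` whose domain contains `B`. -/
structure Thr (C : Cfg.{u}) (T : IT.{u}) (n : Ordinal.{u} → Cn.{u})
    (s : Ordinal.{u} → Ordinal.{u} → Ordinal.{u}) (j : Ordinal.{u}) (B : Set Ordinal.{u})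
    (th : Ordinal.{u} → Ordinal.{u}) : Prop where
  val : ∀ z < T.la j, s (j + 1) z = th (rm C (n j) (s j) (T.nu j) z)
  fix : ∀ z ∈ B, z < rm C (n j) (s j) (T.nu j) (T.ka j) → th z = z
  lt : ∀ z ∈ B, z < rm C (n j) (s j) (T.nu j) (T.la j) → th z < rm C (n j) (s j) (T.nu j) (T.ka j)
  nm : ∀ m a : Tr.{u}, In (T.ta j) m → In (rm C (n j) (s j) (T.nu j) (T.la j)) a →
    a.lv ⊆ B ∪ rm C (n j) (s j) (T.nu j) '' Set.Iio (T.la j) →
    (Nm (rn C (n j) (s j) (T.nu j)).E (m.map (rm C (n j) (s j) (T.nu j) ∘ T.e j)) a ↔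
      Nm (n (j + 1)).E (m.map (s (j + 1) ∘ T.e j)) (a.map th))

/-- The realisation is correct at node `j`. -/
structure RzAt (C : Cfg.{u}) (g : Ordinal.{u}) (T : IT.{u}) (n : Ordinal.{u} → Cn.{u})
    (s : Ordinal.{u} → Ordinal.{u} → Ordinal.{u}) (j : Ordinal.{u}) : Prop where
  rz : Rz C g (T.E j) (T.b j) (n j) (s j)
  succ : ∀ k, T.n ≤ k → j = k + 1 → n j = rn C (n (T.pr k)) (s (T.pr k)) (T.st k) ∧
    ∀ x ≤ T.st k, s j (T.im k x) = rm C (n (T.pr k)) (s (T.pr k)) (T.st k) x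
  lim : T.n < j → Order.IsSuccLimit j → ∀ i < j, T.ND i j →
    n j = n i ∧ ∀ x ≤ T.b i, s j (T.mp i j x) = s i x

/-- A realisation of the tree `T` up to node `l`. -/
structure TrRz (C : Cfg.{u}) (g : Ordinal.{u}) (T : IT.{u}) (l : Ordinal.{u})
    (n : Ordinal.{u} → Cn.{u}) (s : Ordinal.{u} → Ordinal.{u} → Ordinal.{u}) : Prop where
  root : RootRz C g T n s
  node : ∀ j ≤ l, RzAt C g T n s j

/-- All models up to node `l` are countable. -/
def IT.Ctb (T : IT.{u}) (l : Ordinal.{u}) : Prop := ∀ j ≤ l, T.b j < ω₁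

/-- `p` embeds the roots of the countable phalanx `T0` in the roots of `T`. -/
structure RootEmb (T0 T : IT.{u}) (p : Ordinal.{u} → Ordinal.{u}) : Prop where
  mono : StrictMono p
  phal : T0.Phal
  ctb : T0.Ctb T0.n
  cn : T0.n < ω₁
  n : p T0.n = T.n
  fin : ∀ i < ω, p i = i
  str : ∀ i ≤ T0.n, Strong (T0.E i) (T0.b i + 1) (T.E (p i)) (T.b (p i) + 1) p
  la : ∀ i < T0.n, p (T0.la i) = T.la (p i)
  sent : ∀ i < T0.n, ∀ k < T0.la i, (∀ i' < i, T0.la i' ≤ k) → ∀ i' < p i, T.la i' ≤ p k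

/-- Realisable phalanx: the roots of every countable subphalanx are realised. -/
def PII (C : Cfg.{u}) (g : Ordinal.{u}) (T : IT.{u}) : Prop :=
  ∀ T0 p g0, RootEmb T0 T p → p g0 = g → ∃ n s, RootRz C g0 T0 n s

/-- The successor step of a realisation. -/
class KStepSt : Prop where
  step : ∀ {E E1 E' N1 N2 : Seq.{u}} {v k t c : Ordinal.{u}} {e i q s : Ordinal.{u} → Ordinal.{u}}
    (B : Set Ordinal.{u}), B.Countable → v < ω₁ → c < ω₁ → PM0 E (v + 1) → Act E v k t e →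
    PM0 N1 (q v + 1) → Good E v N1 q → (∀ k' t' e', Act N1 (q v) k' t' e' → OC N1 N1 k' t' e') →
    IsUlt E1 c k E' i → (∀ x < t, i x = e x) → Agree E' E v → IsNext E1 (c + 1) k t →
    PM0 N2 (s c + 1) → Good E1 c N2 s → Ag N1 q N2 s k t →
    ∃ th s', Good E' (i c) N2 s' ∧ (∀ x ≤ c, s' (i x) = s x) ∧ (∀ z < e k, s' z = th (q z)) ∧
      (∀ z ∈ B, z < q k → th z = z) ∧ (∀ z ∈ B, z < q (e k) → th z < q k) ∧
      (∀ z ∈ B, ∀ w < e k, z ≤ q w → th z ≤ th (q w)) ∧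
      ∀ m a : Tr.{u}, In t m → In (q (e k)) a → a.lv ⊆ B ∪ q '' Set.Iio (e k) →
        (Nm N1 (m.map (q ∘ e)) a ↔ Nm N2 (m.map s) (a.map th))
  wf : ∀ {E E1 N1 N2 : Seq.{u}} {v k t c : Ordinal.{u}} {e q s : Ordinal.{u} → Ordinal.{u}},
    v < ω₁ → c < ω₁ → PM0 E (v + 1) → Act E v k t e →
    PM0 N1 (q v + 1) → Good E v N1 q → (∀ k' t' e', Act N1 (q v) k' t' e' → OC N1 N1 k' t' e') →
    PM0 E1 (c + 1) → Agree E1 E t → t ≤ c → IsNext E1 (c + 1) k t →
    PM0 N2 (s c + 1) → Good E1 c N2 s → Ag N1 q N2 s k t →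
    WellFounded (ULt E1 (c + 1) k t E e)

/-- Countable trees are realised, in extension form and with passengers. -/
class KRealSt : Prop where
  real : ∀ {C : Cfg.{u}} {g l a : Ordinal.{u}} {T : IT.{u}} {n0 s0}
    (B : Ordinal.{u} → (Ordinal.{u} → Cn.{u}) → (Ordinal.{u} → Ordinal.{u} → Ordinal.{u}) →
      (Ordinal.{u} → Ordinal.{u} → Ordinal.{u}) → Set Ordinal.{u}),
    (∀ j n s th, (B j n s th).Countable) →
    (∀ j n s th n' s' th', (∀ i ≤ j, n i = n' i ∧ s i = s' i) → (∀ i < j, th i = th' i) →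
      B j n s th = B j n' s' th') →
    T.IsTr l → T.Above g l → T.Ctb l → T.n ≤ a → a ≤ l → TrRz C g T a n0 s0 →
    ∃ n s th, TrRz C g T l n s ∧ (∀ i ≤ a, n i = n0 i ∧ s i = s0 i) ∧
      ∀ j, a ≤ j → j < l → Thr C T n s j (B j n s th) (th j)
  rank : ∀ {C : Cfg.{u}} {g l i j : Ordinal.{u}} {T : IT.{u}} {n s},
    T.IsTr l → T.Above g l → TrRz C g T l n s → j ≤ l → T.Le i j →
    (∀ m, i < m → T.Le m j → T.n < m) → (n j).r ≤ (n i).r ∧ (¬ T.ND i j → (n j).r < (n i).r) ∧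
      (T.ND i j → n j = n i ∧ ∀ x ≤ T.b i, s j (T.mp i j x) = s i x)

/-- Realisable phalanxes are iterable and their iterates are realisable. -/
class KIterSt : Prop where
  iter : ∀ {C : Cfg.{u}} {g : Ordinal.{u}} {T : IT.{u}}, T.Phal → PII C g T → T.Iterable g
  ii : ∀ {C : Cfg.{u}} {g l j : Ordinal.{u}} {T : IT.{u}}, PII C g T → T.IsTr l → T.Above g l →
    j ≤ l → II C g (T.E j) (T.b j)

/-- Closure properties of the class of realisable premice. -/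
class KIISt : Prop where
  cert : ∀ {C : Cfg.{u}} {r b : Ordinal.{u}} {E : Seq.{u}}, Cert C r E (b + 1) → II C C.be E b
  pre : ∀ {C : Cfg.{u}} {g g' b : Ordinal.{u}} {E E' : Seq.{u}} {s}, II C g' E' (s b) →
    Good E b E' s → (∀ x ≤ b, g ≤ x → g' ≤ s x) → II C g E b
  level : ∀ {C : Cfg.{u}} {g b c : Ordinal.{u}} {E : Seq.{u}}, PM0 E (b + 1) → II C g E b →
    c ≤ b → g ≤ c → II C g E c
  one : ∀ {C : Cfg.{u}} {g b : Ordinal.{u}} {E : Seq.{u}}, PM0 E (b + 1) → II C g E b →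
    PII C g (IT.one E b)
  two : ∀ {C : Cfg.{u}} {g b b' a : Ordinal.{u}} {E E' : Seq.{u}} {s}, II C g E b →
    (IT.two E b E' b' a).Phal → Good E' b' E s → s b' = b → (∀ x < a, s x = x) →
    PII C g (IT.two E b E' b' a)

/-- The Dodd-Jensen lemma. -/
class KDJSt : Prop where
  one : ∀ {C : Cfg.{u}} {g b j : Ordinal.{u}} {E : Seq.{u}} {T : IT.{u}} {f},
    II C g E b → (IT.one E b).EqLt T 1 → T.IsTr j → T.Above g j → g ≤ b →
    Good E b (T.E j) f → f b ≤ T.b j →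
    T.ND 0 j ∧ f b = T.b j ∧ ∀ x ≤ b, T.mp 0 j x ≤ f x
  two : ∀ {C : Cfg.{u}} {g b b' a j : Ordinal.{u}} {E E' : Seq.{u}} {T : IT.{u}} {s f},
    II C g E b → Good E' b' E s → s b' = b → (∀ x < a, s x = x) →
    (IT.two E b E' b' a).EqLt T 2 → T.IsTr j → T.Above g j → T.Root 0 j → g ≤ b →
    Good E b (T.E j) f → f b ≤ T.b j →
    T.ND 0 j ∧ f b = T.b j ∧ ∀ x ≤ b, T.mp 0 j x ≤ f x

end Pool.Agent.KM
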