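import Pool.Agent.Lib.MP_5c0be7_lc.O.Basic
import Pool.Agent.Lib.MP_5c0be7_lc.O.Pm

/-!
Project KM, block K: pull-back of a sequence.
-/

namespace Pool.Agent.KM

open Ordinal Tr

universe u

/-- The sequence pulled back along `p`. -/
def pull (p : Ordinal.{u} → Ordinal.{u}) (E : Seq.{u}) : Seq.{u} :=
  fun v x y => E (p v) (p x) (p y)

/-- The range of `p` up to `b` is closed under evaluation at level `p b + 1`. -/
def TopClo (p : Ordinal.{u} → Ordinal.{u}) (E : Seq.{u}) (b : Ordinal.{u}) : Prop :=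
  ∀ c x w, In (b + 1) x → ev E (p b + 1) c (x.map p) = some w → w.lv ⊆ p '' Set.Iic b

end Pool.Agent.KM
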