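import Pool.Agent.Lib.MP_5c0be7_lc.K.StEmb

/-!
Project KM, block K: composition, cancellation and restriction of embeddings.
-/

namespace Pool.Agent.KM.KE

open Ordinal Tr
open scoped Classical

universe u

variable {E E' E'' : Seq.{u}} {a b b' c d d' d'' k t v x : Ordinal.{u}}
  {s s' : Ordinal.{u} → Ordinal.{u}}

theorem s1lt (h : a < b) : a + 1 < b + 1 := Order.lt_add_one_iff.2 (Order.add_one_le_iff.2 h)

theorem s1le (h : a + 1 ≤ b + 1) : a ≤ b := Order.lt_add_one_iff.1 (Order.add_one_le_iff.1 h)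

theorem s1inj (h : a + 1 = b + 1) : a = b := le_antisymm (s1le h.le) (s1le h.ge)

theorem lt1 (h : a ≤ b) : a < b + 1 := Order.lt_add_one_iff.2 h

theorem le1 (h : a < b + 1) : a ≤ b := Order.lt_add_one_iff.1 h

theorem rho_le : rho E b ≤ b := csInf_le' (Or.inl rfl)

theorem pm0_mono (h : PM0 E d) (hd : d' ≤ d) : PM0 E d' :=
  ⟨fun b hb => h.ls b (hb.trans_le hd), fun v hv => h.act v (hv.trans_le hd)⟩

theorem pm_mono (h : PM E d) (hd : d' ≤ d) : PM E d' :=
  ⟨pm0_mono h.toPM0 hd, fun v hv => h.small v (hv.trans_le hd)⟩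

theorem w_lt (h : Weak E d E' d' s) (ha : a < d) (hb : b < d) : s a < s b ↔ a < b :=
  h.mono.lt_iff_lt ha hb

theorem w_le (h : Weak E d E' d' s) (ha : a < d) (hb : b < d) : s a ≤ s b ↔ a ≤ b :=
  h.mono.le_iff_le ha hb

theorem w_self (h : Weak E d E' d' s) (ha : a < d) : a ≤ s a := by
  induction a using WellFoundedLT.induction with
  | ind a ih =>
    by_contra hlt
    have hlt := not_le.1 hlt
    exact absurd ((w_lt h (hlt.trans ha) ha).2 hlt) (not_lt.2 (ih _ hlt (hlt.trans ha)))

theorem in_map {y : Tr.{u}} (hy : ∀ z ∈ y.lv, s z < k) : In k (y.map s) := by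
  intro z hz
  rw [lv_map] at hz
  obtain ⟨w, hw, rfl⟩ := hz
  exact hy w hw

theorem w_in (h : Weak E d E' d' s) {y : Tr.{u}} (hy : In d y) : In d' (y.map s) :=
  in_map fun z hz => h.maps z (hy z hz)

theorem w_in_iff (h : Weak E d E' d' s) {y : Tr.{u}} (hy : In d y) (ha : a < d) :
    In (s a) (y.map s) ↔ In a y := by
  refine ⟨fun h1 z hz => (w_lt h (hy z hz) ha).1 (h1 _ ?_),
    fun h1 => in_map fun z hz => (w_lt h (hy z hz) ha).2 (h1 z hz)⟩
  rw [lv_map]; exact ⟨z, hz, rfl⟩

theorem map_comp (y : Tr.{u}) : y.map (s' ∘ s) = (y.map s).map s' := (map_map s s' y).symm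

theorem comm_comp (h : Comm E a E' b s) (h' : Comm E' b E'' c s') (hs : ∀ z < a, s z < b) :
    Comm E a E'' c (s' ∘ s) := by
  intro q y hy
  rw [map_comp, h' q _ (in_map fun z hz => hs z (hy z hz)), h q y hy]
  cases ev E a q y <;> simp [map_comp]

theorem weak_comp (h : Weak E d E' d' s) (h' : Weak E' d' E'' d'' s') :
    Weak E d E'' d'' (s' ∘ s) :=
  ⟨fun _ hx _ hy hxy => h'.mono (h.maps _ hx) (h.maps _ hy) (h.mono hx hy hxy),
    fun a ha => h'.maps _ (h.maps a ha), fun b hb => h'.top _ (h.top b hb),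
    fun b hb => comm_comp (h.comm b hb) (h'.comm _ (h.maps b hb))
      fun _ hz => (w_lt h (hz.trans hb) hb).2 hz⟩

theorem strong_comp (h : Strong E d E' d' s) (h' : Strong E' d' E'' d'' s') :
    Strong E d E'' d'' (s' ∘ s) :=
  ⟨weak_comp h.toWeak h'.toWeak, comm_comp h.commTop h'.commTop h.maps⟩

theorem comm_id : Comm E a E a id := by
  intro q y _
  have : ∀ z : Tr.{u}, z.map id = z := fun z => map_eq_self fun _ _ => rfl
  rw [this]
  cases ev E a q y <;> simp [this]

theorem strong_id : Strong E d E d id :=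
  ⟨⟨fun _ _ _ _ h => h, fun _ h => h, fun _ h => h, fun _ _ => comm_id⟩, comm_id⟩

theorem good_comp (h : Good E b E' s) (h' : Good E' (s b) E'' s') : Good E b E'' (s' ∘ s) := by
  have hw := h.toWeak
  refine ⟨weak_comp hw h'.toWeak, fun k hk => h'.proj _ (h.proj k hk), fun k t hk ht H => ?_,
    fun k hk t n ht hn H => ?_⟩
  · exact h'.card _ _ ((w_lt hw (lt1 hk.le) (lt_add_one b)).2 hk)
      ((w_lt hw (lt1 ht.le) (lt_add_one b)).2 ht) (h.card k t hk ht H)
  · rw [map_comp, map_comp]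
    exact h'.inc _ (h.proj k hk) _ _ (w_in hw ht) (w_in hw hn) (h.inc k hk t n ht hn H)

theorem comm_congr (h : Comm E a E' b s) (hv : ∀ q y z, ev E a q y = some z → In a z)
    (hs : ∀ z < a, s' z = s z) : Comm E a E' b s' := by
  intro q y hy
  rw [map_congr fun z hz => hs z (hy z hz), h q y hy]
  cases hz : ev E a q y with
  | none => rfl
  | some z => simp [map_congr fun w hw => hs w (hv q y z hz w hw)]

theorem map_inj {y z : Tr.{u}} (hm : StrictMonoOn s (Set.Iio d)) (hy : In d y) (hz : In d z)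
    (h : y.map s = z.map s) : y = z := by
  induction y generalizing z with
  | nil => cases z <;> simp_all [Tr.map]
  | leaf a =>
    cases z with
    | leaf b =>
      have : s a = s b := by simpa [Tr.map] using h
      rw [hm.injOn (hy a (by simp [lv])) (hz b (by simp [lv])) this]
    | _ => simp [Tr.map] at h
  | node l r ihl ihr =>
    cases z with
    | node l' r' =>
      have h : l.map s = l'.map s ∧ r.map s = r'.map s := by simpa [Tr.map] using h
      rw [ihl (z := l') hy.fst hz.fst h.1, ihr (z := r') hy.snd hz.snd h.2]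
    | _ => simp [Tr.map] at h

variable [KEvSt.{u}]

theorem weak_congr (h : Weak E d E' d' s) (hs : ∀ z < d, s' z = s z) : Weak E d E' d' s' := by
  refine ⟨fun x hx y hy hxy => ?_, fun a ha => ?_, fun b hb => ?_, fun b hb => ?_⟩
  · rw [hs x hx, hs y hy]; exact h.mono hx hy hxy
  · rw [hs a ha]; exact h.maps a ha
  · rw [hs b (hb ▸ lt_add_one b)]; exact h.top b hb
  · rw [hs b hb]
    exact comm_congr (h.comm b hb) (fun _ _ _ => KEvSt.ev_in) fun z hz => hs z (hz.trans hb)

theorem strong_congr (h : Strong E d E' d' s) (hs : ∀ z < d, s' z = s z) : Strong E d E' d' s' :=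
  ⟨weak_congr h.toWeak hs, comm_congr h.commTop (fun _ _ _ => KEvSt.ev_in) hs⟩

theorem good_congr (h : Good E b E' s) (hs : ∀ z ≤ b, s' z = s z) : Good E b E' s' := by
  have hb := hs b le_rfl
  refine ⟨hb ▸ weak_congr h.toWeak fun z hz => hs z (le1 hz), fun k hk => ?_,
    fun k t hk ht H => ?_, fun k hk t n ht hn H => ?_⟩
  · rw [hb, hs k (hk.le.trans rho_le)]; exact h.proj k hk
  · rw [hb, hs k hk.le, hs t ht.le]; exact h.card k t hk ht H
  · rw [hs k (hk.le.trans rho_le), map_congr fun z hz => hs z (le1 (ht z hz)),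
      map_congr fun z hz => hs z (le1 (hn z hz))]
    exact h.inc k hk t n ht hn H

theorem w_succ (h : Weak E d E' d' s) (ha : a + 1 < d) : s (a + 1) = s a + 1 :=
  KEvSt.comm_succ (h.comm _ ha)

/-- The restriction of a weak map to a proper successor level is strong. -/
theorem weak_restrict (h : Weak E d E' d' s) (hc : c + 1 < d) :
    Strong E (c + 1) E' (s c + 1) s := by
  have hcd : c < d := (lt_add_one c).trans hc
  refine ⟨⟨h.mono.mono fun a ha => lt_trans ha hc,
    fun a ha => ?_, fun b hb => ?_, fun b hb => h.comm b (hb.trans hc)⟩, ?_⟩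
  · exact lt1 ((w_le h (ha.trans hc) hcd).2 (le1 ha))
  · rw [s1inj hb]
  · rw [← w_succ h hc]; exact h.comm _ hc

theorem strong_restrict (h : Strong E (b + 1) E' (s b + 1) s) (hc : c ≤ b) :
    Strong E (c + 1) E' (s c + 1) s := by
  rcases hc.eq_or_lt with rfl | hc
  · exact h
  · exact weak_restrict h.toWeak (s1lt hc)

/-- Strong maps recognise all projecta. -/
theorem strong_rho (h : Strong E (b + 1) E' (s b + 1) s) (ha : a ≤ b) (hx : x ≤ b) :
    s x < rho E' (s a) ↔ x < rho E a := by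
  by_cases hxa : x ≤ a
  · exact KEvSt.comm_rho (strong_restrict h ha).commTop hxa
  · have hxa := not_le.1 hxa
    refine iff_of_false (not_lt.2 (rho_le.trans ?_)) (not_lt.2 (rho_le.trans hxa.le))
    exact (w_le h.toWeak (lt1 ha) (lt1 hx)).2 hxa.le

theorem w_nm (h : Weak E d E' d' s) {n q : Tr.{u}} (hn : In d n) (hq : In d q) :
    Nm E' (n.map s) (q.map s) ↔ Nm E n q := by
  have key : ∀ a < d, (ev E' (s a) (n.map s).snd.fst (node (q.map s) (n.map s).snd.snd)).isSome =
      (ev E a n.snd.fst (node q n.snd.snd)).isSome := by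
    intro a ha
    have hin : In d (node q n.snd.snd) := fun z hz => hz.elim (hq z) (hn.snd.snd z)
    rw [map_snd, map_fst, map_snd, KEvSt.ev_code]
    change (ev E' (s a) _ ((node q n.snd.snd).map s)).isSome = _
    by_cases hy : In a (node q n.snd.snd)
    · rw [h.comm a ha _ _ hy, Option.isSome_map]
    · rw [KEvSt.ev_none hy, KEvSt.ev_none (mt (w_in_iff h hin ha).1 hy)]
  constructor
  · rintro ⟨a', h1, h2⟩
    rw [map_fst, map_eq_leaf] at h1
    obtain ⟨a, h1, rfl⟩ := h1
    have ha : a < d := hn.fst a (by rw [h1]; simp [lv])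
    exact ⟨a, h1, by rw [← key a ha]; exact h2⟩
  · rintro ⟨a, h1, h2⟩
    have ha : a < d := hn.fst a (by rw [h1]; simp [lv])
    exact ⟨s a, by rw [map_fst, h1]; rfl, by rw [key a ha]; exact h2⟩

theorem comm_cancel (hm : StrictMonoOn s' (Set.Iio d')) (h : Comm E' b E'' c s')
    (h' : Comm E a E'' c (s' ∘ s)) (hb : b ≤ d') (hs : ∀ z < a, s z < b) : Comm E a E' b s := by
  intro q y hy
  have h1 := h q _ (in_map fun z hz => hs z (hy z hz))
  rw [← map_comp, h' q y hy] at h1
  cases hz : ev E a q y with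
  | none =>
    rw [hz] at h1
    simpa using h1.symm
  | some z =>
    rw [hz] at h1
    cases hw : ev E' b q (y.map s) with
    | none => rw [hw] at h1; simp at h1
    | some w =>
      rw [hw] at h1
      have h2 : (z.map s).map s' = w.map s' := by simpa [map_comp] using h1
      have h3 : In d' (z.map s) := (in_map fun x hx => hs x (KEvSt.ev_in hz x hx)).mono hb
      rw [← map_inj hm h3 ((KEvSt.ev_in hw).mono hb) h2]; rfl

theorem weak_cancel (h : Weak E' d' E'' d'' s') (h' : Weak E d E'' d'' (s' ∘ s))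
    (hs : ∀ a < d, s a < d') (hd : ∀ b, d = b + 1 → d' = s b + 1) : Weak E d E' d' s := by
  have hm : StrictMonoOn s (Set.Iio d) := fun x hx y hy hxy =>
    (w_lt h (hs x hx) (hs y hy)).1 (h'.mono hx hy hxy)
  exact ⟨hm, hs, hd, fun b hb => comm_cancel h.mono (h.comm _ (hs b hb)) (h'.comm b hb)
    (hs b hb).le fun z hz => hm (hz.trans hb) hb hz⟩

theorem strong_cancel (h : Strong E' d' E'' d'' s') (h' : Strong E d E'' d'' (s' ∘ s))
    (hs : ∀ a < d, s a < d') (hd : ∀ b, d = b + 1 → d' = s b + 1) : Strong E d E' d' s :=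
  ⟨weak_cancel h.toWeak h'.toWeak hs hd, comm_cancel h.mono h.commTop h'.commTop le_rfl hs⟩

theorem good_cancel (h : Strong E' (s b + 1) E'' (s' (s b) + 1) s') (h' : Good E b E'' (s' ∘ s))
    (hs : ∀ a ≤ b, s a ≤ s b) : Good E b E' s := by
  have hw : Weak E (b + 1) E' (s b + 1) s :=
    weak_cancel h.toWeak h'.toWeak (fun a ha => lt1 (hs a (le1 ha))) fun c hc => by rw [s1inj hc]
  refine ⟨hw, fun k hk => ?_, fun k t hk ht H a h1 h2 => ?_, fun k hk t n ht hn H q hq h1 => ?_⟩
  · exact (strong_rho h le_rfl (hs k (hk.le.trans rho_le))).1 (h'.proj k hk)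
  · by_contra hlt
    have hlt := not_le.1 hlt
    have h3 := h'.card k t hk ht H (s' a) ((w_le h.toWeak (lt1 (hs t ht.le)) (lt1 h2.le)).2 h1)
      ((w_lt h.toWeak (lt1 h2.le) (lt_add_one _)).2 h2)
    have h4 : rho E' a ≤ s b := rho_le.trans h2.le
    have h5 : s' (rho E' a) < rho E'' (s' a) :=
      lt_of_lt_of_le ((w_lt h.toWeak (lt1 h4) (lt1 (hs k hk.le))).2 hlt) h3
    exact lt_irrefl _ ((strong_rho h h2.le h4).1 h5)
  · have hk' : s k < s b + 1 := lt1 (hs k (hk.le.trans rho_le))
    have hq' : In (s b + 1) q := hq.mono hk'.le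
    have h2 := h'.inc k hk t n ht hn H (q.map s') ((w_in_iff h.toWeak hq' hk').2 hq)
    rw [map_comp, map_comp, w_nm h.toWeak (w_in hw ht) hq', w_nm h.toWeak (w_in hw hn) hq'] at h2
    exact h2 h1

/-- Absence of small projecta goes up along good maps. -/
theorem good_noProj (h : Good E b E' s) (ht : t ≤ b)
    (hn : NoProj E x (t + 1) (b + 1)) : NoProj E' (s x) (s t + 1) (s b + 1) := by
  intro a h1 h2
  rcases ht.eq_or_lt with rfl | ht
  · exact absurd h2 (not_lt.2 h1)
  have htb : t + 1 ≤ b := Order.add_one_le_iff.2 ht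
  have hxb : x < rho E b := hn b htb (lt_add_one b)
  rcases (le1 h2).eq_or_lt with rfl | h2
  · exact h.proj x hxb
  have hs : s (t + 1) = s t + 1 := w_succ h.toWeak (s1lt ht)
  rcases htb.eq_or_lt with hb | htb
  · rw [← hb, hs] at h2; exact absurd h2 (not_lt.2 h1)
  have hx1 : x + 1 ≤ t + 1 :=
    Order.add_one_le_iff.2 ((hn _ le_rfl (htb.trans (lt_add_one b))).trans_le rho_le)
  have := h.card (x + 1) (t + 1) (hx1.trans_lt htb) htb
    (fun a h1 h2 => Order.add_one_le_iff.2 (hn a h1 (h2.trans (lt_add_one b)))) a (hs ▸ h1) h2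
  refine lt_of_lt_of_le ?_ this
  have hx2 : x + 1 < b + 1 := (hx1.trans_lt htb).trans (lt_add_one b)
  exact (w_lt h.toWeak ((lt_add_one x).trans hx2) hx2).2 (lt_add_one x)

end Pool.Agent.KM.KE
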