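import Pool.Agent.Lib.MP_5c0be7_lc.O.Calc
import Pool.Agent.Lib.MP_5c0be7_lc.K.Emb

/-!
Project KM, block K: named sets and functions under weak embeddings.
-/

namespace Pool.Agent.KM

open Ordinal Tr Set
open scoped Classical

universe u

namespace KN

variable {E E' E'' : Seq.{u}} {a b b' c d d' d'' k t v x : Ordinal.{u}}
  {s s' e e' i j p : Ordinal.{u} → Ordinal.{u}}

theorem mm (y : Tr.{u}) : (y.map s).map s' = y.map (s' ∘ s) := map_map _ _ _

theorem ev_cmap (q : Tr.{u}) : ev E b (q.map s) = ev E b q :=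
  ev_code_congr (decC_congr (erase_map _ _)) b

theorem ev_agree (h : Agree E E' d) (hb : b < d) : ev E b = ev E' b :=
  ev_local fun v hv _ => h v (hv.trans_lt hb)

theorem in_map (h : StrictMonoOn s (Iio d)) (hb : b < d) {y : Tr.{u}} (hy : In d y) :
    In (s b) (y.map s) ↔ In b y := by
  simp only [In, lv_map, forall_mem_image]
  exact forall₂_congr fun a ha => h.lt_iff_lt (hy a ha) hb

theorem in_map' (h : ∀ a < d, s a < d') {y : Tr.{u}} (hy : In d y) : In d' (y.map s) := by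
  simp only [In, lv_map, forall_mem_image]
  exact fun a ha => h a (hy a ha)

theorem wev (h : Weak E d E' d' s) (hb : b < d) (q : Tr.{u}) {y : Tr.{u}} (hy : In d y) :
    ev E' (s b) q (y.map s) = (ev E b q y).map (Tr.map s) := by
  by_cases h1 : In b y
  · exact h.comm b hb q y h1
  · rw [ev_guard h1, ev_guard (mt (in_map h.mono hb hy).1 h1)]; rfl

theorem wnm (h : Weak E d E' d' s) {n y : Tr.{u}} (hn : In d n) (hy : In d y) :
    Nm E' (n.map s) (y.map s) ↔ Nm E n y := by
  have key : ∀ b, n.fst = leaf b →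
      ((ev E' (s b) (n.map s).snd.fst (node (y.map s) (n.map s).snd.snd)).isSome ↔
        (ev E b n.snd.fst (node y n.snd.snd)).isSome) := fun b hb => by
    have h1 : b < d := (in_leaf _ _).1 (hb ▸ hn.fst)
    have h2 := wev h h1 n.snd.fst (y := node y n.snd.snd) ((in_node _ _ _).2 ⟨hy, hn.snd.snd⟩)
    simp only [map_snd, map_fst, ev_cmap, map_node] at h2 ⊢
    rw [h2, Option.isSome_map]
  constructor
  · rintro ⟨b', h1, h2⟩
    rw [map_fst] at h1
    obtain ⟨b, h3, rfl⟩ := map_eq_leaf.1 h1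
    exact ⟨b, h3, (key b h3).1 h2⟩
  · rintro ⟨b, h1, h2⟩
    exact ⟨s b, by rw [map_fst, h1]; rfl, (key b h1).2 h2⟩

theorem wfv (h : Weak E d E' d' s) {n y : Tr.{u}} (hn : In d n) (hy : In d y) :
    fv E' (n.map s) (y.map s) = (fv E n y).map (Tr.map s) := by
  unfold fv
  by_cases h0 : n.fst = leaf n.fst.lab
  · obtain ⟨b, hb⟩ : ∃ b, n.fst = leaf b := ⟨_, h0⟩
    have h1 : b < d := (in_leaf _ _).1 (hb ▸ hn.fst)
    have h2 := wev h h1 n.snd.fst (y := node y n.snd.snd) ((in_node _ _ _).2 ⟨hy, hn.snd.snd⟩)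
    simp only [map_snd, map_fst, ev_cmap, map_node, hb, map_leaf, lab_leaf, if_true] at h2 ⊢
    exact h2
  · rw [if_neg h0, if_neg]
    · rfl
    · intro h1
      rw [map_fst] at h1
      obtain ⟨b, h3, -⟩ := map_eq_leaf.1 h1
      exact h0 (by rw [h3]; rfl)

theorem anm (h : Agree E E' d) {n y : Tr.{u}} (hn : In d n) : Nm E n y ↔ Nm E' n y :=
  exists_congr fun b => and_congr_right fun hb => by
    rw [ev_agree h ((in_leaf _ _).1 (hb ▸ hn.fst))]

theorem afv (h : Agree E E' d) {n y : Tr.{u}} (hn : In d n) : fv E n y = fv E' n y := by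
  unfold fv
  split_ifs with h0
  · rw [ev_agree h ((in_leaf _ _).1 (h0 ▸ hn.fst))]
  · rfl

theorem map_eq (h : ∀ x < d, s x = s' x) {y : Tr.{u}} (hy : In d y) : y.map s = y.map s' :=
  map_congr fun a ha => h a (hy a ha)

theorem comm_congr (h : Comm E b E' b' s) (he : ∀ x < b, s x = s' x) : Comm E b E' b' s' := by
  intro q y hy
  rw [← map_eq he hy, h q y hy]
  rcases h1 : ev E b q y with _ | w
  · rfl
  · exact congrArg some (map_eq he (ev_in h1))

theorem weak_congr (h : Weak E d E' d' s) (he : ∀ x < d, s x = s' x) : Weak E d E' d' s' :=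
  ⟨fun a ha b hb hab => he a ha ▸ he b hb ▸ h.mono ha hb hab, fun a ha => he a ha ▸ h.maps a ha,
    fun b hb => he b (hb ▸ lt_add_one b) ▸ h.top b hb,
    fun b hb => he b hb ▸ comm_congr (h.comm b hb) fun x hx => he x (hx.trans hb)⟩

theorem strong_congr (h : Strong E d E' d' s) (he : ∀ x < d, s x = s' x) : Strong E d E' d' s' :=
  ⟨weak_congr h.toWeak he, comm_congr h.commTop he⟩

theorem act_congr (h : Act E v k t e) (he : ∀ x < t, e x = e' x) : Act E v k t e' := by
  have hk := he k h.lt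
  refine ⟨⟨h.inf, h.lt, weak_congr h.weak he, fun y hy => ?_, h.top, h.card⟩, fun x y => ?_, h.big,
    fun x hx => he x (hx.trans h.lt) ▸ h.fix x hx, hk ▸ h.move, h.dom, h.next, fun l h1 h2 => ?_⟩
  · obtain ⟨x, h1, h2⟩ := h.cof y hy
    exact ⟨x, h1, he x h1 ▸ h2⟩
  · rw [h.graph]
    exact and_congr_right fun hx => by rw [he x hx]
  · obtain ⟨f, a, y, h3, h4, h5, h6⟩ := h.typeA l h1 (hk ▸ h2)
    exact ⟨f, a, y, h3, h4, map_eq he h3 ▸ h5, hk ▸ h6⟩

end KN

end Pool.Agent.KM
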