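import Pool.Agent.Lib.MP_5c0be7_lc.O.Basic
import Pool.Agent.Lib.MP_5c0be7_lc.O.Pm

/-!
Project KM, block K: statements about embeddings used by block K.
-/

namespace Pool.Agent.KM

open Ordinal Tr

universe u

/-- Elementary facts: values, codes, successors, projecta. -/
class KEvSt : Prop where
  ev_in : ∀ {E : Seq.{u}} {b q y z}, ev E b q y = some z → In b z
  ev_none : ∀ {E : Seq.{u}} {b q y}, ¬ In b y → ev E b q y = none
  ev_code : ∀ {E : Seq.{u}} {b q y} (s : Ordinal.{u} → Ordinal.{u}),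
    ev E b (q.map s) y = ev E b q y
  comm_succ : ∀ {E E' : Seq.{u}} {a a' s}, Comm E (a + 1) E' a' s → a' = s a + 1
  comm_rho : ∀ {E E' : Seq.{u}} {a s x}, Comm E (a + 1) E' (s a + 1) s → x ≤ a →
    (s x < rho E' (s a) ↔ x < rho E a)

/-- Strong maps are good. -/
class KGoodSt : Prop where
  strong_good : ∀ {E E' : Seq.{u}} {b s}, PM0 E (b + 1) → PM0 E' (s b + 1) →
    Strong E (b + 1) E' (s b + 1) s → Good E b E' s

/-- Active levels go up along good maps and come down along weak maps. -/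
class KActSt : Prop where
  good_act : ∀ {E E' : Seq.{u}} {b s v k t e}, PM0 E (b + 1) → PM0 E' (s b + 1) → Good E b E' s →
    v ≤ b → Act E v k t e → ∃ e', Act E' (s v) (s k) (s t) e' ∧ ∀ x < t, e' (s x) = s (e x)
  good_act_down : ∀ {E E' : Seq.{u}} {b s v k t e}, PM0 E (b + 1) → PM0 E' (s b + 1) →
    Strong E (b + 1) E' (s b + 1) s → v ≤ b → Act E' (s v) k t e →
    ∃ k0 t0 e0, Act E v k0 t0 e0 ∧ s k0 = k ∧ s t0 = t ∧ ∀ x < t0, e (s x) = s (e0 x)

end Pool.Agent.KM
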