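import Pool.Agent.Lib.MP_5c0be7_lc.O.FO
import Pool.Agent.Lib.MP_5c0be7_lc.K.StEmb

/-!
Project KM, block K: successors and projecta are recognised by commuting maps.
-/

namespace Pool.Agent.KM

open Ordinal Tr
open scoped Classical

universe u

namespace EvI

/-- A code that is defined at `leaf k` on level `g + 1` exactly if `k` is below the projectum. -/
theorem ltr : ∃ d : Tr.{u}, d.erase = d ∧ ∀ E g k, k ≤ g →
    ((ev E (g + 1) d (leaf k)).isSome ↔ k < rho E g) := by
  let T : Op := .ite (.comp .isleaf .fst) (.comp .eq (.pair .fst .fs)) .tone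
  let Q : Bd := .post (.ite .fst (.pair (.const (opc .nil : Tr.{u})) .nil) .nil)
    (.pre (.pair (.const (tst T : Tr.{u})) .id) .orc)
  refine ⟨atom Q, erase_of_lv (lv_atom _), fun E g k hk => ?_⟩
  have i : In (g + 1) (leaf k) := by simpa [Order.lt_add_one_iff] using hk
  have hd := in_dn E i
  have hb : ∀ y, In g y → bod E g Q (leaf k) y =
      if (∃ a, y = leaf a) ∧ y = Tr.enc (leaf g) (leaf k) then node (opc .nil) .nil else .nil := by
    intro y hy
    have h1 : Th E g (dn E g (leaf k)) (node (tst T) y) ↔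
        (∃ a, y = leaf a) ∧ y = Tr.enc (leaf g) (leaf k) := by
      simp only [ThL, fst_node, snd_node]
      rw [(law E g).tst _ ((in_node _ _ _).2 ⟨hy, hd⟩)]
      by_cases h : ∃ a, y = leaf a <;> simp [T, h, dn_eq]
    simp [bod_eq, Q, h1]
  have rl := rho_le E g
  rw [ev_succ i]
  change (sev E g (Cd.body.{u} (decC (atom Q : Tr.{u}))) _).isSome ↔ _
  rw [decC_atom]
  change (sev E g Q _).isSome ↔ _
  constructor
  · intro h
    obtain ⟨y, h1, -, h2, -⟩ := sev_isSome.1 h
    rw [hb y (h1.mono rl)] at h2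
    split_ifs at h2 with h3
    · obtain ⟨⟨a, rfl⟩, h4⟩ := h3
      unfold Tr.enc at h4
      split_ifs at h4 with h5
      · simp [Tr.one] at h4
      · cases h4; simpa using h1
    · exact absurd rfl h2
  · intro h
    have hne : leaf k ≠ leaf g := fun e => (h.trans_le rl).ne (leaf.inj e)
    rw [sev_pass (v := node (opc .nil) .nil) ⟨leaf k, by simpa using h, by
      rw [hb _ (by simpa using h.trans_le rl), if_pos ⟨⟨k, rfl⟩, by simp [Tr.enc, hne]⟩]; simp⟩
      fun y hy h2 => by
        rw [hb y (hy.mono rl)] at h2 ⊢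
        split_ifs at h2 ⊢
        · rfl
        · exact absurd rfl h2]
    simp only [fst_node, snd_node]
    rw [(law E g).opc _ _ (by simpa using hd)]
    rfl

theorem comm_succ {E E' : Seq.{u}} {a a' : Ordinal.{u}} {s : Ordinal.{u} → Ordinal.{u}}
    (h : Comm E (a + 1) E' a' s) : a' = s a + 1 := by
  obtain ⟨d, -, h1, h2⟩ := Code.top.{u}
  have h3 := h d .nil (by simp)
  rw [h1 E a _ (by simp)] at h3
  by_cases hs : Suc a'
  · obtain ⟨g, rfl⟩ := hs
    rw [h1 E' g _ (by simp)] at h3
    simp only [Option.map_some, map_leaf, Option.some.injEq, leaf.injEq] at h3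
    rw [h3]
  · rw [h2 E' a' _ hs] at h3
    simp at h3

theorem comm_rho {E E' : Seq.{u}} {a x : Ordinal.{u}} {s : Ordinal.{u} → Ordinal.{u}}
    (h : Comm E (a + 1) E' (s a + 1) s) (hx : x ≤ a) : s x < rho E' (s a) ↔ x < rho E a := by
  obtain ⟨d, -, h1⟩ := ltr.{u}
  have i : In (a + 1) (leaf x) := by simpa [Order.lt_add_one_iff] using hx
  have h2 : s x ≤ s a := by
    have h3 := h (opc .id) (leaf x) i
    rw [(law E _).opc _ _ i] at h3
    simpa [Order.lt_add_one_iff] using in_of_ev_eq h3
  rw [← h1 E a x hx, ← h1 E' (s a) (s x) h2]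
  have h3 := h d (leaf x) i
  rw [map_leaf] at h3
  rw [h3, Option.isSome_map]

end EvI

instance : KEvSt.{u} :=
  ⟨ev_in, fun h => ev_guard h _, fun s => by rw [ev_map_code], EvI.comm_succ, EvI.comm_rho⟩

end Pool.Agent.KM
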