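import Pool.Agent.Lib.MP_5c0be7_lc.Z.St
import Pool.Agent.Lib.MP_5c0be7_lc.F.StTree

/-!
Project KM, block K: the maximal certified weasel, its maximality. Definitions and statements.
-/

namespace Pool.Agent.KM

open Ordinal Cardinal Tr

universe u

/-- `h` stays a cardinal in every certified premouse that agrees with `E` below `h`. -/
def Closed (C : Cfg.{u}) (E : Seq.{u}) (h : Ordinal.{u}) : Prop :=
  ∀ r E' d, Cert C r E' d → Agree E' E h → IsCard E' d h

/-- Some level above the base of a certified premouse over the base projects below the base. -/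
def Exit (C : Cfg.{u}) (E : Seq.{u}) : Prop :=
  ∃ r E' d c, Cert C r E' d ∧ Agree E' E C.be ∧ C.be ≤ c ∧ c + 1 ≤ d ∧ rho E' (c + 1) < C.be

/-- `(Om + 1, E)` is a maximal certified weasel. -/
structure KW (C : Cfg.{u}) (E : Seq.{u}) (Om : Ordinal.{u}) : Prop where
  cert : ∃ r, Cert C r E (Om + 1)
  pas : Pas E Om
  olim : ¬ Suc Om
  be : C.be < Om
  lim : ¬ Suc C.be
  noexit : ¬ Exit C E
  closed : ∀ h, C.be ≤ h → h < Om → IsCard E Om h → Closed C E h

/-- The image of the critical point of an extender is a limit cardinal. -/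
class CritSt : Prop where
  crit_lim : ∀ (E E' : Seq.{u}) k t v e, LS E t → LS E' v → Ext E k t E' v e →
    (∀ x < k, e x = x) → k < e k → IsCard E' v k → ∀ x < e k, ∃ y, x < y ∧ y < e k ∧ IsCard E' v y

/-- Existence of the weasel. -/
class ZornSt : Prop where
  exists_kw : ∀ (C : Cfg.{u}) (E0 : Seq.{u}) (O : Cardinal.{u}), ℵ₀ < O → C.be < O.ord →
    ¬ Suc C.be → PM E0 C.be → ¬ Exit C E0 →
    ∃ E, KW C E O.ord ∧ Agree E E0 C.be

/-- No countably complete allowed extender that coheres with the weasel moves its critical point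
to a cardinal of the weasel. -/
class MaxSt : Prop where
  max : ∀ (C : Cfg.{u}) (E E' : Seq.{u}) Om v k t e, NG Om → KW C E Om → v < Om → Agree E' E v →
    Act E' v k t e → IsCard E Om (e k) → OC E' E' k t e → ¬ C.al k

/-- No countably complete allowed total extender maps a cardinal initial segment of the weasel
into a realisable extension of a cardinal initial segment. -/
class ExtSt : Prop where
  ext : ∀ (C : Cfg.{u}) (E E' : Seq.{u}) (O : Cardinal.{u}) k t v e, O.IsRegular → ℵ₀ < O →
    NG O.ord → KW C E O.ord → Ext E k t E' v e → ω < k → (∀ x < k, e x = x) → k < e k →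
    NoProj E k t O.ord → t < O.ord → PM E' v → Agree E' E (e k) → IsCard E O.ord (e k) →
    (∀ b, e k ≤ b → b < v → II C C.be E' b ∧ CutPt E' b C.be) →
    (e k = O.ord ∨ (v < O.ord ∧ Agree E' E v)) → OC E E' k t e → ¬ C.al k

end Pool.Agent.KM
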