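import Pool.Agent.Lib.MP_5c0be7_lc.K.Nm
import Pool.Agent.Lib.MP_5c0be7_lc.K.StZ

/-!
Project KM, block K: locality of the notions about premice; successor cardinals; sizes.
-/

namespace Pool.Agent.KM.KL

open Ordinal Cardinal Tr Set KE
open scoped Classical

universe u

variable {E E' E1 : Seq.{u}} {a b c d d' h k k' t t' v x : Ordinal.{u}}
  {s e e' : Ordinal.{u} → Ordinal.{u}} {C : Cfg.{u}}

theorem ag_symm (H : Agree E E' d) : Agree E' E d := fun v hv => (H v hv).symm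

theorem ag_trans (H : Agree E E' d) (H' : Agree E' E1 d) : Agree E E1 d :=
  fun v hv => (H v hv).trans (H' v hv)

theorem ag_mono (H : Agree E E' d) (hd : d' ≤ d) : Agree E E' d' := fun v hv => H v (hv.trans_le hd)

theorem ev_lt (H : Agree E E' d) (hb : b < d) : ∀ a ≤ b, ev E a = ev E' a :=
  fun _ ha => KN.ev_agree H (ha.trans_lt hb)

theorem ev_suc (H : Agree E E' (b + 1)) : ∀ a ≤ b + 1, ev E a = ev E' a := fun _ ha =>
  ev_local fun v hv hs => H v (lt_of_le_of_ne (hv.trans ha) fun e => hs ⟨b, e⟩)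

theorem rho_lt (H : Agree E E' d) (hb : b < d) : rho E b = rho E' b := rhoL_congr (ev_lt H hb)

theorem rho_suc (H : Agree E E' (b + 1)) : rho E (b + 1) = rho E' (b + 1) := rhoL_congr (ev_suc H)

theorem lev_ev (H : ∀ a ≤ b, ev E a = ev E' a) (hl : Lev E b) : Lev E' b := by
  unfold Lev at hl ⊢
  rwa [show SS E' b = SS E b from (ssL_congr H).symm, show rho E' b = rho E b from
    (rhoL_congr H).symm]

theorem ls_ag (H : Agree E E' d) (hl : LS E d) : LS E' d :=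
  fun b hb => lev_ev (ev_lt H hb) (hl b hb)

theorem weak_left (H : Agree E E1 d) (hw : Weak E d E' d' s) : Weak E1 d E' d' s :=
  ⟨hw.mono, hw.maps, hw.top, fun b hb q y hy => by
    rw [← KN.ev_agree H hb]; exact hw.comm b hb q y hy⟩

theorem weak_right (H : Agree E' E1 d') (hw : Weak E d E' d' s) : Weak E d E1 d' s :=
  ⟨hw.mono, hw.maps, hw.top, fun b hb q y hy => by
    rw [← KN.ev_agree H (hw.maps b hb)]; exact hw.comm b hb q y hy⟩

theorem strong_left (H : Agree E E1 (b + 1)) (hw : Strong E (b + 1) E' d' s) :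
    Strong E1 (b + 1) E' d' s :=
  ⟨weak_left H hw.toWeak, fun q y hy => by rw [← ev_suc H _ le_rfl]; exact hw.commTop q y hy⟩

theorem strong_right (H : Agree E' E1 (b + 1)) (hw : Strong E d E' (b + 1) s) :
    Strong E d E1 (b + 1) s :=
  ⟨weak_right H hw.toWeak, fun q y hy => by rw [← ev_suc H _ le_rfl]; exact hw.commTop q y hy⟩

theorem topC_ag (H : Agree E E' t) (h1 : TopC E k t) : TopC E' k t := fun b hb =>
  let ⟨a, h2, h3, h4⟩ := h1 b hb
  ⟨a, h2, h3, rho_lt H h3 ▸ h4⟩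

theorem noProj_ag (H : Agree E E' d) (h1 : NoProj E k t d) : NoProj E' k t d :=
  fun a h2 h3 => rho_lt H h3 ▸ h1 a h2 h3

theorem card_ag (H : Agree E E' d) (h1 : IsCard E d k) : IsCard E' d k :=
  fun a h2 h3 => rho_lt H h3 ▸ h1 a h2 h3

theorem card_mono (h1 : IsCard E d k) (hd : d' ≤ d) : IsCard E d' k :=
  fun a h2 h3 => h1 a h2 (h3.trans_le hd)

theorem noProj_mono (h1 : NoProj E k t d) (hd : d' ≤ d) : NoProj E k t d' :=
  fun a h2 h3 => h1 a h2 (h3.trans_le hd)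

theorem next_ag (H : Agree E E' d) (h1 : IsNext E d k t) : IsNext E' d k t :=
  ⟨h1.1, h1.2.1, topC_ag (ag_mono H h1.2.1) h1.2.2.1, noProj_ag H h1.2.2.2⟩

theorem ext_left (H : Agree E E1 t) (h1 : Ext E k t E' v e) : Ext E1 k t E' v e :=
  ⟨h1.inf, h1.lt, weak_left H h1.weak, h1.cof, topC_ag H h1.top, card_ag H h1.card⟩

theorem ext_right (H : Agree E' E1 v) (h1 : Ext E k t E' v e) : Ext E k t E1 v e :=
  ⟨h1.inf, h1.lt, weak_right H h1.weak, h1.cof, h1.top, h1.card⟩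

theorem typeA_ag (H : Agree E' E1 v) (hm : ∀ x < t, e x < v) (h1 : TypeA E' k t e) :
    TypeA E1 k t e := fun l h2 h3 =>
  let ⟨f, a, y, h4, h5, h6, h7⟩ := h1 l h2 h3
  ⟨f, a, y, h4, h5, KN.afv H (KN.in_map' hm h4) ▸ h6, h7⟩

theorem act_ag (H : Agree E E' (v + 1)) (h1 : Act E v k t e) : Act E' v k t e :=
  have H' := ag_mono H (lt_add_one v).le
  ⟨ext_right H' (ext_left (ag_mono H' h1.dom.le) h1.toExt), H v (lt_add_one v) ▸ h1.graph, h1.big,
    h1.fix, h1.move, h1.dom, noProj_ag H' h1.next, typeA_ag H' h1.weak.maps h1.typeA⟩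

theorem pm0_of_loc (H : ∀ b < d, ∃ E', PM0 E' (b + 1) ∧ Agree E' E (b + 1)) : PM0 E d := by
  refine ⟨fun b hb => ?_, fun b hb => ?_⟩ <;> obtain ⟨E', h1, h2⟩ := H b hb
  · exact ls_ag h2 h1.ls b (lt_add_one b)
  · rcases h1.act b (lt_add_one b) with h3 | ⟨k, t, e, h3⟩
    · exact Or.inl fun x y => h2 b (lt_add_one b) ▸ h3 x y
    · exact Or.inr ⟨k, t, e, act_ag h2 h3⟩

theorem pm0_ag (H : Agree E E' d) (h1 : PM0 E d) : PM0 E' d :=
  pm0_of_loc fun _ hb =>
    ⟨E, pm0_mono h1 (Order.add_one_le_iff.2 hb), ag_mono H (Order.add_one_le_iff.2 hb)⟩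

theorem small_ag [FragSt.{u}] (H : Agree E E' k) (h1 : Small E k) : Small E' k :=
  let ⟨a, h2, h3⟩ := h1
  ⟨a, h2, fun m h4 h5 h6 => h3 m h4 h5 (FragSt.congr (ag_symm H) h6)⟩

theorem pm_of_loc [FragSt.{u}] (H : ∀ b < d, ∃ E', PM E' (b + 1) ∧ Agree E' E (b + 1)) :
    PM E d := by
  refine ⟨pm0_of_loc fun b hb => (H b hb).imp fun _ h => ⟨h.1.toPM0, h.2⟩, fun b hb k t e ha => ?_⟩
  obtain ⟨E', h1, h2⟩ := H b hb
  exact small_ag (ag_mono h2 ((ha.lt.trans ha.dom).le.trans (lt_add_one b).le))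
    (h1.small b (lt_add_one b) k t e (act_ag (ag_symm h2) ha))

theorem pm_ag [FragSt.{u}] (H : Agree E E' d) (h1 : PM E d) : PM E' d :=
  pm_of_loc fun _ hb =>
    ⟨E, pm_mono h1 (Order.add_one_le_iff.2 hb), ag_mono H (Order.add_one_le_iff.2 hb)⟩

theorem ext_lim (h1 : Ext E k t E' v e) : ¬ Suc t := by
  rintro ⟨b, hb⟩
  obtain ⟨x, h2, h3⟩ := h1.cof (e b) (h1.weak.top b hb ▸ lt_add_one _)
  exact absurd ((w_lt h1.weak (hb ▸ lt_add_one b) h2).1 h3) (not_lt.2 (le1 (hb ▸ h2)))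

theorem ext_lim' (h1 : Ext E k t E' v e) : ¬ Suc v := by
  rintro ⟨b, hb⟩
  obtain ⟨x, h2, h3⟩ := h1.cof b (hb ▸ lt_add_one _)
  exact absurd (le1 (hb ▸ h1.weak.maps x h2)) (not_le.2 h3)

theorem act_uniq (h1 : Act E v k t e) (h2 : Act E v k' t' e') :
    k = k' ∧ t = t' ∧ ∀ x < t, e x = e' x := by
  have key : ∀ {k t e k' t' e'}, Act E v k t e → Act E v k' t' e' → ∀ x < t, x < t' ∧ e x = e' x :=
    fun h1 h2 x hx => (h2.graph x _).1 ((h1.graph x _).2 ⟨hx, rfl⟩)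
  have k2 : ∀ {k t e k' t' e'}, Act E v k t e → Act E v k' t' e' → k' ≤ k := fun h1 h2 =>
    not_lt.1 fun hk => h1.move.ne' ((key h1 h2 _ h1.lt).2.trans (h2.fix _ hk))
  exact ⟨le_antisymm (k2 h2 h1) (k2 h1 h2),
    le_antisymm (le_of_forall_lt fun x hx => (key h1 h2 x hx).1)
      (le_of_forall_lt fun x hx => (key h2 h1 x hx).1), fun x hx => (key h1 h2 x hx).2⟩

theorem act_not_pas (h1 : Act E v k t e) : ¬ Pas E v :=
  fun h => h k (e k) ((h1.graph _ _).2 ⟨h1.lt, rfl⟩)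

theorem oc_congr (hk : k < t) (he : ∀ x < t, e x = e' x) (h1 : OC E E' k t e) :
    OC E E' k t e' := fun Z hZ =>
  let ⟨th, h2, h3⟩ := h1 Z hZ
  ⟨th, he k hk ▸ h2, fun n a i1 i2 i3 i4 => KN.map_eq he i2 ▸ h3 n a i1 i2 i3 (he k hk ▸ i4)⟩

theorem oc_left (H : Agree E E1 t) (h1 : OC E E' k t e) : OC E1 E' k t e := fun Z hZ =>
  let ⟨th, h2, h3⟩ := h1 Z hZ
  ⟨th, h2, fun n a i1 i2 i3 i4 => (h3 n a i1 i2 i3 i4).trans (KN.anm H i2)⟩

theorem oc_right (H : Agree E' E1 v) (hm : ∀ x < t, e x < v) (h1 : OC E E' k t e) :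
    OC E E1 k t e := fun Z hZ =>
  let ⟨th, h2, h3⟩ := h1 Z hZ
  ⟨th, h2, fun n a i1 i2 i3 i4 => (KN.anm H (KN.in_map' hm i2)).symm.trans (h3 n a i1 i2 i3 i4)⟩

/-- Change of the sequence at one index. -/
noncomputable def upd (E : Seq.{u}) (v : Ordinal.{u}) (R : Ordinal.{u} → Ordinal.{u} → Prop) :
    Seq.{u} := fun w => if w = v then R else E w

theorem upd_ag (R : Ordinal.{u} → Ordinal.{u} → Prop) : Agree E (upd E v R) v :=
  fun _ hw => (if_neg hw.ne).symm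

theorem upd_self (R : Ordinal.{u} → Ordinal.{u} → Prop) : upd E v R v = R := if_pos rfl

/-- The sequence with the index `v` made passive. -/
noncomputable def pas (E : Seq.{u}) (v : Ordinal.{u}) : Seq.{u} := upd E v fun _ _ => False

theorem pas_ag : Agree E (pas E v) v := upd_ag _

theorem pas_pas : Pas (pas E v) v := fun x y h => by rw [pas, upd_self] at h; exact h

theorem exists_next (hk : k < d) : ∃ t, IsNext E d k t := by
  have hne : {t | k < t ∧ NoProj E k t d}.Nonempty :=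
    ⟨d, hk, fun a h1 h2 => absurd h2 (not_lt.2 h1)⟩
  obtain ⟨h1, h2⟩ := csInf_mem hne
  refine ⟨_, h1, csInf_le' ⟨hk, fun a h1 h2 => absurd h2 (not_lt.2 h1)⟩, fun b hb => ?_, h2⟩
  rcases le_or_gt b k with h3 | h3
  · exact ⟨k, h3, h1, KE.rho_le⟩
  · by_contra hc
    refine absurd (csInf_le' (show b ∈ {t | k < t ∧ NoProj E k t d} from ⟨h3, fun a h4 h5 => ?_⟩))
      (not_le.2 hb)
    by_contra h6
    exact hc ⟨a, h4, not_le.1 fun h7 => h6 (h2 a h7 h5), not_lt.1 h6⟩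

theorem top_le (h1 : TopC E k t) (h2 : NoProj E k t' t) : t ≤ t' := not_lt.1 fun h =>
  let ⟨a, h3, h4, h5⟩ := h1 t' h
  absurd (h2 a h3 h4) (not_lt.2 h5)

theorem card_noProj (h1 : IsCard E d h) (hk : k < h) : NoProj E k h d :=
  fun a h2 h3 => hk.trans_le (h1 a h2 h3)

theorem suc_of_rho (hl : Lev E a) (h1 : rho E a < a) : Suc a :=
  by_contra fun h => h1.ne (hl.2 h)

/-! Sizes. -/

theorem mk_in (k : Ordinal.{u}) :
    #{t : Tr.{u} | In k t} ≤ max ℵ₀ (Cardinal.lift.{u + 1} k.card) := by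
  let S : Set (WithBot (WithBot Ordinal.{u})) := insert ⊥ (insert ((⊥ : WithBot Ordinal.{u}) :
    WithBot (WithBot Ordinal.{u})) ((fun a : Ordinal.{u} =>
      ((a : WithBot Ordinal.{u}) : WithBot (WithBot Ordinal.{u}))) '' Iio k))
  have hS : #S ≤ max ℵ₀ (Cardinal.lift.{u + 1} k.card) := by
    have h0 : ℵ₀ ≤ max ℵ₀ (Cardinal.lift.{u + 1} k.card) := le_max_left _ _
    refine mk_insert_le.trans (add_le_of_le h0 (mk_insert_le.trans (add_le_of_le h0 ?_
      (one_le_aleph0.trans h0))) (one_le_aleph0.trans h0))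
    exact (mk_image_le.trans_eq (Cardinal.mk_Iio_ordinal k)).trans (le_max_right _ _)
  have hm : ∀ t : {t : Tr.{u} | In k t}, ∀ x ∈ t.1.ser, x ∈ S := fun t x hx => by
    rcases mem_ser hx with rfl | rfl | ⟨a, ha, rfl⟩
    · exact Or.inl rfl
    · exact Or.inr (Or.inl rfl)
    · exact Or.inr (Or.inr ⟨a, t.2 a ha, rfl⟩)
  have hi : Function.Injective fun t : {t : Tr.{u} | In k t} =>
      (t.1.ser.pmap Subtype.mk (hm t) : List S) := fun s t h => by
    have := congrArg (List.map Subtype.val) h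
    simp only [List.map_pmap, List.pmap_eq_map, List.map_id'] at this
    exact Subtype.ext (ser_inj this)
  exact (mk_le_of_injective hi).trans ((mk_list_le_max _).trans (max_le (le_max_left _ _) hS))

theorem mk_in_lt {O : Cardinal.{u}} (hO : ℵ₀ < O) (hk : k < O.ord) :
    #{t : Tr.{u} | In k t} < Cardinal.lift.{u + 1} O :=
  (mk_in k).trans_lt (max_lt (by simpa using hO) (Cardinal.lift_lt.2 (lt_ord.1 hk)))

theorem mk_erased : #{t : Tr.{u} | In 0 t} ≤ ℵ₀ := (mk_in 0).trans (by simp)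

theorem gen_lt {O : Cardinal.{u}} (hO : ℵ₀ < O) (hk : k < O.ord) {p : Tr.{u}} (hg : Gen E b k p) :
    b < O.ord := by
  have hs : Iio b ⊆ range fun q : {t : Tr.{u} | In k t} =>
      ((ev E b q.1.fst (node q.1.snd p)).getD .nil).lab := fun y hy => by
    obtain ⟨c, v, h1, h2⟩ := hg (leaf y) (by simpa using hy)
    refine ⟨⟨node c.erase v, by simpa using h1⟩, ?_⟩
    simp only [fst_node, snd_node]
    rw [ev_code_congr (decC_erase c), h2]
    rfl
  have := (mk_le_mk_of_subset hs).trans_lt (mk_range_le.trans_lt (mk_in_lt hO hk))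
  rwa [Cardinal.mk_Iio_ordinal, Cardinal.lift_lt, ← lt_ord] at this

theorem lev_lt {O : Cardinal.{u}} (hO : ℵ₀ < O) (hl : Lev E b) (hk : rho E b < O.ord) :
    b < O.ord := let ⟨_, hp⟩ := hl.1; gen_lt hO hk hp.2.2.2

/-! Cofinal embeddings. -/

variable [KEvSt.{u}]

theorem ext_top (h1 : Ext E k t E' v e) : TopC E' (e k) v := fun y hy => by
  obtain ⟨x, h2, h3⟩ := h1.cof y hy
  obtain ⟨a, h4, h5, h6⟩ := h1.top (max x k) (max_lt h2 h1.lt)
  refine ⟨e a, h3.le.trans ((w_le h1.weak h2 h5).2 ((le_max_left _ _).trans h4)),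
    h1.weak.maps a h5, not_lt.1 fun h7 => ?_⟩
  have h8 := not_suc_iff.1 (ext_lim h1) a h5
  have h9 := h1.weak.comm _ h8
  rw [w_succ h1.weak h8] at h9
  exact absurd ((KEvSt.comm_rho h9 ((le_max_right _ _).trans h4)).1 h7) (not_lt.2 h6)

/-- Cardinals come down along a weak map that fixes the smaller ordinals. -/
theorem card_down (hw : Weak E d E' d' s) (hd : ¬ Suc d) (hf : ∀ x < k, s x = x)
    (h1 : IsCard E' d' k) : IsCard E d k := fun a h2 h3 => not_lt.1 fun h4 => by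
  have h8 := not_suc_iff.1 hd a h3
  have h9 := hw.comm _ h8
  rw [w_succ hw h8] at h9
  refine lt_irrefl _ ((KEvSt.comm_rho h9 (KE.rho_le (E := E) (b := a))).1 ?_)
  rw [hf _ h4]
  exact h4.trans_le (h1 _ (h2.trans (w_self hw h3)) (hw.maps a h3))

variable [KGoodSt.{u}]

/-- Cardinals go up along cofinal weak maps. -/
theorem card_up (hE : PM0 E d) (hE' : PM0 E' d') (hw : Weak E d E' d' s) (hd : ¬ Suc d)
    (hc : ∀ y < d', ∃ x < d, y < s x) (hk : k < d) (h1 : IsCard E d k) : IsCard E' d' (s k) := by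
  intro a h2 h3
  obtain ⟨x, h4, h5⟩ := hc a h3
  have h6 := not_suc_iff.1 hd x h4
  have h7 : s x + 1 ≤ d' := Order.add_one_le_iff.2 (hw.maps x h4)
  have hkx : k < x := (w_lt hw hk h4).1 (h2.trans_lt h5)
  exact (KGoodSt.strong_good (pm0_mono hE h6.le) (pm0_mono hE' h7) (weak_restrict hw h6)).card
    k k hkx hkx (fun a i1 i2 => h1 a i1 (i2.trans h4)) a h2 h5

theorem ext_card (hE : PM0 E t) (hE' : PM0 E' v) (h1 : Ext E k t E' v e) : IsCard E' v (e k) :=
  card_up hE hE' h1.weak (ext_lim h1) h1.cof h1.lt h1.card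

end Pool.Agent.KM.KL
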