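import Pool.Agent.Lib.MP_5c0be7_lc.K.EvI
import Pool.Agent.Lib.MP_5c0be7_lc.K.Emb

/-!
Project KM, block K: existential statements come down along commuting maps; strong maps are good.
-/

namespace Pool.Agent.KM

open Ordinal Tr
open scoped Classical

universe u

/-- One code computes the total function `g` at every level. -/
def CF (g : TF.{u}) : Prop := Code fun E b z => some (g E b z)

namespace CF

variable {f g h : TF.{u}} {s : Tr.{u} → Tr.{u}}

theorem op (hs : IsOp s) : CF fun _ _ z => s z := Code.op hs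

theorem seq (hf : CF f) (hg : CF g) : CF fun E b z => f E b (node (g E b z) z) :=
  (Code.bind IsOp.id hg hf).congr fun _ _ _ _ => rfl

theorem pre (hf : CF f) (hs : IsOp s) : CF fun E b z => f E b (s z) := Code.pre hs hf

theorem comp (hf : CF f) (hg : CF g) : CF fun E b z => f E b (g E b z) :=
  (hf.pre IsOp.id.fst).seq hg

theorem post (hs : IsOp s) (hf : CF f) : CF fun E b z => s (f E b z) := (op hs).comp hf

theorem pair (hf : CF f) (hg : CF g) : CF fun E b z => node (f E b z) (g E b z) :=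
  ((op (IsOp.id.fst.pair IsOp.id.snd.fst)).seq (hf.pre IsOp.id.snd)).seq hg

theorem call (hf : CF f) : CF fun E b z => call (ev E) b (f E b z) :=
  comp (f := fun E b z => KM.call (ev E) b z) Code.call hf

theorem eq (hf : CF f) (hg : CF g) : CF fun E b z => tv (f E b z = g E b z) :=
  (hf.pair hg).post (IsOp.id.fst.eq IsOp.id.snd)

theorem and {A B : PR.{u}} (hf : CF fun E b z => tv (A E b z)) (hg : CF fun E b z => tv (B E b z)) :
    CF fun E b z => tv (A E b z ∧ B E b z) :=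
  Code.congr (eq (hf.pair hg) (op (IsOp.nil.pair IsOp.nil))) fun _ _ _ _ => by simp

theorem not {A : PR.{u}} (hf : CF fun E b z => tv (A E b z)) : CF fun E b z => tv (¬ A E b z) :=
  Code.congr (hf.post (IsOp.id.ite_nil (IsOp.nil.pair IsOp.nil) IsOp.nil)) fun E b z _ => by
    by_cases h : A E b z <;> simp [h, tv, Tr.one]

/-- Membership in a named set. -/
theorem nm (hf : CF f) (hg : CF g) : CF fun E b z => tv (KM.call (ev E) b (node (f E b z).fst
    (node (f E b z).snd.fst (node (g E b z) (f E b z).snd.snd))) ≠ .nil) :=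
  not (eq (((hf.post IsOp.id.fst).pair ((hf.post IsOp.id.snd.fst).pair
    (hg.pair (hf.post IsOp.id.snd.snd)))).call) (op IsOp.nil))

/-- An existential statement with a decidable matrix comes down along a commuting map. -/
theorem down {A : PR.{u}} (hA : CF fun E b z => tv (A E b z)) {E E' : Seq.{u}} {a a' : Ordinal.{u}}
    {j : Ordinal.{u} → Ordinal.{u}} (h : Comm E (a + 1) E' (a' + 1) j) (hs : ∃ p, SS E a p)
    (hs' : ∃ p, SS E' a' p) {x t' : Tr.{u}} (hx : In (a + 1) x) (hx' : In (a' + 1) (x.map j))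
    (ht : In (a' + 1) t') (h' : A E' (a' + 1) (node t' (x.map j))) :
    ∃ t, In (a + 1) t ∧ A E (a + 1) (node t x) := by
  obtain ⟨c, -, hc⟩ := Code.post (IsOp.id.fst.ite_nil (IsOp.nil.pair IsOp.nil) IsOp.nil) hA
  obtain ⟨m, -, -, hm⟩ := exists_exs.{u}
  have h1 := (hm E' a' c _ hs' hx').2 t' (by
    rw [hc _ _ _ ((in_node _ _ _).2 ⟨ht, hx'⟩)]; simp [h'])
  rw [h _ x hx, Option.isSome_map, Option.isSome_iff_exists] at h1
  obtain ⟨t, h2⟩ := h1
  have h3 := (hm E a c x hs hx).1 t h2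
  refine ⟨t, ev_in h2, by_contra fun h4 => ?_⟩
  rw [hc _ _ _ ((in_node _ _ _).2 ⟨ev_in h2, hx⟩)] at h3
  simp [h4] at h3

end CF

namespace GoodI

variable {E E' : Seq.{u}} {b : Ordinal.{u}} {s : Ordinal.{u} → Ordinal.{u}}

theorem lt_leaf {a c : Ordinal.{u}} : (∃ y, leaf c = leaf y ∧ In y (leaf a)) ↔ a < c := by simp

theorem card (hb : ∃ p, SS E b p) (hb' : ∃ p, SS E' (s b) p)
    (h : Strong E (b + 1) E' (s b + 1) s) {k t : Ordinal.{u}} (hk : k ≤ b) (ht : t ≤ b)
    (H : ∀ a, t ≤ a → a < b → k ≤ rho E a) : ∀ a, s t ≤ a → a < s b → s k ≤ rho E' a := by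
  obtain ⟨d, d0, d1, d2⟩ := Code.top.{u}
  obtain ⟨l, l0, l1⟩ := EvI.ltr.{u}
  have I := IsOp.id.{u}
  have hA := (CF.op (I.fst.snd.fst.bd I.snd.snd.fst)).and ((CF.op (I.snd.fst.bd I.fst.snd.snd)).and
    ((CF.op (I.fst.snd.fst.bd I.fst.snd.snd)).and ((CF.op (I.snd.snd.snd.bd I.fst.fst)).and
    ((CF.op I.fst.snd.snd.isleaf).and
    (((CF.op (I.fst.snd.fst.pair ((IsOp.const d0).pair IsOp.nil))).call.eq
      (CF.op (IsOp.nil.pair I.fst.fst))).and
    ((CF.op (I.fst.snd.fst.pair ((IsOp.const l0).pair I.fst.snd.snd))).call.eq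
      (CF.op IsOp.nil)))))))
  intro a h1 h2
  by_contra h3
  have hx : In (b + 1) (node (leaf k) (node (leaf t) (leaf b))) := by
    simp [Order.lt_add_one_iff, hk, ht]
  have r1 := rho_le E' a
  have a1 : a + 1 < s b + 1 := KE.s1lt h2
  obtain ⟨w, hw, g1, g2, g3, g4, ⟨k', g5⟩, g6, g7⟩ := hA.down h.commTop hb hb' hx
    (KE.w_in h.toWeak hx) (t' := node (leaf a) (node (leaf (a + 1)) (leaf (rho E' a))))
    (by simp only [in_node, in_leaf]
        exact ⟨h2.trans (lt_add_one _), a1, (r1.trans_lt h2).trans (lt_add_one _)⟩)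
    (by
      simp only [map_node, map_leaf, fst_node, snd_node, lt_leaf, call_leaf a1]
      refine ⟨KE.lt1 h1, not_le.1 h3, KE.lt1 r1, h2, ⟨_, rfl⟩, by rw [d1 _ _ _ (by simp)]; rfl, ?_⟩
      rw [opt_eq_nil, ← Option.not_isSome_iff_eq_none, l1 _ _ _ r1]
      exact lt_irrefl _)
  simp only [fst_node, snd_node] at g1 g2 g3 g4 g5 g6 g7
  rw [g5] at g2 g3 g7
  obtain ⟨c, e1, g1⟩ := g1
  have hc : c < b + 1 := by simpa [e1] using hw.snd.fst
  rw [e1] at g3 g6 g7
  rw [call_leaf hc] at g6 g7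
  simp only [fst_node, snd_node] at g6 g7
  by_cases hs : Suc c
  · obtain ⟨g, rfl⟩ := hs
    rw [d1 _ _ _ (by simp)] at g6
    simp only [opt_some, node.injEq, true_and] at g6
    rw [← g6] at g4
    rw [lt_leaf] at g2 g3 g4
    rw [opt_eq_nil, ← Option.not_isSome_iff_eq_none, l1 _ _ _ (KE.le1 g3)] at g7
    exact g7 (g2.trans_le (H g (KE.le1 (by simpa using g1)) g4))
  · rw [d2 _ _ _ hs] at g6
    simp at g6

theorem inc (hb : ∃ p, SS E b p) (hb' : ∃ p, SS E' (s b) p)
    (h : Strong E (b + 1) E' (s b + 1) s) {k : Ordinal.{u}} (hk : k ≤ b) :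
    UpInc E (b + 1) E' s k := by
  have I := IsOp.id.{u}
  have hA := (CF.op (I.snd.fst.bd I.fst)).and (((CF.op I.snd.snd.fst).nm (CF.op I.fst)).and
    ((CF.op I.snd.snd.snd).nm (CF.op I.fst)).not)
  intro t n ht hn H v hv h1
  by_contra h2
  have hx : In (b + 1) (node (leaf k) (node t n)) := by simp [Order.lt_add_one_iff, hk, ht, hn]
  have hk' : s k < s b + 1 := h.maps k (KE.lt1 hk)
  obtain ⟨w, -, g1, g2, g3⟩ := hA.down h.commTop hb hb' hx (KE.w_in h.toWeak hx) (t' := v)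
    (hv.mono hk'.le) (by
      simp only [map_node, map_leaf, fst_node, snd_node]
      rw [← nm_iff_call (KE.w_in h.toWeak ht).fst, ← nm_iff_call (KE.w_in h.toWeak hn).fst]
      exact ⟨⟨_, rfl, hv⟩, h1, h2⟩)
  simp only [fst_node, snd_node] at g1 g2 g3
  rw [← nm_iff_call ht.fst] at g2
  rw [← nm_iff_call hn.fst] at g3
  obtain ⟨_, ⟨⟩, g1⟩ := g1
  exact g3 (H w g1 g2)

theorem strong_good (hE : LS E (b + 1)) (hE' : LS E' (s b + 1))
    (h : Strong E (b + 1) E' (s b + 1) s) : Good E b E' s :=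
  have hb := (hE b (lt_add_one b)).1
  have hb' := (hE' _ (lt_add_one _)).1
  ⟨h.toWeak, fun _ hk => (EvI.comm_rho h.commTop (hk.le.trans (rho_le E b))).2 hk,
    fun _ _ hk ht => card hb hb' h hk.le ht.le,
    fun _ hk => inc hb hb' h (hk.le.trans (rho_le E b))⟩

end GoodI

instance : KGoodSt.{u} := ⟨fun hE hE' => GoodI.strong_good hE.ls hE'.ls⟩

end Pool.Agent.KM
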