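import Pool.Agent.Lib.MP_5c0be7_lc.F.Tree

/-!
Project KM, block K: the facts about iteration trees used by the realisation lemma.
-/

namespace Pool.Agent.KM

open Ordinal Tr

universe u

/-- Almost linearity and its consequences. -/
class KTreeSt : Prop where
  le_pr : ∀ {T : IT.{u}} {j v k t e p c}, T.IsTr j → T.Use j v k t e → T.Pred j k t p c → T.Le p j
  mc : ∀ {T : IT.{u}} {j v k t e p c m}, T.IsTr j → T.Use j v k t e → T.Pred j k t p c → p < m →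
    T.Le m j → IsNext (T.E m) (T.b m + 1) k t ∧ IsCard (T.E m) (T.b m + 1) k ∧ t ≤ T.b m ∧
      t ≤ T.la p ∧ ∀ d, T.n ≤ d → m = d + 1 → t ≤ T.ka d
  app : ∀ {T : IT.{u}} {j v k t e p c}, T.IsTr j → T.Use j v k t e → T.Pred j k t p c →
    IsNext (T.E p) (c + 1) k t ∧ Agree (T.E p) (T.E j) t
  cof : ∀ {T : IT.{u}} {c i}, T.n < c → Order.IsSuccLimit c → (∀ j < c, T.n ≤ j → T.IsTr j) →
    i < c → ∃ m, i < m ∧ m < c ∧ T.Le m c
  mp_strong : ∀ {T : IT.{u}} {l i j}, T.IsTr l → j ≤ l → T.ND i j →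
    Strong (T.E i) (T.b i + 1) (T.E j) (T.b j + 1) (T.mp i j)
  mp_comp : ∀ {T : IT.{u}} {l i m j}, T.IsTr l → j ≤ l → T.ND i m → T.ND m j →
    ∀ x ≤ T.b i, T.mp m j (T.mp i m x) = T.mp i j x
  mp_fix : ∀ {T : IT.{u}} {l i j x}, T.IsTr l → j ≤ l → T.ND i j → x ≤ T.b i →
    (∀ d, T.n ≤ d → i < d + 1 → T.Le (d + 1) j → x < T.ka d) → T.mp i j x = x

/-- Iterability follows from well-foundedness. -/
class KWfSt : Prop where
  iterable_of_wf : ∀ {T : IT.{u}} {g}, T.Phal →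
    (∀ (U : IT.{u}) j v k t e p c, T.EqLt U (T.n + 1) → U.IsTr j → U.Above g j → U.Use j v k t e →
      g ≤ k → U.Pred j k t p c → WellFounded (ULt (U.E p) (c + 1) k t (U.E j) e)) →
    (∀ (U : IT.{u}) c, T.EqLt U (T.n + 1) → T.n < c → Order.IsSuccLimit c →
      (∀ j < c, T.n ≤ j → U.IsTr j) → U.Above g c → (∃ m < c, U.ND m c) ∧
      ¬ ∃ (i x : ℕ → Ordinal.{u}), ∀ a, i a < c ∧ U.ND (i a) c ∧ x a ≤ U.b (i a) ∧
        i a ≤ i (a + 1) ∧ x (a + 1) < U.mp (i a) (i (a + 1)) (x a)) →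
    T.Iterable g

end Pool.Agent.KM
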