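import Pool.Agent.Lib.MP_5c0be7_lc.O.Pm

/-!
Project KM, block K: strong ordinals from named fragments of an extender. Statement.
-/

namespace Pool.Agent.KM

open Ordinal Tr

universe u

/-- If the fragments of an extender on the sequence are named below `h`, its critical point is
strong below `h`. -/
class FragMkSt : Prop where
  make : ∀ {E : Seq.{u}} {v k t e h}, LS E v → Act E v k t e → t < h → h ≤ e k →
    (∀ l < h, ∃ n, In h n ∧
      ∀ X a, In t X → In l a → (Nm E n (node X a) ↔ Nm E (X.map e) a)) → StrongTo E h k

end Pool.Agent.KM
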