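import Pool.Agent.Lib.MP_5c0be7_lc.O.Basic
import Pool.Agent.Lib.MP_5c0be7_lc.O.Pm

/-!
Project KM, block K, part 1: countably complete extenders, certified premice, resurrection,
realisable premice.
-/

namespace Pool.Agent.KM

open Ordinal Tr
open scoped Classical

universe u

/-- The parameters of a construction: a base height and the allowed critical points. -/
structure Cfg where
  be : Ordinal.{u}
  al : Ordinal.{u} → Prop
  lt : ∀ k, al k → be < k

/-- Countable completeness of `e`, a map from level `t` of `E` into `E'` that moves `k`. -/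
def OC (E E' : Seq.{u}) (k t : Ordinal.{u}) (e : Ordinal.{u} → Ordinal.{u}) : Prop :=
  ∀ Z : Set Ordinal.{u}, Z.Countable → ∃ th : Ordinal.{u} → Ordinal.{u},
    (∀ z ∈ Z, z < e k → th z < k) ∧ ∀ n a : Tr.{u}, n.lv ⊆ Z → In t n → a.lv ⊆ Z → In (e k) a →
      (Nm E' (n.map e) a ↔ Nm E n (a.map th))

/-- The level of height `c + 1` is proper and no later level has a smaller projectum. -/
def MinPt (C : Cfg.{u}) (E : Seq.{u}) (d c : Ordinal.{u}) : Prop :=
  C.be ≤ c ∧ c + 1 < d ∧ ∀ a, c + 1 ≤ a → a < d → rho E (c + 1) ≤ rho E a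

/-- The top extender, if any, is countably complete and allowed. -/
def TopOK (C : Cfg.{u}) (E : Seq.{u}) (d : Ordinal.{u}) : Prop :=
  ∀ b k t e, d = b + 1 → Act E b k t e → OC E E k t e ∧ C.al k

/-- Certified premice; the first index is a rank. -/
inductive Cert (C : Cfg.{u}) : Ordinal.{u} → Seq.{u} → Ordinal.{u} → Prop
  | mk {r : Ordinal.{u}} {E : Seq.{u}} {d : Ordinal.{u}} (pm : PM E d) (top : TopOK C E d)
      (r' : Ordinal.{u} → Ordinal.{u}) (E' : Ordinal.{u} → Seq.{u})
      (s : Ordinal.{u} → Ordinal.{u} → Ordinal.{u})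
      (lt : ∀ c, MinPt C E d c → r' c < r)
      (str : ∀ c, MinPt C E d c → Strong E (c + 1) (E' c) (s c c + 1) (s c))
      (fix : ∀ c, MinPt C E d c → ∀ x < rho E (c + 1), s c x = x)
      (ch : ∀ c, MinPt C E d c → Cert C (r' c) (E' c) (s c c + 1)) : Cert C r E d

/-- A ranked premouse of successor height `b + 1`. -/
structure Cn where
  r : Ordinal.{u}
  E : Seq.{u}
  b : Ordinal.{u}

/-- The node is certified. -/
def Cn.Ok (C : Cfg.{u}) (n : Cn.{u}) : Prop := Cert C n.r n.E (n.b + 1)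

/-- `p` uncores the level of height `c + 1` of `n`. -/
structure IsChild (C : Cfg.{u}) (n : Cn.{u}) (c : Ordinal.{u})
    (p : Cn.{u} × (Ordinal.{u} → Ordinal.{u})) : Prop where
  lt : p.1.r < n.r
  ok : p.1.Ok C
  top : p.1.b = p.2 c
  str : Strong n.E (c + 1) p.1.E (p.2 c + 1) p.2
  fix : ∀ x < rho n.E (c + 1), p.2 x = x

/-- The chosen child. -/
noncomputable def child (C : Cfg.{u}) (n : Cn.{u}) (c : Ordinal.{u}) :
    Cn.{u} × (Ordinal.{u} → Ordinal.{u}) :=
  if h : ∃ p, IsChild C n c p then h.choose else (n, id)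

/-- The least level from `b` on with the smallest projectum. -/
noncomputable def lmp (E : Seq.{u}) (d b : Ordinal.{u}) : Ordinal.{u} :=
  sInf {c | b ≤ c ∧ c + 1 < d ∧ ∀ a, b + 1 ≤ a → a < d → rho E (c + 1) ≤ rho E a}

/-- Resurrection of the level of height `b + 1` of `n`. -/
noncomputable def res (C : Cfg.{u}) (n : Cn.{u}) (b : Ordinal.{u}) :
    Cn.{u} × (Ordinal.{u} → Ordinal.{u}) :=
  if _h : b < n.b ∧ (child C n (lmp n.E (n.b + 1) b)).1.r < n.r then
    ((res C (child C n (lmp n.E (n.b + 1) b)).1 ((child C n (lmp n.E (n.b + 1) b)).2 b)).1,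
      (res C (child C n (lmp n.E (n.b + 1) b)).1 ((child C n (lmp n.E (n.b + 1) b)).2 b)).2 ∘
        (child C n (lmp n.E (n.b + 1) b)).2)
  else (n, id)
termination_by n.r
decreasing_by all_goals exact _h.2

/-- `s` realises `(E, b + 1)` in the certified node `n`, above `g`. -/
structure Rz (C : Cfg.{u}) (g : Ordinal.{u}) (E : Seq.{u}) (b : Ordinal.{u})
    (n : Cn.{u}) (s : Ordinal.{u} → Ordinal.{u}) : Prop where
  ok : n.Ok C
  good : Good E b n.E s
  top : s b = n.b
  base : ∀ x ≤ b, g ≤ x → C.be ≤ s x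

/-- Realisable premice: every countable premouse that embeds in `(E, b + 1)` is realised in a
certified node. -/
def II (C : Cfg.{u}) (g : Ordinal.{u}) (E : Seq.{u}) (b : Ordinal.{u}) : Prop :=
  ∀ E0 b0 g0 k, b0 < ω₁ → PM0 E0 (b0 + 1) → Good E0 b0 E k → k b0 = b →
    (∀ x ≤ b0, g0 ≤ x → g ≤ k x) → ∃ n s, Rz C g0 E0 b0 n s

/-- Agreement of the evaluation tables up to level `x`. -/
def EvAg (E E' : Seq.{u}) (x : Ordinal.{u}) : Prop := ∀ a ≤ x, ev E a = ev E' a

end Pool.Agent.KM
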