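import Pool.Agent.Lib.MP_5c0be7_lc.K.GoodI
import Pool.Agent.Lib.MP_5c0be7_lc.O.FO2

/-!
Project KM, block K: active levels go up along good maps and come down along strong maps.
-/

namespace Pool.Agent.KM

open Ordinal Tr
open scoped Classical

universe u

namespace KActI

variable {E E' : Seq.{u}} {b v k t k' t' : Ordinal.{u}} {s e e' : Ordinal.{u} → Ordinal.{u}}

/-- Active indices are not successors. -/
theorem lim (h : Act E v k t e) : ¬ Suc v := by
  rintro ⟨y, rfl⟩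
  obtain ⟨x, h1, h2⟩ := h.cof y (lt_add_one y)
  exact (KE.le1 (h.weak.maps x h1)).not_gt h2

theorem uniq (h : Act E v k t e) (h' : Act E v k' t' e') :
    k = k' ∧ t = t' ∧ ∀ x < t, e x = e' x := by
  have h1 : ∀ x < t, x < t' ∧ e x = e' x := fun x hx => (h'.graph _ _).1 ((h.graph _ _).2 ⟨hx, rfl⟩)
  have h2 : ∀ x < t', x < t ∧ e' x = e x := fun x hx => (h.graph _ _).1 ((h'.graph _ _).2 ⟨hx, rfl⟩)
  refine ⟨le_antisymm (not_lt.1 fun h3 => ?_) (not_lt.1 fun h3 => ?_), le_antisymm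
    (le_of_forall_lt fun x hx => (h1 x hx).1) (le_of_forall_lt fun x hx => (h2 x hx).1),
    fun x hx => (h1 x hx).2⟩
  · exact h'.move.ne' ((h2 _ h'.lt).2.trans (h.fix _ h3))
  · exact h.move.ne' ((h1 _ h.lt).2.trans (h'.fix _ h3))

theorem dfTop : Df.{u} fun E b z => TopC E z.lab b :=
  Df.oall (Q := fun E b c z => ∃ a < b, c ≤ a ∧ rho E a ≤ z.lab) On.top
    (Df.oex (Q := fun E _ a w => w.fst.lab ≤ a ∧ rho E a ≤ w.snd.lab) On.top
      ((Df.ole (On.lab IsOp.id.snd.fst) (On.lab IsOp.id.fst)).and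
        (Df.ole (On.lab IsOp.id.fst).rho (On.lab IsOp.id.snd.snd)))) |>.congr fun _ _ _ _ =>
    forall₂_congr fun _ _ => exists_congr fun _ => by tauto

/-- Names for the leaves and for the fixed points of the extender of a level. -/
theorem names : ∃ c d : Tr.{u}, c.erase = c ∧ d.erase = d ∧ ∀ E v q,
    (Nm E (node (leaf v) (node c .nil)) q ↔ In v q ∧ ∃ a, q = leaf a) ∧
    (Nm E (node (leaf v) (node d .nil)) q ↔ In v q ∧ ora E v (node q q)) := by
  have I := IsOp.id.{u}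
  have T := I.fst.ite_nil (IsOp.nil.pair IsOp.nil) IsOp.nil
  obtain ⟨c, c0, c1⟩ := Code.post T (Code.op I.fst.isleaf)
  obtain ⟨d, d0, d1⟩ := Code.post T (Code.pre (I.fst.pair I.fst)
    (f := fun E b z => some (tv (ora E b z))) ⟨extc, rfl, fun E b z => (law E b).extc z⟩)
  refine ⟨c, d, c0, d0, fun E v q => ?_⟩
  unfold Nm NmL
  simp only [fst_node, snd_node, leaf.injEq, exists_eq_left']
  by_cases i : In v q
  · rw [c1 _ _ _ (by simpa using i), d1 _ _ _ (by simpa using i)]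
    constructor
    · by_cases h : ∃ a, q = leaf a <;> simp [h, i]
    · by_cases h : ora E v (node q q) <;> simp [h, i]
  · simp [ev_guard (x := node q .nil) (b := v) (by simpa using i), i]

theorem top (hE : LS E (v + 1)) (hE' : PM0 E' (s v + 1)) (h : Good E v E' s) (A : Act E v k t e) :
    ∃ e', Act E' (s v) (s k) (s t) e' ∧ ∀ x < t, e' (s x) = s (e x) := by
  have hv := lim A
  have v1 := lt_add_one v
  have kv : k < v := A.lt.trans A.dom
  have up : ∀ x < t, E' (s v) (s x) (s (e x)) := fun x hx => by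
    have i : In v (node (leaf x) (leaf (e x))) := by simp [hx.trans A.dom, A.weak.maps x hx]
    have h1 := h.comm v v1 extc _ i
    rw [(law E v).extc _ i, (law E' _).extc _ ((h.toWeak.in_map v1 (i.mono v1.le)).2 i),
      tv_pos (p := ora E v (node (leaf x) (leaf (e x))))
        ⟨hv, (A.graph _ _).2 ⟨hx, rfl⟩⟩] at h1
    exact ((tv_eq_nil _).1 (Option.some.inj h1)).2
  obtain P | ⟨k', t', e', A'⟩ := hE'.act (s v) (lt_add_one _)
  · exact absurd (up k A.lt) (P _ _)
  have h1 : ∀ x < t, s x < t' ∧ s (e x) = e' (s x) := fun x hx => (A'.graph _ _).1 (up x hx)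
  have m : ∀ {x y}, x < y → y ≤ v → s x < s y := fun h1 h2 =>
    h.mono (KE.lt1 (h1.le.trans h2)) (KE.lt1 h2) h1
  obtain rfl : k' = s k := by
    refine le_antisymm (not_lt.1 fun h2 => (m A.move (A.weak.maps k A.lt).le).ne'
      ((h1 k A.lt).2.trans (A'.fix _ h2))) (not_lt.1 fun h2 => ?_)
    obtain ⟨c, d, c0, d0, hn⟩ := names.{u}
    have h3 := h.inc k (by rw [(hE v v1).2 hv]; exact kv) (node (leaf v) (node c .nil))
      (node (leaf v) (node d .nil)) (by simp [in_of_lf c0]) (by simp [in_of_lf d0])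
      (fun q hq h3 => by
        obtain ⟨h4, a, rfl⟩ := (hn E v q).1.1 h3
        have ha : a < k := by simpa using hq
        exact (hn E v _).2.2 ⟨h4, hv, (A.graph _ _).2 ⟨ha.trans A.lt, (A.fix a ha).symm⟩⟩)
      (leaf k') (by simpa using h2)
    simp only [map_node, map_leaf, map_nil, map_of_lv (erase_eq_self.1 c0),
      map_of_lv (erase_eq_self.1 d0)] at h3
    have h4 := ((hn E' _ _).2.1 (h3 ((hn E' _ _).1.2
      ⟨by simpa using A'.lt.trans A'.dom, _, rfl⟩))).2.2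
    exact A'.move.ne ((A'.graph _ _).1 h4).2
  have k1 := not_suc_iff.1 hv k kv
  have N : NoProj E' (s k) (s t) (s v) := fun a h2 h3 => (m (lt_add_one k) k1.le).trans_le
    (h.card (k + 1) t k1 A.dom (fun a h2 h3 => Order.add_one_le_iff.2 (A.next a h2 h3)) a h2 h3)
  have T : TopC E' (s k) (s t) := (dfTop.weak_lim (z := leaf k) h.toWeak hE hE'.ls hv A.dom v1.le
    (by simpa using A.lt)).2 A.top
  obtain rfl : t' = s t := by
    refine le_antisymm (not_lt.1 fun h2 => ?_) (not_lt.1 fun h2 => ?_)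
    · obtain ⟨a, h3, h4, h5⟩ := A'.top _ h2
      exact (N a h3 (h4.trans A'.dom)).not_ge h5
    · obtain ⟨a, h3, h4, h5⟩ := T _ h2
      exact (A'.next a h3 (h4.trans (m A.dom le_rfl))).not_ge h5
  exact ⟨e', A', fun x hx => (h1 x hx).2.symm⟩

theorem sle (h : Weak E (b + 1) E' (s b + 1) s) (hv : v ≤ b) : s v + 1 ≤ s b + 1 :=
  Order.add_one_le_iff.2 (h.maps v (KE.lt1 hv))

theorem good_act (hE : LS E (b + 1)) (hE' : PM0 E' (s b + 1)) (h : Good E b E' s) (hv : v ≤ b)
    (A : Act E v k t e) : ∃ e', Act E' (s v) (s k) (s t) e' ∧ ∀ x < t, e' (s x) = s (e x) := by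
  rcases hv.eq_or_lt with rfl | hv
  · exact top hE hE' h A
  have l := hE.mono (KE.s1lt hv).le
  have l' := KE.pm0_mono hE' (sle h.toWeak hv.le)
  exact top l l' (GoodI.strong_good l l'.ls (KE.weak_restrict h.toWeak (KE.s1lt hv))) A

theorem good_act_down (hE : PM0 E (b + 1)) (hE' : PM0 E' (s b + 1))
    (h : Strong E (b + 1) E' (s b + 1) s) (hv : v ≤ b) (A : Act E' (s v) k t e) :
    ∃ k0 t0 e0, Act E v k0 t0 e0 ∧ s k0 = k ∧ s t0 = t ∧ ∀ x < t0, e (s x) = s (e0 x) := by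
  have I := IsOp.id.{u}
  have hA := (CF.op I.fst.fst.isleaf).and ((CF.op (I.snd.pair ((IsOp.const (c := extc) rfl).pair
    I.fst))).call.eq (CF.op (IsOp.nil.pair IsOp.nil)))
  have i : In (s v) (node (leaf k) (leaf (e k))) := by
    simp [A.lt.trans A.dom, A.weak.maps k A.lt]
  obtain ⟨w, -, ⟨a, g1⟩, g2⟩ := hA.down (KE.strong_restrict h hv).commTop (hE.ls v (KE.lt1 hv)).1
    (hE'.ls _ (h.maps v (KE.lt1 hv))).1 (x := leaf v) (by simp) (by simp) (i.mono le_self_add) (by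
      simp only [map_leaf, fst_node, snd_node, call_leaf (lt_add_one _)]
      rw [(law E' _).extc _ i, tv_pos (p := ora E' _ (node (leaf k) (leaf (e k))))
        ⟨lim A, (A.graph _ _).2 ⟨A.lt, rfl⟩⟩]
      exact ⟨⟨_, rfl⟩, rfl⟩)
  simp only [fst_node, snd_node, call_leaf (lt_add_one _), opt_eq_node] at g1 g2
  rw [(law E v).extc _ (in_of_ev_eq g2)] at g2
  have g3 := ((tv_eq_nil _).1 (Option.some.inj g2)).2
  rw [g1] at g3
  obtain P | ⟨k0, t0, e0, A0⟩ := hE.act v (KE.lt1 hv)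
  · cases hw : w.snd <;> rw [hw] at g3
    · exact g3.elim
    · exact absurd g3 (P _ _)
    · exact g3.elim
  obtain ⟨e', A', h1⟩ := good_act hE.ls hE' (GoodI.strong_good hE.ls hE'.ls h) hv A0
  obtain ⟨h2, h3, h4⟩ := uniq A' A
  refine ⟨k0, t0, e0, A0, h2, h3, fun x hx => (h4 _ ?_).symm.trans (h1 x hx)⟩
  have h5 := KE.lt1 (A0.dom.le.trans hv)
  exact h.mono (hx.trans h5) h5 hx

end KActI

instance : KActSt.{u} := ⟨fun hE => KActI.good_act hE.ls, KActI.good_act_down⟩

end Pool.Agent.KM
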