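import Pool.Agent.Lib.MP_5c0be7_lc.O.Basic

/-!
Project KM, block K: countable closed sets of ordinals and their enumeration.
-/

namespace Pool.Agent.KM

open Ordinal Tr Set
open scoped Classical

universe u

namespace Clo

/-- Depth of a tree. -/
def dp : Tr.{u} → ℕ
  | node l r => max (dp l) (dp r) + 1
  | _ => 0

theorem ctb_dp {Z : Set Ordinal.{u}} (h : Z.Countable) (n : ℕ) :
    {t : Tr.{u} | t.lv ⊆ Z ∧ dp t ≤ n}.Countable := by
  induction n with
  | zero =>
    refine ((h.image leaf).insert .nil).mono ?_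
    rintro (_ | a | ⟨l, r⟩) ⟨h1, h2⟩
    · exact Or.inl rfl
    · exact Or.inr ⟨a, h1 (by simp), rfl⟩
    · simp [dp] at h2
  | succ n ih =>
    refine (((h.image leaf).insert .nil).union ((ih.prod ih).image fun p => node p.1 p.2)).mono ?_
    rintro (_ | a | ⟨l, r⟩) ⟨h1, h2⟩
    · exact Or.inl (Or.inl rfl)
    · exact Or.inl (Or.inr ⟨a, h1 (by simp), rfl⟩)
    · simp only [lv_node, union_subset_iff] at h1
      have h3 : max (dp l) (dp r) + 1 ≤ n + 1 := h2
      have h4 : dp l ≤ n := by omega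
      have h5 : dp r ≤ n := by omega
      exact Or.inr ⟨(l, r), ⟨⟨h1.1, h4⟩, h1.2, h5⟩, rfl⟩

end Clo

theorem countable_trees {Z : Set Ordinal.{u}} (h : Z.Countable) :
    {t : Tr.{u} | t.lv ⊆ Z}.Countable :=
  (countable_iUnion (Clo.ctb_dp h)).mono fun t ht => mem_iUnion.2 ⟨Clo.dp t, And.intro ht le_rfl⟩

/-- A countable set has a countable superset closed under a countably valued function. -/
theorem exists_closed {A : Set Ordinal.{u}} (hA : A.Countable) (G : Tr.{u} → Set Ordinal.{u})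
    (hG : ∀ t, (G t).Countable) :
    ∃ Z, A ⊆ Z ∧ Z.Countable ∧ ∀ t : Tr.{u}, t.lv ⊆ Z → G t ⊆ Z := by
  let S : ℕ → Set Ordinal.{u} := fun n =>
    Nat.rec A (fun _ X => X ∪ ⋃ t ∈ {t : Tr.{u} | t.lv ⊆ X}, G t) n
  have hS : ∀ n, (S n).Countable := fun n => by
    induction n with
    | zero => exact hA
    | succ n ih => exact ih.union ((countable_trees ih).biUnion fun t _ => hG t)
  have hm : Monotone S := monotone_nat_of_le_succ fun n => subset_union_left
  refine ⟨⋃ n, S n, subset_iUnion S 0, countable_iUnion hS, fun t ht => ?_⟩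
  obtain ⟨n, hn⟩ : ∃ n, t.lv ⊆ S n := by
    have := (lv_finite t)
    revert ht
    refine Set.Finite.induction_on _ this (fun _ => ⟨0, empty_subset _⟩) ?_
    intro a s _ _ ih ht
    obtain ⟨n, hn⟩ := ih (subset_insert a s |>.trans ht)
    obtain ⟨m, hm'⟩ := mem_iUnion.1 (ht (mem_insert a s))
    exact ⟨max n m, insert_subset (hm (le_max_right _ _) hm') (hn.trans (hm (le_max_left _ _)))⟩
  exact fun y hy => mem_iUnion.2 ⟨n + 1, Or.inr (mem_biUnion hn hy)⟩

/-- The increasing enumeration of a countable set of ordinals, continued above it. -/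
theorem exists_enum {Z : Set Ordinal.{u}} (hZ : Z.Countable) :
    ∃ (p : Ordinal.{u} → Ordinal.{u}) (o : Ordinal.{u}), StrictMono p ∧ (Iio o).Countable ∧
      p '' Iio o = Z ∧ ∀ x, o ≤ x → ∀ z ∈ Z, z < p x := by
  have : Small.{u} Z := by have := hZ.to_subtype; infer_instance
  obtain ⟨m, hm⟩ := (Ordinal.bddAbove_of_small (s := Z))
  let Y := Z ∪ Ici (m + 1)
  have hY : ¬ BddAbove Y := fun h => not_bddAbove_Ici _ (h.mono subset_union_right)
  have hs := enumOrd_strictMono hY
  have hr := range_enumOrd hY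
  obtain ⟨o, ho⟩ : m + 1 ∈ range (enumOrd Y) := by rw [hr]; exact Or.inr (mem_Ici.2 le_rfl)
  have him : enumOrd Y '' Iio o = Z := by
    ext z
    constructor
    · rintro ⟨x, hx, rfl⟩
      have h1 : enumOrd Y x ∈ Y := hr.subset (mem_range_self x)
      exact h1.resolve_right fun h => (hs hx).not_ge (ho ▸ h)
    · intro hz
      obtain ⟨x, rfl⟩ : z ∈ range (enumOrd Y) := hr.symm.subset (Or.inl hz)
      exact ⟨x, hs.lt_iff_lt.1 (ho ▸ (hm hz).trans_lt (lt_add_one m)), rfl⟩
  refine ⟨enumOrd Y, o, hs, ?_, him, fun x hx z hz => ?_⟩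
  · exact countable_of_injective_of_countable_image hs.injective.injOn (him ▸ hZ)
  · exact ((hm hz).trans_lt (lt_add_one m)).trans_le (ho ▸ hs.monotone hx)

end Pool.Agent.KM
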