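import Pool.Agent.Lib.MP_5c0be7_lc.K.Clo

/-!
Project KM, block K: properties that hold for all sufficiently closed sets of ordinals.
-/

namespace Pool.Agent.KM

open Ordinal Tr Set
open scoped Classical

universe u

/-- `P` holds for every set that is closed under a suitable countably valued function. -/
def Club (P : Set Ordinal.{u} → Prop) : Prop :=
  ∃ G : Tr.{u} → Set Ordinal.{u}, (∀ x, (G x).Countable) ∧
    ∀ Z, (∀ x : Tr.{u}, x.lv ⊆ Z → G x ⊆ Z) → P Z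

namespace Club

variable {P Q : Set Ordinal.{u} → Prop}

theorem mono (h : Club P) (hi : ∀ Z, P Z → Q Z) : Club Q :=
  let ⟨G, h1, h2⟩ := h; ⟨G, h1, fun Z hZ => hi Z (h2 Z hZ)⟩

theorem and (h : Club P) (h' : Club Q) : Club fun Z => P Z ∧ Q Z :=
  let ⟨G, h1, h2⟩ := h
  let ⟨G', h3, h4⟩ := h'
  ⟨fun x => G x ∪ G' x, fun x => (h1 x).union (h3 x), fun Z hZ =>
    ⟨h2 Z fun x hx => subset_union_left.trans (hZ x hx),
      h4 Z fun x hx => subset_union_right.trans (hZ x hx)⟩⟩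

theorem all {J : Type*} [Countable J] {P : J → Set Ordinal.{u} → Prop} (h : ∀ j, Club (P j)) :
    Club fun Z => ∀ j, P j Z := by
  choose G h1 h2 using h
  exact ⟨fun x => ⋃ j, G j x, fun x => countable_iUnion fun j => h1 j x, fun Z hZ j =>
    h2 j Z fun x hx => (subset_iUnion (fun j => G j x) j).trans (hZ x hx)⟩

theorem clo {G : Tr.{u} → Set Ordinal.{u}} (h : ∀ x, (G x).Countable) :
    Club fun Z => ∀ x : Tr.{u}, x.lv ⊆ Z → G x ⊆ Z := ⟨G, h, fun _ hZ => hZ⟩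

theorem sub {A : Set Ordinal.{u}} (h : A.Countable) : Club fun Z => A ⊆ Z :=
  ⟨fun _ => A, fun _ => h, fun _ hZ => hZ .nil (by simp)⟩

theorem mem (a : Ordinal.{u}) : Club fun Z => a ∈ Z :=
  (sub (countable_singleton a)).mono fun _ h => h rfl

theorem sk (R : Tr.{u} → Tr.{u} → Prop) :
    Club fun Z => ∀ x : Tr.{u}, x.lv ⊆ Z → (∃ y, R x y) → ∃ y : Tr.{u}, y.lv ⊆ Z ∧ R x y := by
  refine ⟨fun x => if h : ∃ y, R x y then h.choose.lv else ∅, fun x => ?_, fun Z hZ x hx h => ?_⟩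
  · dsimp only
    split_ifs
    · exact (lv_finite _).countable
    · exact countable_empty
  · exact ⟨h.choose, by simpa only [dif_pos h] using hZ x hx, h.choose_spec⟩

theorem sk3 (R : Ordinal.{u} → Ordinal.{u} → Ordinal.{u} → Ordinal.{u} → Prop) :
    Club fun Z => ∀ a ∈ Z, ∀ b ∈ Z, ∀ c ∈ Z, (∃ y, R a b c y) → ∃ y ∈ Z, R a b c y := by
  refine (sk fun x y => ∃ w, y = leaf w ∧ R x.fst.lab x.snd.fst.lab x.snd.snd.lab w).mono
    fun Z h a ha b hb c hc ⟨y, hy⟩ => ?_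
  obtain ⟨_, h1, w, rfl, h2⟩ := h (node (leaf a) (node (leaf b) (leaf c)))
    (by simp [insert_subset_iff, ha, hb, hc]) ⟨leaf y, y, rfl, hy⟩
  exact ⟨w, h1 (by simp), h2⟩

theorem sk2 (R : Ordinal.{u} → Ordinal.{u} → Ordinal.{u} → Prop) :
    Club fun Z => ∀ a ∈ Z, ∀ b ∈ Z, (∃ y, R a b y) → ∃ y ∈ Z, R a b y :=
  (sk3 fun a b _ y => R a b y).mono fun _ h a ha b hb => h a ha b hb a ha

theorem sk1 (R : Ordinal.{u} → Ordinal.{u} → Prop) :
    Club fun Z => ∀ a ∈ Z, (∃ y, R a y) → ∃ y ∈ Z, R a y :=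
  (sk2 fun a _ y => R a y).mono fun _ h a ha => h a ha a ha

theorem fn3 (f : Ordinal.{u} → Ordinal.{u} → Ordinal.{u} → Ordinal.{u}) :
    Club fun Z => ∀ a ∈ Z, ∀ b ∈ Z, ∀ c ∈ Z, f a b c ∈ Z :=
  (sk3 fun a b c y => f a b c = y).mono fun _ h a ha b hb c hc =>
    let ⟨_, h1, h2⟩ := h a ha b hb c hc ⟨_, rfl⟩; h2 ▸ h1

theorem fn1 (f : Ordinal.{u} → Ordinal.{u}) : Club fun Z => ∀ a ∈ Z, f a ∈ Z :=
  (fn3 fun a _ _ => f a).mono fun _ h a ha => h a ha a ha a ha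

theorem pred : Club.{u} fun Z => ∀ a, a + 1 ∈ Z → a ∈ Z :=
  (sk1 fun b a => b = a + 1).mono fun _ h a ha =>
    let ⟨_, h1, h2⟩ := h _ ha ⟨a, rfl⟩
    (Order.succ_injective (h2 : Order.succ a = Order.succ _)) ▸ h1

theorem ex (h : Club P) : ∃ Z, Z.Countable ∧ P Z :=
  let ⟨G, h1, h2⟩ := h
  let ⟨Z, _, h3, h4⟩ := exists_closed countable_empty G h1
  ⟨Z, h3, h2 Z h4⟩

/-- A countable closed set with its increasing enumeration. -/
theorem enum (h : Club P) : ∃ (p : Ordinal.{u} → Ordinal.{u}) (o : Ordinal.{u}),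
    StrictMono p ∧ o < ω₁ ∧ P (p '' Iio o) := by
  obtain ⟨Z, h1, h2⟩ := h.ex
  obtain ⟨p, o, h3, h4, h5, -⟩ := exists_enum h1
  refine ⟨p, o, h3, ?_, h5 ▸ h2⟩
  rw [← Cardinal.le_aleph0_iff_set_countable, Ordinal.mk_Iio_ordinal,
    ← Cardinal.lift_aleph0.{u + 1, u}, Cardinal.lift_le, ← Cardinal.lt_aleph_one_iff] at h4
  rw [← Cardinal.ord_aleph]
  exact Cardinal.lt_ord.2 h4

end Club

end Pool.Agent.KM
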