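import Pool.Agent.Lib.MP_5c0be7_lc.O.FO3
import Pool.Agent.Lib.MP_5c0be7_lc.K.Loc

/-!
Project KM, block K: the image of a critical point is a limit cardinal.
-/

namespace Pool.Agent.KM

open Ordinal Tr

universe u

namespace CritI

variable {E E' : Seq.{u}} {k t v : Ordinal.{u}} {e : Ordinal.{u} → Ordinal.{u}}

theorem df (l : LS E t) (l' : LS E' v) (h : Ext E k t E' v e) {A : PR.{u}} (hA : Df A) {b z}
    (hb : b < t) (i : In b z) : A E' (e b) (z.map e) ↔ A E b z :=
  hA.weak_lim h.weak l l' (KL.ext_lim h) hb le_rfl i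

theorem card (l : LS E t) (l' : LS E' v) (h : Ext E k t E' v e) : IsCard E' v (e k) := by
  intro a h1 h2
  obtain ⟨x, h3, h4⟩ := h.cof a h2
  have h5 : k < x := (KE.w_lt h.weak h.lt h3).1 (h1.trans_lt h4)
  exact (df l l' h (Df.isCard On.top (On.lab IsOp.id)) h3 (z := leaf k) (by simpa using h5)).2
    (fun b h6 h7 => h.card b h6 (h7.trans h3)) a h1 h4

theorem crit_lim (l : LS E t) (l' : LS E' v) (h : Ext E k t E' v e) (hf : ∀ x < k, e x = x)
    (hk : k < e k) (hc : IsCard E' v k) :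
    ∀ x < e k, ∃ y, x < y ∧ y < e k ∧ IsCard E' v y := by
  have D : Df.{u} fun E b z => ∃ y < b, z.lab < y ∧ IsCard E b y :=
    Df.oex (Q := fun E b y z => z.lab < y ∧ IsCard E b y) On.top
      ((Df.olt (On.lab IsOp.id.snd) (On.lab IsOp.id.fst)).and
        (Df.isCard On.top (On.lab IsOp.id.fst)))
  have h1 := (df l l' h (Df.oall (Q := fun E b x _ => ∃ y < b, x < y ∧ IsCard E b y) On.top
    (D.pre IsOp.id.fst)) h.lt (in_nil _)).2 fun x hx =>
      (df l l' h D h.lt (z := leaf x) (by simpa using hx)).1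
        ⟨k, hk, by simpa [hf x hx] using hx, KL.card_mono hc (h.weak.maps k h.lt).le⟩
  intro x hx
  obtain ⟨y, h2, h3, h4⟩ := h1 x hx
  exact ⟨y, h3, h2, fun a h5 h6 => (lt_or_ge a (e k)).elim (h4 a h5) fun h7 =>
    h2.le.trans (card l l' h a h7 h6)⟩

end CritI

instance : CritSt.{u} := ⟨fun _ _ _ _ _ _ => CritI.crit_lim⟩

end Pool.Agent.KM
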