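import Pool.Agent.Lib.MP_5c0be7_lc.K.StReal
import Pool.Agent.Lib.MP_5c0be7_lc.L.St

/-!
Project KM, block K: countable hulls of iteration trees. Definitions and statements.
-/

namespace Pool.Agent.KM

open Ordinal Tr

universe u

/-- `p` embeds the nodes below `c` of the countable tree `T0` in `T`; `p` is the collapse of a
hull of order type `o`. -/
structure IT.Emb (T0 T : IT.{u}) (p : Ordinal.{u} → Ordinal.{u}) (o c : Ordinal.{u}) : Prop where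
  root : RootEmb T0 T p
  cnt : o < ω₁
  lt : T0.n < c
  co : c < o
  bo : ∀ j < o, T0.b j < o
  fld : ∀ j < o, T0.nu j < o ∧ T0.ka j < o ∧ T0.ta j < o ∧ T0.la j < o ∧ T0.pr j < o ∧ T0.st j < o
  val : ∀ i < o, ∀ j < o, ∀ x < o, T0.e j x < o ∧ T0.im j x < o ∧ T0.mp i j x < o
  tr : ∀ j < c, T0.n ≤ j → T0.IsTr j
  pm0 : ∀ j < c, PM (T0.E j) (T0.b j + 1)
  pm : ∀ j < c, PM (T.E (p j)) (T.b (p j) + 1)
  str : ∀ j < c, Strong (T0.E j) (T0.b j + 1) (T.E (p j)) (T.b (p j) + 1) p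
  seq : ∀ j, T0.E j = pull p (T.E (p j))
  succ : ∀ x < o, x + 1 < o ∧ p (x + 1) = p x + 1
  lim : ∀ x < o, Order.IsSuccLimit x ↔ Order.IsSuccLimit (p x)
  b : ∀ j < o, p (T0.b j) = T.b (p j)
  nu : ∀ j < o, p (T0.nu j) = T.nu (p j)
  ka : ∀ j < o, p (T0.ka j) = T.ka (p j)
  ta : ∀ j < o, p (T0.ta j) = T.ta (p j)
  la : ∀ j < o, p (T0.la j) = T.la (p j)
  pr : ∀ j < o, p (T0.pr j) = T.pr (p j)
  st : ∀ j < o, p (T0.st j) = T.st (p j)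
  e : ∀ j < o, ∀ x < o, p (T0.e j x) = T.e (p j) (p x)
  im : ∀ j < o, ∀ x < o, p (T0.im j x) = T.im (p j) (p x)
  mp : ∀ i < o, ∀ j < o, ∀ x < o, p (T0.mp i j x) = T.mp (p i) (p j) (p x)
  le : ∀ i < o, ∀ j < o, T0.Le i j ↔ T.Le (p i) (p j)
  drop : ∀ j < o, T0.Drop j ↔ T.Drop (p j)
  nd : ∀ i < o, ∀ j < o, T0.ND i j ↔ T.ND (p i) (p j)
  rt : ∀ i < o, ∀ j < o, T0.Root i j ↔ T.Root (p i) (p j)
  sent : ∀ i < o, ∀ k < o, (∀ i' < i, T0.la i' ≤ k) → ∀ i' < p i, T.la i' ≤ p k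

/-- Countable hulls of trees. -/
class KHullSt : Prop where
  hull : ∀ {T : IT.{u}} {c : Ordinal.{u}} (A : Set Ordinal.{u}) (G : Tr.{u} → Set Ordinal.{u}),
    T.n < c → (∀ j < c, T.n ≤ j → T.IsTr j) → A.Countable → (∀ x, (G x).Countable) →
    ∃ T0 p o c0, IT.Emb T0 T p o c0 ∧ p c0 = c ∧ A ⊆ p '' Set.Iio o ∧
      ∀ x, In o x → G (x.map p) ⊆ p '' Set.Iio o
  use : ∀ {T0 T : IT.{u}} {p o c j v k t e}, IT.Emb T0 T p o c → j < c →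
    T.Use (p j) (p v) k t e →
    ∃ k0 t0 e0, T0.Use j v k0 t0 e0 ∧ p k0 = k ∧ p t0 = t ∧ ∀ x < t0, p (e0 x) = e (p x)
  pred : ∀ {T0 T : IT.{u}} {p o c j k t q s}, IT.Emb T0 T p o c → j < c →
    T.Pred (p j) (p k) (p t) (p q) (p s) → T0.Pred j k t q s
  wf : ∀ {E F : Seq.{u}} {d k t e}, ¬ UWf E d k t F e → ∃ A : Set Ordinal.{u}, A.Countable ∧
    ∀ (E0 F0 : Seq.{u}) d0 v0 v k0 t0 (e0 p : Ordinal.{u} → Ordinal.{u}), A ⊆ Set.range p →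
      StrictMono p → Weak E0 d0 E d p → (∀ x, p x < d → x < d0) → Weak F0 v0 F v p →
      p k0 = k → p t0 = t → k0 < t0 → t0 ≤ d0 → (∀ x < t0, e0 x < v0 ∧ p (e0 x) = e (p x)) →
      ¬ UWf E0 d0 k0 t0 F0 e0
  refl : ∀ {T : IT.{u}} {g j v k t e q s}, T.IsTr j → T.Use j v k t e → T.Pred j k t q s →
    ¬ UWf (T.E q) (s + 1) k t (T.E j) e →
    ∃ T0 p o g0 j0 v0 k0 t0 e0 q0 s0, IT.Emb T0 T p o (j0 + 1) ∧ p g0 = g ∧ p j0 = j ∧ p k0 = k ∧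
      T0.Use j0 v0 k0 t0 e0 ∧ T0.Pred j0 k0 t0 q0 s0 ∧
      ¬ UWf (T0.E q0) (s0 + 1) k0 t0 (T0.E j0) e0

end Pool.Agent.KM
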