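import Pool.Agent.Lib.MP_5c0be7_lc.K.Real1
import Pool.Agent.Lib.MP_5c0be7_lc.K.StHu
import Pool.Agent.Lib.MP_5c0be7_lc.P.St

/-!
Project KM, block K: the Dodd-Jensen lemma.
-/

namespace Pool.Agent.KM

open Ordinal Tr KE _root_.Pool.Agent.KM.Real
open scoped Classical

universe u

namespace DJ

variable {C : Cfg.{u}} {T : IT.{u}} {E E' : Seq.{u}} {a b b' c g j k r t x : Ordinal.{u}}
  {f s q : Ordinal.{u} → Ordinal.{u}} {n : Cn.{u}}

/-- The map of root `i` into root `0`. -/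
noncomputable def sg (q : Ordinal.{u} → Ordinal.{u}) (i : Ordinal.{u}) :
    Ordinal.{u} → Ordinal.{u} := if i = 0 then id else q

theorem sg_zero : sg q 0 = id := if_pos rfl

theorem sg_one : sg q 1 = q := if_neg one_ne_zero

/-- The second root, if any, embeds in the first one. -/
def Two (T : IT.{u}) (q : Ordinal.{u} → Ordinal.{u}) : Prop :=
  T.n ≤ 1 ∧ (T.n = 1 → Good (T.E 1) (T.b 1) (T.E 0) q ∧ q (T.b 1) = T.b 0 ∧ ∀ x < T.la 0, q x = x)

theorem Two.cases (h : Two T q) (hr : r ≤ T.n) : r = 0 ∨ (r = 1 ∧ T.n = 1) := by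
  rcases Order.le_one_iff.1 (hr.trans h.1) with h1 | h1
  · exact Or.inl h1
  · exact Or.inr ⟨h1, le_antisymm h.1 (h1 ▸ hr)⟩

theorem Two.le (h : Two T q) (hr : r ≤ T.n) (hx : x ≤ T.b r) : sg q r x ≤ T.b 0 := by
  rcases h.cases hr with rfl | ⟨rfl, h1⟩
  · rw [sg_zero]; exact hx
  · obtain ⟨h2, h3, -⟩ := h.2 h1
    rw [sg_one, ← h3]
    exact (w_le h2.toWeak (lt1 hx) (lt_add_one _)).2 hx

theorem rz_comp (h : Rz C g E b n s) (hf : Good E' b' E f) (hb : f b' = b) :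
    Rz C g E' b' n (s ∘ f) := by
  subst hb
  exact ⟨h.ok, good_comp hf h.good, h.top, fun x hx hg =>
    h.base _ (le1 (hf.maps x (lt1 hx))) (hg.trans (w_self hf.toWeak (lt1 hx)))⟩

variable [KEvSt.{u}] [KGoodSt.{u}]

theorem ag_res (h : Rz C g E b n s) (hc : c ≤ b) (hg : g ≤ c) (hk : IsCard E (b + 1) k)
    (hkb : k < rho E b) (hkt : k < t) (ht : t ≤ c) :
    Ag n.E s (rn C n s c).E (rm C n s c) k t := by
  obtain ⟨-, -, h3, -, -, h6⟩ := res_spec h.ok (rz_le h hc) (h.base c hc hg)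
  have hw := h.good.toWeak
  have hkc : k < c := hkt.trans_le ht
  have hk1 : k < b := hkc.trans_le hc
  have hs : s k < s c := (w_lt hw (lt1 hk1.le) (lt1 hc)).2 hkc
  have fix : ∀ y < s k, (res C n (s c)).2 y = y := fun y hy => by
    refine h6 y (fun a h1 h2 => ?_) y le_rfl
    rw [← h.top] at h2
    rcases (le1 h2).eq_or_lt with rfl | h2
    · exact hy.trans (h.good.proj k hkb)
    · exact hy.trans_le (h.good.card k k hk1 hk1
        (fun a h4 h5 => hk a h4 (h5.trans (lt_add_one b))) a (hs.le.trans (le_self_add.trans h1)) h2)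
  refine ⟨w_self h3.toWeak (lt1 hs.le), fun m v hm hv => ?_⟩
  have h7 : In (s c + 1) (m.map s) := in_map fun z hz =>
    lt1 ((w_le hw (lt1 (((hm z hz).le.trans ht).trans hc)) (lt1 hc)).2 ((hm z hz).le.trans ht))
  have h8 := w_nm h3.toWeak h7 (hv.mono (hs.le.trans le_self_add))
  rw [map_eq_self (t := v) fun z hz => fix z (hv z hz)] at h8
  rw [rm, map_comp]
  exact h8.symm

theorem rootRz (hP : T.Phal) (h2 : Two T q) (h : Rz C g (T.E 0) (T.b 0) n s) :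
    RootRz C g T (fun _ => n) fun i => s ∘ sg q i := by
  refine ⟨fun i hi => ?_, fun i j k t c h3 h4 hg _ _ hk ht hc hn hl => ?_⟩
  · rcases h2.cases hi with rfl | ⟨rfl, h1⟩
    · rw [sg_zero]; exact h
    · rw [sg_one]; exact rz_comp h (h2.2 h1).1 (h2.2 h1).2.1
  rcases h2.cases h4 with rfl | ⟨rfl, h1⟩
  · simp at h3
  obtain rfl : i = 0 := Order.lt_one_iff.1 h3
  obtain ⟨q1, q2, q3⟩ := h2.2 h1
  have hb : t ≤ T.b 1 := ht.trans (hP.le' 0 1 h3 h4)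
  have hk1 : k < T.b 1 := hn.1.trans_le hb
  have h5 : k < rho (T.E 0) (T.b 0) := by
    have := q1.proj k (hn.2.2.2 _ hb (lt_add_one _))
    rwa [q3 k hk, q2] at this
  have h6 : IsCard (T.E 0) (T.b 0 + 1) k := fun a h6 h7 => by
    rcases (le1 h7).eq_or_lt with rfl | h7
    · exact h5.le
    · have := q1.card k k hk1 hk1 (fun a h8 h9 => hc a h8 (h9.trans (lt_add_one _))) a
      rw [q3 k hk, q2] at this
      exact this h6 h7
  rw [sg_zero, sg_one]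
  have h7 : Eqv n.E (s ∘ q) n.E s t := fun x hx =>
    ⟨congrArg s (q3 x (hx.trans_le ht)), fun _ _ => rfl⟩
  exact h7.ag_trans hn.1 (ag_res h hl.st_le ((hg.trans hn.1.le).trans hl.ta_le) h6 h5 hn.1 hl.ta_le)

variable [KRealSt.{u}] [KTreeSt.{u}]

/-- The lemma for countable trees with a realised first root. -/
theorem ctb (hT : T.IsTr j) (hA : T.Above g j) (hC : T.Ctb j) (h2 : Two T q) (hr : T.Root r j)
    (hex : ∃ n s, Rz C g (T.E 0) (T.b 0) n s) (hg : g ≤ T.b 0)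
    (hf : Good (T.E 0) (T.b 0) (T.E j) f) (hb : f (T.b 0) ≤ T.b j) (hx : x ≤ T.b r) :
    T.ND r j ∧ f (T.b 0) = T.b j ∧ T.mp r j x ≤ f (sg q r x) := by
  obtain ⟨n1, s1, hex⟩ := hex
  obtain ⟨⟨n, s⟩, h, hmin⟩ := (InvImage.wf
    (fun p : Cn.{u} × (Ordinal.{u} → Ordinal.{u}) => toLex (p.1.r, p.2 (sg q r x)))
    wellFounded_lt).has_min {p | Rz C g (T.E 0) (T.b 0) p.1 p.2} ⟨(n1, s1), hex⟩
  have h : Rz C g (T.E 0) (T.b 0) n s := h
  have h0 := rootRz hT.phal h2 h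
  obtain ⟨N, S, -, hR, he, -⟩ := KRealSt.real (C := C) (fun _ _ _ _ => ∅)
    (fun _ _ _ _ => Set.countable_empty) (fun _ _ _ _ _ _ _ _ _ => rfl) hT hA hC le_rfl hT.le
    ⟨h0, fun i hi => ⟨h0.rz i hi, fun k h3 h4 => absurd (h4 ▸ hi.trans h3) (by simp),
      fun h3 => absurd hi (not_le.2 h3)⟩⟩
  obtain ⟨r1, r2, r3⟩ := KRealSt.rank hT hA hR le_rfl hr.2.1 hr.2.2
  rw [(he r hr.1).1] at r1 r2 r3
  rw [(he r hr.1).2] at r3
  have hj := (hR.node j le_rfl).rz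
  have hgf : g ≤ f (T.b 0) := hg.trans (w_self hf.toWeak (lt_add_one _))
  have h1 := rz_comp (rz_res (isTr_pm hT le_rfl).toPM0 hj hb hgf) hf rfl
  have h3 := hmin (rn C (N j) (S j) (f (T.b 0)), rm C (N j) (S j) (f (T.b 0)) ∘ f) h1
  obtain ⟨-, -, -, k1, k2, -⟩ := res_spec hj.ok (rz_le hj hb) (hj.base _ hb hgf)
  simp only [InvImage, Prod.Lex.toLex_lt_toLex, not_or, not_and, not_lt] at h3
  obtain ⟨h3, h4⟩ := h3
  have h5 : T.ND r j := by
    by_contra h5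
    exact absurd (k1.trans_lt (r2 h5)) (not_lt.2 h3)
  have h6 : f (T.b 0) = T.b j := by
    by_contra h6
    have h7 : S j (f (T.b 0)) < (N j).b := by
      rw [← hj.top]
      exact (w_lt hj.good.toWeak (lt1 hb) (lt_add_one _)).2 (lt_of_le_of_ne hb h6)
    exact absurd ((k2 h7).trans_le r1) (not_lt.2 h3)
  refine ⟨h5, h6, ?_⟩
  obtain ⟨h7, h8⟩ := r3 h5
  rw [h6, rn_top hj.top, rm_top hj.top] at h4
  have h9 := h4 (congrArg Cn.r h7)
  have h10 : f (sg q r x) < T.b j + 1 := h6 ▸ hf.maps _ (lt1 (h2.le hr.1 hx))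
  refine (w_le hj.good.toWeak ((KTreeSt.mp_strong hT le_rfl h5).maps x (lt1 hx)) h10).1 ?_
  rw [h8 x hx]
  exact h9

variable [KHullSt.{u}]

/-- The lemma for trees on one or two roots. -/
theorem main (hT : T.IsTr j) (hA : T.Above g j) (h2 : Two T q) (hr : T.Root r j)
    (hI : II C g (T.E 0) (T.b 0)) (hg : g ≤ T.b 0)
    (hf : Good (T.E 0) (T.b 0) (T.E j) f) (hb : f (T.b 0) ≤ T.b j) (hx : x ≤ T.b r) :
    T.ND r j ∧ f (T.b 0) = T.b j ∧ T.mp r j x ≤ f (sg q r x) := by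
  obtain ⟨T0, p, o, c0, H, hc, hA0, hG⟩ := KHullSt.hull (T := T) (c := j + 1) {j, g, x}
    (fun y => f '' y.lv ∪ q '' y.lv) (lt1 hT.le) (fun i h3 h4 => isTr_mono hT h4 (le1 h3))
    (Set.toFinite _).countable
    fun y => ((y.lv_finite.image f).union (y.lv_finite.image q)).countable
  obtain ⟨j0, hj0, rfl⟩ := hA0 (show j ∈ _ by simp)
  obtain ⟨g0, -, rfl⟩ := hA0 (show g ∈ _ by simp)
  obtain ⟨x0, hx0, rfl⟩ := hA0 (show x ∈ _ by simp)
  have hm := H.root.mono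
  have p0 : p 0 = 0 := H.root.fin 0 omega0_pos
  have p1 : p 1 = 1 := H.root.fin 1 one_lt_omega0
  obtain rfl : c0 = j0 + 1 := hm.injective (hc.trans (H.succ j0 hj0).2.symm)
  have hn : T0.n = T.n :=
    hm.injective (H.root.n.trans (H.root.fin _ (h2.1.trans_lt one_lt_omega0)).symm)
  have pr : p r = r := H.root.fin _ ((hr.1.trans h2.1).trans_lt one_lt_omega0)
  have hnj : T0.n ≤ j0 := le1 H.lt
  have hro : r < o := ((hn ▸ hr.1).trans hnj).trans_lt hj0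
  have h0o : 0 < o := zero_le.trans_lt hj0
  have inv : ∀ h : Ordinal.{u} → Ordinal.{u}, (∀ y < o, h (p y) ∈ p '' Set.Iio o) →
      ∃ h0 : Ordinal.{u} → Ordinal.{u}, ∀ y < o, h0 y < o ∧ p (h0 y) = h (p y) := fun h hh => by
    choose! h0 h3 h4 using hh
    exact ⟨h0, fun y hy => ⟨h3 y hy, h4 y hy⟩⟩
  obtain ⟨f0, hf0⟩ := inv f fun y hy => hG (leaf y) (by simpa using hy) (Or.inl ⟨_, rfl, rfl⟩)
  obtain ⟨q0, hq0⟩ := inv q fun y hy => hG (leaf y) (by simpa using hy) (Or.inr ⟨_, rfl, rfl⟩)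
  have good : ∀ i ≤ j0, Good (T0.E i) (T0.b i) (T.E (p i)) p := fun i hi => by
    have h3 := H.b i (hi.trans_lt hj0)
    exact KGoodSt.strong_good (H.pm0 i (lt1 hi)).toPM0 (h3 ▸ (H.pm i (lt1 hi)).toPM0)
      (h3 ▸ H.str i (lt1 hi))
  have back : ∀ i ≤ j0, ∀ m ≤ j0, ∀ h h0 : Ordinal.{u} → Ordinal.{u},
      (∀ y < o, h0 y < o ∧ p (h0 y) = h (p y)) → Good (T.E (p i)) (T.b (p i)) (T.E (p m)) h →
      h (T.b (p i)) ≤ T.b (p m) →
      Good (T0.E i) (T0.b i) (T0.E m) h0 ∧ h0 (T0.b i) ≤ T0.b m := fun i hi m hm' h h0 h3 h4 h5 => by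
    have h6 := H.b i (hi.trans_lt hj0)
    have h7 := H.b m (hm'.trans_lt hj0)
    have h8 := H.bo i (hi.trans_lt hj0)
    have h9 : h0 (T0.b i) ≤ T0.b m := hm.le_iff_le.1 (by rw [(h3 _ h8).2, h6, h7]; exact h5)
    refine ⟨good_cancel (s' := p) (strong_restrict (h7 ▸ H.str m (lt1 hm')) h9)
      (good_congr (good_comp (good i hi) (h6 ▸ h4)) fun z hz => (h3 z (hz.trans_lt h8)).2)
      fun a ha => hm.le_iff_le.1 ?_, h9⟩
    rw [(h3 _ h8).2, (h3 _ (ha.trans_lt h8)).2, h6]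
    have h10 : p a ≤ T.b (p i) := h6 ▸ hm.monotone ha
    exact (w_le h4.toWeak (lt1 h10) (lt_add_one _)).2 h10
  have hb0 : p (T0.b 0) = T.b 0 := by rw [H.b 0 h0o, p0]
  obtain ⟨k1, k2⟩ := back 0 zero_le j0 le_rfl f f0 hf0 (by rwa [p0]) (by rwa [p0])
  have k3 : Two T0 q0 := ⟨hn ▸ h2.1, fun h3 => by
    obtain ⟨q1, q2, q3⟩ := h2.2 (hn ▸ h3)
    have h4 : 1 ≤ j0 := h3 ▸ hnj
    have h5 := H.bo 1 (h4.trans_lt hj0)
    refine ⟨(back 1 h4 0 zero_le q q0 hq0 (by rwa [p0, p1]) (by rw [p0, p1, q2])).1,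
      hm.injective ?_, fun y hy => hm.injective ?_⟩
    · rw [(hq0 _ h5).2, H.b 1 (h4.trans_lt hj0), p1, q2, hb0]
    · rw [(hq0 y (hy.trans (H.fld 0 h0o).2.2.2.1)).2, q3]
      rw [← p0, ← H.la 0 h0o]
      exact hm hy⟩
  have k4 : sg q0 r x0 < o ∧ p (sg q0 r x0) = sg q r (p x0) := by
    unfold sg
    split_ifs
    · exact ⟨hx0, rfl⟩
    · exact hq0 x0 hx0
  obtain ⟨l1, l2, l3⟩ := ctb (C := C) (g := g0) (x := x0) (H.tr j0 (lt_add_one _) hnj)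
    (fun i h3 h4 => hm.le_iff_le.1 (by
      rw [H.ka i (h4.trans hj0)]
      exact hA _ (H.root.n ▸ hm.monotone h3) (hm h4)))
    (fun i hi => (H.bo i (hi.trans_lt hj0)).trans H.cnt) k3
    ((H.rt r hro j0 hj0).2 (by rwa [pr]))
    (hI _ _ g0 p ((H.bo 0 h0o).trans H.cnt) (H.pm0 0 (lt1 zero_le)).toPM0
      (by simpa only [p0] using good 0 zero_le) hb0 fun y _ hy => hm.monotone hy)
    (hm.le_iff_le.1 (hb0 ▸ hg)) k1 k2 (hm.le_iff_le.1 (by rwa [H.b r hro, pr]))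
  refine ⟨pr ▸ (H.nd r hro j0 hj0).1 l1, ?_, ?_⟩
  · rw [← hb0, ← (hf0 _ (H.bo 0 h0o)).2, l2, H.b j0 hj0]
  · have h3 := hm.monotone l3
    rwa [H.mp r hro j0 hj0 x0 hx0, pr, (hf0 _ k4.1).2, k4.2] at h3

theorem two {T : IT.{u}} (hI : II C g E b) (hs : Good E' b' E q) (hq : q b' = b)
    (hfix : ∀ x < a, q x = x) (he : (IT.two E b E' b' a).EqLt T 2) (hT : T.IsTr j)
    (hA : T.Above g j) (hr : T.Root r j) (hg : g ≤ b) (hf : Good E b (T.E j) f)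
    (hb : f b ≤ T.b j) :
    T.b 0 = b ∧ T.b 1 = b' ∧
      ∀ x ≤ T.b r, T.ND r j ∧ f b = T.b j ∧ T.mp r j x ≤ f (sg q r x) := by
  have n0 : T.nd 0 = Nd.root E b 0 := (he.2 0 two_pos).trans (if_pos rfl)
  have n1 : T.nd 1 = Nd.root E' b' a := (he.2 1 one_lt_two).trans (if_neg one_ne_zero)
  have e0 : T.E 0 = E := congrArg Nd.E n0
  have b0 : T.b 0 = b := congrArg Nd.b n0
  have e1 : T.E 1 = E' := congrArg Nd.E n1
  have b1 : T.b 1 = b' := congrArg Nd.b n1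
  have l0 : T.la 0 = a := by rw [IT.la, zero_add, n1]; rfl
  subst e0 b0 e1 b1 l0
  exact ⟨rfl, rfl, fun x hx =>
    main hT hA ⟨he.1.le, fun _ => ⟨hs, hq, hfix⟩⟩ hr hI hg hf hb hx⟩

end DJ

variable [KEvSt.{u}] [KGoodSt.{u}] [KRealSt.{u}] [KTreeSt.{u}] [KHullSt.{u}]

instance : KDJSt.{u} where
  one := fun {C g b j E T f} hI he hT hA hg hf hb => by
    have n0 : T.nd 0 = Nd.root E b 0 := he.2 0 one_pos
    have e0 : T.E 0 = E := congrArg Nd.E n0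
    have b0 : T.b 0 = b := congrArg Nd.b n0
    have hn : T.n = 0 := he.1
    subst e0 b0
    have h := fun x hx => DJ.main (r := 0) (q := id) (x := x) hT hA
      ⟨hn ▸ zero_le, fun h => absurd (hn ▸ h) zero_ne_one⟩
      ⟨zero_le, zero_le' T j, fun m h _ => hn ▸ h⟩ hI hg hf hb hx
    exact ⟨(h 0 zero_le).1, (h 0 zero_le).2.1, fun x hx => by
      simpa only [DJ.sg_zero, id] using (h x hx).2.2⟩
  two := fun hI hs hq hfix he hT hA hr hg hf hb => by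
    obtain ⟨h0, -, h⟩ := DJ.two hI hs hq hfix he hT hA hr hg hf hb
    exact ⟨(h 0 zero_le).1, (h 0 zero_le).2.1, fun x hx => by
      simpa only [DJ.sg_zero, id] using (h x (h0 ▸ hx)).2.2⟩

instance : DJ1St.{u} where
  two1 := fun hI hs hq hfix he hT hA hr hg hf hb => by
    obtain ⟨-, h1, h⟩ := DJ.two hI hs hq hfix he hT hA hr hg hf hb
    exact ⟨(h 0 zero_le).1, (h 0 zero_le).2.1, fun x hx => by
      simpa only [DJ.sg_one] using (h x (h1 ▸ hx)).2.2⟩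

end Pool.Agent.KM
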