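import Pool.Agent.Lib.MP_5c0be7_lc.K.Max
import Pool.Agent.Lib.MP_5c0be7_lc.O.Once
import Pool.Agent.Lib.MP_5c0be7_lc.L.St
import Pool.Agent.Lib.MP_5c0be7_lc.O.Api
import Pool.Agent.Lib.MP_5c0be7_lc.T.Ae2

/-!
Project KM, block K: an extender is cut at its least cutpoint; maximality for total extenders.
-/

namespace Pool.Agent.KM

open Ordinal Cardinal Tr Set KE KL KMax
open scoped Classical

universe u

namespace KExt

variable {E E' : Seq.{u}} {a b b' d k l r t v x y Om : Ordinal.{u}}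
  {e : Ordinal.{u} → Ordinal.{u}} {C : Cfg.{u}} {w w' : Tr.{u}}

/-- `w` is computed at level `e b` from `l` and the range of `e`. -/
def Rep (E' : Seq.{u}) (e : Ordinal.{u} → Ordinal.{u}) (l b : Ordinal.{u}) (w : Tr.{u}) : Prop :=
  ∃ c z x, In b z ∧ In l x ∧ ev E' (e b) c (node x (z.map e)) = some w

/-- The ordinals generated by `l` and the functions named below `t`. -/
def Hu (E' : Seq.{u}) (e : Ordinal.{u} → Ordinal.{u}) (t l : Ordinal.{u}) : Set Ordinal.{u} :=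
  {y | ∃ f a, In t f ∧ In l a ∧ fv E' (f.map e) a = some (leaf y)}

theorem Rep.ev (h : Rep E' e l b w) {c : Tr.{u}} (h' : ev E' (e b) c w = some w') :
    Rep E' e l b w' :=
  let ⟨c0, z, x, h1, h2, h3⟩ := h
  ⟨cmp .fst c c0, z, x, h1, h2, by rw [ev_cmp, h3]; exact h'⟩

theorem Rep.mem (h : Rep E' e l b w) : In (e b) w := let ⟨_, _, _, _, _, h3⟩ := h; ev_in h3

theorem Rep.op (h : Rep E' e l b w) (a : Op) : Rep E' e l b (bop a w) := h.ev (ev_opc a h.mem)

theorem Rep.pair (h : Rep E' e l b w) (h' : Rep E' e l b w') : Rep E' e l b (node w w') := by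
  obtain ⟨c, z, x, h1, h2, h3⟩ := h
  obtain ⟨c', z', x', h4, h5, h6⟩ := h'
  have i1 := in_of_ev_eq h3
  have i2 := in_of_ev_eq h6
  have i : In (e b) (node (node x x') ((node z z').map e)) := by
    simp only [map_node, in_node] at i1 i2 ⊢
    exact ⟨⟨i1.1, i2.1⟩, i1.2, i2.2⟩
  refine ⟨pairc (prec (.pair .ff .fs) c) (prec (.pair .sf .ss) c'), node z z', node x x',
    by simp [h1, h4], by simp [h2, h5], ev_pairc_some ?_ ?_⟩
  · rw [ev_prec _ _ i]; exact h3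
  · rw [ev_prec _ _ i]; exact h6

theorem Rep.up (h : Rep E' e l b w) (h1 : b ≤ b') (h2 : b < b' → e b < e b') :
    Rep E' e l b' w := by
  rcases h1.eq_or_lt with rfl | h1
  · exact h
  obtain ⟨c, z, x, h3, h4, h5⟩ := h
  have i := (in_of_ev_eq h5).mono (h2 h1).le
  refine ⟨prec (.pair .fs (.pair .ff (.pair .sf .ss))) callc, node (leaf b) z, node c.erase x,
    by simp [h1, h3.mono h1.le], by simp [h4], ?_⟩
  rw [ev_prec _ _ (by simpa [h2 h1] using i)]
  simp only [map_node, map_leaf, bop_pair, bop_fs, bop_ff, bop_sf, bop_ss, fst_node, snd_node]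
  rw [ev_callc (h2 h1) _ (in_erase _ _), ev_erase, h5]

theorem Rep.lv (h : Rep E' e l b w) (hy : y ∈ w.lv) : Rep E' e l b (leaf y) := by
  induction w with
  | nil => simp at hy
  | leaf a => obtain rfl : y = a := by simpa using hy
              exact h
  | node p q ihp ihq => exact hy.elim (ihp (h.op .fst)) (ihq (h.op .snd))

theorem rep_nil (b : Ordinal.{u}) : Rep E' e l b .nil :=
  ⟨opc .nil, .nil, .nil, in_nil _, in_nil _, ev_opc _ (by simp)⟩

theorem rep_lf (b : Ordinal.{u}) (c : Tr.{u}) : Rep E' e l b c.erase :=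
  ⟨opc .fst, .nil, c.erase, in_nil _, in_erase _ _, ev_opc _ (by simp)⟩

variable (hw : Weak E t E' v e)
include hw

theorem Rep.up' (h : Rep E' e l b w) (h1 : b ≤ b') (h2 : b' < t) : Rep E' e l b' w :=
  h.up h1 fun i => (w_lt hw (i.trans h2) h2).2 i

theorem mem_hu : y ∈ Hu E' e t l ↔ ∃ b < t, Rep E' e l b (leaf y) := by
  constructor
  · rintro ⟨f, a, h1, h2, h3⟩
    unfold fv at h3
    split_ifs at h3 with h4
    rw [map_fst] at h4 h3
    obtain ⟨b, h5, h6⟩ := map_eq_leaf.1 h4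
    have hb : b < t := by simpa [h5] using h1.fst
    rw [← h6, map_snd, map_snd] at h3
    exact ⟨b, hb, _, f.snd.snd, a, (w_in_iff hw h1.snd.snd hb).1 (in_of_ev_eq h3).snd, h2, h3⟩
  · rintro ⟨b, hb, c, z, x, h1, h2, h3⟩
    exact ⟨node (leaf b) (node c.erase z), x, by simp [hb, h1.mono hb.le], h2, by simpa [fv]⟩

theorem hu_lt (h : y ∈ Hu E' e t l) : y < v :=
  let ⟨b, h1, h2⟩ := (mem_hu hw).1 h
  lt_trans (by simpa using h2.mem) (hw.maps b h1)

theorem rep_tree (hb : b < t) (h : w.lv ⊆ Hu E' e t l) :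
    ∃ b' < t, b ≤ b' ∧ Rep E' e l b' w := by
  induction w with
  | nil => exact ⟨b, hb, le_rfl, rep_nil b⟩
  | leaf a =>
    obtain ⟨b', h1, h2⟩ := (mem_hu hw).1 (h (show a ∈ (leaf a).lv by simp))
    exact ⟨max b b', max_lt hb h1, le_max_left _ _, h2.up' hw (le_max_right _ _) (max_lt hb h1)⟩
  | node p q ihp ihq =>
    obtain ⟨b1, h1, h2, h3⟩ := ihp (subset_union_left.trans h)
    obtain ⟨b2, h4, -, h5⟩ := ihq (subset_union_right.trans h)
    exact ⟨max b1 b2, max_lt h1 h4, h2.trans (le_max_left _ _),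
      (h3.up' hw (le_max_left _ _) (max_lt h1 h4)).pair
        (h5.up' hw (le_max_right _ _) (max_lt h1 h4))⟩

theorem hu_low (hk : k < t) (hl : l ≤ e k) : Iio l ⊆ Hu E' e t l := fun y hy =>
  (mem_hu hw).2 ⟨k, hk, opc .fst, .nil, leaf y, in_nil _, by simpa using hy,
    ev_opc _ (by simpa using hy.trans_le hl)⟩

theorem hu_ran (ht : ¬ Suc t) (hx : x < t) : e x ∈ Hu E' e t l :=
  have h := not_suc_iff.1 ht x hx
  (mem_hu hw).2 ⟨x + 1, h, opc .snd, leaf x, .nil, by simp, in_nil _,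
    ev_opc _ (by simpa using (w_lt hw hx h).2 (lt_add_one x))⟩

theorem hu_ev (ha : a ∈ Hu E' e t l) {c x : Tr.{u}} (hx : x.lv ⊆ Hu E' e t l)
    (h : ev E' a c x = some w) : w.lv ⊆ Hu E' e t l := by
  obtain ⟨b, hb, h0⟩ := (mem_hu hw).1 ha
  obtain ⟨b', h1, h2, h3⟩ := rep_tree hw hb hx
  have h4 := h0.up' hw h2 h1
  have h5 := (h4.pair ((rep_lf b' c).pair h3)).ev (c := callc) (w' := w) (by
    rw [ev_callc (by simpa using h4.mem) _ (in_erase _ _), ev_erase, h])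
  exact fun y hy => (mem_hu hw).2 ⟨b', h1, h5.lv hy⟩

theorem hu_succ (hl : LS E' v) (ht : ¬ Suc t) (hy : y ∈ Hu E' e t l) : y + 1 ∈ Hu E' e t l := by
  obtain ⟨b, hb, h0⟩ := (mem_hu hw).1 hy
  obtain ⟨n, ⟨c, -, h1⟩, -⟩ := (On.lab.{u} IsOp.id).succ.leaf
  have h2 := not_suc_iff.1 ht b hb
  have h3 := add_nat_lt ht h2 n
  have h4 : y + 1 < e (b + 1) :=
    (Order.add_one_le_iff.2 (by simpa using h0.mem)).trans_lt
      ((w_lt hw hb h2).2 (lt_add_one b))
  have h5 := h1 E' (e (b + 1)) (leaf y) (hl.mono (hw.add_nat n h3 ▸ (hw.maps _ h3).le))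
  rw [if_pos (by simpa using (lt_add_one y).trans h4), ← hw.add_nat n h3] at h5
  simp only [lab, min_eq_left h4.le, if_pos h4] at h5
  exact (mem_hu hw).2 ⟨_, h3,
    (h0.up' hw ((lt_add_one b).le.trans le_self_add) h3).ev h5⟩

omit hw in
theorem exists_cut {O : Cardinal.{u}} (hO : O.IsRegular) (h0 : ℵ₀ < O) (ht : t < O.ord)
    (hk : k < O.ord) : ∃ l < O.ord, k < l ∧ ∀ y ∈ Hu E' e t l, y < O.ord → y < l := by
  have hc : O.ord.cof = O := hO.cof_ord
  have key : ∀ l < O.ord, ∃ m < O.ord, Hu E' e t l ∩ Iio O.ord ⊆ Iio m := fun l hl => by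
    refine Sm.bdd (O := O) (lt_of_le_of_lt (mk_le_mk_of_subset (t := range
      fun q : {q : Tr.{u} | In (max t l) q} =>
        ((fv E' (q.1.fst.map e) q.1.snd).getD .nil).lab) ?_)
      (mk_range_le.trans_lt (mk_in_lt h0 (max_lt ht hl)))) hc.ge inter_subset_right
    rintro y ⟨⟨f, a, h1, h2, h3⟩, -⟩
    exact ⟨⟨node f a, by simp [h1.mono (le_max_left _ _), h2.mono (le_max_right _ _)]⟩,
      by simp [h3, lab]⟩
  choose! g g1 g2 using key
  obtain ⟨l, h1, h2, h3, h4⟩ := exists_pt isRegular_aleph0 (hc.symm ▸ h0) g g1 hk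
  refine ⟨l, h1, h2, fun y ⟨f, a, i1, i2, i3⟩ hy => ?_⟩
  obtain ⟨c, j1, j2, j3⟩ := h4 _ (i2.ht_lt (limit_of_cof h3.ge))
  exact lt_trans (g2 c (j2.trans h1) ⟨⟨f, a, i1, (in_ht a).mono j1.le, i3⟩, hy⟩) j3

omit hw in
/-- An extender without cutpoints that coheres with the weasel is put on the sequence. -/
theorem finish [MaxSt.{u}] (hN : NG Om) (h : KW C E Om) (hx : Ext E k t E' v e) (hk : ω < k)
    (hf : ∀ x < k, e x = x) (hm : k < e k) (hn : NoProj E k t Om) (hv : v < Om)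
    (H : Agree E' E v) (hc : IsCard E Om (e k)) (hA : TypeA E' k t e) (ho : OC E E' k t e) :
    ¬ C.al k := by
  have hek := hx.weak.maps k hx.lt
  have ht : t < v := (top_le hx.top fun a h1 h2 => by
    by_contra h3
    rcases lt_or_ge a Om with h4 | h4
    · exact h3 (hm.trans_le (hc a h1 h4))
    · exact absurd ((w_self hx.weak h2).trans_lt ((hx.weak.maps a h2).trans hv))
        (not_lt.2 h4)).trans_lt hek
  let E2 := upd E v fun x y => x < t ∧ y = e x
  have H1 : Agree E E2 v := upd_ag _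
  have H2 : Agree E' E2 v := ag_trans H H1
  refine MaxSt.max C E E2 Om v k t e hN h hv (ag_symm H1)
    ⟨ext_right H2 (ext_left (ag_mono H1 ht.le) hx), fun x y => by rw [show E2 v = _ from upd_self _],
      hk, hf, hm, ht, noProj_ag H1 (noProj_mono hn hv.le), typeA_ag H2 hx.weak.maps hA⟩ hc
    (oc_right H2 hx.weak.maps (oc_left (ag_mono H1 ht.le) ho))

end KExt

open KExt

variable [MaxSt.{u}] [CondSt.{u}] [CndSt.{u}] [KEvSt.{u}] [KGoodSt.{u}] [AccSt.{u}]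

theorem KExt.ext {C : Cfg.{u}} {E E' : Seq.{u}} {O : Cardinal.{u}} {k t v : Ordinal.{u}}
    {e : Ordinal.{u} → Ordinal.{u}} (hO : O.IsRegular) (h0 : ℵ₀ < O) (hN : NG O.ord)
    (h : KW C E O.ord) (hx : Ext E k t E' v e) (hk : ω < k) (hf : ∀ x < k, e x = x)
    (hm : k < e k) (hn : NoProj E k t O.ord) (ht : t < O.ord) (hE' : PM E' v)
    (H : Agree E' E (e k)) (hc : IsCard E O.ord (e k))
    (hI : ∀ b, e k ≤ b → b < v → II C C.be E' b ∧ CutPt E' b C.be)
    (hd : e k = O.ord ∨ (v < O.ord ∧ Agree E' E v)) (ho : OC E E' k t e) : ¬ C.al k := by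
  have hw := hx.weak
  have htl := ext_lim hx
  have hek := hw.maps k hx.lt
  have hE : PM E t := pm_mono (kw_pm h) (lt1 ht.le).le
  have hO' : e k ≤ O.ord := hd.elim le_of_eq fun i => (hek.trans i.1).le
  have hne : {l | k < l ∧ ∀ y ∈ Hu E' e t l, y < e k → y < l}.Nonempty :=
    ⟨e k, hm, fun _ _ i => i⟩
  obtain ⟨c1, c2⟩ := csInf_mem hne
  have c3 : ∀ l, k < l → (∀ y ∈ Hu E' e t l, y < e k → y < l) → _ ≤ l := fun l i j =>
    csInf_le' (s := {l | k < l ∧ ∀ y ∈ Hu E' e t l, y < e k → y < l}) ⟨i, j⟩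
  generalize sInf {l | k < l ∧ ∀ y ∈ Hu E' e t l, y < e k → y < l} = l at c1 c2 c3
  have c4 : ∀ l', k < l' → l' < l → ∃ y ∈ Hu E' e t l', l' ≤ y ∧ y < e k := fun l' i j => by
    by_contra hc
    exact absurd (c3 l' i fun y i1 i2 => not_le.1 fun i3 => hc ⟨y, i1, i3, i2⟩) (not_le.2 j)
  rcases (c3 _ hm fun _ _ i => i).eq_or_lt with rfl | hl
  · rcases hd with hd | hd
    · obtain ⟨l, i1, i2, i3⟩ := exists_cut (E' := E') (e := e) hO h0 ht (hx.lt.trans ht)
      exact absurd (c3 l i2 (hd ▸ i3)) (not_le.2 (hd ▸ i1))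
    · exact finish hN h hx hk hf hm hn hd.1 hd.2 hc (fun l i j =>
        let ⟨y, ⟨f, a, i1, i2, i3⟩, i4⟩ := c4 l i j; ⟨f, a, y, i1, i2, i3, i4⟩) ho
  intro hal
  -- the collapse of the hull
  set Z := Hu E' e t l
  set p := unc v Z
  set n := hb v Z
  have pm : StrictMono p := unc_strictMono
  have pv : ∀ a < n, p a < v := fun a => lt_hb_iff.1
  have pc : ∀ y ∈ Z, col v Z y < n ∧ p (col v Z y) = y := fun y hy =>
    ⟨col_lt_hb hy (hu_lt hw hy), unc_col hy⟩
  have ps : ∀ a < n, a + 1 < n ∧ p (a + 1) = p a + 1 := fun a ha => by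
    obtain ⟨i1, i2⟩ := pc _ (hu_succ hw hE'.ls htl (unc_mem ha))
    have i3 : a + 1 ≤ col v Z (p a + 1) :=
      Order.add_one_le_iff.2 (lt_col_iff.2 (lt_add_one _))
    exact ⟨i3.trans_lt i1, le_antisymm (i2 ▸ pm.monotone i3)
      (Order.add_one_le_iff.2 (pm (lt_add_one a)))⟩
  have hn0 : ¬ Suc n := not_suc_iff.2 fun a ha => (ps a ha).1
  obtain ⟨-, hp, hE1⟩ := CondSt.weak pm hn0 hE'.toPM0 pv (fun a ha => (ps a ha).2)
    fun a ha c x y i1 i2 z hz => ⟨_, unc_col (hu_ev hw (unc_mem ha) (by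
      rw [lv_map]; exact image_subset_iff.2 fun z hz => unc_mem ((i1 z hz).trans ha)) i2 hz)⟩
  have hE1 := hE1 hE'
  set E1 := pull p E'
  have pf : ∀ x < l, p x = x := fun x => unc_fix (hu_low hw hx.lt hl.le)
  let e1 : Ordinal.{u} → Ordinal.{u} := fun x => col v Z (e x)
  have pe : ∀ x < t, e1 x < n ∧ p (e1 x) = e x := fun x i => pc _ (hu_ran hw htl i)
  have hkl : e1 k = l := le_antisymm
    (col_le_iff.2 (not_lt.1 fun i => absurd (c2 _ (unc_mem (lt_hb_iff.2 (i.trans hek))) i)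
      (not_lt.2 le_unc)))
    (le_of_forall_lt fun x i => lt_col_iff.2 ((pf x i).trans_lt (i.trans hl)))
  have hpl : p l = e k := hkl ▸ (pe k hx.lt).2
  have pcof : ∀ y < v, ∃ x < n, y < p x := fun y hy =>
    let ⟨x, i1, i2⟩ := hx.cof y hy
    ⟨e1 x, (pe x i1).1, (pe x i1).2 ▸ i2⟩
  have hx1 : Ext E k t E1 n e1 :=
    ⟨hx.inf, hx.lt, weak_cancel hp (weak_congr hw fun z i => (pe z i).2) (fun a i => (pe a i).1)
      fun b i => absurd ⟨b, i⟩ htl, fun y hy =>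
        let ⟨x, i1, i2⟩ := hx.cof _ (pv y hy)
        ⟨x, i1, pm.lt_iff_lt.1 ((pe x i1).2 ▸ i2)⟩, hx.top, hx.card⟩
  have hf1 : ∀ x < k, e1 x = x := fun x i =>
    pm.injective (((pe x (i.trans hx.lt)).2.trans (hf x i)).trans (pf x (i.trans c1)).symm)
  have me : ∀ f : Tr.{u}, In t f → (f.map e1).map p = f.map e := fun f i => by
    rw [Tr.map_map]; exact map_congr fun a j => (pe a (i a j)).2
  have ml : ∀ a : Tr.{u}, In l a → a.map p = a := fun a i => map_eq_self fun z j => pf z (i z j)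
  have hln : l < n := hkl ▸ (pe k hx.lt).1
  -- cardinals
  have k1 : IsCard E' v (e k) := ext_card hE.toPM0 hE'.toPM0 hx
  have k2 : IsCard E' v k := fun a i1 i2 => by
    rcases lt_or_ge a (e k) with i3 | i3
    · rw [rho_lt H i3]
      rcases lt_or_ge a t with i4 | i4
      · exact hx.card a i1 i4
      · exact (hn a i4 (i3.trans_le hO')).le
    · exact hm.le.trans (k1 a i3 i2)
  have k3 : IsCard E1 n l := hkl ▸ ext_card hE.toPM0 hE1.toPM0 hx1
  have k4 : IsCard E' v l := fun a i1 i2 => not_lt.1 fun i3 => by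
    obtain ⟨y, j1, j2, j3⟩ := crit_lim hE.ls hE1.ls hx1 hf1 (hkl ▸ c1)
      (card_down hp hn0 (fun x i => pf x (i.trans c1)) k2) (hkl ▸ i3)
    rw [hkl] at j2
    have := card_up hE1.toPM0 hE'.toPM0 hp hn0 pcof (j2.trans hln) j3
    rw [pf y j2] at this
    exact absurd (this a (j2.le.trans i1) i2) (not_le.2 j1)
  -- condensation
  have key : ∀ x < n, ∃ a < n, x ≤ a ∧ rho E' a ≤ l ∧ a < e k ∧ Agree E1 E' a := fun x i => by
    obtain ⟨a, j1, j2, j3⟩ := ext_top hx1 (max x (l + 1)) (max_lt i (ps l hln).1)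
    rw [hkl] at j3
    have j4 : l < a := Order.add_one_le_iff.1 ((le_max_right _ _).trans j1)
    obtain ⟨b, rfl⟩ := suc_of_rho (hE1.ls a j2) (j3.trans_lt j4)
    have j5 : b < n := (lt_add_one b).trans j2
    have j6 : e k ≤ p b := hpl ▸ pm.monotone (le1 j4)
    have j7 : p b + 1 < v := (ps b j5).2 ▸ pv _ j2
    obtain ⟨j8, j9⟩ := CndSt.cond (pm_mono hE1 j2.le) (hE1.ls _ j2) (pm_mono hE' j7.le)
      (hI _ j6 (pv b j5)).1 (hI _ j6 (pv b j5)).2 (weak_restrict hp j2) j3 (le1 j4)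
      ((C.lt k hal).trans c1).le pf (hpl ▸ hl) (card_mono k4 j7.le)
      (hl.trans_le (k1 _ (j6.trans (lt_add_one _).le) j7))
    rw [rho_suc j9] at j3
    exact ⟨b + 1, j2, (le_max_left _ _).trans j1, j3, not_le.1 fun j =>
      absurd ((k1 _ j (j8.trans_lt (pv b j5))).trans j3) (not_le.2 hl), j9⟩
  have hnk : n < e k := by
    obtain ⟨y, j1, j2, j3⟩ := crit_lim hE.ls hE'.ls hx hf hm k2 hl
    refine lt_of_le_of_lt (le_of_forall_lt fun x i => ?_) j2
    obtain ⟨a, -, i2, i3, i4, -⟩ := key x i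
    exact i2.trans_lt (not_le.1 fun j => absurd ((j3 a j (i4.trans hek)).trans i3) (not_le.2 j1))
  have H1 : Agree E1 E n := fun x i =>
    let ⟨a, _, i2, _, _, i5⟩ := key _ (ps x i).1
    (i5 x (Order.add_one_le_iff.1 i2)).trans (H x (i.trans hnk))
  refine finish hN h hx1 hk hf1 (hkl ▸ c1) hn (hnk.trans_le hO') H1 ?_ ?_ ?_ hal
  · rw [hkl]
    intro a i1 i2
    rcases lt_or_ge a (e k) with i3 | i3
    · rw [← rho_lt H i3]; exact k4 a i1 (i3.trans hek)
    · exact hl.le.trans (hc a i3 i2)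
  · intro l' i1 i2
    rw [hkl] at i2 ⊢
    obtain ⟨y, ⟨f, a, j1, j2, j3⟩, j4, j5⟩ := c4 l' i1 i2
    have j6 : y < l := c2 y ⟨f, a, j1, j2.mono i2.le, j3⟩ j5
    have j7 := KN.wfv hp (w_in hx1.weak j1) (j2.mono (i2.trans hln).le)
    rw [me f j1, ml a (j2.mono i2.le), j3] at j7
    obtain ⟨w, j8, j9⟩ := Option.map_eq_some_iff.1 j7.symm
    obtain ⟨z, rfl, j10⟩ := map_eq_leaf.1 j9
    obtain rfl : z = y := pm.injective (j10.trans (pf y j6).symm)
    exact ⟨f, a, z, j1, j2, j8, j4, j6⟩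
  · intro Y hY
    obtain ⟨th, i1, i2⟩ := ho Y hY
    rw [hkl]
    refine ⟨th, fun z j1 j2 => i1 z j1 (j2.trans hl), fun m a j1 j2 j3 j4 => ?_⟩
    rw [← i2 m a j1 j2 j3 (j4.mono hl.le), ← KN.wnm hp (w_in hx1.weak j2) (j4.mono hln.le),
      me m j2, ml a j4]

instance : ExtSt.{u} := ⟨fun _ _ _ _ _ _ _ _ => KExt.ext⟩

end Pool.Agent.KM
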