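import Pool.Agent.Lib.MP_5c0be7_lc.O.FO2
import Pool.Agent.Lib.MP_5c0be7_lc.O.Once
import Pool.Agent.Lib.MP_5c0be7_lc.O.StF3
import Pool.Agent.Lib.MP_5c0be7_lc.K.Nm
import Pool.Agent.Lib.MP_5c0be7_lc.K.GoodI
import Pool.Agent.Lib.MP_5c0be7_lc.K.StFrag

/-!
Project KM, block K: the fragments of an extender on the sequence witness strongness.
-/

namespace Pool.Agent.KM

open Ordinal Tr
open scoped Classical

universe u

namespace FragMk

variable {E E' : Seq.{u}} {b d g h k l t v : Ordinal.{u}} {e : Ordinal.{u} → Ordinal.{u}}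

theorem nm_in {n q : Tr.{u}} (h : Nm E n q) (hn : In b n) : In b q := by
  obtain ⟨c, h1, h2⟩ := h
  exact (in_of_ev h2).fst.mono ((in_leaf _ _).1 (h1 ▸ hn.fst)).le

theorem not_suc_dom (h : Ext E k t E' v e) : ¬ Suc t := by
  rintro ⟨b, rfl⟩
  obtain ⟨x, h2, h3⟩ := h.cof (e b) (h.weak.top b rfl ▸ lt_add_one _)
  exact h3.not_ge (h.weak.mono.monotoneOn h2 (lt_add_one b) (KE.le1 h2))

theorem not_suc_idx (h : Ext E k t E' v e) : ¬ Suc v := by
  rintro ⟨y, rfl⟩
  obtain ⟨x, h2, h3⟩ := h.cof y (lt_add_one _)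
  exact h3.not_ge (KE.le1 (h.weak.maps x h2))

/-- Definable properties of all points of the stratum `k` pass along the extender map. -/
theorem up {A : Seq.{u} → Ordinal.{u} → Tr.{u} → Tr.{u} → Prop}
    (hA : Df fun E b w => A E b w.fst w.snd) (l : LS E t) (l' : LS E' v) (h : Ext E k t E' v e)
    {p : Tr.{u}} (hp : In t p) : ∃ b, In b p ∧ In (e b) (p.map e) ∧
      ((∀ x, In (e k) x → A E' (e b) x (p.map e)) ↔ ∀ x, In k x → A E b x p) := by
  have hz : In t (node (leaf k) p) := by simp [h.lt, hp]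
  have hb := hz.ht_lt (limit_of_not_suc (not_suc_dom h) h.lt.ne_bot)
  have hi := in_ht (node (leaf k) p)
  exact ⟨_, hi.snd, (h.weak.in_map hb hp).2 hi.snd,
    (Df.ball (P := fun E b x z => A E b x z.snd) (On.lab IsOp.id.fst)
      (hA.pre (IsOp.id.fst.pair IsOp.id.snd.snd))).weak_lim h.weak l l' (not_suc_dom h) hb le_rfl hi⟩

theorem up' {A : Seq.{u} → Tr.{u} → Tr.{u} → Prop} (hA : Df fun E _ w => A E w.fst w.snd)
    (l : LS E t) (l' : LS E' v) (h : Ext E k t E' v e) {p : Tr.{u}} (hp : In t p)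
    (H : ∀ x, In k x → A E x p) (x : Tr.{u}) (hx : In (e k) x) : A E' x (p.map e) :=
  let ⟨_, _, _, h1⟩ := up (A := fun E _ => A E) hA l l' h hp
  h1.2 H x hx

/-- The measures derived from an extender map form a fragment. -/
theorem real (L : LS E v) (h : Act E v k t e) (hl : l ≤ e k) :
    Frag E d k t l fun X a => Nm E (X.map e) a := by
  have L0 := L.mono h.dom.le
  have I := Fn.id.{u}
  have x := h.toExt
  refine ⟨fun X a hX ha _ => ?_, fun X Y a hX hY ha H => ?_,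
    fun X Y Z W a b c hX hY hZ hW ha hb hc h1 h2 h3 h4 => ?_, fun X a b hX ha hb H => ?_,
    fun X a b hX ha hb H => ?_, fun X a b hX ha hb H => ?_, fun X a b hX ha hb H => ?_,
    fun f w c b hf hw hc hb H => ?_, fun X r S hX hr _ H1 H2 H3 a ha hS => ?_⟩
  · rw [← KN.wnm h.weak hX (ha.mono h.lt.le), map_eq_self fun y hy => h.fix y (ha y hy)]
  · exact up' (A := fun E x p => Nm E p.fst x ∨ Nm E p.snd x)
      ((Df.nm I.snd.fst I.fst).or (Df.nm I.snd.snd I.fst)) L0 L x (p := node X Y) (by simp [hX, hY])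
      H a (ha.mono hl)
  · by_contra H
    refine up' (A := fun E x p => ¬ (Nm E p.fst.fst (node x.fst x.snd.fst) ∧
      Nm E p.fst.snd (node x.fst x.snd.snd) ∧ Nm E p.snd.fst (node x.snd.fst x.snd.snd) ∧
      Nm E p.snd.snd (node x.fst x.fst)))
      ((Df.nm I.snd.fst.fst (I.fst.fst.pair I.fst.snd.fst)).and
        ((Df.nm I.snd.fst.snd (I.fst.fst.pair I.fst.snd.snd)).and
        ((Df.nm I.snd.snd.fst (I.fst.snd.fst.pair I.fst.snd.snd)).and
        (Df.nm I.snd.snd.snd (I.fst.fst.pair I.fst.fst))))).not L0 L x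
      (p := node (node X Y) (node Z W)) (by simp [hX, hY, hZ, hW])
      (fun y hy k => H ⟨_, _, _, hy.fst, hy.snd.fst, hy.snd.snd, k⟩) (node a (node b c))
      (by simp [ha.mono hl, hb.mono hl, hc.mono hl]) ⟨h1, h2, h3, h4⟩
  · exact up' (A := fun E x p => Nm E p (node (node x.fst x.snd) x.fst))
      (Df.nm I.snd ((I.fst.fst.pair I.fst.snd).pair I.fst.fst)) L0 L x hX
      (fun y hy => H _ _ hy.fst hy.snd) (node a b) (by simp [ha.mono hl, hb.mono hl])
  · exact up' (A := fun E x p => Nm E p (node (node x.fst x.snd) x.snd))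
      (Df.nm I.snd ((I.fst.fst.pair I.fst.snd).pair I.fst.snd)) L0 L x hX
      (fun y hy => H _ _ hy.fst hy.snd) (node a b) (by simp [ha.mono hl, hb.mono hl])
  · exact up' (A := fun E x p => Lt x.fst x.snd → Nm E p (node x.fst x.snd))
      ((Df.lt I.fst.fst I.fst.snd).imp (Df.nm I.snd (I.fst.fst.pair I.fst.snd))) L0 L x hX
      (fun y hy => H _ _ hy.fst hy.snd) (node a b) (by simp [ha.mono hl, hb.mono hl])
  · exact up' (A := fun E x p => Nm E p (node x.fst x.snd) ↔ Lt x.fst x.snd ∧ Nm E x.snd x.fst)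
      ((Df.nm I.snd (I.fst.fst.pair I.fst.snd)).iff
        ((Df.lt I.fst.fst I.fst.snd).and (Df.nm I.fst.snd I.fst.fst))) L0 L x hX
      (fun y hy => H _ _ hy.fst hy.snd) (node a b) (by simp [ha.mono hl, hb.mono hl])
  · exact up' (A := fun E x p => Nm E p.snd (node x.fst x.snd) →
      ∃ z, Lt z x.snd ∧ Nm E p.fst (node x.fst z))
      ((Df.nm I.snd.snd (I.fst.fst.pair I.fst.snd)).imp
        (Df.lex (P := fun E _ z w => Nm E w.snd.fst (node w.fst.fst z)) IsOp.id.fst.snd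
          (Df.nm I.snd.snd.fst (I.snd.fst.fst.pair I.fst)))) L0 L x (p := node f w)
      (by simp [hf, hw]) (fun y hy => H _ _ hy.fst hy.snd) (node c b)
      (by simp [hc.mono hl, hb.mono hl])
  · obtain ⟨b1, i1, -, k1⟩ := up (A := fun E b x p => ∃ z, In b z ∧ Nm E p (node x z))
      (Df.ex' (P := fun E _ z w => Nm E w.snd (node w.fst z))
        (Df.nm I.snd.snd (I.snd.fst.pair I.fst))) L0 L x hr
    replace k1 := k1.2 fun y hy => (H1 y hy).imp fun z hz => ⟨((in_node _ _ _).1 (nm_in hz i1)).2, hz⟩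
    obtain ⟨b2, -, i2, k2⟩ := up (A := fun E b x p => ∀ z, In b z →
      Nm E p.fst (node x.fst x.snd) → Nm E p.snd (node x.fst z.fst) →
        Nm E p.snd (node x.snd z.snd) → Lt z.fst z.snd)
      (Df.all' (P := fun E _ z w => Nm E w.snd.fst (node w.fst.fst w.fst.snd) →
        Nm E w.snd.snd (node w.fst.fst z.fst) → Nm E w.snd.snd (node w.fst.snd z.snd) →
          Lt z.fst z.snd)
        ((Df.nm I.snd.snd.fst (I.snd.fst.fst.pair I.snd.fst.snd)).imp
          ((Df.nm I.snd.snd.snd (I.snd.fst.fst.pair I.fst.fst)).imp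
          ((Df.nm I.snd.snd.snd (I.snd.fst.snd.pair I.fst.snd)).imp
          (Df.lt I.fst.fst I.fst.snd))))) L0 L x (p := node X r) (by simp [hX, hr])
    replace k2 := k2.2 fun y hy z _ => H2 _ _ _ _ hy.fst hy.snd
    obtain ⟨z0, -, h0⟩ := k1 a (ha.mono hl)
    obtain ⟨z, ⟨a, ha, hS, hz⟩, hm⟩ := lt_wf.has_min
      {z | ∃ a, In l a ∧ Nm E S a ∧ Nm E (r.map e) (node a z)} ⟨z0, a, ha, hS, h0⟩
    obtain ⟨a', ha', hS', hF⟩ := H3 a ha hS
    obtain ⟨z', -, hz'⟩ := k1 a' (ha'.mono hl)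
    exact hm z' ⟨a', ha', hS', hz'⟩ (k2 (node a' a) (by simp [ha.mono hl, ha'.mono hl]) (node z' z)
      ((in_node _ _ _).2 ⟨(nm_in hz' i2.snd).snd, (nm_in hz i2.snd).snd⟩) hF hz' hz)

theorem congr {F G : Tr.{u} → Tr.{u} → Prop} (h : Frag E d k t l F)
    (e : ∀ X a, In t X → In l a → (G X a ↔ F X a)) : Frag E d k t l G := by
  have n : ∀ {a b}, In l a → In l b → In l (node a b) := fun ha hb => (in_node _ _ _).2 ⟨ha, hb⟩
  refine ⟨fun X a hX ha hl => (e X a hX hl).trans (h.fix X a hX ha hl),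
    fun X Y a hX hY ha H => ?_,
    fun X Y Z W a b c hX hY hZ hW ha hb hc h1 h2 h3 h4 => h.sat X Y Z W a b c hX hY hZ hW ha hb hc
      ((e _ _ hX (n ha hb)).1 h1) ((e _ _ hY (n ha hc)).1 h2) ((e _ _ hZ (n hb hc)).1 h3)
      ((e _ _ hW (n ha ha)).1 h4),
    fun X a b hX ha hb H => (e _ _ hX (n (n ha hb) ha)).2 (h.fst X a b hX ha hb H),
    fun X a b hX ha hb H => (e _ _ hX (n (n ha hb) hb)).2 (h.snd X a b hX ha hb H),
    fun X a b hX ha hb H k => (e _ _ hX (n ha hb)).2 (h.lt X a b hX ha hb H k),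
    fun X a b hX ha hb H => (e _ _ hX (n ha hb)).trans (h.nm X a b hX ha hb H),
    fun f w c b hf hw hc hb H k => ?_, fun X r S hX hr hS H1 H2 H3 =>
      h.wf X r S hX hr hS H1 H2 fun a ha k => ?_⟩
  · rw [e X a hX ha, e Y a hY ha]; exact h.ultra X Y a hX hY ha H
  · obtain ⟨a, h1, h2⟩ := h.normal f w c b hf hw hc hb H ((e _ _ hw (n hc hb)).1 k)
    exact ⟨a, h1, (e _ _ hf (n hc (h1.in hb))).2 h2⟩
  · obtain ⟨a', h1, h2, h3⟩ := H3 a ha k
    exact ⟨a', h1, h2, (e _ _ hX (n h1 ha)).1 h3⟩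

theorem make (L : LS E v) (A : Act E v k t e) (ht : t < h) (hh : h ≤ e k)
    (H : ∀ l < h, ∃ n, In h n ∧
      ∀ X a, In t X → In l a → (Nm E n (node X a) ↔ Nm E (X.map e) a)) : StrongTo E h k :=
  ⟨A.big, t, ht, ⟨A.lt, ht.le, A.top, fun a h1 h2 =>
    A.next a h1 (h2.trans_le (hh.trans (A.weak.maps k A.lt).le))⟩, fun l hl =>
    let ⟨n, h1, h2⟩ := H l hl
    ⟨n, h1, congr (real L A (hl.le.trans hh)) h2⟩⟩

theorem rel_iff {R : Ordinal.{u} → Ordinal.{u} → Prop} (hR : ∀ x y, R x y ↔ x < t ∧ y = e x)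
    (X y : Tr.{u}) : Tr.Rel R X y ↔ In t X ∧ y = X.map e := by
  induction X generalizing y with
  | nil => cases y <;> simp [Tr.Rel]
  | leaf a => cases y <;> simp [Tr.Rel, hR]
  | node l r ihl ihr =>
    cases y with
    | node l' r' => simp only [Tr.Rel, ihl, ihr, in_node, map_node, node.injEq]; tauto
    | _ => simp [Tr.Rel]

theorem ora_iff (A : Act E v k t e) (X y : Tr.{u}) :
    ora E v (node X y) ↔ In t X ∧ y = X.map e := by
  rw [ora, and_iff_right (not_suc_idx A.toExt)]; exact rel_iff A.graph X y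

/-- One code computes the measures of the extender with index `v` at level `v + 1`. -/
theorem code : ∃ c : Tr.{u}, c.erase = c ∧ ∀ (E : Seq.{u}) v k t e q, LS E (v + 1) → Act E v k t e →
    ((ev E (v + 1) c q).isSome ↔ In t q.fst ∧ In v q ∧ Nm E (q.fst.map e) q.snd) := by
  have I := IsOp.id.{u}
  have h0 : CF.{u} fun E b z => tv (ora E b z) := ⟨extc, rfl, fun E b z => (law E b).extc z⟩
  have hA := (h0.pre (I.snd.fst.pair I.fst)).and ((CF.op I.fst).nm (CF.op I.snd.snd))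
  obtain ⟨g, ⟨c, h1, h2⟩, h3⟩ := (Cp.zero (Code.post
    (I.fst.ite_nil (IsOp.nil.pair IsOp.nil) IsOp.nil) hA)).succ.find
  simp only [zero_add, Nat.cast_one, Nat.cast_zero, add_zero] at h2 h3
  refine ⟨c, h1, fun E v k t e q L A => ?_⟩
  rw [h2 E v q L]
  split_ifs with i
  swap
  · simp [i]
  obtain ⟨h4, h5⟩ := h3 E v q L i
  constructor
  · intro H
    obtain ⟨y, hy⟩ := Option.isSome_iff_exists.1 H
    obtain ⟨h6, h7⟩ := h4 y hy
    by_contra H'
    simp only [Option.bind_some, fst_node, snd_node, tv_eq_nil, ← nm_iff_call h6.fst,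
      ora_iff A] at h7
    split_ifs at h7 with k
    · exact H' ⟨k.1.1, i, k.1.2 ▸ k.2⟩
    · simp at h7
  · rintro ⟨h6, -, h7⟩
    have h8 := KE.w_in A.weak h6
    refine h5 _ h8 ?_
    simp only [Option.bind_some, fst_node, snd_node, tv_eq_nil, ← nm_iff_call h8.fst, ora_iff A]
    rw [if_pos ⟨⟨h6, trivial⟩, h7⟩]
    rfl

/-- The measures of an extender that is not the top one are named. -/
theorem named (L : LS E (v + 1)) (A : Act E v k t e) (hd : v + 1 < d) :
    ∃ n, In d n ∧ ∀ q, Nm E n q ↔ In t q.fst ∧ In v q ∧ Nm E (q.fst.map e) q.snd := by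
  obtain ⟨c, h1, h2⟩ := code.{u}
  obtain ⟨c', h3, h4⟩ := (Code.self h1).pre IsOp.id.fst
  refine ⟨node (leaf (v + 1)) (node c' .nil), by simp [hd, in_of_lf h3], fun q => ?_⟩
  rw [← h2 E v k t e q L A]
  unfold Nm NmL
  simp only [fst_node, snd_node, leaf.injEq, exists_eq_left']
  by_cases i : In (v + 1) q
  · rw [h4 E _ _ (by simpa using i)]; rfl
  · rw [ev_guard i, ev_guard (by simpa using i)]

theorem of_named [AccSt.{u}] (L : LS E v) (A : Act E v k t e) (hc : IsCard E d h) (ht : t < h)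
    (hh : h ≤ e k)
    (H : ∀ l < h, Named E d l fun q => In t q.fst ∧ In v q ∧ Nm E (q.fst.map e) q.snd) :
    StrongTo E h k := by
  refine make L A ht hh fun l hl => ?_
  have hm := max_lt ht hl
  obtain ⟨n, h1, h2⟩ := AccSt.acc_card E d _ h _ hc hm (H _ hm)
  refine ⟨n, h1, fun X a hX ha => ?_⟩
  have i : In (max t l) (node X a) :=
    (in_node _ _ _).2 ⟨hX.mono (le_max_left _ _), ha.mono (le_max_right _ _)⟩
  exact (h2 _ i).trans ⟨fun k => k.2.2, fun k =>
    ⟨hX, i.mono (hm.le.trans (hh.trans (A.weak.maps _ A.lt).le)), k⟩⟩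

/-- The field `strong` of `FragSt`. -/
theorem strong [AccSt.{u}] (P : PM0 E (b + 1)) (hv : v < b) (A : Act E v k t e)
    (hc : IsCard E (b + 1) g) (ht : t < g) (hg : g ≤ e k) : StrongTo E g k := by
  obtain ⟨n, h1, h2⟩ := named (P.ls.mono (KE.s1lt hv).le) A (KE.s1lt hv)
  exact of_named (P.ls.mono (hv.le.trans le_self_add)) A hc ht hg fun l _ => ⟨n, h1, fun q _ => h2 q⟩

/-- The field `frag` of `SmallSt`. -/
theorem frag [AccSt.{u}] [NamedSt.{u}] [AmenSt.{u}] (L : LS E v) (A : Act E v k t e) (ht : t < h)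
    (hh : h ≤ e k) (hc : IsCard E v h) (hr : h ≤ rho E (v + 1)) : StrongTo E h k := by
  obtain ⟨h1, h2⟩ := AmenSt.lev_act E v k t e L A
  have L' : LS E (v + 1) := fun a ha => (KE.le1 ha).lt_or_eq.elim (L a) fun k => k ▸ h2
  obtain ⟨c, -, h4⟩ := code.{u}
  refine of_named (d := v + 1) L A (fun a h5 h6 => (KE.le1 h6).lt_or_eq.elim (hc a h5) fun k => ?_)
    ht hh fun l hl => ?_
  · rw [k, h2.2 h1]; exact k ▸ h5
  · obtain ⟨n, h5, h6⟩ := NamedSt.dom E (v + 1) l c .fst .nil (hl.trans_le hr) (in_nil _)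
    exact ⟨n, h5, fun q hq => (h6 q hq).trans (h4 E v k t e q L' A)⟩

end FragMk

instance : FragMkSt.{u} := ⟨FragMk.make⟩

end Pool.Agent.KM
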