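import Pool.Agent.Lib.MP_5c0be7_lc.K.Hull1

/-!
Project KM, block K: the pull-back of an iteration tree is an iteration tree.
-/

namespace Pool.Agent.KM

open Ordinal Tr Set Function
open scoped Classical

universe u

namespace Hull

variable {T T0 : IT.{u}} {p e : Ordinal.{u} → Ordinal.{u}} {o c i j k l q s t v x : Ordinal.{u}}
  {E E0 E' E0' : Seq.{u}}

theorem tr_pm (h : T.IsTr l) (hj : j ≤ l) : PM (T.E j) (T.b j + 1) := by
  by_cases h1 : j ≤ T.n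
  · exact h.phal.pm j h1
  · have h2 := not_le.1 h1
    rcases zero_or_succ_or_isSuccLimit j with rfl | ⟨k, rfl⟩ | h3
    · exact absurd h2 (not_lt.2 zero_le)
    · exact (h.step k (KE.le1 h2) ((lt_add_one k).trans_le hj)).pm
    · exact (h.lim j h2 hj h3).pm

theorem use_congr {e' : Ordinal.{u} → Ordinal.{u}} (h : T.Use j v k t e)
    (he : ∀ x < t, e x = e' x) : T.Use j v k t e' :=
  ⟨KN.act_congr h.act he, h.le, he k h.act.lt ▸ h.inc, he k h.act.lt ▸ h.inc'⟩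

variable [KEvSt.{u}]

theorem card_down {b : Ordinal.{u}} (hp : StrictMono p) (h : Strong E0 (b + 1) E (p b + 1) p)
    (hc : IsCard E (p b + 1) (p k)) : IsCard E0 (b + 1) k := fun a h1 h2 =>
  le_of_forall_lt fun x hx => (KE.strong_rho h (KE.le1 h2) (hx.le.trans (h1.trans (KE.le1 h2)))).1
    ((hp hx).trans_le (hc _ (hp.monotone h1) (KE.lt1 (hp.monotone (KE.le1 h2)))))

theorem pred_aux (hp : StrictMono p) (hla : ∀ i ≤ q, p (T0.la i) = T.la (p i))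
    (hb : p (T0.b q) = T.b (p q))
    (hs : Strong (T0.E q) (T0.b q + 1) (T.E (p q)) (T.b (p q) + 1) p)
    (h : T.Pred (p j) (p k) (p t) (p q) (p s)) : T0.Pred j k t q s := by
  rw [← hb] at hs
  have h1 : s ≤ T0.b q := hp.le_iff_le.1 (hb ▸ h.st_le)
  have h2 : k < s := hp.lt_iff_lt.1 ((h.noproj _ h.ta_le (lt_add_one _)).trans_le KE.rho_le)
  refine ⟨hp.le_iff_le.1 h.le, fun h3 => hp.lt_iff_lt.1 (hla q le_rfl ▸ h.lt (hp h3)),
    fun i hi => hp.le_iff_le.1 (hla i hi.le ▸ h.min _ (hp hi)), hp.le_iff_le.1 h.ta_le, h1,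
    fun a h3 h4 => (KE.strong_rho hs ((KE.le1 h4).trans h1) (h2.le.trans h1)).1
      (h.noproj _ (hp.monotone h3) (KE.lt1 (hp.monotone (KE.le1 h4)))), fun h3 => ?_⟩
  have h4 := h.max (hb ▸ hp h3)
  rw [← KE.w_succ hs.toWeak (KE.s1lt h3)] at h4
  exact not_lt.1 fun h5 => h4.not_gt
    ((KE.strong_rho hs (Order.add_one_le_iff.2 h3) (h2.le.trans h1)).2 h5)

theorem use_aux [KActSt.{u}] (hp : StrictMono p) (hn : p T0.n = T.n)
    (hla : ∀ i < j, p (T0.la i) = T.la (p i)) (hb : p (T0.b j) = T.b (p j))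
    (h0 : PM0 (T0.E j) (T0.b j + 1)) (h1 : PM0 (T.E (p j)) (T.b (p j) + 1))
    (hs : Strong (T0.E j) (T0.b j + 1) (T.E (p j)) (T.b (p j) + 1) p)
    (h : T.Use (p j) (p v) k t e) :
    ∃ k0 t0 e0, T0.Use j v k0 t0 e0 ∧ p k0 = k ∧ p t0 = t ∧ ∀ x < t0, p (e0 x) = e (p x) := by
  rw [← hb] at hs h1
  have h2 : v ≤ T0.b j := hp.le_iff_le.1 (hb ▸ h.le)
  obtain ⟨k0, t0, e0, h3, rfl, rfl, h4⟩ := KActSt.good_act_down h0 h1 hs h2 h.act
  refine ⟨k0, t0, e0, ⟨h3, h2, fun i hi => hp.le_iff_le.1 ?_, fun i hi h5 => hp.lt_iff_lt.1 ?_⟩,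
    rfl, rfl, fun x hx => (h4 x hx).symm⟩
  · rw [hla i hi, ← h4 _ h3.lt]; exact h.inc _ (hp hi)
  · rw [hla i hi, ← h4 _ h3.lt]; exact h.inc' _ (hp hi) (hn ▸ hp.monotone h5)

theorem isUlt_down [KGoodSt.{u}] {b : Ordinal.{u}} {f f0 : Ordinal.{u} → Ordinal.{u}}
    (hp : StrictMono p) (hf : ∀ x < ω, p x = x) (h : IsUlt E (p b) (p k) E' f)
    (hi : ∀ x ≤ b, p (f0 x) = f (p x)) (hE : PM0 E0 (b + 1)) (hE' : PM0 E0' (f0 b + 1))
    (hs : Strong E0 (b + 1) E (p b + 1) p) (hs' : Strong E0' (f0 b + 1) E' (f (p b) + 1) p)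
    (hg : ∀ y < f0 b, ∃ g a : Tr.{u}, In (p b + 1) (g.map p) ∧ In (f (p k)) (a.map p) ∧
      fv E' ((g.map p).map f) (a.map p) = some (leaf (p y))) : IsUlt E0 b k E0' f0 := by
  have h1 : k ≤ b := hp.le_iff_le.1 (h.lt.le.trans KE.rho_le)
  have h2 : ∀ a < b + 1, f0 a < f0 b + 1 := fun a ha => KE.lt1 (hp.le_iff_le.1 (by
    rw [hi a (KE.le1 ha), hi b le_rfl]; exact KE.le1 (h.maps _ (hs.maps a ha))))
  have h3 : Strong E0 (b + 1) E0' (f0 b + 1) f0 :=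
    KE.strong_cancel hs' (KE.strong_congr (KE.strong_comp hs h.toStrong)
      fun z hz => hi z (KE.le1 hz)) h2 fun c hc => by rw [KE.s1inj hc]
  have h4 : k < rho E0 b := (KE.strong_rho hs le_rfl h1).1 h.lt
  refine ⟨h3, hE, hE', not_lt.1 fun h5 => h.inf.not_gt ((hf k h5).trans_lt h5), h4,
    (KGoodSt.strong_good hE hE' h3).inc k h4, fun y hy => ?_⟩
  obtain ⟨g, a, h5, h6, h7⟩ := hg y hy
  have h8 : In (b + 1) g := fun z hz =>
    KE.lt1 (hp.le_iff_le.1 (KE.le1 (h5 _ (by rw [lv_map]; exact mem_image_of_mem p hz))))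
  rw [← hi k h1, in_iff hp] at h6
  refine ⟨g, a, h8, h6, ?_⟩
  rw [KN.mm, ← KN.map_eq (s := p ∘ f0) (s' := f ∘ p) (fun z hz => hi z (KE.le1 hz)) h8, ← KN.mm,
    KN.wfv hs'.toWeak (KN.in_map' h2 h8) (h6.mono (h2 k (KE.lt1 h1)).le)] at h7
  obtain ⟨w, h9, h10⟩ := Option.map_eq_some_iff.1 h7
  obtain ⟨z, rfl, h11⟩ := map_eq_leaf.1 h10
  rw [h9, hp.injective h11]

variable (hp : StrictMono p) (hc : T.Clo (p '' Iio o))
  (hs : ∀ j ≤ l, PM ((T.pull p).E j) ((T.pull p).b j + 1) ∧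
    Strong ((T.pull p).E j) ((T.pull p).b j + 1) (T.E (p j)) (T.b (p j) + 1) p) (hl : l < o)
include hp hc hs hl

theorem phal_down (hn : (T.pull p).n ≤ l) (h : T.Phal) : (T.pull p).Phal := by
  have hn' := n_eq hp hc
  have hle : ∀ {i}, i ≤ (T.pull p).n → p i ≤ T.n := fun hi => hn'.1 ▸ hp.monotone hi
  have hlt : ∀ {i}, i < (T.pull p).n → p i < T.n := fun hi => hn'.1 ▸ hp hi
  have hla : ∀ {i}, i < (T.pull p).n → p ((T.pull p).la i) = T.la (p i) :=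
    fun hi => (la_eq hp hc (hi.trans hn'.2)).1
  have hb : ∀ {i}, i ≤ (T.pull p).n → p ((T.pull p).b i) = T.b (p i) ∧ (T.pull p).b i < o :=
    fun hi => b_eq hp hc (hi.trans_lt hn'.2)
  refine ⟨fun i hi => (hs i (hi.trans hn)).1, fun i hi x hx => hp.injective ?_,
    fun i j h1 h2 => hp.le_iff_le.1 ?_, fun i hi => hp.le_iff_le.1 ?_, fun i hi x y h1 => ?_,
    fun i j h1 h2 w hw => ?_, fun i j h1 h2 => hp.le_iff_le.1 ?_, fun i j h1 h2 => ?_⟩
  · rw [(mp_eq hp hc (hi.trans_lt hn'.2) (hi.trans_lt hn'.2) (hx.trans_lt (hb hi).2)).1]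
    exact h.id _ (hle hi) _ ((hb hi).1 ▸ hp.monotone hx)
  · rw [hla (h1.trans h2), hla h2]; exact h.mono _ _ (hp h1) (hlt h2)
  · rw [hla hi, (hb hi.le).1]; exact h.le _ (hlt hi)
  · exact h.pas _ (hlt hi) (p x) (p y) (by rw [← hla hi]; exact h1)
  · funext x y
    exact congrFun₂ (h.agree _ _ (hp h1) (hle h2) _ (hla (h1.trans_le h2) ▸ hp hw)) _ _
  · rw [hla (h1.trans_le h2), (hb h2).1]; exact h.le' _ _ (hp h1) (hle h2)
  · have h3 := h.card _ _ (hp h1) (hle h2)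
    rw [← hla (h1.trans_le h2), ← (hb h2).1] at h3
    exact card_down hp ((hb h2).1 ▸ (hs j (h2.trans hn)).2) h3

theorem lim_down (hcl : c ≤ l) (h : T.Lim (p c)) : (T.pull p).Lim c := by
  have hco := hcl.trans_lt hl
  have hb := b_eq hp hc hco
  have hnd : ∀ {i}, i < c → ((T.pull p).ND i c ↔ T.ND (p i) (p c)) :=
    fun hi => nd_iff hp hc (hi.trans hco) hco
  refine ⟨?_, ⟨(hs c hcl).1.toPM0, ?_, ?_, fun y hy => ?_⟩, (hs c hcl).1, fun x hx => hp.injective ?_⟩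
  · obtain ⟨_, ⟨m, -, rfl⟩, h1, h2⟩ := hc.ex _ (mem hco) h.ex
    exact ⟨m, hp.lt_iff_lt.1 h1, (hnd (hp.lt_iff_lt.1 h1)).2 h2⟩
  · rintro ⟨i, h1, h2⟩
    have hi := h1.trans hco
    have h3 := KE.strong_comp (hs i (h1.le.trans hcl)).2 (h.lim.strong ⟨p i, hp h1, (hnd h1).1 h2⟩)
    have h4 : ∀ z < (T.pull p).b i + 1, p ((T.pull p).mp i c z) = T.mp (p i) (p c) (p z) :=
      fun z hz => (mp_eq hp hc hi hco ((KE.le1 hz).trans_lt (b_eq hp hc hi).2)).1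
    refine KE.strong_cancel (hs c hcl).2 (KE.strong_congr h3 h4) (fun a ha => KE.lt1 ?_)
      fun a ha => ?_
    · rw [← hp.le_iff_le, h4 a ha, hb.1]; exact KE.le1 (h3.maps a ha)
    · have h5 := KE.s1inj (h3.top a ha)
      rw [← hb.1, comp_apply, ← h4 a (ha ▸ lt_add_one a)] at h5
      rw [hp.injective h5]
  · rintro ⟨i, h1, h2⟩ ⟨j, h3, h4⟩ hij x hx
    have hi := h1.trans hco
    have hj := h3.trans hco
    have hx' := hx.trans_lt (b_eq hp hc hi).2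
    apply hp.injective
    rw [(mp_eq hp hc hj hco (mp_eq hp hc hi hj hx').2).1, (mp_eq hp hc hi hj hx').1,
      (mp_eq hp hc hi hco hx').1]
    exact h.lim.comm ⟨p i, hp h1, (hnd h1).1 h2⟩ ⟨p j, hp h3, (hnd h3).1 h4⟩ (hp.monotone hij) _
      ((b_eq hp hc hi).1 ▸ hp.monotone hx)
  · have hy' := hy.trans_lt hb.2
    obtain ⟨i, h1⟩ := h.lim.onto (p y) (hb.1 ▸ hp.monotone hy)
    obtain ⟨_, ⟨i, hi, rfl⟩, h2, h3⟩ := hc.onto _ (mem hco) _ (mem hy') ⟨i.1, i.2, h1⟩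
    obtain ⟨_, ⟨x, hx, rfl⟩, h4, h5⟩ := hc.onto' _ (mem hi) _ (mem hco) _ (mem hy') h3
    have h6 := hp.lt_iff_lt.1 h2.1
    exact ⟨⟨i, h6, (hnd h6).2 h2.2⟩, x, hp.le_iff_le.1 ((b_eq hp hc hi).1 ▸ h4),
      hp.injective ((mp_eq hp hc hi hco hx).1.trans h5)⟩
  · rw [(mp_eq hp hc hco hco (hx.trans_lt hb.2)).1]
    exact h.id _ (hb.1 ▸ hp.monotone hx)

theorem step_down [KGoodSt.{u}] [KActSt.{u}] (hj : j < l)
    (hpm : PM0 (T.E (p j)) (T.b (p j) + 1)) (h : T.Step (p j)) : (T.pull p).Step j := by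
  have hjo := hj.trans hl
  have hj1 := succ hp hc hjo
  have hnu := nu_eq hp hc hjo
  have hka := ka_eq hp hc hjo
  have hta := ta_eq hp hc hjo
  have hpr := pr_eq hp hc hjo
  have hst := st_eq hp hc hjo
  have hb1 := b_eq hp hc hj1.1
  have hs1 := hs _ (Order.add_one_le_iff.2 hj)
  have hq : (T.pull p).pr j ≤ j := hp.le_iff_le.1 (hpr.1 ▸ h.pred.le)
  have hsq := hs _ (hq.trans hj.le)
  have hbq := b_eq hp hc hpr.2
  have hP : (T.pull p).Pred j ((T.pull p).ka j) ((T.pull p).ta j) ((T.pull p).pr j)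
      ((T.pull p).st j) :=
    pred_aux hp (fun i hi => (la_eq hp hc (hi.trans_lt hpr.2)).1) hbq.1 hsq.2
      (by rw [hka.1, hta.1, hpr.1, hst.1]; exact h.pred)
  have hb : (T.pull p).b (j + 1) = (T.pull p).im j ((T.pull p).st j) := hp.injective (by
    rw [hb1.1, hj1.2, (im_eq hp hc hjo hst.2).1, hst.1]; exact h.b)
  refine ⟨?_, hp.injective ?_, hP, ?_, hb, fun x hx => hp.injective ?_, hp.injective ?_,
    fun w hw => ?_, hs1.1, fun x hx => hp.injective ?_, fun i hi h1 x hx => hp.injective ?_⟩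
  · obtain ⟨k0, t0, e0, h1, h2, h3, h4⟩ := use_aux (v := (T.pull p).nu j) hp (n_eq hp hc).1
      (fun i hi => (la_eq hp hc (hi.trans hjo)).1) (b_eq hp hc hjo).1 (hs j hj.le).1.toPM0 hpm
      (hs j hj.le).2 (hnu.1 ▸ h.use)
    obtain rfl := hp.injective (h2.trans hka.1.symm)
    obtain rfl := hp.injective (h3.trans hta.1.symm)
    exact use_congr h1 fun x hx =>
      hp.injective ((h4 x hx).trans (e_eq hp hc hjo (hx.trans hta.2)).1.symm)
  · rw [(la_eq hp hc hjo).1, (e_eq hp hc hjo hka.2).1, hka.1]; exact h.la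
  · have h1 := h.ult
    rw [← hst.1, ← hka.1, ← hj1.2, ← hpr.1] at h1
    refine isUlt_down hp (fun _ => fin hp hc) h1
      (fun x hx => (im_eq hp hc hjo (hx.trans_lt hst.2)).1)
      (KE.pm0_mono hsq.1.toPM0 (by gcongr; exact hP.st_le)) (hb ▸ hs1.1.toPM0)
      (KE.strong_restrict (hbq.1 ▸ hsq.2) hP.st_le) ?_ fun y hy => ?_
    · rw [← hb, hst.1, ← h.b, ← hj1.2]; exact hs1.2
    · have h2 : y < o := hy.trans (im_eq hp hc hjo hst.2).2
      obtain ⟨g, a, h3⟩ := h.ult.gen (p y) (by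
        rw [← hst.1, ← (im_eq hp hc hjo hst.2).1]; exact hp hy)
      obtain ⟨w, h4, h5⟩ := hc.gen (node (leaf (p j)) (leaf (p y)))
        (by simp [insert_subset_iff, mem hjo, mem h2]) ⟨node g a, h3⟩
      obtain ⟨w0, -, rfl⟩ := exists_map h4
      refine ⟨w0.fst, w0.snd, ?_⟩
      rw [hst.1, hka.1, hj1.2]
      simpa using h5
  · rw [(im_eq hp hc hjo (hx.trans hta.2)).1, (e_eq hp hc hjo (hx.trans hta.2)).1]
    exact h.ext _ (hta.1 ▸ hp hx)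
  · rw [(im_eq hp hc hjo hta.2).1, hta.1, hnu.1]; exact h.top
  · funext x y
    have h1 := congrFun₂ (h.agree _ (hnu.1 ▸ hp hw)) (p x) (p y)
    rw [← hj1.2] at h1
    exact h1
  · rw [(mp_eq hp hc hj1.1 hj1.1 (hx.trans_lt hb1.2)).1, hj1.2]
    exact h.id _ (by rw [← hj1.2, ← hb1.1]; exact hp.monotone hx)
  · have hio := hi.trans_lt hjo
    have hx' := hx.trans_lt (b_eq hp hc hio).2
    rw [(mp_eq hp hc hio hj1.1 hx').1, (im_eq hp hc hjo (mp_eq hp hc hio hpr.2 hx').2).1,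
      (mp_eq hp hc hio hpr.2 hx').1, hj1.2, hpr.1]
    exact h.mp _ (hp.monotone hi) (hj1.2 ▸ (nd_iff hp hc hio hj1.1).1 h1) _
      ((b_eq hp hc hio).1 ▸ hp.monotone hx)

theorem tr_down [KGoodSt.{u}] [KActSt.{u}] (h : T.IsTr (p l)) : (T.pull p).IsTr l :=
  ⟨phal_down hp hc hs hl ((n_le hp hc).2 h.le) h.phal, (n_le hp hc).2 h.le,
    fun _ h1 h2 => step_down hp hc hs hl h2 (tr_pm h (hp h2).le).toPM0
      (h.step _ ((n_le hp hc).1 h1) (hp h2)),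
    fun _ h1 h2 h3 => lim_down hp hc hs hl h2 (h.lim _ ((n_lt hp hc).1 h1) (hp.monotone h2)
      ((lim hp hc (h2.trans_lt hl)).1 h3))⟩

omit hs hl in
theorem emb [KGoodSt.{u}] [KActSt.{u}] [CondSt.{u}] (ho : o < ω₁) (hco : c < o) (hn : T.n < p c)
    (h : ∀ j < p c, T.n ≤ j → T.IsTr j) : IT.Emb (T.pull p) T p o c := by
  have hn' := n_eq hp hc
  have hnc := (n_lt hp hc).2 hn
  have h0 := h _ hn le_rfl
  have hpm : ∀ j < c, PM (T.E (p j)) (T.b (p j) + 1) := fun j hj => by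
    rcases le_total T.n (p j) with h1 | h1
    · exact tr_pm (h _ (hp hj) h1) le_rfl
    · exact h0.phal.pm _ h1
  have hs := fun j hj => model hp hc (lt_trans hj hco) (hpm j hj)
  have htr : ∀ j < c, (T.pull p).n ≤ j → (T.pull p).IsTr j := fun j hj h1 =>
    tr_down hp hc (fun i hi => hs i (hi.trans_lt hj)) (hj.trans hco)
      (h _ (hp hj) ((n_le hp hc).1 h1))
  exact ⟨⟨hp, (htr _ hnc le_rfl).phal, fun j hj => (b_eq hp hc (hj.trans_lt hn'.2)).2.trans ho,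
      hn'.2.trans ho, hn'.1, fun _ => fin hp hc, fun i hi => (hs i (hi.trans_lt hnc)).2,
      fun i hi => (la_eq hp hc (hi.trans hn'.2)).1, fun i hi k hk => sent hp hc (hi.trans hn'.2)
        (hk.trans (la_eq hp hc (hi.trans hn'.2)).2)⟩,
    ho, hnc, hco, fun _ hj => (b_eq hp hc hj).2,
    fun _ hj => ⟨(nu_eq hp hc hj).2, (ka_eq hp hc hj).2, (ta_eq hp hc hj).2, (la_eq hp hc hj).2,
      (pr_eq hp hc hj).2, (st_eq hp hc hj).2⟩,
    fun _ hi _ hj _ hx => ⟨(e_eq hp hc hj hx).2, (im_eq hp hc hj hx).2, (mp_eq hp hc hi hj hx).2⟩,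
    htr, fun j hj => (hs j hj).1, hpm, fun j hj => (hs j hj).2, fun _ => rfl,
    fun _ => succ hp hc, fun _ => lim hp hc, fun _ hj => (b_eq hp hc hj).1,
    fun _ hj => (nu_eq hp hc hj).1, fun _ hj => (ka_eq hp hc hj).1, fun _ hj => (ta_eq hp hc hj).1,
    fun _ hj => (la_eq hp hc hj).1, fun _ hj => (pr_eq hp hc hj).1, fun _ hj => (st_eq hp hc hj).1,
    fun _ hj _ hx => (e_eq hp hc hj hx).1, fun _ hj _ hx => (im_eq hp hc hj hx).1,
    fun _ hi _ hj _ hx => (mp_eq hp hc hi hj hx).1, fun _ hi _ hj => le_iff hp hc hi hj,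
    fun _ => drop_iff hp hc, fun _ hi _ hj => nd_iff hp hc hi hj,
    fun _ hi _ hj => rt_iff hp hc hi hj, fun _ hi _ hk => sent hp hc hi hk⟩

end Hull

namespace Hull

variable {T T0 : IT.{u}} {p e : Ordinal.{u} → Ordinal.{u}} {o c i j k l q s t v x : Ordinal.{u}}

theorem uwf_down {E F : Seq.{u}} {d k t e} (h : ¬ UWf E d k t F e) :
    ∃ A : Set Ordinal.{u}, A.Countable ∧
    ∀ (E0 F0 : Seq.{u}) d0 v0 v k0 t0 (e0 p : Ordinal.{u} → Ordinal.{u}), A ⊆ Set.range p →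
      StrictMono p → Weak E0 d0 E d p → (∀ x, p x < d → x < d0) → Weak F0 v0 F v p →
      p k0 = k → p t0 = t → k0 < t0 → t0 ≤ d0 → (∀ x < t0, e0 x < v0 ∧ p (e0 x) = e (p x)) →
      ¬ UWf E0 d0 k0 t0 F0 e0 := by
  obtain ⟨r, hr⟩ := not_not.1 h
  choose h1 h2 h3 h4 w h5 h6 h7 using hr
  refine ⟨⋃ m, (node (node (r m).1 (r m).2) (w m)).lv,
    countable_iUnion fun m => (lv_finite _).countable, ?_⟩
  rintro E0 F0 d0 v0 v k0 t0 e0 p hA hp hE hd hF rfl rfl hk ht he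
  have : ∀ m, ∃ y : Tr.{u}, y.map p = node (node (r m).1 (r m).2) (w m) := fun m =>
    let ⟨y, _, hy⟩ := exists_map (S := univ) (image_univ ▸ (subset_iUnion _ m).trans hA)
    ⟨y, hy⟩
  choose y hy using this
  have ha : ∀ m, (y m).fst.fst.map p = (r m).1 := fun m => by simp only [← map_fst, hy, fst_node]
  have hf : ∀ m, (y m).fst.snd.map p = (r m).2 := fun m => by
    simp only [← map_fst, ← map_snd, hy, fst_node, snd_node]
  have hw : ∀ m, (y m).snd.map p = w m := fun m => by simp only [← map_snd, hy, snd_node]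
  have hin : ∀ {z : Tr.{u}}, In d (z.map p) → In d0 z := fun hz a ha =>
    hd a (hz _ (by rw [lv_map]; exact mem_image_of_mem p ha))
  refine not_not.2 ⟨fun m => ((y m).fst.fst, (y m).fst.snd), fun m => ?_⟩
  have g1 : In (e0 k0) (y (m + 1)).fst.fst := by rw [← in_iff hp, (he _ hk).2, ha]; exact h1 m
  have g2 : In (e0 k0) (y m).fst.fst := by rw [← in_iff hp, (he _ hk).2, ha]; exact h2 m
  have g3 : In d0 (y (m + 1)).fst.snd := hin (hf _ ▸ h3 m)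
  have g4 : In d0 (y m).fst.snd := hin (hf _ ▸ h4 m)
  have g5 : In t0 (y m).snd := by rw [← in_iff hp, hw]; exact h5 m
  refine ⟨g1, g2, g3, g4, (y m).snd, g5, ?_, fun z hz h8 => ?_⟩
  · rw [← KN.wnm hF (KN.in_map' (fun a ha => (he a ha).1) g5)
      (((in_node _ _ _).2 ⟨g1, g2⟩).mono (he _ hk).1.le), KN.mm,
      KN.map_eq (s := p ∘ e0) (s' := e ∘ p) (fun a ha => (he a ha).2) g5, ← KN.mm, map_node, ha, ha, hw]
    exact h6 m
  · have hz' := hz.mono (hk.le.trans ht)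
    obtain ⟨a, b, h9, h10, h11⟩ := h7 m (z.map p) ((in_iff hp).2 hz)
      (hw m ▸ (KN.wnm hE (g5.mono ht) hz').2 h8)
    rw [← hf, map_fst, KN.wfv hE g3 hz'.fst] at h9
    rw [← hf, map_snd, KN.wfv hE g4 hz'.snd] at h10
    obtain ⟨_, h12, h13⟩ := Option.map_eq_some_iff.1 h9
    obtain ⟨_, h14, h15⟩ := Option.map_eq_some_iff.1 h10
    obtain ⟨a, rfl, rfl⟩ := map_eq_leaf.1 h13
    obtain ⟨b, rfl, rfl⟩ := map_eq_leaf.1 h15
    exact ⟨a, b, h12, h14, hp.lt_iff_lt.1 h11⟩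

variable [KEvSt.{u}] [KGoodSt.{u}] [KActSt.{u}] [CondSt.{u}]

theorem hull {P : Set Ordinal.{u} → Prop} (hP : Club P) (hn : T.n < c)
    (h : ∀ j < c, T.n ≤ j → T.IsTr j) :
    ∃ p o c0, IT.Emb (T.pull p) T p o c0 ∧ p c0 = c ∧ T.Clo (p '' Iio o) ∧ P (p '' Iio o) := by
  obtain ⟨p, o, hp, ho, hc, ⟨c0, h1, rfl⟩, h2⟩ := (T.club_clo.and ((Club.mem c).and hP)).enum
  exact ⟨p, o, c0, emb hp hc ho h1 hn h, rfl, hc, h2⟩

omit [KGoodSt.{u}] [CondSt.{u}] in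
theorem use (h : IT.Emb T0 T p o c) (hj : j < c) (hu : T.Use (p j) (p v) k t e) :
    ∃ k0 t0 e0, T0.Use j v k0 t0 e0 ∧ p k0 = k ∧ p t0 = t ∧ ∀ x < t0, p (e0 x) = e (p x) :=
  use_aux h.root.mono h.root.n (fun i hi => h.la i (hi.trans (hj.trans h.co)))
    (h.b j (hj.trans h.co)) (h.pm0 j hj).toPM0 (h.pm j hj).toPM0 (h.str j hj) hu

omit [KGoodSt.{u}] [KActSt.{u}] [CondSt.{u}] in
theorem pred (h : IT.Emb T0 T p o c) (hj : j < c)
    (hu : T.Pred (p j) (p k) (p t) (p q) (p s)) : T0.Pred j k t q s :=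
  have hq := (h.root.mono.le_iff_le.1 hu.le).trans_lt hj
  pred_aux h.root.mono (fun i hi => h.la i (hi.trans_lt (hq.trans h.co))) (h.b q (hq.trans h.co))
    (h.str q hq) hu

end Hull

theorem Hull.tr_mono {T : IT.{u}} {l j} (h : T.IsTr l) (hj : j ≤ l) (hn : T.n ≤ j) : T.IsTr j :=
  ⟨h.phal, hn, fun i h1 h2 => h.step i h1 (h2.trans_le hj),
    fun c h1 h2 => h.lim c h1 (h2.trans hj)⟩

instance [KEvSt.{u}] [KGoodSt.{u}] [KActSt.{u}] [CondSt.{u}] : KHullSt.{u} where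
  hull A G hn h hA hG := by
    obtain ⟨p, o, c0, h1, h2, -, h3, h4⟩ := Hull.hull ((Club.sub hA).and (Club.clo hG)) hn h
    exact ⟨_, p, o, c0, h1, h2, h3, fun x hx => h4 _ (by rw [lv_map]; exact image_mono hx)⟩
  use := Hull.use
  pred := Hull.pred
  wf := Hull.uwf_down
  refl {T g j v k t e q s} h hu hq hw := by
    obtain ⟨A, hA, hw⟩ := Hull.uwf_down hw
    obtain ⟨p, o, c0, h1, h2, -, h3, ⟨g0, -, rfl⟩, ⟨j0, h4, rfl⟩, ⟨v0, -, rfl⟩, ⟨q0, -, rfl⟩,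
      ⟨s0, h5, rfl⟩⟩ := Hull.hull ((Club.sub hA).and <| (Club.mem g).and <| (Club.mem j).and <|
        (Club.mem v).and <| (Club.mem q).and (Club.mem s)) (KE.lt1 h.le)
        fun i hi => Hull.tr_mono h (KE.le1 hi)
    have hp := h1.root.mono
    obtain rfl := hp.injective (h2.trans (h1.succ j0 h4).2.symm)
    obtain ⟨k0, t0, e0, h6, rfl, rfl, h7⟩ := Hull.use h1 (lt_add_one j0) hu
    have h8 := Hull.pred h1 (lt_add_one j0) hq
    have h9 := h1.str q0 (KE.lt1 h8.le)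
    rw [← h1.b q0 ((KE.lt1 h8.le).trans h1.co)] at h9
    refine ⟨_, p, o, g0, j0, v0, k0, t0, e0, q0, s0, h1, rfl, rfl, rfl, h6, h8,
      hw _ _ _ _ _ _ _ _ p (h3.trans (image_subset_range _ _)) hp
        (KE.strong_restrict h9 h8.st_le).toWeak (fun x hx => KE.lt1 (hp.le_iff_le.1 (KE.le1 hx)))
        (h1.str j0 (lt_add_one j0)).toWeak rfl rfl h6.act.lt (h8.ta_le.trans le_self_add)
        fun x hx => ⟨(h6.act.weak.maps x hx).trans (KE.lt1 h6.le), h7 x hx⟩⟩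

end Pool.Agent.KM
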