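import Pool.Agent.Lib.MP_5c0be7_lc.K.StHu
import Pool.Agent.Lib.MP_5c0be7_lc.K.Nm
import Pool.Agent.Lib.MP_5c0be7_lc.K.Club

/-!
Project KM, block K: pull-back of an iteration tree along the enumeration of a closed set.
-/

namespace Pool.Agent.KM

open Ordinal Tr Set Function
open scoped Classical

universe u

/-- The node pulled back along `p`. -/
noncomputable def Nd.pull (p : Ordinal.{u} → Ordinal.{u}) (N : Nd.{u}) : Nd.{u} :=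
  ⟨KM.pull p N.E, invFun p N.b, invFun p N.nu, invFun p N.ka, invFun p N.ta, invFun p N.la,
    invFun p ∘ N.e ∘ p, invFun p N.pr, invFun p N.st, invFun p ∘ N.im ∘ p,
    fun i => invFun p ∘ N.mp (p i) ∘ p⟩

/-- The tree pulled back along `p`. -/
noncomputable def IT.pull (T : IT.{u}) (p : Ordinal.{u} → Ordinal.{u}) : IT.{u} :=
  ⟨invFun p T.n, fun i => (T.nd (p i)).pull p⟩

/-- `Z` is closed for `T`. -/
structure IT.Clo (T : IT.{u}) (Z : Set Ordinal.{u}) : Prop where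
  zero : 0 ∈ Z
  n : T.n ∈ Z
  succ : ∀ a ∈ Z, a + 1 ∈ Z
  pred : ∀ a, a + 1 ∈ Z → a ∈ Z
  b : ∀ j ∈ Z, T.b j ∈ Z
  nu : ∀ j ∈ Z, T.nu j ∈ Z
  ka : ∀ j ∈ Z, T.ka j ∈ Z
  ta : ∀ j ∈ Z, T.ta j ∈ Z
  la : ∀ j ∈ Z, T.la j ∈ Z
  pr : ∀ j ∈ Z, T.pr j ∈ Z
  st : ∀ j ∈ Z, T.st j ∈ Z
  e : ∀ i ∈ Z, ∀ j ∈ Z, ∀ x ∈ Z, T.e j x ∈ Z
  im : ∀ i ∈ Z, ∀ j ∈ Z, ∀ x ∈ Z, T.im j x ∈ Z
  mp : ∀ i ∈ Z, ∀ j ∈ Z, ∀ x ∈ Z, T.mp i j x ∈ Z
  ev : ∀ x : Tr.{u}, x.lv ⊆ Z → (∃ y, ev (T.E x.fst.lab) (T.b x.fst.lab + 1) x.snd.fst x.snd.snd =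
    some y) → ∃ y : Tr.{u}, y.lv ⊆ Z ∧
      ev (T.E x.fst.lab) (T.b x.fst.lab + 1) x.snd.fst x.snd.snd = some y
  le : ∀ i ∈ Z, ∀ j ∈ Z, (∃ k, ¬ (i ≤ k → k < j → T.n ≤ k → i ≤ T.pr k)) →
    ∃ k ∈ Z, ¬ (i ≤ k → k < j → T.n ≤ k → i ≤ T.pr k)
  nd : ∀ i ∈ Z, ∀ j ∈ Z, (∃ m, ¬ (i < m → T.Le m j → T.n < m ∧ ∀ k, m = k + 1 → ¬ T.Drop k)) →
    ∃ m ∈ Z, ¬ (i < m → T.Le m j → T.n < m ∧ ∀ k, m = k + 1 → ¬ T.Drop k)
  rt : ∀ i ∈ Z, ∀ j ∈ Z, (∃ m, ¬ (i < m → T.Le m j → T.n < m)) →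
    ∃ m ∈ Z, ¬ (i < m → T.Le m j → T.n < m)
  sent : ∀ i ∈ Z, ∀ k ∈ Z, (∃ m, ¬ (m < i → T.la m ≤ k)) → ∃ m ∈ Z, ¬ (m < i → T.la m ≤ k)
  ex : ∀ c ∈ Z, (∃ m, m < c ∧ T.ND m c) → ∃ m ∈ Z, m < c ∧ T.ND m c
  onto : ∀ c ∈ Z, ∀ y ∈ Z, (∃ i, (i < c ∧ T.ND i c) ∧ ∃ x ≤ T.b i, T.mp i c x = y) →
    ∃ i ∈ Z, (i < c ∧ T.ND i c) ∧ ∃ x ≤ T.b i, T.mp i c x = y
  onto' : ∀ i ∈ Z, ∀ c ∈ Z, ∀ y ∈ Z, (∃ x, x ≤ T.b i ∧ T.mp i c x = y) →
    ∃ x ∈ Z, x ≤ T.b i ∧ T.mp i c x = y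
  gen : ∀ x : Tr.{u}, x.lv ⊆ Z → (∃ y : Tr.{u}, In (T.st x.fst.lab + 1) y.fst ∧
      In (T.im x.fst.lab (T.ka x.fst.lab)) y.snd ∧
      fv (T.E (x.fst.lab + 1)) (y.fst.map (T.im x.fst.lab)) y.snd = some x.snd) →
    ∃ y : Tr.{u}, y.lv ⊆ Z ∧ In (T.st x.fst.lab + 1) y.fst ∧
      In (T.im x.fst.lab (T.ka x.fst.lab)) y.snd ∧
      fv (T.E (x.fst.lab + 1)) (y.fst.map (T.im x.fst.lab)) y.snd = some x.snd

theorem IT.club_clo (T : IT.{u}) : Club T.Clo :=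
  ((Club.mem 0).and <| (Club.mem T.n).and <| (Club.fn1 (· + 1)).and <| Club.pred.and <|
    (Club.fn1 T.b).and <| (Club.fn1 T.nu).and <| (Club.fn1 T.ka).and <| (Club.fn1 T.ta).and <|
    (Club.fn1 T.la).and <| (Club.fn1 T.pr).and <| (Club.fn1 T.st).and <|
    (Club.fn3 fun _ => T.e).and <| (Club.fn3 fun _ => T.im).and <| (Club.fn3 T.mp).and <|
    (Club.sk _).and <| (Club.sk2 _).and <| (Club.sk2 _).and <| (Club.sk2 _).and <|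
    (Club.sk2 _).and <| (Club.sk1 _).and <| (Club.sk2 _).and <| (Club.sk3 _).and <|
    Club.sk _).mono fun _ h =>
    ⟨h.1, h.2.1, h.2.2.1, h.2.2.2.1, h.2.2.2.2.1, h.2.2.2.2.2.1, h.2.2.2.2.2.2.1,
      h.2.2.2.2.2.2.2.1, h.2.2.2.2.2.2.2.2.1, h.2.2.2.2.2.2.2.2.2.1, h.2.2.2.2.2.2.2.2.2.2.1,
      h.2.2.2.2.2.2.2.2.2.2.2.1, h.2.2.2.2.2.2.2.2.2.2.2.2.1, h.2.2.2.2.2.2.2.2.2.2.2.2.2.1,
      h.2.2.2.2.2.2.2.2.2.2.2.2.2.2.1, h.2.2.2.2.2.2.2.2.2.2.2.2.2.2.2.1,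
      h.2.2.2.2.2.2.2.2.2.2.2.2.2.2.2.2.1, h.2.2.2.2.2.2.2.2.2.2.2.2.2.2.2.2.2.1,
      h.2.2.2.2.2.2.2.2.2.2.2.2.2.2.2.2.2.2.1, h.2.2.2.2.2.2.2.2.2.2.2.2.2.2.2.2.2.2.2.1,
      h.2.2.2.2.2.2.2.2.2.2.2.2.2.2.2.2.2.2.2.2.1, h.2.2.2.2.2.2.2.2.2.2.2.2.2.2.2.2.2.2.2.2.2.1,
      h.2.2.2.2.2.2.2.2.2.2.2.2.2.2.2.2.2.2.2.2.2.2⟩

namespace Hull

variable {T : IT.{u}} {p : Ordinal.{u} → Ordinal.{u}} {o i j k x z : Ordinal.{u}}

theorem qp (hp : StrictMono p) (x) : invFun p (p x) = x := leftInverse_invFun hp.injective x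

theorem pq (hp : StrictMono p) (hz : z ∈ p '' Iio o) : p (invFun p z) = z ∧ invFun p z < o := by
  obtain ⟨x, hx, rfl⟩ := hz
  rw [qp hp]; exact ⟨rfl, hx⟩

theorem mem (hx : x < o) : p x ∈ p '' Iio o := ⟨x, hx, rfl⟩

theorem exists_map {y : Tr.{u}} {S : Set Ordinal.{u}} (h : y.lv ⊆ p '' S) :
    ∃ w : Tr.{u}, w.lv ⊆ S ∧ w.map p = y := by
  induction y with
  | nil => exact ⟨.nil, by simp, rfl⟩
  | leaf a =>
    obtain ⟨b, h1, rfl⟩ := h (show a ∈ (leaf a).lv by simp)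
    exact ⟨leaf b, by simpa using h1, rfl⟩
  | node l r ihl ihr =>
    rw [lv_node, union_subset_iff] at h
    obtain ⟨a, h1, rfl⟩ := ihl h.1
    obtain ⟨b, h2, rfl⟩ := ihr h.2
    exact ⟨node a b, by simp [h1, h2], rfl⟩

theorem in_iff (hp : StrictMono p) {y : Tr.{u}} : In (p k) (y.map p) ↔ In k y := by
  simp only [In, lv_map, forall_mem_image, hp.lt_iff_lt]

variable (hp : StrictMono p) (hc : T.Clo (p '' Iio o))
include hp hc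

theorem succ (hx : x < o) : x + 1 < o ∧ p (x + 1) = p x + 1 := by
  obtain ⟨y, h1, h2⟩ := hc.succ _ (mem hx)
  have h3 : x + 1 ≤ y := Order.add_one_le_iff.2 (hp.lt_iff_lt.1 (h2 ▸ lt_add_one _))
  exact ⟨h3.trans_lt h1, le_antisymm (h2 ▸ hp.monotone h3)
    (Order.add_one_le_iff.2 (hp (lt_add_one x)))⟩

theorem of_succ (hx : x < o) (h : p x = k + 1) : ∃ y < o, x = y + 1 ∧ p y = k := by
  obtain ⟨y, h1, rfl⟩ := hc.pred k (h ▸ mem hx)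
  exact ⟨y, h1, hp.injective (h.trans (succ hp hc h1).2.symm), rfl⟩

theorem zero : p 0 = 0 ∧ 0 < o := by
  obtain ⟨y, h1, h2⟩ := hc.zero
  obtain rfl : y = 0 := le_antisymm (h2 ▸ hp.le_apply) zero_le
  exact ⟨h2, h1⟩

theorem fin (hi : i < ω) : p i = i := by
  obtain ⟨m, rfl⟩ := lt_omega0.1 hi
  have : p m = m ∧ (m : Ordinal.{u}) < o := by
    induction m with
    | zero => simpa using zero hp hc
    | succ m ih =>
      have h1 := ih (natCast_lt_omega0 m)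
      have h2 := succ hp hc h1.2
      rw [h1.1] at h2
      exact_mod_cast h2.symm
  exact this.1

theorem lim (hx : x < o) : Order.IsSuccLimit x ↔ Order.IsSuccLimit (p x) := by
  have key : ∀ a : Ordinal.{u}, Order.IsSuccLimit a ↔ a ≠ 0 ∧ ¬ Suc a := fun a =>
    ⟨fun h => ⟨h.ne_bot, not_suc_of_limit h⟩, fun h => limit_of_not_suc h.2 h.1⟩
  rw [key, key]
  refine and_congr (not_congr ?_) (not_congr ⟨?_, ?_⟩)
  · rw [← hp.injective.eq_iff, (zero hp hc).1]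
  · rintro ⟨y, rfl⟩
    exact ⟨_, (succ hp hc ((lt_add_one y).trans hx)).2⟩
  · rintro ⟨y, h⟩
    obtain ⟨w, -, h1, -⟩ := of_succ hp hc hx h
    exact ⟨w, h1⟩

theorem n_eq : p (T.pull p).n = T.n ∧ (T.pull p).n < o := pq hp hc.n

theorem b_eq (hj : j < o) : p ((T.pull p).b j) = T.b (p j) ∧ (T.pull p).b j < o :=
  pq hp (hc.b _ (mem hj))

theorem nd_succ (hj : j < o) : (T.pull p).nd (j + 1) = (T.nd (p j + 1)).pull p := by
  rw [← (succ hp hc hj).2]; rfl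

theorem nu_eq (hj : j < o) : p ((T.pull p).nu j) = T.nu (p j) ∧ (T.pull p).nu j < o := by
  rw [IT.nu, nd_succ hp hc hj]; exact pq hp (hc.nu _ (mem hj))

theorem ka_eq (hj : j < o) : p ((T.pull p).ka j) = T.ka (p j) ∧ (T.pull p).ka j < o := by
  rw [IT.ka, nd_succ hp hc hj]; exact pq hp (hc.ka _ (mem hj))

theorem ta_eq (hj : j < o) : p ((T.pull p).ta j) = T.ta (p j) ∧ (T.pull p).ta j < o := by
  rw [IT.ta, nd_succ hp hc hj]; exact pq hp (hc.ta _ (mem hj))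

theorem la_eq (hj : j < o) : p ((T.pull p).la j) = T.la (p j) ∧ (T.pull p).la j < o := by
  rw [IT.la, nd_succ hp hc hj]; exact pq hp (hc.la _ (mem hj))

theorem pr_eq (hj : j < o) : p ((T.pull p).pr j) = T.pr (p j) ∧ (T.pull p).pr j < o := by
  rw [IT.pr, nd_succ hp hc hj]; exact pq hp (hc.pr _ (mem hj))

theorem st_eq (hj : j < o) : p ((T.pull p).st j) = T.st (p j) ∧ (T.pull p).st j < o := by
  rw [IT.st, nd_succ hp hc hj]; exact pq hp (hc.st _ (mem hj))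

theorem e_eq (hj : j < o) (hx : x < o) :
    p ((T.pull p).e j x) = T.e (p j) (p x) ∧ (T.pull p).e j x < o := by
  rw [IT.e, nd_succ hp hc hj]; exact pq hp (hc.e _ (mem hj) _ (mem hj) _ (mem hx))

theorem im_eq (hj : j < o) (hx : x < o) :
    p ((T.pull p).im j x) = T.im (p j) (p x) ∧ (T.pull p).im j x < o := by
  rw [IT.im, nd_succ hp hc hj]; exact pq hp (hc.im _ (mem hj) _ (mem hj) _ (mem hx))

theorem mp_eq (hi : i < o) (hj : j < o) (hx : x < o) :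
    p ((T.pull p).mp i j x) = T.mp (p i) (p j) (p x) ∧ (T.pull p).mp i j x < o :=
  pq hp (hc.mp _ (mem hi) _ (mem hj) _ (mem hx))

theorem n_le : (T.pull p).n ≤ k ↔ T.n ≤ p k := by rw [← hp.le_iff_le, (n_eq hp hc).1]

theorem n_lt : (T.pull p).n < k ↔ T.n < p k := by rw [← hp.lt_iff_lt, (n_eq hp hc).1]

theorem le_iff (hi : i < o) (hj : j < o) : (T.pull p).Le i j ↔ T.Le (p i) (p j) := by
  refine and_congr hp.le_iff_le.symm ⟨fun h => ?_, fun h k h1 h2 h3 => ?_⟩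
  · by_contra hn
    obtain ⟨_, ⟨k, hk, rfl⟩, h1⟩ := hc.le _ (mem hi) _ (mem hj) (not_forall.1 hn)
    refine h1 fun h2 h3 h4 => ?_
    rw [← (pr_eq hp hc hk).1]
    exact hp.monotone (h k (hp.le_iff_le.1 h2) (hp.lt_iff_lt.1 h3) ((n_le hp hc).2 h4))
  · rw [← hp.le_iff_le, (pr_eq hp hc (h2.trans hj)).1]
    exact h _ (hp.monotone h1) (hp h2) ((n_le hp hc).1 h3)

theorem drop_iff (hj : j < o) : (T.pull p).Drop j ↔ T.Drop (p j) := by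
  rw [IT.Drop, IT.Drop, ← hp.lt_iff_lt, (st_eq hp hc hj).1, (b_eq hp hc (pr_eq hp hc hj).2).1,
    (pr_eq hp hc hj).1]

theorem nodrop_iff (hj : j < o) : (∀ k, j = k + 1 → ¬ (T.pull p).Drop k) ↔
    ∀ k, p j = k + 1 → ¬ T.Drop k := by
  refine ⟨fun h k h1 => ?_, fun h k h1 => ?_⟩
  · obtain ⟨y, h2, h3, rfl⟩ := of_succ hp hc hj h1
    exact mt (drop_iff hp hc h2).2 (h y h3)
  · have h2 : k < o := (h1 ▸ lt_add_one k : k < j).trans hj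
    exact mt (drop_iff hp hc h2).1 (h _ (h1 ▸ (succ hp hc h2).2))

theorem nd_iff (hi : i < o) (hj : j < o) : (T.pull p).ND i j ↔ T.ND (p i) (p j) := by
  refine and_congr (le_iff hp hc hi hj) ⟨fun h => ?_, fun h m h1 h2 => ?_⟩
  · by_contra hn
    obtain ⟨_, ⟨m, hm, rfl⟩, h1⟩ := hc.nd _ (mem hi) _ (mem hj) (not_forall.1 hn)
    refine h1 fun h2 h3 => ?_
    rw [← n_lt hp hc, ← nodrop_iff hp hc hm]
    exact h m (hp.lt_iff_lt.1 h2) ((le_iff hp hc hm hj).2 h3)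
  · have hm := h2.1.trans_lt hj
    rw [n_lt hp hc, nodrop_iff hp hc hm]
    exact h _ (hp h1) ((le_iff hp hc hm hj).1 h2)

theorem rt_iff (hi : i < o) (hj : j < o) : (T.pull p).Root i j ↔ T.Root (p i) (p j) := by
  refine and_congr (by rw [← hp.le_iff_le, (n_eq hp hc).1]) (and_congr (le_iff hp hc hi hj)
    ⟨fun h => ?_, fun h m h1 h2 => ?_⟩)
  · by_contra hn
    obtain ⟨_, ⟨m, hm, rfl⟩, h1⟩ := hc.rt _ (mem hi) _ (mem hj) (not_forall.1 hn)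
    refine h1 fun h2 h3 => ?_
    rw [← n_lt hp hc]
    exact h m (hp.lt_iff_lt.1 h2) ((le_iff hp hc hm hj).2 h3)
  · rw [n_lt hp hc]
    exact h _ (hp h1) ((le_iff hp hc (h2.1.trans_lt hj) hj).1 h2)

theorem sent (hi : i < o) (hk : k < o) (h : ∀ m < i, (T.pull p).la m ≤ k) :
    ∀ m < p i, T.la m ≤ p k := by
  by_contra hn
  obtain ⟨_, ⟨m, hm, rfl⟩, h1⟩ := hc.sent _ (mem hi) _ (mem hk) (not_forall.1 hn)
  refine h1 fun h2 => ?_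
  rw [← (la_eq hp hc hm).1]
  exact hp.monotone (h m (hp.lt_iff_lt.1 h2))

theorem topClo (hj : j < o) (c y w : Tr.{u}) (hy : In ((T.pull p).b j + 1) y)
    (h : ev (T.E (p j)) (T.b (p j) + 1) c (y.map p) = some w) :
    w.lv ⊆ p '' Iic ((T.pull p).b j) := by
  have hb := b_eq hp hc hj
  obtain ⟨w', h1, h2⟩ := hc.ev (node (leaf (p j)) (node c.erase (y.map p)))
    (by
      simp only [lv_node, lv_leaf, lv_erase, empty_union, union_subset_iff, lv_map]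
      exact ⟨singleton_subset_iff.2 (mem hj), image_mono fun a ha => (KE.le1 (hy a ha)).trans_lt hb.2⟩)
    ⟨w, by simpa using h⟩
  simp only [fst_node, snd_node, lab_leaf, ev_erase, h, Option.some.injEq] at h2
  subst h2
  intro a ha
  obtain ⟨a0, -, rfl⟩ := h1 ha
  exact ⟨a0, hp.le_iff_le.1 (hb.1 ▸ KE.le1 (ev_in h _ ha)), rfl⟩

theorem model [CondSt.{u}] (hj : j < o) (h : PM (T.E (p j)) (T.b (p j) + 1)) :
    PM ((T.pull p).E j) ((T.pull p).b j + 1) ∧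
      Strong ((T.pull p).E j) ((T.pull p).b j + 1) (T.E (p j)) (T.b (p j) + 1) p := by
  have hb := (b_eq hp hc hj).1
  have := CondSt.strong (b := (T.pull p).b j) hp (hb ▸ h.toPM0)
    (hb ▸ fun c y w hy => topClo hp hc hj c y w hy)
  rw [hb] at this
  exact ⟨this.2.2 h, this.2.1⟩

end Hull

end Pool.Agent.KM
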