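import Pool.Agent.Lib.MP_5c0be7_lc.K.StReal
import Pool.Agent.Lib.MP_5c0be7_lc.K.Nm
import Pool.Agent.Lib.MP_5c0be7_lc.L.St
import Pool.Agent.Lib.MP_5c0be7_lc.O.Api

/-!
Project KM, block K: the successor step of a realisation.
-/

namespace Pool.Agent.KM

open Ordinal Tr Set
open scoped Classical

universe u

namespace Step

variable {E E1 E' N1 N2 : Seq.{u}} {v k t c : Ordinal.{u}} {e i q s th : Ordinal.{u} → Ordinal.{u}}
  {Z : Set Ordinal.{u}}

theorem lt_leaf {x y : Ordinal.{u}} : Lt (leaf x) (leaf y) ↔ x < y := by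
  refine ⟨fun h => ?_, fun h => Or.inl (KE.s1lt h)⟩
  rcases (KE.s1le h.ht_le).eq_or_lt with rfl | h1
  · exact absurd h (lt_irrefl' _)
  · exact h1

theorem nm_tst (a : Op) {z y : Tr.{u}} (hz : In k z) :
    Nm E (node (leaf k) (node (tst a) z)) y ↔ In k y ∧ bop a (node y z) = .nil := by
  constructor
  · rintro ⟨b, h1, h2⟩
    obtain rfl : k = b := leaf.inj h1
    have h3 := in_of_ev h2
    exact ⟨((in_node _ _ _).1 h3).1, (ev_tst_isSome a h3).1 h2⟩
  · exact fun h => ⟨k, rfl, (ev_tst_isSome a ((in_node _ _ _).2 ⟨h.1, hz⟩)).2 h.2⟩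

/-- A thread is increasing. -/
theorem thr_mono (hk : k ∈ Z) (hkt : k < t)
    (h : ∀ n a : Tr.{u}, n.lv ⊆ Z → In t n → a.lv ⊆ Z → In (e k) a →
      (Nm E' (n.map e) a ↔ Nm E n (a.map th))) {x y} (hx : x ∈ Z) (hy : y ∈ Z) (hxy : x < y)
    (hl : y < e k) : th x < th y := by
  have h1 := h (node (leaf k) (node (tst (.comp .lt .fst)) .nil)) (node (leaf x) (leaf y))
    (by simpa using hk) (by simpa [In] using hkt) (by simp [insert_subset_iff, hx, hy])
    (by simp [hl, hxy.trans hl])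
  simp only [map_node, map_leaf, map_nil, map_of_lv (lv_tst _), nm_tst _ (in_nil _)] at h1
  simpa [lt_leaf, bop] using (h1.1 ⟨by simp [hl, hxy.trans hl], by simpa [lt_leaf, bop]⟩).2

/-- A thread fixes the points below the critical point. -/
theorem thr_fix (hk : k ∈ Z) (hkt : k < t) (hm : k ≤ e k)
    (h : ∀ n a : Tr.{u}, n.lv ⊆ Z → In t n → a.lv ⊆ Z → In (e k) a →
      (Nm E' (n.map e) a ↔ Nm E n (a.map th))) {x} (hx : x ∈ Z) (hl : x < k) (hf : e x = x) :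
    th x = x := by
  have h1 := h (node (leaf k) (node (tst .eq) (leaf x))) (leaf x)
    (by simp [insert_subset_iff, hx, hk]) (by simp [hkt, hl.trans hkt, in_of_lv (lv_tst _)])
    (by simpa using hx) (by simpa using hl.trans_le hm)
  simp only [map_node, map_leaf, map_of_lv (lv_tst _), hf,
    nm_tst _ ((in_leaf _ _).2 hl), nm_tst _ ((in_leaf _ _).2 (hl.trans_le hm))] at h1
  simpa [bop] using (h1.1 ⟨by simpa using hl.trans_le hm, by simp [bop]⟩).2

theorem ctb (h : v < ω₁) : (Iio v).Countable := by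
  rw [← Cardinal.le_aleph0_iff_set_countable, Ordinal.mk_Iio_ordinal, ← Cardinal.lift_aleph0.{u + 1, u},
    Cardinal.lift_le]
  rw [← Cardinal.lt_aleph_one_iff]
  exact Cardinal.lt_ord.1 (by rwa [Cardinal.ord_aleph])

variable [KActSt.{u}]

/-- The thread given by countable completeness. -/
theorem thread (B : Set Ordinal.{u}) (hB : B.Countable) (hv : v < ω₁) (hE : PM0 E (v + 1))
    (ha : Act E v k t e) (hN : PM0 N1 (q v + 1)) (hq : Good E v N1 q)
    (hoc : ∀ k' t' e', Act N1 (q v) k' t' e' → OC N1 N1 k' t' e') (hag : Ag N1 q N2 s k t) :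
    ∃ th, (∀ z < e k, th (q z) < s k) ∧
      (∀ z ∈ B, z < q k → th z = z) ∧ (∀ z ∈ B, z < q (e k) → th z < q k) ∧
      (∀ z ∈ B, ∀ w < e k, z ≤ q w → th z ≤ th (q w)) ∧
      (∀ m a : Tr.{u}, In t m → In (q (e k)) a → a.lv ⊆ B ∪ q '' Set.Iio (e k) →
        (Nm N1 (m.map (q ∘ e)) a ↔ Nm N2 (m.map s) (a.map th))) ∧
      ∀ m a : Tr.{u}, In t m → In (e k) a →
        (Nm E (m.map e) a ↔ Nm N2 (m.map s) (a.map (th ∘ q))) := by
  obtain ⟨e', ha', he⟩ := KActSt.good_act hE hN hq le_rfl ha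
  obtain ⟨th, h1, h2⟩ := hoc _ _ _ ha' (B ∪ q '' Iio v) (hB.union ((ctb hv).image q))
  rw [he k ha.lt] at h1
  have hkv : k < v := ha.lt.trans ha.dom
  have hl : e k < v := ha.weak.maps k ha.lt
  have hk : q k ∈ B ∪ q '' Iio v := Or.inr ⟨k, hkv, rfl⟩
  have hm : ∀ {x y}, x < y → y ≤ v → q x < q y := fun hxy hy =>
    hq.mono (KE.lt1 (hxy.le.trans hy)) (KE.lt1 hy) hxy
  have key : ∀ m a : Tr.{u}, In t m → In (q (e k)) a → a.lv ⊆ B ∪ q '' Set.Iio (e k) →
      (Nm N1 (m.map (q ∘ e)) a ↔ Nm N2 (m.map s) (a.map th)) := fun m a h3 h4 h5 => by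
    have h6 : a.lv ⊆ B ∪ q '' Iio v :=
      h5.trans (union_subset_union_right _ (image_mono fun _ hx => lt_trans hx hl))
    have h7 : m.map (q ∘ e) = (m.map q).map e' := by
      rw [KN.mm]; exact KN.map_eq (fun x hx => (he x hx).symm) h3
    rw [h7, h2 _ a (by rw [lv_map]; rintro _ ⟨x, hx, rfl⟩; exact Or.inr ⟨x, (h3 x hx).trans ha.dom, rfl⟩)
      (KE.in_map fun z hz => hm (h3 z hz) ha.dom.le) h6 (by rwa [he k ha.lt])]
    exact hag.2 m _ h3 (KE.in_map fun z hz => h1 z (h6 hz) (h4 z hz))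
  refine ⟨th, fun z hz => (h1 _ (Or.inr ⟨z, hz.trans hl, rfl⟩) (hm hz hl.le)).trans_le hag.1,
    fun z hz h3 => thr_fix hk ha'.lt ha'.move.le h2 (Or.inl hz) h3 (ha'.fix z h3),
    fun z hz => h1 z (Or.inl hz), fun z hz w hw h3 => ?_, key, fun m a h3 h4 => ?_⟩
  · rcases h3.eq_or_lt with rfl | h3
    · exact le_rfl
    · exact (thr_mono hk ha'.lt h2 (Or.inl hz) (Or.inr ⟨w, hw.trans hl, rfl⟩) h3
        (by rw [he k ha.lt]; exact hm hw hl.le)).le
  · rw [← KN.mm, ← key m (a.map q) h3 (KE.in_map fun z hz => hm (h4 z hz) hl.le)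
      (by rw [lv_map]; rintro _ ⟨x, hx, rfl⟩; exact Or.inr ⟨x, h4 x hx, rfl⟩), ← KN.mm]
    exact (KN.wnm hq.toWeak ((KN.in_map' ha.weak.maps h3).mono le_self_add)
      (h4.mono (hl.le.trans le_self_add))).symm

end Step

theorem uwf_iff {E E' : Seq.{u}} {d k t e} :
    UWf E d k t E' e ↔ WellFounded (ULt E d k t E' e) := by
  rw [wellFounded_iff_isEmpty_descending_chain, UWf, isEmpty_subtype, not_exists]

instance [KActSt.{u}] [RealSt.{u}] [RealWfSt.{u}] : KStepSt.{u} where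
  step {E E1 E' N1 N2 v k t c e i q s} B hB hv _ hE ha hN hq hoc hU hi hag hn hN2 hs hA := by
    obtain ⟨th, h1, h2, h3, h4, h5, h6⟩ := Step.thread B hB hv hE ha hN hq hoc hA
    have hk := hi k ha.lt
    have htc : t ≤ c := by
      by_contra h
      obtain ⟨a, h7, h8, h9⟩ := hn.2.2.1 c (not_le.1 h)
      obtain rfl : c = a := le_antisymm h7 (KE.le1 (h8.trans_le hn.2.1))
      exact h9.not_gt hU.lt
    have h7 : ∀ z < i k, (th ∘ q) z < s k := hk ▸ h1
    obtain ⟨s', h8, h9, h10⟩ := RealSt.real hU hs hN2 h7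
      (RealSt.thread hU hs htc hn.2.2.2 h7 fun n a h8 h9 => by
        rw [← h6 n a h8 (hk ▸ h9), KN.map_eq hi h8]
        exact KN.anm hag (KN.in_map' ha.weak.maps h8))
    exact ⟨th, s', h8, h9, hk ▸ h10, h2, h3, h4, h5⟩
  wf {E E1 N1 N2 v k t c e q s} hv _ hE ha hN hq hoc hE1 _ htc hn _ hs hA := by
    obtain ⟨th, h1, -, -, -, -, h6⟩ := Step.thread ∅ countable_empty hv hE ha hN hq hoc hA
    exact uwf_iff.1 (RealWfSt.wf hs hE1.ls (hn.2.2.2 c htc (lt_add_one c)) hn.2.1 fun _ _ =>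
      ⟨th ∘ q, fun z _ => h1 z, fun n a _ h7 _ h8 => (h6 n a h7 h8).1⟩)

end Pool.Agent.KM
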