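import Pool.Agent.Lib.MP_5c0be7_lc.K.Real1
import Pool.Agent.Lib.MP_5c0be7_lc.O.Once
import Pool.Agent.Lib.MP_5c0be7_lc.K.Step
import Pool.Agent.Lib.MP_5c0be7_lc.K.Clo
import Pool.Agent.Lib.MP_5c0be7_lc.K.ActI
import Pool.Agent.Lib.MP_5c0be7_lc.L.St

/-!
Project KM, block K: closure properties of the class of realisable premice.
-/

namespace Pool.Agent.KM.IIp

open Ordinal Tr KE _root_.Pool.Agent.KM.Real Set
open scoped Classical

universe u

variable {C : Cfg.{u}} {T : IT.{u}} {E E' E0 E1 N N' : Seq.{u}}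
  {a b b' b0 b1 c d d' g g0 g1 k t x : Ordinal.{u}} {p q s f : Ordinal.{u} → Ordinal.{u}}
  {n : Cn.{u}}

theorem ctb_Iic (h : b < ω₁) : (Iic b).Countable := by
  rw [← Iio_insert]; exact (Step.ctb h).insert b

theorem lt_of_ctb (h : (Iio b).Countable) : b < ω₁ := by
  rw [← Cardinal.le_aleph0_iff_set_countable, Cardinal.mk_Iio_ordinal,
    ← Cardinal.lift_aleph0.{u + 1, u}, Cardinal.lift_le, ← Cardinal.lt_aleph_one_iff] at h
  rw [← Cardinal.ord_aleph]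
  exact Cardinal.lt_ord.2 h

theorem ctb_hull {A : Set Ordinal.{u}} (hA : A.Countable) : {y | InHull E d A y}.Countable := by
  refine (((countable_trees countable_empty).prod (countable_trees hA)).image
    fun z : Tr.{u} × Tr.{u} => ((ev E d z.1 z.2).getD .nil).lab).mono ?_
  rintro y ⟨c, x, h1, h2⟩
  exact ⟨(c.erase, x), ⟨by simp, h1⟩, by simp [h2, lab]⟩

/-- Countable hulls. -/
theorem exists_hull [HullSt.{u}] [CondSt.{u}] (hE : PM0 E (b + 1)) {A : Set Ordinal.{u}}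
    (hA : A.Countable) (hb : A ⊆ Iic b) :
    ∃ E1 b1 p, StrictMono p ∧ b1 < ω₁ ∧ p b1 = b ∧ PM0 E1 (b1 + 1) ∧
      Strong E1 (b1 + 1) E (p b1 + 1) p ∧ A ⊆ p '' Iic b1 := by
  obtain ⟨p, b1, h1, h2, h3, h4⟩ := HullSt.enum (E := E) (b := b)
    (Z := {y | InHull E (b + 1) A y}) (fun y hy => le1 (HullSt.lt hy)) fun y hy => HullSt.closed hy
  obtain ⟨h5, h6, -⟩ := CondSt.strong h1 (h2 ▸ hE) (h2 ▸ h4)
  refine ⟨_, b1, p, h1, lt_of_ctb (Countable.mono Iio_subset_Iic_self ?_), h2, h5, h6,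
    fun y hy => h3 ▸ HullSt.sub hy (lt1 (hb hy))⟩
  exact countable_of_injective_of_countable_image h1.injective.injOn (h3 ▸ ctb_hull hA)

/-- A good map whose range lies in the range of a strong map factors through it. -/
theorem factor (hp : StrictMono p) (h : Strong E1 (b1 + 1) E (p b1 + 1) p) (hk : Good E0 b0 E q)
    (hr : ∀ x ≤ b0, q x ∈ p '' Iic b1) :
    ∃ f, Good E0 b0 E1 f ∧ f b0 ≤ b1 ∧ ∀ x ≤ b0, p (f x) = q x := by
  choose! f h1 h2 using hr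
  refine ⟨f, good_cancel (strong_restrict h (h1 b0 le_rfl)) (good_congr hk h2) fun a ha => ?_,
    h1 b0 le_rfl, h2⟩
  rw [← hp.le_iff_le, h2 a ha, h2 b0 le_rfl]
  exact (w_le hk.toWeak (lt1 ha) (lt_add_one b0)).2 ha

theorem rz_pre (h : Rz C g1 E1 (f b0) n s) (hf : Good E0 b0 E1 f)
    (hg : ∀ x ≤ b0, g0 ≤ x → g1 ≤ f x) : Rz C g0 E0 b0 n (s ∘ f) :=
  ⟨h.ok, good_comp hf h.good, h.top, fun x hx hx' =>
    h.base _ (le1 (hf.maps x (lt1 hx))) (hg x hx hx')⟩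

theorem exists_base (hp : StrictMono p) (g : Ordinal.{u}) : ∃ g1, ∀ x, g1 ≤ x ↔ g ≤ p x := by
  have hne : {x | g ≤ p x}.Nonempty := ⟨g, hp.le_apply⟩
  exact ⟨sInf {x | g ≤ p x}, fun x =>
    ⟨fun h => le_trans (csInf_mem hne) (hp.monotone h), fun h => csInf_le' h⟩⟩

theorem card_up (h : Good E b N s) (hk : IsCard E (b + 1) k) (hr : k < rho E b)
    (hn : NoProj N (s k) (s b + 1) d) : IsCard N d (s k) := by
  intro a h1 h2
  have hkb : k < b := hr.trans_le KE.rho_le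
  rcases lt_trichotomy a (s b) with h3 | rfl | h3
  · exact h.card k k hkb hkb (fun a h4 h5 => hk a h4 (lt1 h5.le)) a h1 h3
  · exact (h.proj k hr).le
  · exact (hn a (Order.add_one_le_iff.2 h3) h2).le

theorem ag_fix (h : Weak N d N' d' f) (hf : ∀ y < s k, f y = y) (hs : ∀ x < t, s x < d)
    (hk : k < t) : Ag N s N' (f ∘ s) k t := by
  refine ⟨w_self h (hs k hk), fun m v hm hv => ?_⟩
  rw [map_comp, ← w_nm h (in_map fun z hz => hs z (hm z hz)) (hv.mono (hs k hk).le),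
    map_eq_self fun z hz => hf z (hv z hz)]

theorem res_fix (h : n.Ok C) (hc : c ≤ n.b) (hbe : C.be ≤ c) (hk : IsCard n.E (n.b + 1) k)
    (hkc : k ≤ c) : ∀ y < k, (res C n c).2 y = y := fun y hy =>
  (res_spec h hc hbe).2.2.2.2.2 y
    (fun a h1 h2 => hy.trans_le (hk a (hkc.trans (le_self_add.trans h1)) h2)) y le_rfl

theorem eqv_of_eq (h : ∀ x < t, s x = q x) : Eqv N s N q t := fun x hx => ⟨h x hx, fun _ _ => rfl⟩

/-- Roots realised in the same node by maps that agree below the exchange ordinals. -/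
theorem same_root {s : Ordinal.{u} → Ordinal.{u} → Ordinal.{u}} (hT : T.Phal)
    (hR : ∀ i ≤ T.n, Rz C g (T.E i) (T.b i) n (s i))
    (he : ∀ i j, i < j → j ≤ T.n → ∀ x < T.la i, s j x = s i x) : RootRz C g T (fun _ => n) s := by
  refine ⟨hR, fun i j k t c hij hj hg _ _ hk ht hc hn hl => ?_⟩
  have ri := hR i (hij.le.trans hj)
  have rj := hR j hj
  have hkt := hn.1
  have hkc : k ≤ c := hkt.le.trans hl.ta_le
  have htb : t ≤ T.b j := ht.trans (hT.le' i j hij hj)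
  have h1 : IsCard n.E (n.b + 1) (s j k) := card_up rj.good hc (hn.2.2.2 _ htb (lt_add_one _))
    fun a h2 h3 => absurd h3 (not_lt.2 (rj.top ▸ h2))
  rw [he i j hij hj k hk] at h1
  have hw := ri.good.toWeak
  have hbe := ri.base c hl.st_le (hg.trans hkc)
  refine (eqv_of_eq fun x hx => he i j hij hj x (hx.trans_le ht)).ag_trans hkt
    (ag_fix (res_spec ri.ok (rz_le ri hl.st_le) hbe).2.2.1.toWeak
      (res_fix ri.ok (rz_le ri hl.st_le) hbe h1
        ((w_le hw (lt1 (hkc.trans hl.st_le)) (lt1 hl.st_le)).2 hkc)) (fun x hx => lt1 ?_) hkt)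
  have hx' := hx.le.trans hl.ta_le
  exact (w_le hw (lt1 (hx'.trans hl.st_le)) (lt1 hl.st_le)).2 hx'

/-- Roots realised in levels of one node. -/
theorem level_root {s : Ordinal.{u} → Ordinal.{u} → Ordinal.{u}} (hT : T.Phal) (hn : n.Ok C)
    (hG : ∀ i ≤ T.n, Good (T.E i) (T.b i) n.E (s i)) (hb : ∀ i ≤ T.n, s i (T.b i) ≤ n.b)
    (hg : ∀ i ≤ T.n, g ≤ T.b i) (hbe : ∀ i ≤ T.n, ∀ x ≤ T.b i, g ≤ x → C.be ≤ s i x)
    (he : ∀ i j, i < j → j ≤ T.n → ∀ x < T.la i, s j x = s i x)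
    (hp : ∀ i j, i < j → j ≤ T.n → ∀ x < T.la i,
      NoProj n.E (s j x) (s j (T.b j) + 1) (n.b + 1)) :
    RootRz C g T (fun i => rn C n (s i) (T.b i)) fun i => rm C n (s i) (T.b i) := by
  have sp := fun i (hi : i ≤ T.n) => res_spec hn (hb i hi) (hbe i hi _ le_rfl (hg i hi))
  have pn : ∀ i ≤ T.n, PM0 n.E (s i (T.b i) + 1) := fun i hi =>
    pm0_mono hn.pm.toPM0 (by gcongr; exact hb i hi)
  have gs : ∀ i ≤ T.n, Good n.E (s i (T.b i)) (rn C n (s i) (T.b i)).E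
      (res C n (s i (T.b i))).2 := fun i hi =>
    KGoodSt.strong_good (pn i hi) ((sp i hi).2.1 ▸ (sp i hi).1.pm.toPM0) (sp i hi).2.2.1
  have hR : ∀ i ≤ T.n, Rz C g (T.E i) (T.b i) (rn C n (s i) (T.b i)) (rm C n (s i) (T.b i)) :=
    fun i hi => ⟨(sp i hi).1, good_comp (hG i hi) (gs i hi), (sp i hi).2.1.symm, fun x hx hx' =>
      (hbe i hi x hx hx').trans (w_self (gs i hi).toWeak ((hG i hi).maps x (lt1 hx)))⟩
  refine ⟨hR, fun i j k t c hij hj hgk _ _ hk ht hc hnx hl => ?_⟩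
  have hi := hij.le.trans hj
  have ri := hR i hi
  have hkt := hnx.1
  have hkc : k ≤ c := hkt.le.trans hl.ta_le
  have htb : t ≤ T.b j := ht.trans (hT.le' i j hij hj)
  have h1 : IsCard n.E (n.b + 1) (s j k) :=
    card_up (hG j hj) hc (hnx.2.2.2 _ htb (lt_add_one _)) (hp i j hij hj k hk)
  rw [he i j hij hj k hk] at h1
  have hw := (hG i hi).toWeak
  have mono : ∀ x y, x ≤ y → y ≤ T.b i → s i x ≤ s i y := fun x y h2 h3 =>
    (w_le hw (lt1 (h2.trans h3)) (lt1 h3)).2 h2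
  have e1 : Eqv (rn C n (s j) (T.b j)).E (rm C n (s j) (T.b j)) n.E (s j) t := by
    intro x hx
    have h2 := (sp j hj).2.2.2.2.2 _ (hp i j hij hj x (hx.trans_le ht))
    refine ⟨h2 _ le_rfl, ?_⟩
    have h3 : rm C n (s j) (T.b j) x = s j x := h2 _ le_rfl
    rw [h3]
    exact (weak_evAg (gs j hj).toWeak ((hG j hj).maps x (lt1 (hx.le.trans htb))) h2).symm
  refine (e1.trans (eqv_of_eq fun x hx => he i j hij hj x (hx.trans_le ht))).ag_trans hkt ?_
  have hbe' := ri.base c hl.st_le (hgk.trans hkc)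
  have s2 := res_spec ri.ok (rz_le ri hl.st_le) hbe'
  have s1 := strong_restrict (sp i hi).2.2.1 (mono c _ hl.st_le le_rfl)
  refine ag_fix (f := (res C (rn C n (s i) (T.b i)) (rm C n (s i) (T.b i) c)).2 ∘
    (res C n (s i (T.b i))).2) (strong_comp s1 s2.2.2.1).toWeak (fun y hy => ?_)
    (fun x hx => lt1 (mono x c (hx.le.trans hl.ta_le) hl.st_le)) hkt
  have f1 := res_fix hn (hb i hi) (hbe i hi _ le_rfl (hg i hi)) h1
    (mono k _ (hkc.trans hl.st_le) le_rfl) y hy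
  have n1 : NoProj n.E y (s i c + 1) (s i (T.b i) + 1) := fun a h2 h3 =>
    hy.trans_le (h1 a ((mono k c hkc hl.st_le).trans (le_self_add.trans h2))
      (h3.trans_le (by gcongr; exact hb i hi)))
  have n2 := good_noProj (gs i hi) (mono c _ hl.st_le le_rfl) n1
  rw [f1, ← (sp i hi).2.1] at n2
  rw [Function.comp_apply, f1]
  exact s2.2.2.2.2.2 y n2 y le_rfl

theorem emb_good {T0 : IT.{u}} {i : Ordinal.{u}} (h : RootEmb T0 T p) (hi : i ≤ T0.n)
    (hT : PM0 (T.E (p i)) (T.b (p i) + 1)) :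
    p (T0.b i) = T.b (p i) ∧ Good (T0.E i) (T0.b i) (T.E (p i)) p := by
  have h1 := h.str i hi
  have h2 := s1inj (h1.top _ rfl)
  exact ⟨h2.symm, KGoodSt.strong_good (h.phal.pm i hi).toPM0 (h2 ▸ hT) (h2 ▸ h1)⟩

theorem one (hE : PM0 E (b + 1)) (h : II C g E b) : PII C g (IT.one E b) := by
  intro T0 p g0 hp hg
  have hn : T0.n = 0 := le_antisymm (hp.mono.le_apply.trans hp.n.le) zero_le
  obtain ⟨h1, h2⟩ := emb_good (i := 0) hp zero_le hE
  obtain ⟨n, s, hR⟩ := h _ _ g0 p (hp.ctb 0 zero_le) (hp.phal.pm 0 zero_le).toPM0 h2 h1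
    fun x _ hx => hg ▸ hp.mono.monotone hx
  refine ⟨fun _ => n, fun _ => s, same_root hp.phal (fun i hi => ?_) fun _ _ _ _ _ _ => rfl⟩
  rwa [le_antisymm (hn ▸ hi) (zero_le (a := i))]

theorem two_E0 : (IT.two E b E' b' a).E 0 = E := by simp [IT.two, IT.E, Nd.root]
theorem two_b0 : (IT.two E b E' b' a).b 0 = b := by simp [IT.two, IT.b, Nd.root]
theorem two_E1 : (IT.two E b E' b' a).E 1 = E' := by simp [IT.two, IT.E, Nd.root]
theorem two_b1 : (IT.two E b E' b' a).b 1 = b' := by simp [IT.two, IT.b, Nd.root]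
theorem two_la : (IT.two E b E' b' a).la 0 = a := by simp [IT.two, IT.la, Nd.root]

theorem two_root {s0 s1 : Ordinal.{u} → Ordinal.{u}} (hT : T.Phal) (hn : T.n = 1)
    (h0 : Rz C g (T.E 0) (T.b 0) n s0) (h1 : Rz C g (T.E 1) (T.b 1) n s1)
    (he : ∀ x < T.la 0, s1 x = s0 x) :
    RootRz C g T (fun _ => n) fun i => if i = 0 then s0 else s1 := by
  have cases : ∀ i ≤ T.n, i = 0 ∨ i = 1 := fun i hi => Order.le_one_iff.1 (hn ▸ hi)
  refine same_root hT (fun i hi => ?_) fun i j hij hj x hx => ?_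
  · rcases cases i hi with rfl | rfl
    · simpa using h0
    · simpa using h1
  · rcases cases j hj with rfl | rfl
    · simp at hij
    · obtain rfl : i = 0 := Order.lt_one_iff.1 hij
      simpa using he x hx

variable [HullSt.{u}] [CondSt.{u}]

theorem level (hE : PM0 E (b + 1)) (h : II C g E b) (hc : c ≤ b) (hg : g ≤ c) : II C g E c := by
  intro E0 b0 g0 q h1 h2 h3 h4 h5
  obtain ⟨E1, b1, p, k1, k2, k3, k4, k5, k6⟩ := exists_hull hE ((ctb_Iic h1).image q) (by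
    rintro _ ⟨x, hx, rfl⟩
    exact (le1 (h3.maps x (lt1 hx))).trans (h4 ▸ hc))
  obtain ⟨g1, hg1⟩ := exists_base k1 g
  obtain ⟨f, f1, f2, f3⟩ := factor k1 k5 h3 fun x hx => k6 ⟨x, hx, rfl⟩
  obtain ⟨n, s, hR⟩ := h E1 b1 g1 p k2 k4 (KGoodSt.strong_good k4 (k3 ▸ hE) k5) k3
    fun x _ => (hg1 x).1
  exact ⟨_, _, rz_pre (rz_res k4 hR f2 ((hg1 _).2 (by rw [f3 _ le_rfl, h4]; exact hg))) f1
    fun x hx hx' => (hg1 _).2 (by rw [f3 x hx]; exact h5 x hx hx')⟩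

theorem two (h : II C g E b) (hT : (IT.two E b E' b' a).Phal) (hs : Good E' b' E s)
    (hb : s b' = b) (hf : ∀ x < a, s x = x) : PII C g (IT.two E b E' b' a) := by
  intro T0 p g0 hp hg
  have p0 : p 0 = 0 := hp.fin 0 omega0_pos
  have p1 : p 1 = 1 := hp.fin 1 one_lt_omega0
  have hn : T0.n = 1 := hp.mono.injective (hp.n.trans p1.symm)
  have hE : PM0 E (b + 1) := by simpa [two_E0, two_b0] using (hT.pm 0 zero_le).toPM0
  obtain ⟨a1, a2⟩ := emb_good (i := 0) hp zero_le (by rw [p0]; exact (hT.pm 0 zero_le).toPM0)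
  obtain ⟨c1, c2⟩ := emb_good (i := 1) hp hn.ge (by rw [p1]; exact (hT.pm 1 le_rfl).toPM0)
  rw [p0, two_b0] at a1
  rw [p0, two_E0] at a2
  rw [p1, two_b1] at c1
  rw [p1, two_E1] at c2
  have c3 : Good (T0.E 1) (T0.b 1) E (s ∘ p) := good_comp c2 (c1 ▸ hs)
  obtain ⟨E1, b1, q, k1, k2, k3, k4, k5, k6⟩ := exists_hull hE
    (((ctb_Iic (hp.ctb 0 zero_le)).image p).union ((ctb_Iic (hp.ctb 1 hn.ge)).image (s ∘ p))) (by
    rintro _ (⟨x, hx, rfl⟩ | ⟨x, hx, rfl⟩)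
    · exact a1 ▸ le1 (a2.maps x (lt1 hx))
    · exact (le1 (c3.maps x (lt1 hx))).trans (by rw [Function.comp_apply, c1, hb]))
  obtain ⟨g1, hg1⟩ := exists_base k1 g
  obtain ⟨f0, f1, -, f3⟩ := factor k1 k5 a2 fun x hx => k6 (Or.inl ⟨x, hx, rfl⟩)
  obtain ⟨f', f4, -, f6⟩ := factor k1 k5 c3 fun x hx => k6 (Or.inr ⟨x, hx, rfl⟩)
  obtain ⟨n, r, hR⟩ := h E1 b1 g1 q k2 k4 (KGoodSt.strong_good k4 (k3 ▸ hE) k5) k3
    fun x _ => (hg1 x).1
  have t0 : f0 (T0.b 0) = b1 := k1.injective (by rw [f3 _ le_rfl, a1, k3])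
  have t1 : f' (T0.b 1) = b1 :=
    k1.injective (by rw [f6 _ le_rfl, Function.comp_apply, c1, hb, k3])
  have h01 : (0 : Ordinal.{u}) < T0.n := hn ▸ zero_lt_one
  refine ⟨_, _, two_root hp.phal hn
    (rz_pre (t0 ▸ hR) f1 fun x hx hx' => (hg1 _).2 ?_)
    (rz_pre (t1 ▸ hR) f4 fun x hx hx' => (hg1 _).2 ?_) fun x hx => ?_⟩
  · rw [f3 x hx, ← hg]; exact hp.mono.monotone hx'
  · rw [f6 x hx, ← hg]
    exact (hp.mono.monotone hx').trans
      (w_self hs.toWeak (lt1 (c1 ▸ hp.mono.monotone hx)))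
  · refine congrArg r (k1.injective ?_)
    rw [f3 x (hx.le.trans (hp.phal.le 0 h01)),
      f6 x (hx.le.trans (hp.phal.le' 0 1 zero_lt_one hn.ge)), Function.comp_apply, hf]
    have := hp.la 0 h01
    rw [p0, two_la] at this
    exact this ▸ hp.mono hx

instance : KIISt.{u} where
  cert := fun {_ r b E} h _ _ _ k _ _ h3 h4 h5 => ⟨⟨r, E, b⟩, k, h, h3, h4, h5⟩
  pre := fun h hs hg E0 b0 g0 _ h1 h2 h3 h4 h5 =>
    h E0 b0 g0 _ h1 h2 (good_comp h3 (h4 ▸ hs)) (congrArg _ h4) fun x hx hx' =>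
      hg _ (h4 ▸ le1 (h3.maps x (lt1 hx))) (h5 x hx hx')
  level := level
  one := one
  two := two

end Pool.Agent.KM.IIp
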