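import Pool.Agent.Lib.MP_5c0be7_lc.K.Cert
import Pool.Agent.Lib.MP_5c0be7_lc.K.Emb

/-!
Project KM, block K, part 2: properties of resurrection.
-/

namespace Pool.Agent.KM

open Ordinal Tr KE
open scoped Classical

universe u

variable {C : Cfg.{u}} {E E' E'' : Seq.{u}} {a b b' c d d' g k r t v x : Ordinal.{u}}
  {s s' e : Ordinal.{u} → Ordinal.{u}} {n : Cn.{u}}

theorem Cert.pm (h : Cert C r E d) : PM E d := by cases h; assumption

theorem Cert.topOK (h : Cert C r E d) : TopOK C E d := by cases h; assumption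

theorem Cert.exists_child (h : Cert C r E d) (hc : MinPt C E d c) :
    ∃ r' E' s, r' < r ∧ Strong E (c + 1) E' (s c + 1) s ∧ (∀ x < rho E (c + 1), s x = x) ∧
      Cert C r' E' (s c + 1) := by
  cases h with
  | mk pm top r' E' s lt str fix ch => exact ⟨r' c, E' c, s c, lt c hc, str c hc, fix c hc, ch c hc⟩

theorem Cert.intro (pm : PM E d) (top : TopOK C E d)
    (h : ∀ c, MinPt C E d c → ∃ r' E' s, r' < r ∧ Strong E (c + 1) E' (s c + 1) s ∧
      (∀ x < rho E (c + 1), s x = x) ∧ Cert C r' E' (s c + 1)) : Cert C r E d := by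
  choose! r' E' s h1 h2 h3 h4 using h
  exact Cert.mk pm top r' E' s h1 h2 h3 h4

theorem Cert.mono (h : Cert C r E d) {r' : Ordinal.{u}} (hr : r ≤ r') : Cert C r' E d :=
  Cert.intro h.pm h.topOK fun _ hc =>
    let ⟨r1, E1, s, h1, h2⟩ := h.exists_child hc
    ⟨r1, E1, s, h1.trans_le hr, h2⟩

/-- No rank is needed to introduce a certificate. -/
theorem Cert.intro' (pm : PM E d) (top : TopOK C E d)
    (h : ∀ c, MinPt C E d c → ∃ r' E' s, Strong E (c + 1) E' (s c + 1) s ∧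
      (∀ x < rho E (c + 1), s x = x) ∧ Cert C r' E' (s c + 1)) : ∃ r, Cert C r E d := by
  choose! r' E' s h2 h3 h4 using h
  have hb : BddAbove (r' '' Set.Iio d) := Ordinal.bddAbove_of_small
  obtain ⟨m, hm⟩ := hb
  refine ⟨m + 1, Cert.mk pm top r' E' s (fun c hc => ?_) h2 h3 h4⟩
  exact Order.lt_add_one_iff.2 (hm ⟨c, (lt_add_one c).trans hc.2.1, rfl⟩)

theorem Cn.Ok.pm (h : n.Ok C) : PM n.E (n.b + 1) := Cert.pm h

theorem child_spec (h : n.Ok C) (hc : MinPt C n.E (n.b + 1) c) : IsChild C n c (child C n c) := by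
  have : ∃ p, IsChild C n c p := by
    obtain ⟨r', E', s, h1, h2, h3, h4⟩ := Cert.exists_child h hc
    exact ⟨(⟨r', E', s c⟩, s), h1, h4, rfl, h2, h3⟩
  unfold child
  rw [dif_pos this]
  exact this.choose_spec

theorem lmp_spec (hE : LS E d) (hb : b + 1 < d) :
    b ≤ lmp E d b ∧ lmp E d b + 1 < d ∧
      ∀ a, b + 1 ≤ a → a < d → rho E (lmp E d b + 1) ≤ rho E a := by
  have hne : {c | b ≤ c ∧ c + 1 < d ∧ ∀ a, b + 1 ≤ a → a < d → rho E (c + 1) ≤ rho E a}.Nonempty := by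
    obtain ⟨a, ⟨ha1, ha2⟩, hmin⟩ := (InvImage.wf (rho E) wellFounded_lt).has_min
      {a | b + 1 ≤ a ∧ a < d} ⟨b + 1, le_rfl, hb⟩
    have hmin' : ∀ a', b + 1 ≤ a' → a' < d → rho E a ≤ rho E a' := fun a' h1 h2 =>
      not_lt.1 (hmin a' ⟨h1, h2⟩)
    by_cases hs : Suc a
    · obtain ⟨c, rfl⟩ := hs
      exact ⟨c, s1le ha1, ha2, hmin'⟩
    · refine ⟨b, le_rfl, hb, fun a' h1 h2 => le_trans ?_ (hmin' a' h1 h2)⟩
      rw [(hE a ha2).2 hs]
      exact rho_le.trans ha1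
  exact csInf_mem hne

theorem lmp_le (hc : b ≤ c) (hd : c + 1 < d)
    (h : ∀ a, b + 1 ≤ a → a < d → rho E (c + 1) ≤ rho E a) : lmp E d b ≤ c :=
  csInf_le' ⟨hc, hd, h⟩

theorem lmp_minPt (hE : LS E d) (hb : b + 1 < d) (hbe : C.be ≤ b) :
    MinPt C E d (lmp E d b) := by
  obtain ⟨h1, h2, h3⟩ := lmp_spec hE hb
  exact ⟨hbe.trans h1, h2, fun a ha => h3 a (le_trans (by gcongr) ha)⟩

theorem res_top (hb : ¬ b < n.b) : res C n b = (n, id) := by
  rw [res, dif_neg fun h => hb h.1]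

theorem res_lt (h : n.Ok C) (hb : b < n.b) (hbe : C.be ≤ b) :
    IsChild C n (lmp n.E (n.b + 1) b) (child C n (lmp n.E (n.b + 1) b)) ∧
    res C n b =
      ((res C (child C n (lmp n.E (n.b + 1) b)).1 ((child C n (lmp n.E (n.b + 1) b)).2 b)).1,
      (res C (child C n (lmp n.E (n.b + 1) b)).1 ((child C n (lmp n.E (n.b + 1) b)).2 b)).2 ∘
        (child C n (lmp n.E (n.b + 1) b)).2) := by
  have hc := child_spec h (lmp_minPt (C := C) h.pm.ls (s1lt hb) hbe)
  refine ⟨hc, ?_⟩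
  rw [res, dif_pos ⟨hb, hc.lt⟩]

variable [KEvSt.{u}]

/-- A weak map that fixes all ordinals up to `x` preserves the tables up to `x`. -/
theorem weak_evAg (h : Weak E d E' d' s) (hx : x < d) (hf : ∀ y ≤ x, s y = y) :
    EvAg E E' x := by
  intro a ha
  funext q y
  by_cases hy : In a y
  · have := h.comm a (ha.trans_lt hx) q y hy
    rw [hf a ha, map_eq_self fun z hz => hf z ((hy z hz).le.trans ha)] at this
    rw [this]
    cases hv : ev E a q y with
    | none => rfl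
    | some z =>
      have hz := KEvSt.ev_in hv
      simp [map_eq_self fun w hw => hf w ((hz w hw).le.trans ha)]
  · rw [KEvSt.ev_none hy, KEvSt.ev_none hy]

omit [KEvSt.{u}] in
theorem EvAg.symm (h : EvAg E E' x) : EvAg E' E x := fun a ha => (h a ha).symm

omit [KEvSt.{u}] in
theorem EvAg.trans (h : EvAg E E' x) (h' : EvAg E' E'' x) : EvAg E E'' x :=
  fun a ha => (h a ha).trans (h' a ha)

omit [KEvSt.{u}] in
theorem EvAg.mono (h : EvAg E E' x) (hy : a ≤ x) : EvAg E E' a := fun c hc => h c (hc.trans hy)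

variable [KGoodSt.{u}]

/-- First resurrection lemma. -/
theorem res_spec (h : n.Ok C) (hb : b ≤ n.b) (hbe : C.be ≤ b) :
    (res C n b).1.Ok C ∧ (res C n b).1.b = (res C n b).2 b ∧
    Strong n.E (b + 1) (res C n b).1.E ((res C n b).2 b + 1) (res C n b).2 ∧
    (res C n b).1.r ≤ n.r ∧ (b < n.b → (res C n b).1.r < n.r) ∧
    ∀ x, NoProj n.E x (b + 1) (n.b + 1) → ∀ y ≤ x, (res C n b).2 y = y := by
  induction hr : n.r using WellFoundedLT.induction generalizing n b with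
  | ind r ih =>
  subst hr
  rcases hb.eq_or_lt with rfl | hb
  · rw [res_top (lt_irrefl _)]
    exact ⟨h, rfl, strong_id, le_rfl, fun h => absurd h (lt_irrefl _), fun _ _ _ _ => rfl⟩
  obtain ⟨hc, he⟩ := res_lt h hb hbe
  obtain ⟨h1, h2, h3⟩ := lmp_spec (b := b) h.pm.ls (s1lt hb)
  generalize lmp n.E (n.b + 1) b = c at *
  generalize child C n c = p at *
  have hbc : b < c + 1 := Order.lt_add_one_iff.2 h1
  have hpm : PM0 n.E (c + 1) := pm0_mono h.pm.toPM0 h2.le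
  have hpm' : PM0 p.1.E (p.2 c + 1) := hc.top ▸ hc.ok.pm.toPM0
  have hle : p.2 b ≤ p.1.b := hc.top ▸ (w_le hc.str.toWeak hbc (lt_add_one c)).2 h1
  have hself := w_self hc.str.toWeak hbc
  obtain ⟨i1, i2, i3, i4, -, i6⟩ := ih p.1.r hc.lt hc.ok hle (hbe.trans hself) rfl
  have hstr : Strong n.E (b + 1) p.1.E (p.2 b + 1) p.2 := strong_restrict hc.str h1
  rw [he]
  refine ⟨i1, i2, (strong_comp hstr i3 :), i4.trans hc.lt.le, fun _ => i4.trans_lt hc.lt,
    fun x hx y hy => ?_⟩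
  have hxc : x < rho n.E (c + 1) := hx _ (by gcongr) h2
  have hn : NoProj p.1.E (p.2 x) (p.2 b + 1) (p.2 c + 1) :=
    good_noProj (KGoodSt.strong_good hpm hpm' hc.str) h1 fun a h4 h5 => hx a h4 (h5.trans h2)
  rw [hc.fix x hxc, ← hc.top] at hn
  show (res C p.1 (p.2 b)).2 (p.2 y) = y
  rw [hc.fix y (hy.trans_lt hxc)]
  exact i6 x hn y hy

/-- Second resurrection lemma: coherence. -/
theorem res_coh {b1 b2 : Ordinal.{u}} (h : n.Ok C) (h12 : b1 ≤ b2) (hb : b2 ≤ n.b)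
    (hbe : C.be ≤ b1) (hx1 : x ≤ b1) (hx : NoProj n.E x (b1 + 1) (b2 + 1)) :
    (∀ y ≤ x, (res C n b1).2 y = (res C n b2).2 y) ∧
      EvAg (res C n b1).1.E (res C n b2).1.E ((res C n b1).2 x) := by
  induction hr : n.r using WellFoundedLT.induction generalizing n b1 b2 x with
  | ind r ih =>
  subst hr
  have triv : NoProj n.E x (b1 + 1) (n.b + 1) →
      (∀ y ≤ x, (res C n b1).2 y = (res C n b2).2 y) ∧
      EvAg (res C n b1).1.E (res C n b2).1.E ((res C n b1).2 x) := by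
    intro hn
    obtain ⟨-, -, a3, -, -, a6⟩ := res_spec h (h12.trans hb) hbe
    obtain ⟨-, -, c3, -, -, c6⟩ := res_spec h hb (hbe.trans h12)
    have a7 := a6 x hn
    have c7 := c6 x fun a h1 h2 => hn a (le_trans (by gcongr) h1) h2
    refine ⟨fun y hy => by rw [a7 y hy, c7 y hy], ?_⟩
    rw [a7 x le_rfl]
    exact (weak_evAg a3.toWeak (Order.lt_add_one_iff.2 hx1) a7).symm.trans
      (weak_evAg c3.toWeak (Order.lt_add_one_iff.2 (hx1.trans h12)) c7)
  rcases hb.eq_or_lt with rfl | hb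
  · exact triv hx
  have hb1 : b1 < n.b := h12.trans_lt hb
  obtain ⟨h1, h2, h3⟩ := lmp_spec (b := b1) h.pm.ls (s1lt hb1)
  obtain ⟨k1, k2, k3⟩ := lmp_spec (b := b2) h.pm.ls (s1lt hb)
  by_cases hlt : lmp n.E (n.b + 1) b1 < b2
  · refine triv fun a h4 h5 => lt_of_lt_of_le (hx _ ?_ ?_) (h3 a h4 h5)
    · gcongr
    · exact s1lt hlt
  have hlt := not_lt.1 hlt
  have heq : lmp n.E (n.b + 1) b1 = lmp n.E (n.b + 1) b2 := by
    refine le_antisymm (lmp_le (h12.trans k1) k2 fun a h4 h5 => ?_)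
      (lmp_le hlt h2 fun a h4 h5 => h3 a (le_trans (by gcongr) h4) h5)
    exact (k3 _ (by gcongr) h2).trans (h3 a h4 h5)
  obtain ⟨hc, he1⟩ := res_lt h hb1 hbe
  obtain ⟨-, he2⟩ := res_lt h hb (hbe.trans h12)
  rw [← heq] at he2
  generalize lmp n.E (n.b + 1) b1 = c at *
  generalize child C n c = p at *
  have hbc : b2 < c + 1 := Order.lt_add_one_iff.2 hlt
  have hbc1 : b1 < c + 1 := h12.trans_lt hbc
  have hpm : PM0 n.E (c + 1) := pm0_mono h.pm.toPM0 h2.le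
  have hpm' : PM0 p.1.E (p.2 c + 1) := hc.top ▸ hc.ok.pm.toPM0
  have hw' := hc.str.toWeak
  have hstr : Strong n.E (b2 + 1) p.1.E (p.2 b2 + 1) p.2 := strong_restrict hc.str hlt
  have hle : p.2 b2 ≤ p.2 c := (w_le hw' hbc (lt_add_one c)).2 hlt
  have hself := w_self hw' hbc1
  have hn : NoProj p.1.E (p.2 x) (p.2 b1 + 1) (p.2 b2 + 1) :=
    good_noProj (KGoodSt.strong_good (pm0_mono hpm (by gcongr)) (pm0_mono hpm' (by gcongr)) hstr)
      h12 hx
  obtain ⟨i1, i2⟩ := ih p.1.r hc.lt hc.ok ((w_le hw' hbc1 hbc).2 h12) (hc.top ▸ hle)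
    (hbe.trans hself) ((w_le hw' (hx1.trans_lt hbc1) hbc1).2 hx1) hn rfl
  rw [he1, he2]
  exact ⟨fun y hy => i1 _ ((w_le hw' ((hy.trans hx1).trans_lt hbc1) (hx1.trans_lt hbc1)).2 hy), i2⟩

end Pool.Agent.KM
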