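import Pool.Agent.Lib.MP_5c0be7_lc.K.StReal
import Pool.Agent.Lib.MP_5c0be7_lc.K.StTree
import Pool.Agent.Lib.MP_5c0be7_lc.K.Res
import Pool.Agent.Lib.MP_5c0be7_lc.O.StF3

/-!
Project KM, block K: agreement of realisation maps along branches.
-/

namespace Pool.Agent.KM.Real

open Ordinal Tr KE
open scoped Classical

universe u

variable {C : Cfg.{u}} {T : IT.{u}} {E E' N1 N2 N3 : Seq.{u}}
  {a b c d g i j k l m p t v x : Ordinal.{u}} {e s1 s2 s3 : Ordinal.{u} → Ordinal.{u}}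
  {n : Ordinal.{u} → Cn.{u}} {s : Ordinal.{u} → Ordinal.{u} → Ordinal.{u}}

/-! The tree order. -/

theorem le_refl' (T : IT.{u}) (j : Ordinal.{u}) : T.Le j j :=
  ⟨le_rfl, fun _ h1 h2 => absurd h2 (not_lt.2 h1)⟩

theorem le_trans' (h : T.Le i m) (h' : T.Le m j) : T.Le i j := by
  refine ⟨h.1.trans h'.1, fun k h1 h2 h3 => ?_⟩
  rcases lt_or_ge k m with h4 | h4
  · exact h.2 k h1 h4 h3
  · exact h.1.trans (h'.2 k h4 h2 h3)

theorem le_restrict (h : T.Le i j) (h1 : i ≤ m) (h2 : m ≤ j) : T.Le i m :=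
  ⟨h1, fun k h3 h4 h5 => h.2 k h3 (h4.trans_le h2) h5⟩

theorem le_succ (h : T.Le (T.pr d) d) : T.Le (T.pr d) (d + 1) := by
  refine ⟨h.1.trans le_self_add, fun k h1 h2 h3 => ?_⟩
  rcases (le1 h2).eq_or_lt with rfl | h2
  · exact le_rfl
  · exact h.2 k h1 h2 h3

theorem le_pr_of (h : T.Le i (d + 1)) (hi : i < d + 1) (hn : T.n ≤ d) : i ≤ T.pr d :=
  h.2 d (le1 hi) (lt_add_one d) hn

theorem nd_refl (T : IT.{u}) (j : Ordinal.{u}) : T.ND j j :=
  ⟨le_refl' T j, fun _ h1 h2 => absurd h1 (not_lt.2 h2.1)⟩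

theorem nd_left (h : T.ND i j) (hm : T.Le m j) (him : i ≤ m) : T.ND i m :=
  ⟨le_restrict h.1 him hm.1, fun m' h1 h2 => h.2 m' h1 (le_trans' h2 hm)⟩

theorem nd_right (h : T.ND i j) (hm : T.Le m j) (him : i ≤ m) : T.ND m j :=
  ⟨hm, fun m' h1 h2 => h.2 m' (him.trans_lt h1) h2⟩

theorem nd_trans (h : T.ND i m) (h' : T.ND m j) : T.ND i j := by
  refine ⟨le_trans' h.1 h'.1, fun m' h1 h2 => ?_⟩
  rcases lt_or_ge m m' with h3 | h3
  · exact h'.2 m' h3 h2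
  · exact h.2 m' h1 (le_restrict h2 h3 h'.1.1)

theorem isTr_mono (h : T.IsTr l) (h1 : T.n ≤ j) (h2 : j ≤ l) : T.IsTr j :=
  ⟨h.phal, h1, fun k h3 h4 => h.step k h3 (h4.trans_le h2),
    fun c h3 h4 => h.lim c h3 (h4.trans h2)⟩

theorem node_cases (T : IT.{u}) (j : Ordinal.{u}) :
    j ≤ T.n ∨ (∃ d, T.n ≤ d ∧ j = d + 1) ∨ (T.n < j ∧ Order.IsSuccLimit j) := by
  rcases le_or_gt j T.n with h | h
  · exact Or.inl h
  rcases zero_or_succ_or_isSuccLimit j with rfl | ⟨d, rfl⟩ | h1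
  · simp at h
  · exact Or.inr (Or.inl ⟨d, le1 h, rfl⟩)
  · exact Or.inr (Or.inr ⟨h, h1⟩)

theorem isTr_pm (h : T.IsTr l) (hj : j ≤ l) : PM (T.E j) (T.b j + 1) := by
  rcases node_cases T j with h1 | ⟨d, h1, rfl⟩ | ⟨h1, h2⟩
  · exact h.phal.pm j h1
  · exact (h.step d h1 (Order.add_one_le_iff.1 hj)).pm
  · exact (h.lim j h1 hj h2).pm

theorem isTr_id (h : T.IsTr l) (hj : j ≤ l) (hx : x ≤ T.b j) : T.mp j j x = x := by
  rcases node_cases T j with h1 | ⟨d, h1, rfl⟩ | ⟨h1, h2⟩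
  · exact h.phal.id j h1 x hx
  · exact (h.step d h1 (Order.add_one_le_iff.1 hj)).id x hx
  · exact (h.lim j h1 hj h2).id x hx

theorem exists_root (T : IT.{u}) (j : Ordinal.{u}) (h0 : T.Le i j) (hi : i ≤ T.n) :
    ∃ r, T.Root r j := by
  by_cases hj : j ≤ T.n
  · exact ⟨j, hj, le_refl' T j, fun m h1 h2 => absurd h1 (not_lt.2 h2.1)⟩
  let S := {r | r ≤ T.n ∧ T.Le r j}
  have hb : BddAbove S := ⟨T.n, fun r hr => hr.1⟩
  have hne : S.Nonempty := ⟨i, hi, h0⟩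
  have h1 : sSup S ≤ T.n := csSup_le hne fun r hr => hr.1
  refine ⟨sSup S, h1, ⟨csSup_le hne fun r hr => hr.2.1, fun k h2 h3 h4 => ?_⟩, fun m h2 h3 => ?_⟩
  · exact csSup_le hne fun r hr => hr.2.2 k (hr.1.trans h4) h3 h4
  · by_contra h4
    exact absurd h2 (not_lt.2 (le_csSup hb ⟨not_lt.1 h4, h3⟩))

theorem zero_le' (T : IT.{u}) (j : Ordinal.{u}) : T.Le 0 j :=
  ⟨zero_le, fun _ _ _ _ => zero_le⟩

section

variable [KTreeSt.{u}]

theorem step_le (h : T.IsTr l) (h1 : T.n ≤ d) (h2 : d < l) : T.Le (T.pr d) (d + 1) :=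
  le_succ (KTreeSt.le_pr (isTr_mono h h1 h2.le) (h.step d h1 h2).use (h.step d h1 h2).pred)

theorem exists_nd (h : T.IsTr l) (h1 : T.n < j) (h2 : j ≤ l) (h3 : Order.IsSuccLimit j)
    (hi : i < j) : ∃ m, i < m ∧ m < j ∧ T.ND m j := by
  obtain ⟨m0, h4, h5⟩ := (h.lim j h1 h2 h3).ex
  obtain ⟨m, h6, h7, h8⟩ := KTreeSt.cof h1 h3
    (fun k hk hn => isTr_mono h hn (hk.le.trans h2)) (max_lt hi h4)
  exact ⟨m, (le_max_left _ _).trans_lt h6, h7, nd_right h5 h8 ((le_max_right _ _).trans h6.le)⟩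

end

/-! Agreement. -/

/-- Two realisations agree below `t`. -/
def Eqv (N1 : Seq.{u}) (s1 : Ordinal.{u} → Ordinal.{u}) (N2 : Seq.{u})
    (s2 : Ordinal.{u} → Ordinal.{u}) (t : Ordinal.{u}) : Prop :=
  ∀ x < t, s1 x = s2 x ∧ EvAg N1 N2 (s1 x)

theorem Eqv.symm (h : Eqv N1 s1 N2 s2 t) : Eqv N2 s2 N1 s1 t :=
  fun x hx => ⟨(h x hx).1.symm, (h x hx).1 ▸ (h x hx).2.symm⟩

theorem Eqv.trans (h : Eqv N1 s1 N2 s2 t) (h' : Eqv N2 s2 N3 s3 t) : Eqv N1 s1 N3 s3 t :=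
  fun x hx => ⟨(h x hx).1.trans (h' x hx).1, (h x hx).2.trans ((h x hx).1 ▸ (h' x hx).2)⟩

theorem Eqv.nm (h : Eqv N1 s1 N2 s2 t) {y w : Tr.{u}} (hy : In t y) :
    Nm N1 (y.map s1) w ↔ Nm N2 (y.map s2) w := by
  rw [← map_congr (f := s1) (g := s2) fun z hz => (h z (hy z hz)).1]
  refine exists_congr fun a => and_congr_right fun ha => ?_
  rw [map_fst, map_eq_leaf] at ha
  obtain ⟨z, h1, rfl⟩ := ha
  rw [(h z (hy.fst z (by rw [h1]; simp [lv]))).2 _ le_rfl]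

theorem Eqv.ag_trans (h : Eqv N1 s1 N2 s2 t) (hk : k < t) (h' : Ag N2 s2 N3 s3 k t) :
    Ag N1 s1 N3 s3 k t :=
  ⟨(h k hk).1 ▸ h'.1, fun y w hy hw => (h.nm hy).trans (h'.2 y w hy ((h k hk).1 ▸ hw))⟩

theorem Eqv.ag (h : Eqv N1 s1 N2 s2 t) (hk : k < t) : Ag N1 s1 N2 s2 k t :=
  ⟨(h k hk).1.le, fun _ _ hy _ => h.nm hy⟩

theorem rn_top {n : Cn.{u}} (h : s1 b = n.b) : rn C n s1 b = n := by
  rw [rn, res_top (h ▸ lt_irrefl _)]

theorem rm_top {n : Cn.{u}} (h : s1 b = n.b) : rm C n s1 b = s1 := by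
  rw [rm, res_top (h ▸ lt_irrefl _)]; rfl

variable [KEvSt.{u}] [KGoodSt.{u}]

theorem good_restrict (hE : PM0 E (b + 1)) (hE' : PM0 E' (s1 b + 1)) (h : Good E b E' s1)
    (hc : c ≤ b) : Good E c E' s1 := by
  rcases hc.eq_or_lt with rfl | hc'
  · exact h
  · refine KGoodSt.strong_good (pm0_mono hE (by gcongr)) (pm0_mono hE' ?_)
      (weak_restrict h.toWeak (s1lt hc'))
    have := (w_le h.toWeak (lt1 hc) (lt_add_one b)).2 hc
    gcongr

omit [KEvSt.{u}] [KGoodSt.{u}] in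
theorem rz_le {n : Cn.{u}} (h : Rz C g E b n s1) (hc : c ≤ b) : s1 c ≤ n.b :=
  h.top ▸ (w_le h.good.toWeak (lt1 hc) (lt_add_one b)).2 hc

omit [KEvSt.{u}] [KGoodSt.{u}] in
theorem rz_pm {n : Cn.{u}} (h : Rz C g E b n s1) : PM0 n.E (s1 b + 1) := h.top ▸ h.ok.pm.toPM0

/-- The resurrection of a level realises it. -/
theorem rz_res {n : Cn.{u}} (hE : PM0 E (b + 1)) (h : Rz C g E b n s1) (hc : c ≤ b) (hg : g ≤ c) :
    Rz C g E c (rn C n s1 c) (rm C n s1 c) := by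
  obtain ⟨h1, h2, h3, -⟩ := res_spec h.ok (rz_le h hc) (h.base c hc hg)
  have hp : PM0 n.E (s1 c + 1) := pm0_mono h.ok.pm.toPM0 (by gcongr; exact rz_le h hc)
  have hg' := good_restrict hE (rz_pm h) h.good hc
  refine ⟨h1, good_comp hg' (KGoodSt.strong_good hp (h2 ▸ h1.pm.toPM0) h3), h2.symm,
    fun x hx hgx => (h.base x (hx.trans hc) hgx).trans (w_self h3.toWeak ?_)⟩
  exact hg'.maps x (lt1 hx)

theorem res_eqv {n : Cn.{u}} {b1 b2 : Ordinal.{u}} (hE : PM0 E (b + 1)) (h : Rz C g E b n s1)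
    (h12 : b1 ≤ b2) (h2 : b2 ≤ b) (hg : g ≤ b1) (ht : t ≤ b1) (hc : IsCard E (b2 + 1) t) :
    Eqv (rn C n s1 b1).E (rm C n s1 b1) (rn C n s1 b2).E (rm C n s1 b2) t := by
  intro x hx
  have hw := h.good.toWeak
  have h1 := h12.trans h2
  have hx1 := hx.le.trans ht
  obtain ⟨h3, h4⟩ := res_coh (x := s1 x) h.ok ((w_le hw (lt1 h1) (lt1 h2)).2 h12) (rz_le h h2)
    (h.base b1 h1 hg) ((w_le hw (lt1 (hx1.trans h1)) (lt1 h1)).2 hx1)
    (good_noProj (good_restrict hE (rz_pm h) h.good h2) h12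
      fun a h5 h6 => hx.trans_le (hc a (ht.trans (le_self_add.trans h5)) h6))
  exact ⟨h3 _ le_rfl, h4⟩

variable [KTreeSt.{u}]

omit [KEvSt.{u}] [KGoodSt.{u}] [KTreeSt.{u}] in
theorem im_fix (h : T.Step d) (hx : x < T.ka d) : T.im d x = x := by
  rw [h.ext x (hx.trans h.use.act.lt), h.use.act.fix x hx]

omit [KTreeSt.{u}] in
theorem step_eqv (h : T.IsTr l) (hA : T.Above g l) (h1 : T.n ≤ d) (h2 : d < l)
    (hp : RzAt C g T n s (T.pr d)) (hd : RzAt C g T n s (d + 1)) (hc1 : T.st d ≤ c)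
    (hc2 : c ≤ T.b (T.pr d)) (ht : t ≤ T.ka d) (hc : IsCard (T.E (T.pr d)) (c + 1) t) :
    Eqv (n (d + 1)).E (s (d + 1)) (rn C (n (T.pr d)) (s (T.pr d)) c).E
      (rm C (n (T.pr d)) (s (T.pr d)) c) t := by
  have hs := h.step d h1 h2
  have hk : T.ka d ≤ T.st d := hs.use.act.lt.le.trans hs.pred.ta_le
  obtain ⟨h3, h4⟩ := hd.succ d h1 rfl
  refine Eqv.trans (fun x hx => ?_) (res_eqv (isTr_pm h (hs.pred.le.trans h2.le)).toPM0 hp.rz hc1
    hc2 ((hA d h1 h2).trans hk) (ht.trans hk) hc)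
  refine ⟨?_, by rw [h3]; exact fun _ _ => rfl⟩
  rw [← h4 x ((hx.le.trans ht).trans hk), im_fix hs (hx.trans_le ht)]

theorem eq_branch (h : T.IsTr l) (hA : T.Above g l) (hj : j ≤ l)
    (hR : ∀ m ≤ j, RzAt C g T n s m) (hij : i < j) (hle : T.Le i j)
    (hm : ∀ m, i < m → T.Le m j → T.n < m ∧ IsCard (T.E m) (T.b m + 1) t ∧ t ≤ T.b m ∧
      ∀ d, T.n ≤ d → m = d + 1 → t ≤ T.ka d)
    (h1 : t ≤ c) (h2 : c ≤ T.b i) (h3 : IsCard (T.E i) (c + 1) t)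
    (h4 : c < T.b i → rho (T.E i) (c + 1) < t) :
    Eqv (n j).E (s j) (rn C (n i) (s i) c).E (rm C (n i) (s i) c) t := by
  induction j using WellFoundedLT.induction with
  | ind j ih =>
  obtain ⟨k1, k2, k3, k4⟩ := hm j hij (le_refl' T j)
  rcases node_cases T j with h5 | ⟨d, h5, rfl⟩ | ⟨-, h5⟩
  · exact absurd k1 (not_lt.2 h5)
  · have hd : d < l := Order.add_one_le_iff.1 hj
    have hs := h.step d h5 hd
    have hp := step_le h h5 hd
    have hpd : T.pr d < d + 1 := lt1 hs.pred.le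
    have ht := k4 d h5 rfl
    rcases (le_pr_of hle hij h5).eq_or_lt with rfl | hi
    · refine step_eqv h hA h5 hd (hR _ hp.1) (hR _ le_rfl) ?_ h2 ht h3
      by_contra hlt
      have hlt := not_le.1 hlt
      have ha : c + 1 ≤ T.st d := Order.add_one_le_iff.2 hlt
      have h6 := h4 (hlt.trans_le hs.pred.st_le)
      have h7 := (strong_rho hs.ult.toStrong ha (rho_le.trans ha)).not.2 (lt_irrefl _)
      rw [im_fix hs (h6.trans_le ht)] at h7
      have h8 := k2 (T.im d (c + 1))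
        ((h1.trans le_self_add).trans (w_self hs.ult.toWeak (lt1 ha)))
        (hs.b ▸ hs.ult.maps _ (lt1 ha))
      exact h7 (h6.trans_le h8)
    · obtain ⟨-, l2, -⟩ := hm _ hi hp
      have h6 := step_eqv h hA h5 hd (hR _ hp.1) (hR _ le_rfl) hs.pred.st_le le_rfl ht l2
      rw [rn_top (hR _ hp.1).rz.top, rm_top (hR _ hp.1).rz.top] at h6
      exact h6.trans (ih _ hpd (hp.1.trans hj) (fun m hm' => hR m (hm'.trans hp.1)) hi
        (le_restrict hle hi.le hp.1) fun m h7 h8 => hm m h7 (le_trans' h8 hp))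
  · obtain ⟨m, h6, h7, h8⟩ := exists_nd h k1 hj h5 hij
    obtain ⟨h9, h10⟩ := (hR j le_rfl).lim k1 h5 m h7 h8
    obtain ⟨-, -, l3, -⟩ := hm m h6 h8.1
    refine Eqv.trans (fun x hx => ⟨?_, by rw [h9]; exact fun _ _ => rfl⟩)
      (ih m h7 (h7.le.trans hj) (fun m' hm' => hR m' (hm'.trans h7.le)) h6
        (le_restrict hle h6.le h7.le) fun m' h11 h12 => hm m' h11 (le_trans' h12 h8.1))
    rw [← h10 x (hx.le.trans l3), KTreeSt.mp_fix h hj h8 (hx.le.trans l3)]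
    exact fun d h11 h12 h13 => hx.trans_le ((hm _ (h6.trans h12) h13).2.2.2 d h11 rfl)

variable [AccSt.{u}] [AmenSt.{u}]

/-- The agreement needed to apply the extender with index `v` of node `j`. -/
theorem ag_step (h : T.IsTr j) (hA : T.Above g j) (hR : TrRz C g T j n s) (hu : T.Use j v k t e)
    (hp : T.Pred j k t p c) (hg : g ≤ k) :
    Ag (rn C (n j) (s j) v).E (rm C (n j) (s j) v) (rn C (n p) (s p) c).E
      (rm C (n p) (s p) c) k t := by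
  have hkt := hu.act.lt
  have htv := hu.act.dom
  have pj := (isTr_pm h le_rfl).toPM0
  have pp := (isTr_pm h hp.le).toPM0
  have hn := (KTreeSt.app h hu hp).1
  have hcard : IsCard (T.E p) (c + 1) t :=
    AccSt.next_card _ _ _ _ (pm0_mono pp (by gcongr; exact hp.st_le)).ls hn
  have hgv : g ≤ v := hg.trans (hkt.trans htv).le
  rcases hp.le.eq_or_lt with rfl | hpj
  · refine (res_eqv pj (hR.node _ le_rfl).rz ?_ hp.st_le hgv htv.le hcard).ag hkt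
    by_contra hlt
    have hlt := not_le.1 hlt
    have h1 := hp.max (hlt.trans_le hu.le)
    have h2 := AmenSt.lev_act _ _ _ _ _ (pm0_mono pj (hu.le.trans le_self_add)).ls hu.act
    have h3 : c + 1 < v :=
      lt_of_le_of_ne (Order.add_one_le_iff.2 hlt) fun h4 => h2.1 ⟨c, h4.symm⟩
    exact absurd (hu.act.next _ (hp.ta_le.trans le_self_add) h3) (not_lt.2 h1)
  have mc := fun m (h1 : p < m) (h2 : T.Le m j) => KTreeSt.mc h hu hp h1 h2
  have mc' : ∀ m, p < m → T.Le m j → IsCard (T.E m) (T.b m + 1) t := fun m h1 h2 =>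
    AccSt.next_card _ _ _ _ (isTr_pm h h2.1).ls (mc m h1 h2).1
  have e1 := res_eqv pj (hR.node _ le_rfl).rz hu.le le_rfl hgv htv.le (mc' j hpj (le_refl' T j))
  rw [rn_top (hR.node _ le_rfl).rz.top, rm_top (hR.node _ le_rfl).rz.top] at e1
  refine e1.ag_trans hkt ?_
  obtain ⟨r, hr⟩ := exists_root T j (zero_le' T j) zero_le
  rcases le_or_gt r p with h1 | h1
  · exact (eq_branch h hA le_rfl hR.node hpj (KTreeSt.le_pr h hu hp)
      (fun m h2 h3 => ⟨hr.2.2 m (h1.trans_lt h2) h3, mc' m h2 h3, (mc m h2 h3).2.2.1,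
        (mc m h2 h3).2.2.2.2⟩) hp.ta_le hp.st_le hcard fun h2 => (hp.max h2).trans_lt hkt).ag hkt
  have a1 := hR.root.ag p r k t c h1 hr.1 hg hu.act.big hp.min (hp.lt hpj) (mc r h1 hr.2.1).2.2.2.1
    (mc r h1 hr.2.1).2.1 (mc r h1 hr.2.1).1 ⟨hp.ta_le, hp.st_le, hp.noproj, hp.max⟩
  rcases hr.2.1.1.eq_or_lt with rfl | h2
  · exact a1
  have e2 := eq_branch h hA le_rfl hR.node h2 hr.2.1
    (fun m h3 h4 => ⟨hr.2.2 m h3 h4, mc' m (h1.trans h3) h4, (mc m (h1.trans h3) h4).2.2.1,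
      (mc m (h1.trans h3) h4).2.2.2.2⟩) (mc r h1 hr.2.1).2.2.1 le_rfl (mc' r h1 hr.2.1)
    fun h3 => absurd h3 (lt_irrefl _)
  rw [rn_top (hR.node _ h2.le).rz.top, rm_top (hR.node _ h2.le).rz.top] at e2
  exact e2.ag_trans hkt a1

omit [AccSt.{u}] [AmenSt.{u}] in
/-- Ranks decrease along branches, and the maps commute where there is no drop. -/
theorem rank (h : T.IsTr l) (hA : T.Above g l) (hj : j ≤ l) (hR : ∀ m ≤ j, RzAt C g T n s m)
    (hle : T.Le i j) (hm : ∀ m, i < m → T.Le m j → T.n < m) :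
    (n j).r ≤ (n i).r ∧ (¬ T.ND i j → (n j).r < (n i).r) ∧
      (T.ND i j → n j = n i ∧ ∀ x ≤ T.b i, s j (T.mp i j x) = s i x) := by
  induction j using WellFoundedLT.induction with
  | ind j ih =>
  rcases hle.1.eq_or_lt with rfl | hij
  · exact ⟨le_rfl, fun h1 => absurd (nd_refl T i) h1,
      fun _ => ⟨rfl, fun x hx => by rw [isTr_id h hj hx]⟩⟩
  have k1 := hm j hij (le_refl' T j)
  rcases node_cases T j with h5 | ⟨d, h5, rfl⟩ | ⟨-, h5⟩
  · exact absurd k1 (not_lt.2 h5)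
  · have hd : d < l := Order.add_one_le_iff.1 hj
    have hs := h.step d h5 hd
    have hp := step_le h h5 hd
    have hpd : T.pr d < d + 1 := lt1 hs.pred.le
    have hi := le_pr_of hle hij h5
    obtain ⟨i1, i2, i3⟩ := ih _ hpd (hp.1.trans hj) (fun m hm' => hR m (hm'.trans hp.1))
      (le_restrict hle hi hp.1) fun m h7 h8 => hm m h7 (le_trans' h8 hp)
    obtain ⟨h3, h4⟩ := (hR _ le_rfl).succ d h5 rfl
    have rp := (hR _ hp.1).rz
    have hk : T.ka d ≤ T.st d := hs.use.act.lt.le.trans hs.pred.ta_le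
    obtain ⟨-, -, -, r1, r2, -⟩ := res_spec rp.ok (rz_le rp hs.pred.st_le)
      (rp.base _ hs.pred.st_le ((hA d h5 hd).trans hk))
    refine ⟨by rw [h3]; exact r1.trans i1, fun hn => ?_, fun hn => ?_⟩
    · rw [h3]
      by_cases h6 : T.ND i (T.pr d)
      · refine lt_of_lt_of_le (r2 ?_) i1
        have h7 : T.Drop d := by
          by_contra h7
          refine hn (nd_trans h6 ⟨hp, fun m h8 h9 => ?_⟩)
          rcases h9.1.eq_or_lt with rfl | h10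
          · exact ⟨k1, fun k hk => s1inj hk ▸ h7⟩
          · exact absurd h8 (not_lt.2 (le_pr_of h9 h10 h5))
        rw [← rp.top]
        exact (w_lt rp.good.toWeak (lt1 hs.pred.st_le) (lt_add_one _)).2 h7
      · exact r1.trans_lt (i2 h6)
    · have h6 := nd_left hn hp hi
      have h7 : T.st d = T.b (T.pr d) :=
        le_antisymm hs.pred.st_le (not_lt.1 ((hn.2 _ hij (le_refl' T _)).2 d rfl))
      obtain ⟨i4, i5⟩ := i3 h6
      rw [h7, rm_top rp.top] at h4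
      rw [h7, rn_top rp.top] at h3
      refine ⟨h3.trans i4, fun x hx => ?_⟩
      rw [hs.mp i (le1 hij) hn x hx, h4 _ (le1 ((KTreeSt.mp_strong h (hp.1.trans hj) h6).maps x
        (lt1 hx))), i5 x hx]
  · obtain ⟨m, h6, h7, h8⟩ := exists_nd h k1 hj h5 hij
    obtain ⟨h9, -⟩ := (hR j le_rfl).lim k1 h5 m h7 h8
    obtain ⟨i1, i2, -⟩ := ih m h7 (h7.le.trans hj) (fun m' hm' => hR m' (hm'.trans h7.le))
      (le_restrict hle h6.le h7.le) fun m' h11 h12 => hm m' h11 (le_trans' h12 h8.1)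
    exact ⟨h9 ▸ i1, fun hn => h9 ▸ i2 fun h10 => hn (nd_trans h10 h8),
      (hR j le_rfl).lim k1 h5 i hij⟩

end Pool.Agent.KM.Real
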