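import Pool.Agent.Lib.MP_5c0be7_lc.K.StHu
import Pool.Agent.Lib.MP_5c0be7_lc.K.Real1
import Pool.Agent.Lib.MP_5c0be7_lc.K.Step

/-!
Project KM, block K: realisable phalanxes are iterable and their iterates are realisable.
-/

namespace Pool.Agent.KM.IterI

open Ordinal Tr KE _root_.Pool.Agent.KM.Real Set
open scoped Classical

universe u

variable {C : Cfg.{u}} {T T0 U : IT.{u}} {c c0 g g0 j k l o q t v w : Ordinal.{u}}
  {e p : Ordinal.{u} → Ordinal.{u}} {n : Ordinal.{u} → Cn.{u}}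
  {s : Ordinal.{u} → Ordinal.{u} → Ordinal.{u}}

theorem pii_congr (h : PII C g T) (hU : T.EqLt U (T.n + 1)) : PII C g U := by
  intro T0 p g0 hr hg
  have h1 : ∀ i ≤ T0.n, U.nd (p i) = T.nd (p i) := fun i hi =>
    hU.2 _ (lt1 (hU.1 ▸ hr.n ▸ hr.mono.monotone hi))
  have h2 : ∀ i < T.n, U.la i = T.la i := fun i hi => by
    unfold IT.la; rw [hU.2 _ (s1lt hi)]
  have h3 : ∀ i < T0.n, p i < T.n := fun i hi => hU.1 ▸ hr.n ▸ hr.mono hi
  refine h T0 p g0 ⟨hr.mono, hr.phal, hr.ctb, hr.cn, hr.n.trans hU.1, hr.fin, fun i hi => ?_,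
    fun i hi => ?_, fun i hi k hk H i' hi' => ?_⟩ hg
  · have := hr.str i hi
    unfold IT.E IT.b at this ⊢
    rwa [h1 i hi] at this
  · rw [hr.la i hi, h2 _ (h3 i hi)]
  · rw [← h2 _ (hi'.trans (h3 i hi))]
    exact hr.sent i hi k hk H i' hi'

theorem trRz_root (h : RootRz C g T n s) : TrRz C g T T.n n s :=
  ⟨h, fun j hj => ⟨h.rz j hj,
    fun _ h1 h2 => absurd (h2 ▸ hj) (not_le.2 (lt1 h1)), fun h1 => absurd hj (not_le.2 h1)⟩⟩

theorem emb_above (h : IT.Emb T0 T p o c) (hg : p g0 = g) (hA : T.Above g l) (hj : j ≤ c)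
    (hl : p j ≤ l) : T0.Above g0 j := by
  intro i h1 h2
  have h3 := hA (p i) (h.root.n ▸ h.root.mono.monotone h1) ((h.root.mono h2).trans_le hl)
  rw [← h.ka i ((h2.trans_le hj).trans h.co), ← hg] at h3
  exact h.root.mono.le_iff_le.1 h3

theorem emb_ctb (h : IT.Emb T0 T p o c) (hj : j < c) : T0.Ctb j :=
  fun i hi => (h.bo i ((hi.trans_lt hj).trans h.co)).trans h.cnt

theorem no_desc (y : ℕ → Ordinal.{u}) (h : ∀ a, y (a + 1) < y a) : False :=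
  (wellFounded_iff_isEmpty_descending_chain.1 (wellFounded_lt (α := Ordinal.{u}))).false ⟨y, h⟩

variable [KRealSt.{u}]

theorem extend {a : Ordinal.{u}} (h : T.IsTr l) (hA : T.Above g l) (hC : T.Ctb l) (h1 : T.n ≤ a)
    (h2 : a ≤ l) (hR : TrRz C g T a n s) :
    ∃ n' s', TrRz C g T l n' s' ∧ ∀ i ≤ a, n' i = n i ∧ s' i = s i := by
  obtain ⟨n', s', -, h3, h4, -⟩ := KRealSt.real (fun _ _ _ _ => ∅) (fun _ _ _ _ => countable_empty)
    (fun _ _ _ _ _ _ _ _ _ => rfl) h hA hC h1 h2 hR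
  exact ⟨n', s', h3, h4⟩

/-- A countable hull of a tree on a realisable phalanx is realised. -/
theorem emb_rz (hP : PII C g T) (h : IT.Emb T0 T p o c) (hg : p g0 = g) (hA : T.Above g l)
    (hn : T0.n ≤ j) (hj : j < c) (hl : p j ≤ l) : ∃ n s, TrRz C g0 T0 j n s := by
  obtain ⟨n, s, h1⟩ := hP T0 p g0 h.root hg
  obtain ⟨n', s', h2, -⟩ := extend (h.tr j hj hn) (emb_above h hg hA hj.le hl) (emb_ctb h hj)
    le_rfl hn (trRz_root h1)
  exact ⟨n', s', h2⟩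

/-- Coherent realisations along a sequence of nodes. -/
theorem chain (hP : PII C g T) (h : IT.Emb T0 T p o c0) (hg : p g0 = g) (hA : T.Above g (p c0))
    (m : ℕ → Ordinal.{u}) (h1 : ∀ a, T0.n ≤ m a) (h2 : ∀ a, m a < c0)
    (h3 : ∀ a, m a ≤ m (a + 1)) :
    ∃ (N : ℕ → Ordinal.{u} → Cn.{u}) (S : ℕ → Ordinal.{u} → Ordinal.{u} → Ordinal.{u}),
      ∀ a, TrRz C g0 T0 (m a) (N a) (S a) ∧
        ∀ i ≤ m a, N (a + 1) i = N a i ∧ S (a + 1) i = S a i := by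
  have hm : ∀ a, p (m a) ≤ p c0 := fun a => (h.root.mono (h2 a)).le
  obtain ⟨n0, s0, h0⟩ := emb_rz hP h hg hA (h1 0) (h2 0) (hm 0)
  have step : ∀ a (d : (Ordinal.{u} → Cn.{u}) × (Ordinal.{u} → Ordinal.{u} → Ordinal.{u})),
      ∃ d' : (Ordinal.{u} → Cn.{u}) × (Ordinal.{u} → Ordinal.{u} → Ordinal.{u}),
        TrRz C g0 T0 (m a) d.1 d.2 → TrRz C g0 T0 (m (a + 1)) d'.1 d'.2 ∧
          ∀ i ≤ m a, d'.1 i = d.1 i ∧ d'.2 i = d.2 i := by
    intro a d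
    by_cases hd : TrRz C g0 T0 (m a) d.1 d.2
    · obtain ⟨n', s', h4⟩ := extend (h.tr _ (h2 (a + 1)) (h1 _))
        (emb_above h hg hA (h2 _).le (hm _)) (emb_ctb h (h2 _)) (h1 a) (h3 a) hd
      exact ⟨(n', s'), fun _ => h4⟩
    · exact ⟨d, fun h4 => absurd h4 hd⟩
  choose f hf using step
  let D : ℕ → (Ordinal.{u} → Cn.{u}) × (Ordinal.{u} → Ordinal.{u} → Ordinal.{u}) :=
    fun a => Nat.rec (n0, s0) f a
  have hD : ∀ a, TrRz C g0 T0 (m a) (D a).1 (D a).2 := by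
    intro a
    induction a with
    | zero => exact h0
    | succ a ih => exact (hf a _ ih).1
  exact ⟨fun a => (D a).1, fun a => (D a).2, fun a => ⟨hD a, (hf a _ (hD a)).2⟩⟩

variable [KHullSt.{u}]

section Lim

variable [KTreeSt.{u}]

theorem lim_nd (hP : PII C g T) (hn : T.n < c) (hc : Order.IsSuccLimit c)
    (hT : ∀ j < c, T.n ≤ j → T.IsTr j) (hA : T.Above g c) : ∃ m < c, T.ND m c := by
  by_contra hno
  push Not at hno
  obtain ⟨T0, p, o, c0, h, rfl, hs, -⟩ := KHullSt.hull {g} (fun _ => ∅) hn hT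
    (countable_singleton g) fun _ => countable_empty
  obtain ⟨g0, -, hg⟩ := hs (mem_singleton g)
  have hc0 : Order.IsSuccLimit c0 := (h.lim c0 h.co).2 hc
  have step : ∀ m : {m // T0.n ≤ m ∧ m < c0 ∧ T0.Le m c0},
      ∃ m' : {m // T0.n ≤ m ∧ m < c0 ∧ T0.Le m c0}, m.1 < m'.1 ∧ ¬ T0.ND m.1 m'.1 := by
    rintro ⟨m, h1, h2, h3⟩
    have h4 : ¬ T0.ND m c0 := fun h4 =>
      hno (p m) (h.root.mono h2) ((h.nd m (h2.trans h.co) c0 h.co).1 h4)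
    by_contra h5
    refine h4 ⟨h3, fun m' h6 h7 => ⟨h1.trans_lt h6, fun k hk hd => h5 ?_⟩⟩
    have h8 : m' < c0 := lt_of_le_of_ne h7.1 fun h8 => hc0.succ_ne k (by rw [← h8, hk]; rfl)
    exact ⟨⟨m', h1.trans h6.le, h8, h7⟩, h6, fun h9 => (h9.2 m' h6 (le_refl' T0 m')).2 k hk hd⟩
  choose f hf using step
  obtain ⟨m0, h1, h2, h3⟩ := KTreeSt.cof h.lt hc0 h.tr h.lt
  let m : ℕ → {m // T0.n ≤ m ∧ m < c0 ∧ T0.Le m c0} :=
    fun a => Nat.rec ⟨m0, h1.le, h2, h3⟩ (fun _ => f) a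
  have hm : ∀ a, (m a).1 < (m (a + 1)).1 ∧ ¬ T0.ND (m a).1 (m (a + 1)).1 := fun a => hf (m a)
  obtain ⟨N, S, hN⟩ := chain hP h hg hA (fun a => (m a).1) (fun a => (m a).2.1)
    (fun a => (m a).2.2.1) fun a => (hm a).1.le
  refine no_desc (fun a => (N a (m a).1).r) fun a => ?_
  obtain ⟨h4, h5, -⟩ := (m (a + 1)).2
  have h6 := (KRealSt.rank (h.tr _ h5 h4) (emb_above h hg hA h5.le (h.root.mono h5).le)
    (hN (a + 1)).1 le_rfl (le_restrict (m a).2.2.2 (hm a).1.le h5.le)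
    fun m' h6 _ => (m a).2.1.trans_lt h6).2.1 (hm a).2
  rwa [((hN a).2 _ le_rfl).1] at h6

theorem lim_wf (hP : PII C g T) (hn : T.n < c)
    (hT : ∀ j < c, T.n ≤ j → T.IsTr j) (hA : T.Above g c) :
    ¬ ∃ (i x : ℕ → Ordinal.{u}), ∀ a, i a < c ∧ T.ND (i a) c ∧ x a ≤ T.b (i a) ∧
      i a ≤ i (a + 1) ∧ x (a + 1) < T.mp (i a) (i (a + 1)) (x a) := by
  rintro ⟨i, x, H⟩
  obtain ⟨T0, p, o, c0, h, rfl, hs, -⟩ := KHullSt.hull (insert g (range i ∪ range x))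
    (fun _ => ∅) hn hT (((countable_range i).union (countable_range x)).insert g)
    fun _ => countable_empty
  obtain ⟨g0, -, hg⟩ := hs (mem_insert g _)
  choose i0 hi0 hi using fun a => hs (mem_insert_of_mem g (Or.inl (mem_range_self (f := i) a)))
  choose x0 hx0 hx using fun a => hs (mem_insert_of_mem g (Or.inr (mem_range_self (f := x) a)))
  have hp := h.root.mono
  have k1 : ∀ a, i0 a < c0 := fun a => hp.lt_iff_lt.1 (hi a ▸ (H a).1)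
  have k2 : ∀ a, T0.ND (i0 a) c0 := fun a => (h.nd _ (hi0 a) _ h.co).2 (hi a ▸ (H a).2.1)
  have k3 : ∀ a, x0 a ≤ T0.b (i0 a) := fun a =>
    hp.le_iff_le.1 (by rw [h.b _ (hi0 a), hi, hx]; exact (H a).2.2.1)
  have k4 : ∀ a, i0 a ≤ i0 (a + 1) := fun a =>
    hp.le_iff_le.1 (by rw [hi, hi]; exact (H a).2.2.2.1)
  have k5 : ∀ a, x0 (a + 1) < T0.mp (i0 a) (i0 (a + 1)) (x0 a) := fun a =>
    hp.lt_iff_lt.1 (by
      rw [h.mp _ (hi0 a) _ (hi0 (a + 1)) _ (hx0 a), hi, hi, hx, hx]; exact (H a).2.2.2.2)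
  have k6 : ∀ a, max T0.n (i0 a) < c0 := fun a => max_lt h.lt (k1 a)
  obtain ⟨N, S, hN⟩ := chain hP h hg hA (fun a => max T0.n (i0 a)) (fun a => le_max_left _ _) k6
    fun a => max_le_max le_rfl (k4 a)
  refine no_desc (fun a => S a (i0 a) (x0 a)) fun a => ?_
  have h1 := h.tr _ (k6 (a + 1)) (le_max_left _ _)
  have h2 : T0.ND (i0 a) (i0 (a + 1)) := nd_left (k2 a) (k2 (a + 1)).1 (k4 a)
  have h3 := ((KRealSt.rank h1 (emb_above h hg hA (k6 _).le (hp (k6 _)).le) (hN (a + 1)).1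
    (le_max_right _ _) h2.1 fun m h3 h4 => (h2.2 m h3 h4).1).2.2 h2).2 _ (k3 a)
  have h4 := ((hN (a + 1)).1.node _ (le_max_right _ _)).rz.good.toWeak
  have h5 := (KTreeSt.mp_strong h1 (le_max_right _ _) h2).maps _ (lt1 (k3 a))
  have h6 := (w_lt h4 (lt1 (k3 (a + 1))) h5).2 (k5 a)
  rwa [h3, ((hN a).2 _ (le_max_right _ _)).2] at h6

end Lim

variable [KEvSt.{u}]

theorem ii (hP : PII C g T) (hT : T.IsTr l) (hA : T.Above g l) (hj : j ≤ l) :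
    II C g (T.E j) (T.b j) := by
  intro E0 b0 g1 f hb _ hf ht hbase
  have hcnt : (Iic b0).Countable := by
    rw [← Iio_insert]; exact (Step.ctb hb).insert _
  obtain ⟨T0, p, o, c0, h, hc, hs, -⟩ := KHullSt.hull (insert g (insert j (f '' Iic b0)))
    (fun _ => ∅) (lt1 hT.le) (fun i h1 h2 => isTr_mono hT h2 (le1 h1))
    (((hcnt.image f).insert j).insert g) fun _ => countable_empty
  obtain ⟨g0, -, hg⟩ := hs (mem_insert g _)
  obtain ⟨j0, hj0, rfl⟩ := hs (mem_insert_of_mem g (mem_insert j _))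
  have hp := h.root.mono
  have k1 : j0 < c0 := hp.lt_iff_lt.1 (hc ▸ lt1 hj)
  have k2 : max T0.n j0 < c0 := max_lt h.lt k1
  obtain ⟨n, s, hR⟩ := emb_rz hP h hg hA (le_max_left _ _) k2 (le1 (hc ▸ hp k2))
  have hr := (hR.node j0 (le_max_right _ _)).rz
  have k3 : ∀ z ≤ b0, p (Function.invFun p (f z)) = f z := fun z hz => by
    obtain ⟨y, -, hy⟩ := hs (mem_insert_of_mem g (mem_insert_of_mem _ ⟨z, hz, rfl⟩))
    exact Function.invFun_eq ⟨y, hy⟩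
  set f' : Ordinal.{u} → Ordinal.{u} := fun z => Function.invFun p (f z) with hf'
  have k4 : f' b0 = T0.b j0 := hp.injective (by rw [k3 b0 le_rfl, ht, h.b j0 hj0])
  have k5 : ∀ a ≤ b0, f' a ≤ f' b0 := fun a ha => hp.le_iff_le.1 (by
    rw [k3 a ha, k3 b0 le_rfl]; exact (w_le hf.toWeak (lt1 ha) (lt_add_one b0)).2 ha)
  have k6 : Good E0 b0 (T0.E j0) f' :=
    good_cancel (s' := p) (by rw [k4, h.b j0 hj0]; exact h.str j0 k1) (good_congr hf k3) k5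
  refine ⟨n j0, s j0 ∘ f', hr.ok, good_comp k6 (k4 ▸ hr.good), ?_, fun x h1 h2 => ?_⟩
  · rw [Function.comp_apply, k4, hr.top]
  · refine hr.base _ (k4 ▸ k5 x h1) (hp.le_iff_le.1 ?_)
    rw [hg, k3 x h1]
    exact hbase x h1 h2

variable [KGoodSt.{u}] [KTreeSt.{u}] [AccSt.{u}] [AmenSt.{u}] [KStepSt.{u}]

theorem succ_wf (hP : PII C g T) (hT : T.IsTr j) (hA : T.Above g j) (hu : T.Use j v k t e)
    (hg : g ≤ k) (hq : T.Pred j k t q w) :
    WellFounded (ULt (T.E q) (w + 1) k t (T.E j) e) := by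
  by_contra hno
  rw [← uwf_iff] at hno
  obtain ⟨T0, p, o, g0, j0, v0, k0, t0, e0, q0, w0, h, h1, rfl, rfl, hu0, hq0, h2⟩ :=
    KHullSt.refl (g := g) hT hu hq hno
  have hn : T0.n ≤ j0 := le1 h.lt
  have hT0 := h.tr j0 (lt_add_one j0) hn
  have hA0 := emb_above h h1 hA le_self_add le_rfl
  have hC := emb_ctb h (lt_add_one j0)
  obtain ⟨n, s, hR⟩ := emb_rz hP h h1 hA hn (lt_add_one j0) le_rfl
  have hg0 : g0 ≤ k0 := h.root.mono.le_iff_le.1 (h1 ▸ hg)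
  have hkt := hu0.act.lt
  have htv := hu0.act.dom
  have pj := (isTr_pm hT0 le_rfl).toPM0
  have pp := (isTr_pm hT0 hq0.le).toPM0
  have r1 := rz_res pj (hR.node j0 le_rfl).rz hu0.le (hg0.trans (hkt.trans htv).le)
  have r2 := rz_res pp (hR.node _ hq0.le).rz hq0.st_le (hg0.trans (hkt.le.trans hq0.ta_le))
  obtain ⟨a1, a2⟩ := KTreeSt.app hT0 hu0 hq0
  exact h2 (uwf_iff.2 (KStepSt.wf (hu0.le.trans_lt (hC j0 le_rfl))
    (hq0.st_le.trans_lt (hC _ hq0.le)) (pm0_mono pj (by gcongr; exact hu0.le)) hu0.act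
    (rz_pm r1) r1.good
    (fun k' t' e' ha => (Cert.topOK r1.ok _ k' t' e' rfl (r1.top ▸ ha)).1)
    (pm0_mono pp (by gcongr; exact hq0.st_le)) a2 hq0.ta_le a1 (rz_pm r2) r2.good
    (ag_step hT0 hA0 hR hu0 hq0 hg0)))

instance [KWfSt.{u}] : KIterSt.{u} where
  iter hT hP := KWfSt.iterable_of_wf hT
    (fun _ _ _ _ _ _ _ _ hU h1 h2 h3 h4 h5 => succ_wf (pii_congr hP hU) h1 h2 h3 h4 h5)
    fun _ _ hU h1 h2 h3 h4 =>
      ⟨lim_nd (pii_congr hP hU) (hU.1 ▸ h1) h2 (hU.1 ▸ h3) h4,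
        lim_wf (pii_congr hP hU) (hU.1 ▸ h1) (hU.1 ▸ h3) h4⟩
  ii := ii

end Pool.Agent.KM.IterI
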