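import Pool.Agent.Lib.MP_5c0be7_lc.K.Zorn
import Pool.Agent.Lib.MP_5c0be7_lc.O.FO3

/-!
Project KM, block K: critical points are limit cardinals; maximality of the weasel.
-/

namespace Pool.Agent.KM

open Ordinal Cardinal Tr Set KE KL Zorn
open scoped Classical

universe u

namespace KMax

variable {E E' : Seq.{u}} {a b d k r t v x Om : Ordinal.{u}} {e : Ordinal.{u} → Ordinal.{u}}
  {C : Cfg.{u}}

theorem ext_card' (l : LS E t) (l' : LS E' v) (h : Ext E k t E' v e) : IsCard E' v (e k) := by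
  intro a h1 h2
  obtain ⟨x, h3, h4⟩ := h.cof a h2
  have h5 : k < x := (w_lt h.weak h.lt h3).1 (h1.trans_lt h4)
  exact ((Df.isCard On.top (On.lab IsOp.id)).weak_lim h.weak l l' (ext_lim h) h3 le_rfl
    (z := leaf k) (by simpa using h5)).2 (card_mono h.card h3.le) a h1 h4

theorem crit_lim [AccSt.{u}] (l : LS E t) (l' : LS E' v) (h : Ext E k t E' v e)
    (hf : ∀ x < k, e x = x) (hm : k < e k) (hk : IsCard E' v k) (hx : x < e k) :
    ∃ y, x < y ∧ y < e k ∧ IsCard E' v y := by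
  have hv := h.weak.maps k h.lt
  obtain ⟨y, hy⟩ := exists_next (E := E') (hx.trans hv)
  have h1 : y ≤ e k :=
    top_le hy.2.2.1 (noProj_mono (card_noProj (ext_card' l l' h) hx) hy.2.1)
  refine ⟨y, hy.1, lt_of_le_of_ne h1 fun h2 => ?_, AccSt.next_card _ _ _ _ l' hy⟩
  obtain ⟨x0, h3, h4⟩ := ((Df.oex (Q := fun E b a _ => TopC E a b) On.top
    (Df.topC (On.lab IsOp.id.fst) On.top)).weak_lim h.weak l l' (ext_lim h) h.lt le_rfl
    (z := .nil) (in_nil _)).1 ⟨x, hx, h2 ▸ hy.2.2.1⟩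
  obtain ⟨a, h5, h6, h7⟩ := ((Df.topC (On.lab IsOp.id) On.top).weak_lim h.weak l l' (ext_lim h)
    h.lt le_rfl (z := leaf x0) (by simpa using h3)).2 h4 k hm
  have h8 : rho E' a ≤ x0 := by simpa [hf x0 h3] using h7
  exact absurd ((hk a h5 (h6.trans hv)).trans h8) (not_le.2 h3)

theorem kw_pm (h : KW C E Om) : PM E (Om + 1) := let ⟨_, hc⟩ := h.cert; hc.pm

theorem kw_card (h : KW C E Om) (hk : IsCard E Om k) (hl : k ≤ Om) : IsCard E (Om + 1) k :=
  fun a h1 h2 => by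
    rcases (le1 h2).eq_or_lt with rfl | h3
    · rwa [((kw_pm h).ls a h2).2 h.olim]
    · exact hk a h1 h3

variable [FragSt.{u}] [AmenSt.{u}]

theorem pm_act (hE : PM E v) (H : Agree E' E v) (ha : Act E' v k t e) (hs : Small E' k) :
    PM E' (v + 1) := by
  have h1 := pm_ag (ag_symm H) hE
  refine ⟨⟨fun b hb => ?_, fun b hb => ?_⟩, fun b hb k' t' e' ha' => ?_⟩ <;>
    rcases (le1 hb).eq_or_lt with rfl | hb
  · exact (AmenSt.lev_act _ _ _ _ _ h1.ls ha).2
  · exact h1.ls b hb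
  · exact Or.inr ⟨k, t, e, ha⟩
  · exact h1.act b hb
  · exact (act_uniq ha ha').1 ▸ hs
  · exact h1.small b hb k' t' e' ha'

variable [KEvSt.{u}]

/-- A countably complete allowed extender on a level of the weasel is certified. -/
theorem cert_act (hN : NG Om) (h : KW C E Om) (hv : v < Om) (H : Agree E' E v)
    (ha : Act E' v k t e) (hk : IsCard E Om (e k)) (ho : OC E' E' k t e) (hal : C.al k) :
    ∃ r, Cert C r E' (v + 1) := by
  have hE : PM E v := pm_mono (kw_pm h) (lt1 hv.le).le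
  obtain ⟨r, hc⟩ := h.cert
  have hek := ha.weak.maps k ha.lt
  refine Cert.intro' (pm_act hE H ha (hN E' v k t e hv (ls_ag (ag_symm H) hE.ls) ha ho))
    (fun b k' t' e' hb ha' => ?_) fun c h1 => ?_
  · obtain rfl := s1inj hb
    obtain ⟨rfl, rfl, i⟩ := act_uniq ha ha'
    exact ⟨oc_congr ha.lt i ho, hal⟩
  · have h2 : c + 1 < v := lt_of_le_of_ne (le1 h1.2.1) fun i => ext_lim' ha.toExt ⟨c, i.symm⟩
    refine child_of hc ⟨h1.1, h2.trans (lt1 hv.le), fun a h3 h4 => ?_⟩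
      (ag_symm (ag_mono H h2.le))
    rw [← rho_lt H h2]
    rcases lt_or_ge a v with h5 | h5
    · rw [← rho_lt H h5]; exact h1.2.2 a h3 (lt1 h5.le)
    · obtain ⟨a', h6, h7, h8⟩ := ext_top ha.toExt _ h2
      exact ((h1.2.2 a' h6 (lt1 h7.le)).trans h8).trans
        (kw_card h hk (hek.trans hv).le a (hek.le.trans h5) h4)

variable [KGoodSt.{u}] [KActSt.{u}] [CoreSt.{u}] [AccSt.{u}] [ActSt.{u}]

theorem max (hN : NG Om) (h : KW C E Om) (hv : v < Om) (H : Agree E' E v)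
    (ha : Act E' v k t e) (hk : IsCard E Om (e k)) (ho : OC E' E' k t e) : ¬ C.al k := by
  intro hal
  obtain ⟨r, hc⟩ := cert_act hN h hv H ha hk ho hal
  have hek := ha.weak.maps k ha.lt
  have hb : C.be ≤ v := ((C.lt k hal).trans (ha.lt.trans ha.dom)).le
  obtain ⟨E0, b0, s, h1, h2, h3, h4, h5, -, h7⟩ := exists_core hc h.lim
    (exit_ag (ag_symm (ag_mono H hb)) h.noexit) hb
  have hk' : IsCard E' (v + 1) (e k) := fun a i1 i2 => by
    rcases (le1 i2).eq_or_lt with rfl | i3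
    · rwa [(hc.pm.ls a i2).2 (ext_lim' ha.toExt)]
    · rw [rho_lt H i3]; exact hk a i1 (i3.trans hv)
  have hr : e k ≤ rho E0 (b0 + 1) := not_lt.1 fun i => by
    obtain ⟨y, hy⟩ := exists_next (E := E') (i.trans (lt1 hek.le))
    have i1 : y ≤ e k := top_le hy.2.2.1 (noProj_mono (card_noProj hk' i) hy.2.1)
    refine h7 y hy.1 hy.2.1 hy.2.2.1 (closed_ag (ag_symm (ag_mono H (i1.trans hek.le)))
      (h.closed y (h4.trans hy.1.le) (i1.trans_lt (hek.trans hv)) fun a j1 j2 => ?_))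
    rcases lt_or_ge a v with j3 | j3
    · rw [← rho_lt H j3]; exact AccSt.next_card _ _ _ _ hc.pm.ls hy a j1 (lt1 j3.le)
    · exact i1.trans (hk a (hek.le.trans j3) j2)
  obtain rfl : v = s b0 := s1inj (h3.top b0 rfl)
  obtain ⟨k0, t0, e0, i1, i2, -, i4⟩ :=
    KActSt.good_act_down h1.toPM0 hc.pm.toPM0 h3 le_rfl ha
  have i5 : s (e0 k0) = e k := by rw [← i4 k0 i1.lt, i2]
  have i6 : e0 k0 ≤ rho E0 (b0 + 1) :=
    ((w_self h3.toWeak (lt1 (i1.weak.maps k0 i1.lt).le)).trans i5.le).trans hr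
  have H0 : Agree E0 (pas E0 (b0 + 1)) (b0 + 1) := pas_ag
  have j1 := pm_pas h1 (lev_ev (ev_suc H0) h2)
  have j2 := act_ag H0 i1
  have j3 : LS (pas E0 (b0 + 1)) b0 := j1.ls.mono ((lt_add_one _).trans (lt_add_one _)).le
  refine FragSt.small (pm0_mono j1.toPM0 ((lt_add_one _).trans (lt_add_one _)).le) j2
    (j1.small b0 ((lt_add_one _).trans (lt_add_one _)) _ _ _ j2) le_rfl j2.move
    (FragSt.strong j1.toPM0 (lt_add_one b0) j2 (fun a j4 j5 => ?_) (ActSt.lt j3 j2) le_rfl)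
  rcases (le1 j5).eq_or_lt with rfl | j6
  · rwa [← rho_suc H0]
  · rcases (le1 j6).eq_or_lt with rfl | j7
    · rwa [(j1.ls a j5).2 (ext_lim' j2.toExt)]
    · exact ActSt.card j3 j2 a j4 j7

end KMax

instance [FragSt.{u}] [AmenSt.{u}] [KEvSt.{u}] [KGoodSt.{u}] [KActSt.{u}] [CoreSt.{u}] [AccSt.{u}]
    [ActSt.{u}] : MaxSt.{u} := ⟨fun _ _ _ _ _ _ _ _ => KMax.max⟩

end Pool.Agent.KM
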