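import Pool.Agent.Lib.MP_5c0be7_lc.K.Real1
import Pool.Agent.Lib.MP_5c0be7_lc.K.Step
import Pool.Agent.Lib.MP_5c0be7_lc.K.Loc
import Pool.Agent.Lib.MP_5c0be7_lc.F.StTree

/-!
Project KM, block K: passengers are carried along a realisation.
-/

namespace Pool.Agent.KM

open Ordinal Tr Set KE
open scoped Classical

universe u

/-- `f` carries the points of `B` from the first realisation to the second. -/
structure Car (N1 : Seq.{u}) (s1 : Ordinal.{u} → Ordinal.{u}) (N2 : Seq.{u})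
    (s2 : Ordinal.{u} → Ordinal.{u}) (k t : Ordinal.{u}) (B : Set Ordinal.{u})
    (f : Ordinal.{u} → Ordinal.{u}) : Prop where
  lt : ∀ z ∈ B, f z < s2 k
  nm : ∀ m a : Tr.{u}, In t m → a.lv ⊆ B → (Nm N1 (m.map s1) a ↔ Nm N2 (m.map s2) (a.map f))

namespace Pass

variable {C : Cfg.{u}} {T : IT.{u}} {N1 N2 N3 : Seq.{u}} {c g i j k l t z : Ordinal.{u}}
  {s1 s2 s3 f : Ordinal.{u} → Ordinal.{u}} {B : Set Ordinal.{u}}
  {n : Ordinal.{u} → Cn.{u}} {s th th' : Ordinal.{u} → Ordinal.{u} → Ordinal.{u}}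

theorem car_eqv (h : Car N1 s1 N2 s2 k t B f) (he : Real.Eqv N2 s2 N3 s3 t) (hk : k < t) :
    Car N1 s1 N3 s3 k t B f :=
  ⟨fun z hz => (he k hk).1 ▸ h.lt z hz, fun m a h1 h2 => (h.nm m a h1 h2).trans (he.nm h1)⟩

theorem eqv_car (he : Real.Eqv N1 s1 N2 s2 t) (h : Car N2 s2 N3 s3 k t B f) :
    Car N1 s1 N3 s3 k t B f :=
  ⟨h.lt, fun m a h1 h2 => (he.nm h1).trans (h.nm m a h1 h2)⟩

theorem car_id (h : ∀ z ∈ B, z < s1 k) : Car N1 s1 N1 s1 k t B fun z => z :=
  ⟨h, fun m a _ _ => by rw [map_id']⟩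

theorem car_congr {f' : Ordinal.{u} → Ordinal.{u}} (h : Car N1 s1 N2 s2 k t B f)
    (he : ∀ z ∈ B, f z = f' z) : Car N1 s1 N2 s2 k t B f' :=
  ⟨fun z hz => he z hz ▸ h.lt z hz, fun m a h1 h2 => by
    rw [h.nm m a h1 h2, map_congr fun z hz => he z (h2 hz)]⟩

theorem car_trans {f' : Ordinal.{u} → Ordinal.{u}} (h : Car N1 s1 N2 s2 k t B f)
    (h' : Car N2 s2 N3 s3 k t (f '' B) f') : Car N1 s1 N3 s3 k t B (f' ∘ f) :=
  ⟨fun z hz => h'.lt _ (mem_image_of_mem f hz), fun m a h1 h2 => by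
    rw [h.nm m a h1 h2, h'.nm m _ h1 (by rw [lv_map]; exact image_mono h2), KN.mm]⟩

/-- The position of the passenger `z` at node `j`. -/
noncomputable def car (c : Ordinal.{u}) (th : Ordinal.{u} → Ordinal.{u} → Ordinal.{u})
    (z : Ordinal.{u}) : Ordinal.{u} → Ordinal.{u} :=
  (wellFounded_lt (α := Ordinal.{u})).fix fun j r =>
    if j ≤ c then z else sInf {y | ∃ i, ∃ h : i < j, c ≤ i ∧ y = th i (r i h)}

theorem car_eq (j) : car c th z j =
    if j ≤ c then z else sInf {y | ∃ i, ∃ _ : i < j, c ≤ i ∧ y = th i (car c th z i)} := by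
  rw [car, WellFounded.fix_eq]

theorem car_loc (h : ∀ i < j, th i = th' i) : car c th z j = car c th' z j := by
  induction j using WellFoundedLT.induction with
  | ind j ih =>
    rw [car_eq, car_eq]
    congr 2
    ext y
    refine exists_congr fun i => exists_congr fun hi => ?_
    rw [h i hi, ih i hi fun m hm => h m (hm.trans hi)]

theorem car_le (h1 : c ≤ i) (h2 : i < j) : car c th z j ≤ th i (car c th z i) := by
  rw [car_eq j, if_neg (h1.trans_lt h2).not_ge]
  exact csInf_le' ⟨i, h2, h1, rfl⟩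

theorem car_ex (h : c < j) : ∃ i < j, c ≤ i ∧ car c th z j = th i (car c th z i) := by
  rw [car_eq j, if_neg h.not_ge]
  obtain ⟨i, h1, h2⟩ := csInf_mem (s := {y | ∃ i, ∃ _ : i < j, c ≤ i ∧ y = th i (car c th z i)})
    ⟨_, c, h, le_rfl, rfl⟩
  exact ⟨i, h1, h2⟩

theorem car_succ (h1 : c ≤ j) (h : th j (car c th z j) ≤ car c th z j) :
    car c th z (j + 1) = th j (car c th z j) := by
  refine le_antisymm (car_le h1 (lt_add_one j)) ?_
  obtain ⟨i, h2, h3, h4⟩ := car_ex (th := th) (z := z) (lt1 h1)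
  rcases (le1 h2).eq_or_lt with rfl | h5
  · exact h4.ge
  · exact h4 ▸ h.trans (car_le h3 h5)

theorem car_lim (h : c < j) : ∃ i < j, ∀ m, i < m → m ≤ j → car c th z m = car c th z j := by
  obtain ⟨i, h2, h3, h4⟩ := car_ex (th := th) (z := z) h
  refine ⟨i, h2, fun m h5 h6 => le_antisymm (h4 ▸ car_le h3 h5) ?_⟩
  obtain ⟨i', h7, h8, h9⟩ := car_ex (th := th) (z := z) (h3.trans_lt h5)
  exact h9 ▸ car_le h8 (h7.trans_le h6)

theorem nm_univ {E : Seq.{u}} {q w : Tr.{u}} :
    Nm E (node (leaf k) (node (prec .fst nmc) .nil)) (node q w) ↔ (In k q ∧ In k w) ∧ Nm E w q := by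
  have key : In k q → In k w → ((ev E k (prec .fst nmc) (node (node q w) .nil)).isSome ↔ Nm E w q) :=
    fun h1 h2 => by
      rw [ev_prec _ _ (by simp [h1, h2])]
      exact ev_nmc h1 h2
  constructor
  · rintro ⟨b, h1, h2⟩
    obtain rfl : k = b := leaf.inj h1
    have h3 : In k q ∧ In k w := by simpa using in_of_ev h2
    exact ⟨h3, (key h3.1 h3.2).1 h2⟩
  · exact fun h => ⟨k, rfl, (key h.1.1 h.1.2).2 h.2⟩

variable [KEvSt.{u}] [KGoodSt.{u}]

/-- One step. -/
theorem step {r : Ordinal.{u} → Ordinal.{u}} (hs : T.Step j) (hE : PM0 (T.E j) (T.b j + 1))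
    (h1 : Rz C g (T.E j) (T.b j) (n j) (s j)) (hg : g ≤ T.nu j)
    (h2 : Rz C g (T.E (j + 1)) (T.b (j + 1)) (n (j + 1)) (s (j + 1)))
    (hl : T.la j ≤ T.b (j + 1)) (h : Thr C T n s j B r) (hk : k < t) (ht : t ≤ T.la j)
    (hB : ∀ z ∈ B, z < rm C (n j) (s j) (T.nu j) k) :
    Car (rn C (n j) (s j) (T.nu j)).E (rm C (n j) (s j) (T.nu j)) (n (j + 1)).E (s (j + 1))
      k t B r ∧ ∀ z ∈ B, r z ≤ z := by
  have ha := hs.use.act
  have hw := (Real.rz_res hE h1 hs.use.le hg).good.toWeak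
  have hlv : T.la j < T.nu j := hs.la ▸ ha.weak.maps _ ha.lt
  have hm : ∀ {x y}, x < y → y ≤ T.la j →
      rm C (n j) (s j) (T.nu j) x < rm C (n j) (s j) (T.nu j) y := fun h3 h4 =>
    hw.mono (lt1 (h3.le.trans (h4.trans hlv.le))) (lt1 (h4.trans hlv.le)) h3
  have hm' : ∀ {x y}, x < y → y ≤ T.la j → s (j + 1) x < s (j + 1) y := fun h3 h4 =>
    h2.good.mono (lt1 (h3.le.trans (h4.trans hl))) (lt1 (h4.trans hl)) h3
  have hkl := hk.trans_le ht
  have hB' : ∀ z ∈ B, z < rm C (n j) (s j) (T.nu j) (T.la j) :=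
    fun z hz => (hB z hz).trans (hm hkl le_rfl)
  have hlt : ∀ z ∈ B, r z < s (j + 1) k := fun z hz => by
    have h3 := (h.nm (node (leaf (T.ka j)) (node (tst (.comp .lt .fst)) .nil))
      (node (leaf z) (leaf (rm C (n j) (s j) (T.nu j) k))) (by simpa [In] using ha.lt)
      (by simp [hB' z hz, hm hkl le_rfl])
      (by simp [insert_subset_iff, hz, mem_image_of_mem _ (mem_Iio.2 hkl)])).1
    simp only [map_node, map_leaf, map_nil, map_of_lv (lv_tst _), Step.nm_tst _ (in_nil _),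
      Function.comp_apply, ← hs.la] at h3
    rw [h.val k hkl]
    simpa [Step.lt_leaf, bop] using (h3 ⟨by simp [hB' z hz, hm hkl le_rfl],
      by simpa [Step.lt_leaf, bop] using hB z hz⟩).2
  refine ⟨⟨hlt, fun m a h3 h4 => ?_⟩, fun z hz => ?_⟩
  · have i1 : In (rm C (n j) (s j) (T.nu j) (T.la j)) a := fun z hz => hB' z (h4 hz)
    have i2 : In (rm C (n j) (s j) (T.nu j) (T.la j)) (m.map (rm C (n j) (s j) (T.nu j))) :=
      in_map fun z hz => hm ((h3 z hz).trans_le ht) le_rfl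
    have h5 := h.nm (node (leaf (T.ka j)) (node (prec .fst nmc) .nil))
      (node a (m.map (rm C (n j) (s j) (T.nu j)))) (by simpa [In] using ha.lt)
      ((in_node _ _ _).2 ⟨i1, i2⟩) (by
        rw [lv_node, lv_map]
        exact union_subset_union h4 (image_mono fun z hz => (h3 z hz).trans_le ht))
    have e1 : (m.map (rm C (n j) (s j) (T.nu j))).map r = m.map (s (j + 1)) := by
      rw [KN.mm]; exact (map_congr fun z hz => h.val z ((h3 z hz).trans_le ht)).symm
    simp only [map_node, map_leaf, map_nil, map_of_lv (show (prec .fst nmc).lv = ∅ by simp),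
      nm_univ, Function.comp_apply, ← hs.la, e1] at h5
    have i3 : In (s (j + 1) (T.la j)) (a.map r) :=
      in_map fun z hz => (hlt z (h4 hz)).trans (hm' hkl le_rfl)
    have i4 : In (s (j + 1) (T.la j)) (m.map (s (j + 1))) :=
      in_map fun z hz => hm' ((h3 z hz).trans_le ht) le_rfl
    simpa only [i1, i2, i3, i4, and_self, true_and] using h5
  · rcases lt_or_ge z (rm C (n j) (s j) (T.nu j) (T.ka j)) with h3 | h3
    · exact (h.fix z hz h3).le
    · exact (h.lt z hz (hB' z hz)).le.trans h3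

variable [KTreeSt.{u}] [TreeSt.{u}] [KRealSt.{u}]

/-- Passengers. -/
theorem pass {n0 : Ordinal.{u} → Cn.{u}} {s0 : Ordinal.{u} → Ordinal.{u} → Ordinal.{u}}
    (h : T.IsTr l) (hA : T.Above g l) (hC : T.Ctb l) (hn : T.n ≤ c) (hcl : c < l)
    (hR : TrRz C g T c n0 s0) (hk : k < t) (ht : t ≤ T.la c) (hc : IsCard (T.E c) (T.la c) t)
    (hB : B.Countable) (hlt : ∀ z ∈ B, z < rm C (n0 c) (s0 c) (T.nu c) k) :
    ∃ n s f, TrRz C g T l n s ∧ (∀ i ≤ c, n i = n0 i ∧ s i = s0 i) ∧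
      Car (rn C (n0 c) (s0 c) (T.nu c)).E (rm C (n0 c) (s0 c) (T.nu c)) (n l).E (s l) k t B f := by
  obtain ⟨n, s, th, h1, h2, h3⟩ := KRealSt.real (fun j _ _ th => (car c th · j) '' B)
    (fun _ _ _ _ => hB.image _) (fun _ _ _ _ _ _ _ _ e => image_congr fun _ _ => car_loc e)
    h hA hC hn hcl.le hR
  rw [← (h2 c le_rfl).1, ← (h2 c le_rfl).2] at hlt ⊢
  refine ⟨n, s, (car c th · l), h1, fun i hi => ?_, ?_⟩
  · exact h2 i hi
  have hcard : ∀ j, c < j → j ≤ l → IsCard (T.E j) (T.b j + 1) t := fun j h4 h5 a h6 h7 => by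
    rcases lt_or_ge a (T.la c) with h8 | h8
    · exact KL.rho_lt (TreeSt.agree h h4 h5) h8 ▸ hc a h6 h8
    · exact ht.trans (TreeSt.card h h4 h5 a h8 h7)
  have key : ∀ j, c < j → j ≤ l → Car (rn C (n c) (s c) (T.nu c)).E (rm C (n c) (s c) (T.nu c))
      (n j).E (s j) k t B (car c th · j) := by
    intro j
    induction j using WellFoundedLT.induction with
    | ind j ih =>
      intro h4 h5
      rcases Real.node_cases T j with h6 | ⟨d, h6, rfl⟩ | ⟨h6, h7⟩
      · exact absurd h6 (hn.trans_lt h4).not_ge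
      · have hd : d < l := Order.add_one_le_iff.1 h5
        have hcd := le1 h4
        have hs := h.step d h6 hd
        have hE := (Real.isTr_pm h hd.le).toPM0
        have hg : g ≤ T.nu d := (hA d h6 hd).trans (hs.use.act.lt.trans hs.use.act.dom).le
        have htd : t ≤ T.la d := ht.trans (TreeSt.la_mono h hcd hd)
        have h8 : Car (rn C (n c) (s c) (T.nu c)).E (rm C (n c) (s c) (T.nu c))
            (rn C (n d) (s d) (T.nu d)).E (rm C (n d) (s d) (T.nu d)) k t B (car c th · d) := by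
          rcases hcd.eq_or_lt with rfl | h9
          · exact car_congr (car_id hlt) fun z _ => by rw [car_eq, if_pos le_rfl]
          · have r1 := (h1.node d hd.le).rz
            have e1 := Real.res_eqv hE r1 hs.use.le le_rfl hg
              (htd.trans (hs.la ▸ hs.use.act.weak.maps _ hs.use.act.lt).le) (hcard d h9 hd.le)
            rw [Real.rn_top r1.top, Real.rm_top r1.top] at e1
            exact car_eqv (ih d (lt_add_one d) h9 hd.le) e1.symm hk
        obtain ⟨h9, h10⟩ := step hs hE (h1.node d hd.le).rz hg (h1.node _ h5).rz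
          (TreeSt.la_le h hd le_self_add h5) (h3 d hcd hd) hk htd
          (by rintro _ ⟨z, hz, rfl⟩; exact h8.lt z hz)
        exact car_congr (car_trans h8 h9) fun z hz =>
          (car_succ hcd (h10 _ (mem_image_of_mem _ hz))).symm
      · have aux : ∀ S : Set Ordinal.{u}, S.Finite → ∃ i < j, c < i ∧
            Real.Eqv (n i).E (s i) (n j).E (s j) t ∧ ∀ z ∈ S, car c th z i = car c th z j := by
          intro S hS
          choose r hr1 hr2 using fun z => car_lim (th := th) (z := z) h4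
          obtain ⟨y, hy1, hy2⟩ : ∃ y < j, ∀ z ∈ S, r z ≤ y := by
            refine Set.Finite.induction_on _ hS ⟨c, h4, by simp⟩ ?_
            rintro a S _ _ ⟨y, h8, h9⟩
            exact ⟨max (r a) y, max_lt (hr1 a) h8, forall_mem_insert.2
              ⟨le_max_left _ _, fun z hz => (h9 z hz).trans (le_max_right _ _)⟩⟩
          obtain ⟨i, h8, h9, h10⟩ := Real.exists_nd h h6 h5 h7 (max_lt hy1 h4)
          have hci := (le_max_right _ _).trans_lt h8
          obtain ⟨e1, e2⟩ := (h1.node j h5).lim h6 h7 i h9 h10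
          refine ⟨i, h9, hci, fun x hx => ?_, fun z hz =>
            hr2 z i ((hy2 z hz).trans_lt ((le_max_left _ _).trans_lt h8)) h9.le⟩
          have e3 := e2 x (hx.le.trans (ht.trans (TreeSt.la_le h hcl hci.le (h9.le.trans h5))))
          rw [TreeSt.fix h h5 h10 hci x (hx.trans_le ht)] at e3
          exact ⟨e3.symm, e1 ▸ fun _ _ => rfl⟩
        refine ⟨fun z hz => ?_, fun m a h8 h9 => ?_⟩
        · obtain ⟨i, h8, h9, h10, h11⟩ := aux {z} (finite_singleton z)
          rw [← h11 z rfl, ← (h10 k hk).1]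
          exact (ih i h8 h9 (h8.le.trans h5)).lt z hz
        · obtain ⟨i, h10, h11, h12, h13⟩ := aux a.lv (lv_finite a)
          rw [(ih i h10 h11 (h10.le.trans h5)).nm m a h8 h9, h12.nm h8, map_congr h13]
  exact key l hcl le_rfl

end Pass

end Pool.Agent.KM
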