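import Pool.Agent.Lib.MP_5c0be7_lc.K.Real1
import Pool.Agent.Lib.MP_5c0be7_lc.L.St

/-!
Project KM, block K: realisation of countable trees.
-/

namespace Pool.Agent.KM.Real

open Ordinal Tr KE
open scoped Classical

universe u

/-- Transfinite recursion with choices. -/
theorem exists_rec {D : Type (u + 1)} [Nonempty D] (P : Ordinal.{u} → (Ordinal.{u} → D) → Prop)
    (hloc : ∀ j f f', (∀ i ≤ j, f i = f' i) → P j f → P j f')
    (hstep : ∀ j f, (∀ i < j, P i f) → ∃ d, P j (Function.update f j d)) : ∃ f, ∀ j, P j f := by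
  let F : (j : Ordinal.{u}) → ((i : Ordinal.{u}) → i < j → D) → D := fun j r =>
    Classical.epsilon fun d => P j (Function.update
      (fun i => if h : i < j then r i h else Classical.arbitrary D) j d)
  let f : Ordinal.{u} → D := (wellFounded_lt (α := Ordinal.{u})).fix F
  refine ⟨f, fun j => ?_⟩
  induction j using WellFoundedLT.induction with
  | ind j ih =>
  let f0 : Ordinal.{u} → D := fun i => if i < j then f i else Classical.arbitrary D
  have h1 : ∃ d, P j (Function.update f0 j d) :=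
    hstep j f0 fun i hi => hloc i f f0 (fun k hk => by simp [f0, hk.trans_lt hi]) (ih i hi)
  have h2 : f j = Classical.epsilon fun d => P j (Function.update f0 j d) := by
    simp only [f]
    rw [WellFounded.fix_eq]
    rfl
  refine hloc j _ f (fun i hi => ?_) (Classical.epsilon_spec h1)
  rcases hi.eq_or_lt with rfl | hi
  · rw [Function.update_self, h2]
  · rw [Function.update_of_ne hi.ne]; simp [f0, hi]

variable {C : Cfg.{u}} {T : IT.{u}} {a c d g i j k l m p t v x : Ordinal.{u}}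
  {e th : Ordinal.{u} → Ordinal.{u}} {n n' : Ordinal.{u} → Cn.{u}}
  {s s' : Ordinal.{u} → Ordinal.{u} → Ordinal.{u}} {B : Set Ordinal.{u}}

theorem rootRz_congr (h : RootRz C g T n s) (he : ∀ i ≤ T.n, n i = n' i ∧ s i = s' i) :
    RootRz C g T n' s' := by
  refine ⟨fun i hi => (he i hi).1 ▸ (he i hi).2 ▸ h.rz i hi, fun i j k t c h1 h2 => ?_⟩
  rw [← (he i (h1.le.trans h2)).1, ← (he i (h1.le.trans h2)).2, ← (he j h2).1, ← (he j h2).2]
  exact h.ag i j k t c h1 h2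

theorem rzAt_congr (hT : T.IsTr l) (hj : j ≤ l) (h : RzAt C g T n s j)
    (he : ∀ i ≤ j, n i = n' i ∧ s i = s' i) : RzAt C g T n' s' j := by
  refine ⟨(he j le_rfl).1 ▸ (he j le_rfl).2 ▸ h.rz, fun k h1 h2 => ?_, fun h1 h2 i h3 h4 => ?_⟩
  · have hp : T.pr k ≤ j :=
      (hT.step k h1 (Order.add_one_le_iff.1 (h2 ▸ hj))).pred.le.trans (h2 ▸ le_self_add)
    rw [← (he _ hp).1, ← (he _ hp).2, ← (he j le_rfl).1, ← (he j le_rfl).2]
    exact h.succ k h1 h2
  · rw [← (he _ h3.le).1, ← (he _ h3.le).2, ← (he j le_rfl).1, ← (he j le_rfl).2]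
    exact h.lim h1 h2 i h3 h4

theorem thr_congr (h : Thr C T n s j B th) (he : ∀ i ≤ j + 1, n i = n' i ∧ s i = s' i) :
    Thr C T n' s' j B th := by
  have h1 := he j le_self_add
  have h2 := he (j + 1) le_rfl
  refine ⟨?_, ?_, ?_, ?_⟩
  · rw [← h1.1, ← h1.2, ← h2.2]; exact h.val
  · rw [← h1.1, ← h1.2]; exact h.fix
  · rw [← h1.1, ← h1.2]; exact h.lt
  · rw [← h1.1, ← h1.2, ← h2.1, ← h2.2]; exact h.nm

variable [KEvSt.{u}] [KGoodSt.{u}] [KTreeSt.{u}]

omit [KEvSt.{u}] [KGoodSt.{u}] in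
theorem dir (h : T.IsTr l) (hn : T.n < c) (hc : c ≤ l) (hl : Order.IsSuccLimit c) :
    Dir (J := {i // i < c ∧ T.ND i c}) (fun i j => i.1 ≤ j.1) (fun i => T.E i.1)
      (fun i => T.b i.1) fun i j => T.mp i.1 j.1 := by
  obtain ⟨m, h1, h2⟩ := (h.lim c hn hc hl).ex
  refine ⟨⟨⟨m, h1, h2⟩⟩, fun _ _ _ => le_trans, fun i j => ?_,
    fun j => (isTr_pm h (j.2.1.le.trans hc)).toPM0,
    fun i j hij => KTreeSt.mp_strong h (j.2.1.le.trans hc) (nd_left i.2.2 j.2.2.1 hij),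
    fun i j l hij hjl => KTreeSt.mp_comp h (l.2.1.le.trans hc) (nd_left i.2.2 j.2.2.1 hij)
      (nd_left j.2.2 l.2.2.1 hjl)⟩
  rcases le_total i.1 j.1 with h3 | h3
  · exact ⟨j, h3, le_rfl⟩
  · exact ⟨i, le_rfl, h3⟩

theorem lim_step [LimMapSt.{u}] (h : T.IsTr l) (hA : T.Above g l) (hn : T.n < c) (hc : c ≤ l)
    (hl : Order.IsSuccLimit c) (hR : ∀ m < c, RzAt C g T n s m) :
    ∃ n1 s1, Rz C g (T.E c) (T.b c) n1 s1 ∧
      ∀ i < c, T.ND i c → n1 = n i ∧ ∀ x ≤ T.b i, s1 (T.mp i c x) = s i x := by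
  obtain ⟨m0, h1, h2⟩ := (h.lim c hn hc hl).ex
  have key : ∀ i j, i ≤ j → j < c → T.ND i c → T.ND j c →
      n j = n i ∧ ∀ x ≤ T.b i, s j (T.mp i j x) = s i x := fun i j h3 h4 h5 h6 =>
    (rank h hA (h4.le.trans hc) (fun m hm => hR m (hm.trans_lt h4)) (nd_left h5 h6.1 h3).1
      fun m h7 h8 => ((nd_left h5 h6.1 h3).2 m h7 h8).1).2.2 (nd_left h5 h6.1 h3)
  have hn0 : ∀ i < c, T.ND i c → n m0 = n i := fun i h3 h4 => by
    rcases le_total i m0 with h5 | h5
    · exact (key i m0 h5 h1 h4 h2).1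
    · exact (key m0 i h5 h3 h2 h4).1.symm
  have hlim := (h.lim c hn hc hl).lim
  obtain ⟨f, hf, hf'⟩ := LimMapSt.good (E2 := (n m0).E) (s := fun i => s i.1) (dir h hn hc hl) hlim
    (fun i => by rw [hn0 i.1 i.2.1 i.2.2]; exact (hR i.1 i.2.1).rz.good)
    fun i j hij => (key i.1 j.1 hij j.2.1 i.2.2 j.2.2).2
  refine ⟨n m0, f, ⟨(hR m0 h1).rz.ok, hf, ?_, fun y hy hg => ?_⟩,
    fun i h3 h4 => ⟨hn0 i h3 h4, hf' ⟨i, h3, h4⟩⟩⟩
  · have h3 := s1inj ((hlim.strong ⟨m0, h1, h2⟩).top _ rfl)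
    rw [h3, hf' ⟨m0, h1, h2⟩ _ le_rfl]
    exact (hR m0 h1).rz.top
  · obtain ⟨i, x, hx, rfl⟩ := hlim.onto y hy
    rw [hf' i x hx]
    refine (hR i.1 i.2.1).rz.base x hx ?_
    by_contra hlt
    rw [KTreeSt.mp_fix h hc i.2.2 hx fun d h3 _ h5 => (not_le.1 hlt).trans_le
      (hA d h3 (Order.add_one_le_iff.1 (h5.1.trans hc)))] at hg
    exact hlt hg

variable [AccSt.{u}] [AmenSt.{u}] [KActSt.{u}] [KStepSt.{u}]

omit [KEvSt.{u}] [KGoodSt.{u}] [KTreeSt.{u}] [AccSt.{u}] [AmenSt.{u}] [KActSt.{u}]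
  [KStepSt.{u}] in
theorem top_oc {E : Seq.{u}} {b : Ordinal.{u}} {n : Cn.{u}} {s} (h : Rz C g E b n s) (k t e)
    (ha : Act n.E (s b) k t e) : OC n.E n.E k t e ∧ C.al k :=
  Cert.topOK h.ok n.b k t e rfl (h.top ▸ ha)

theorem succ_step (h : T.IsTr l) (hA : T.Above g l) (hC : T.Ctb l) (hn : T.n ≤ k) (hk : k < l)
    (hR : TrRz C g T k n s) (hB : B.Countable) :
    ∃ s1 th, Rz C g (T.E (k + 1)) (T.b (k + 1)) (rn C (n (T.pr k)) (s (T.pr k)) (T.st k)) s1 ∧
      (∀ x ≤ T.st k, s1 (T.im k x) = rm C (n (T.pr k)) (s (T.pr k)) (T.st k) x) ∧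
      ∀ n' s', n' k = n k → s' k = s k → n' (k + 1) = rn C (n (T.pr k)) (s (T.pr k)) (T.st k) →
        s' (k + 1) = s1 → Thr C T n' s' k B th := by
  have hs := h.step k hn hk
  have hk' := isTr_mono h hn hk.le
  have hu := hs.use
  have hp := hs.pred
  have hg := hA k hn hk
  have hkt := hu.act.lt
  have htv := hu.act.dom
  have pj := (isTr_pm h hk.le).toPM0
  have pp := (isTr_pm h (hp.le.trans hk.le)).toPM0
  have r1 := rz_res pj (hR.node k le_rfl).rz hu.le (hg.trans (hkt.trans htv).le)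
  have r2 := rz_res pp (hR.node _ hp.le).rz hp.st_le (hg.trans (hkt.le.trans hp.ta_le))
  have pv : PM0 (T.E k) (T.nu k + 1) := pm0_mono pj (by gcongr; exact hu.le)
  obtain ⟨e', he', -⟩ := KActSt.good_act pv (rz_pm r1) r1.good le_rfl hu.act
  have hbe := C.lt _ (top_oc r1 _ _ _ he').2
  obtain ⟨th, s1, k1, k2, k3, k4, k5, k6, k7⟩ := KStepSt.step (insert C.be B) (hB.insert _)
    (hu.le.trans_lt (hC k hk.le)) (hp.st_le.trans_lt (hC _ (hp.le.trans hk.le))) pv hu.act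
    (rz_pm r1) r1.good (fun k' t' e' h => (top_oc r1 k' t' e' h).1) hs.ult hs.ext hs.agree
    (KTreeSt.app hk' hu hp).1 (rz_pm r2) r2.good
    (ag_step hk' (fun j h1 h2 => hA j h1 (h2.trans hk)) hR hu hp hg)
  have hlv : T.e k (T.ka k) < T.nu k := hu.act.weak.maps _ hkt
  have base : ∀ x < T.e k (T.ka k), g ≤ x → C.be ≤ s1 x := fun x hx hgx => by
    rw [k3 x hx, ← k4 C.be (Set.mem_insert _ _) hbe]
    exact k6 _ (Set.mem_insert _ _) x hx (r1.base x (hx.trans hlv).le hgx)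
  refine ⟨s1, th, ⟨r2.ok, hs.b ▸ k1, by rw [hs.b, k2 _ le_rfl]; exact r2.top, fun x hx hgx => ?_⟩,
    k2, fun n' s' e1 e2 e3 e4 => ⟨?_, ?_, ?_, ?_⟩⟩
  · rcases lt_or_ge x (T.e k (T.ka k)) with h1 | h1
    · exact base x h1 hgx
    · have h2 : T.ka k ≤ x := hu.act.move.le.trans h1
      rw [hs.b] at hx
      exact (base _ hu.act.move hg).trans ((w_le k1.toWeak (lt1 (h2.trans hx)) (lt1 hx)).2 h2)
  · rw [e1, e2, e4, hs.la]; exact k3
  · rw [e1, e2]; exact fun z hz => k4 z (Set.mem_insert_of_mem _ hz)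
  · rw [e1, e2, hs.la]; exact fun z hz => k5 z (Set.mem_insert_of_mem _ hz)
  · rw [e1, e2, e3, e4, hs.la]
    intro y a h1 h2 h3
    rw [k7 y a h1 h2 (h3.trans (Set.union_subset_union_left _ (Set.subset_insert _ _))),
      map_congr (f := s1 ∘ T.e k) fun z hz => ?_]
    rw [Function.comp_apply, ← hs.ext z (h1 z hz), k2 z ((h1 z hz).le.trans hp.ta_le)]

theorem real [LimMapSt.{u}] {n0 : Ordinal.{u} → Cn.{u}}
    {s0 : Ordinal.{u} → Ordinal.{u} → Ordinal.{u}}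
    (B : Ordinal.{u} → (Ordinal.{u} → Cn.{u}) → (Ordinal.{u} → Ordinal.{u} → Ordinal.{u}) →
      (Ordinal.{u} → Ordinal.{u} → Ordinal.{u}) → Set Ordinal.{u})
    (hB : ∀ j n s th, (B j n s th).Countable)
    (hB' : ∀ j n s th n' s' th', (∀ i ≤ j, n i = n' i ∧ s i = s' i) → (∀ i < j, th i = th' i) →
      B j n s th = B j n' s' th')
    (h : T.IsTr l) (hA : T.Above g l) (hC : T.Ctb l) (ha : T.n ≤ a) (hal : a ≤ l)
    (h0 : TrRz C g T a n0 s0) :
    ∃ n s th, TrRz C g T l n s ∧ (∀ i ≤ a, n i = n0 i ∧ s i = s0 i) ∧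
      ∀ j, a ≤ j → j < l → Thr C T n s j (B j n s th) (th j) := by
  let D := Cn.{u} × (Ordinal.{u} → Ordinal.{u}) × (Ordinal.{u} → Ordinal.{u})
  have : Nonempty D := ⟨(n0 0, id, id)⟩
  let nn : (Ordinal.{u} → D) → Ordinal.{u} → Cn.{u} := fun f i => (f i).1
  let ss : (Ordinal.{u} → D) → Ordinal.{u} → Ordinal.{u} → Ordinal.{u} := fun f i => (f i).2.1
  let tt : (Ordinal.{u} → D) → Ordinal.{u} → Ordinal.{u} → Ordinal.{u} := fun f i => (f (i + 1)).2.2
  let P : Ordinal.{u} → (Ordinal.{u} → D) → Prop := fun j f => j ≤ l →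
    (j ≤ a → nn f j = n0 j ∧ ss f j = s0 j) ∧ (a < j → RzAt C g T (nn f) (ss f) j ∧
      ∀ k, j = k + 1 → Thr C T (nn f) (ss f) k (B k (nn f) (ss f) (tt f)) (tt f k))
  have hall : ∀ j ≤ l, ∀ f, (∀ i ≤ j, P i f) → ∀ i ≤ j, RzAt C g T (nn f) (ss f) i := by
    intro j hj f hP i hi
    rcases le_or_gt i a with h1 | h1
    · exact rzAt_congr h (hi.trans hj) (h0.node i h1) fun m hm =>
        let h2 := (hP m (hm.trans hi) ((hm.trans hi).trans hj)).1 (hm.trans h1)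
        ⟨h2.1.symm, h2.2.symm⟩
    · exact ((hP i hi (hi.trans hj)).2 h1).1
  have hroot : ∀ f, (∀ i ≤ a, P i f) → RootRz C g T (nn f) (ss f) := fun f hP =>
    rootRz_congr h0.root fun m hm =>
      let h2 := (hP m (hm.trans ha) ((hm.trans ha).trans hal)).1 (hm.trans ha)
      ⟨h2.1.symm, h2.2.symm⟩
  have hloc : ∀ j f f', (∀ i ≤ j, f i = f' i) → P j f → P j f' := by
    intro j f f' he hP hj
    have he' : ∀ i ≤ j, nn f i = nn f' i ∧ ss f i = ss f' i := fun i hi =>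
      ⟨congrArg Prod.fst (he i hi), congrArg (fun d : D => d.2.1) (he i hi)⟩
    refine ⟨fun h1 => (he' j le_rfl).1 ▸ (he' j le_rfl).2 ▸ (hP hj).1 h1, fun h1 =>
      ⟨rzAt_congr h hj ((hP hj).2 h1).1 he', fun k hk => ?_⟩⟩
    subst hk
    have h2 : ∀ i ≤ k, tt f i = tt f' i := fun i hi =>
      congrArg (fun d : D => d.2.2) (he (i + 1) (by gcongr))
    rw [← hB' k _ _ _ _ _ _ (fun i hi => he' i (hi.trans le_self_add)) fun i hi => h2 i hi.le,
      ← h2 k le_rfl]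
    exact thr_congr (((hP hj).2 h1).2 k rfl) he'
  obtain ⟨f, hf⟩ := exists_rec P hloc fun j f hP => by
    by_cases hj : j ≤ l
    swap
    · exact ⟨Classical.arbitrary D, fun h1 => absurd h1 hj⟩
    rcases le_or_gt j a with h1 | h1
    · refine ⟨(n0 j, s0 j, id), fun _ => ⟨fun _ => ?_, fun h2 => absurd h1 (not_le.2 h2)⟩⟩
      simp [nn, ss]
    have upd : ∀ (d : D) i, i < j → Function.update f j d i = f i := fun d i hi =>
      Function.update_of_ne hi.ne _ _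
    rcases node_cases T j with h2 | ⟨k, h2, rfl⟩ | ⟨h2, h3⟩
    · exact absurd (ha.trans_lt h1) (not_lt.2 h2)
    · have hk : k < l := Order.add_one_le_iff.1 hj
      have hR : TrRz C g T k (nn f) (ss f) := ⟨hroot f fun i hi => hP i (hi.trans_lt h1),
        hall k hk.le f fun i hi => hP i (lt1 hi)⟩
      obtain ⟨s1, th, k1, k2, k3⟩ := succ_step h hA hC h2 hk hR (hB k (nn f) (ss f) (tt f))
      have hp : T.pr k < k + 1 := lt1 (h.step k h2 hk).pred.le
      let d : D := (rn C (nn f (T.pr k)) (ss f (T.pr k)) (T.st k), s1, th)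
      have e1 : ∀ i < k + 1, nn (Function.update f (k + 1) d) i = nn f i := fun i hi =>
        congrArg Prod.fst (upd d i hi)
      have e2 : ∀ i < k + 1, ss (Function.update f (k + 1) d) i = ss f i := fun i hi =>
        congrArg (fun d : D => d.2.1) (upd d i hi)
      have e3 : nn (Function.update f (k + 1) d) (k + 1) = d.1 := by simp [nn]
      have e4 : ss (Function.update f (k + 1) d) (k + 1) = s1 := by simp [ss, d]
      have e5 : tt (Function.update f (k + 1) d) k = th := by simp [tt, d]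
      refine ⟨d, fun _ => ⟨fun h3 => absurd h3 (not_le.2 h1), fun _ => ⟨⟨?_, fun k' _ h4 => ?_,
        fun _ h4 => absurd h4 (Order.not_isSuccLimit_add_one k)⟩, fun k' h4 => ?_⟩⟩⟩
      · rw [e3, e4]; exact k1
      · rw [← s1inj h4, e1 _ hp, e2 _ hp, e3, e4]; exact ⟨rfl, k2⟩
      · rw [← s1inj h4, e5, ← hB' k _ _ (tt f) _ _ _
          (fun i hi => ⟨(e1 i (lt1 hi)).symm, (e2 i (lt1 hi)).symm⟩)
          fun i hi => (congrArg (fun d : D => d.2.2) (upd d (i + 1) (s1lt hi))).symm]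
        exact k3 _ _ (e1 _ (lt_add_one k)) (e2 _ (lt_add_one k)) e3 e4
    · obtain ⟨n1, s1, k1, k2⟩ := lim_step (n := nn f) (s := ss f) h hA h2 hj h3 fun m hm =>
        hall m (hm.le.trans hj) f (fun i hi => hP i (hi.trans_lt hm)) m le_rfl
      let d : D := (n1, s1, id)
      have e1 : ∀ i < j, nn (Function.update f j d) i = nn f i := fun i hi =>
        congrArg Prod.fst (upd d i hi)
      have e2 : ∀ i < j, ss (Function.update f j d) i = ss f i := fun i hi =>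
        congrArg (fun d : D => d.2.1) (upd d i hi)
      have e3 : nn (Function.update f j d) j = n1 := by simp [nn, d]
      have e4 : ss (Function.update f j d) j = s1 := by simp [ss, d]
      refine ⟨d, fun _ => ⟨fun h4 => absurd h4 (not_le.2 h1), fun _ => ⟨⟨?_, fun k' _ h4 => ?_,
        fun _ _ i h4 h5 => ?_⟩, fun k' h4 => ?_⟩⟩⟩
      · rw [e3, e4]; exact k1
      · exact absurd (h4 ▸ h3) (Order.not_isSuccLimit_add_one k')
      · rw [e1 i h4, e2 i h4, e3, e4]; exact k2 i h4 h5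
      · exact absurd (h4 ▸ h3) (Order.not_isSuccLimit_add_one k')
  exact ⟨nn f, ss f, tt f, ⟨hroot f fun i _ => hf i, hall l le_rfl f fun i _ => hf i⟩,
    fun i hi => (hf i (hi.trans hal)).1 hi,
    fun j h1 h2 => ((hf (j + 1) (Order.add_one_le_iff.2 h2)).2 (lt1 h1)).2 j rfl⟩

instance [LimMapSt.{u}] : KRealSt.{u} where
  real := real
  rank := fun h hA hR hj => rank h hA hj fun m hm => hR.node m (hm.trans hj)

end Pool.Agent.KM.Real
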