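import Pool.Agent.Lib.MP_5c0be7_lc.K.Real2

/-!
Project KM, block K: realisation of countable trees of limit length.
-/

namespace Pool.Agent.KM.Real

open Ordinal Tr KE
open scoped Classical

universe u

variable {C : Cfg.{u}} {T : IT.{u}} {c g j : Ordinal.{u}} {n : Ordinal.{u} → Cn.{u}}
  {s : Ordinal.{u} → Ordinal.{u} → Ordinal.{u}}

theorem rzAt_root (h : RootRz C g T n s) (hj : j ≤ T.n) : RzAt C g T n s j :=
  ⟨h.rz j hj, fun _ h1 h2 => absurd (h2 ▸ hj) (not_le.2 (lt1 h1)),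
    fun h1 => absurd hj (not_le.2 h1)⟩

theorem trRz_root (h : RootRz C g T n s) : TrRz C g T T.n n s := ⟨h, fun _ => rzAt_root h⟩

variable [KRealSt.{u}]

/-- One realisation for all nodes below `c`. -/
theorem real_lt [KEvSt.{u}] [KGoodSt.{u}] [KTreeSt.{u}] [LimMapSt.{u}]
    {n0 : Ordinal.{u} → Cn.{u}} {s0 : Ordinal.{u} → Ordinal.{u} → Ordinal.{u}}
    (h : ∀ j < c, T.n ≤ j → T.IsTr j) (hA : T.Above g c) (hC : ∀ j < c, T.b j < ω₁)
    (h0 : RootRz C g T n0 s0) :
    ∃ n s, RootRz C g T n s ∧ (∀ i ≤ T.n, n i = n0 i ∧ s i = s0 i) ∧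
      ∀ j < c, RzAt C g T n s j := by
  let D := Cn.{u} × (Ordinal.{u} → Ordinal.{u})
  have : Nonempty D := ⟨(n0 0, id)⟩
  let nn : (Ordinal.{u} → D) → Ordinal.{u} → Cn.{u} := fun f i => (f i).1
  let ss : (Ordinal.{u} → D) → Ordinal.{u} → Ordinal.{u} → Ordinal.{u} := fun f i => (f i).2
  let P : Ordinal.{u} → (Ordinal.{u} → D) → Prop := fun j f =>
    (j ≤ T.n → nn f j = n0 j ∧ ss f j = s0 j) ∧ (T.n < j → j < c → RzAt C g T (nn f) (ss f) j)
  have hroot : ∀ f, (∀ i ≤ T.n, P i f) → RootRz C g T (nn f) (ss f) := fun f hP =>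
    rootRz_congr h0 fun m hm => ⟨((hP m hm).1 hm).1.symm, ((hP m hm).1 hm).2.symm⟩
  have hall : ∀ j, T.n ≤ j → j < c → ∀ f, (∀ i ≤ j, P i f) → TrRz C g T j (nn f) (ss f) := by
    intro j h1 h2 f hP
    have hr := hroot f fun i hi => hP i (hi.trans h1)
    refine ⟨hr, fun i hi => ?_⟩
    rcases le_or_gt i T.n with h3 | h3
    · exact rzAt_root hr h3
    · exact (hP i hi).2 h3 (hi.trans_lt h2)
  have hloc : ∀ j f f', (∀ i ≤ j, f i = f' i) → P j f → P j f' := by
    intro j f f' he hP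
    have he' : ∀ i ≤ j, nn f i = nn f' i ∧ ss f i = ss f' i := fun i hi =>
      ⟨congrArg Prod.fst (he i hi), congrArg Prod.snd (he i hi)⟩
    exact ⟨fun h1 => (he' j le_rfl).1 ▸ (he' j le_rfl).2 ▸ hP.1 h1, fun h1 h2 =>
      rzAt_congr (h j h2 h1.le) le_rfl (hP.2 h1 h2) he'⟩
  obtain ⟨f, hf⟩ := exists_rec P hloc fun j f hP => by
    rcases le_or_gt j T.n with h1 | h1
    · refine ⟨(n0 j, s0 j), fun _ => ?_, fun h2 => absurd h1 (not_le.2 h2)⟩
      simp [nn, ss]
    by_cases hj : j < c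
    swap
    · exact ⟨Classical.arbitrary D, fun h2 => absurd h2 (not_le.2 h1), fun _ h2 => absurd h2 hj⟩
    have hT := h j hj h1.le
    have hA' : T.Above g j := fun k h2 h3 => hA k h2 (h3.trans hj)
    have fin : ∀ n s, (∀ i < j, n i = nn f i ∧ s i = ss f i) → RzAt C g T n s j →
        ∃ d, P j (Function.update f j d) := fun n s he hr => by
      refine ⟨(n j, s j), fun h2 => absurd h2 (not_le.2 h1), fun _ _ =>
        rzAt_congr hT le_rfl hr fun i hi => ?_⟩
      rcases hi.eq_or_lt with rfl | hi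
      · simp [nn, ss]
      · simp only [nn, ss, Function.update_of_ne hi.ne]
        exact he i hi
    rcases node_cases T j with h2 | ⟨k, h2, rfl⟩ | ⟨h2, h3⟩
    · exact absurd h1 (not_lt.2 h2)
    · obtain ⟨n, s, -, k1, k2, -⟩ := KRealSt.real (fun _ _ _ _ => ∅)
        (fun _ _ _ _ => Set.countable_empty) (fun _ _ _ _ _ _ _ _ _ => rfl) hT hA'
        (fun i hi => hC i (hi.trans_lt hj)) h2 le_self_add
        (hall k h2 ((lt_add_one k).trans hj) f fun i hi => hP i (lt1 hi))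
      exact fin n s (fun i hi => k2 i (le1 hi)) (k1.node _ le_rfl)
    · obtain ⟨n1, s1, k1, k2⟩ := lim_step (n := nn f) (s := ss f) hT hA' h2 le_rfl h3 fun m hm =>
        (hall (max m T.n) (le_max_right _ _) ((max_lt hm h2).trans hj) f
          fun i hi => hP i (hi.trans_lt (max_lt hm h2))).node m (le_max_left _ _)
      refine fin (Function.update (nn f) j n1) (Function.update (ss f) j s1)
        (fun i hi => by simp [Function.update_of_ne hi.ne]) ⟨by simpa using k1,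
          fun k _ h4 => absurd (h4 ▸ h3) (Order.not_isSuccLimit_add_one k), fun _ _ i h4 h5 => ?_⟩
      simpa [Function.update_of_ne h4.ne] using k2 i h4 h5
  have hr := hroot f fun i _ => hf i
  refine ⟨nn f, ss f, hr, fun i hi => (hf i).1 hi, fun j hj => ?_⟩
  rcases le_or_gt j T.n with h3 | h3
  · exact rzAt_root hr h3
  · exact (hf j).2 h3 hj

end Pool.Agent.KM.Real
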