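import Pool.Agent.Lib.MP_5c0be7_lc.K.Real1
import Pool.Agent.Lib.MP_5c0be7_lc.K.Nm
import Pool.Agent.Lib.MP_5c0be7_lc.F.StTree
import Pool.Agent.Lib.MP_5c0be7_lc.L.St

/-!
Project KM, block K: the tree facts of block K from the statements of block F8.
-/

namespace Pool.Agent.KM.TreeI

open Ordinal Tr KE _root_.Pool.Agent.KM.Real
open scoped Classical

universe u

variable {T : IT.{u}} {E E' : Seq.{u}} {a c d i j l x : Ordinal.{u}}

theorem rho_agree (h : Agree E E' d) (ha : a < d) : rho E a = rho E' a :=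
  rhoL_congr fun _ hb => KN.ev_agree h (hb.trans_lt ha)

variable [TreeSt.{u}]

theorem mp_fix (h : T.IsTr l) (hj : j ≤ l) (hn : T.ND i j) (hx : x ≤ T.b i)
    (hk : ∀ d, T.n ≤ d → i < d + 1 → T.Le (d + 1) j → x < T.ka d) : T.mp i j x = x := by
  induction j using WellFoundedLT.induction generalizing i x with
  | ind j ih =>
  rcases hn.1.1.eq_or_lt with rfl | hij
  · exact isTr_id h hj hx
  have k1 := (hn.2 j hij (le_refl' T j)).1
  rcases node_cases T j with h5 | ⟨d, h5, rfl⟩ | ⟨-, h5⟩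
  · exact absurd k1 (not_lt.2 h5)
  · have hd : d < l := Order.add_one_le_iff.1 hj
    have hs := h.step d h5 hd
    have hp : T.Le (T.pr d) (d + 1) :=
      le_succ (TreeSt.pred_le (isTr_mono h h5 hd.le) hs.use hs.pred)
    rw [hs.mp i (le1 hij) hn x hx, ih _ (lt1 hs.pred.le) (hp.1.trans hj)
      (nd_left hn hp (le_pr_of hn.1 hij h5)) hx fun d' h1 h2 h3 => hk d' h1 h2 (le_trans' h3 hp),
      im_fix hs (hk d h5 hij (le_refl' T _))]
  · have hl := (h.lim j k1 hj h5).lim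
    induction x using WellFoundedLT.induction generalizing i with
    | ind x ihx =>
    have s1 := (TreeSt.strong h hj hn).toWeak
    obtain ⟨m, y, hy, hyx⟩ := hl.onto x ((w_self s1 (lt1 hx)).trans (le1 (s1.maps x (lt1 hx))))
    have hm : max m.1 i < j := max_lt m.2.1 hij
    have hm' : T.ND (max m.1 i) j := by
      rcases le_total m.1 i with h1 | h1
      · rwa [max_eq_right h1]
      · rw [max_eq_left h1]; exact m.2.2
    have n1 : T.ND m.1 (max m.1 i) := nd_left m.2.2 hm'.1 (le_max_left _ _)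
    have n2 : T.ND i (max m.1 i) := nd_left hn hm'.1 (le_max_right _ _)
    generalize max m.1 i = q at *
    have hq : q ≤ l := hm.le.trans hj
    have y1 : T.mp m.1 q y ≤ T.b q := le1 ((TreeSt.strong h hq n1).maps y (lt1 hy))
    have y2 : T.mp q j (T.mp m.1 q y) = x := (TreeSt.comp h hj n1 hm' y hy).trans hyx
    generalize T.mp m.1 q y = z at *
    have y3 : z ≤ x := y2 ▸ w_self (TreeSt.strong h hj hm').toWeak (lt1 y1)
    rcases y3.eq_or_lt with rfl | y3
    · rw [← TreeSt.comp h hj n2 hm' z hx,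
        ih q hm hq n2 hx fun d h1 h2 h3 => hk d h1 h2 (le_trans' h3 hm'.1), y2]
    · rw [ihx z y3 hm' y1 (fun d h1 h2 h3 => y3.trans (hk d h1 (n2.1.1.trans_lt h2) h3)) hm] at y2
      exact absurd y2 y3.ne

instance : KTreeSt.{u} where
  le_pr := TreeSt.pred_le
  mc := by
    intro T j v k t e p c m h hu hp hpm hm
    have hpj : p < j := hpm.trans_le hm.1
    have h1 : t ≤ T.la p := (TreeSt.pred_agree h hu hp).2.2 hpj
    have h2 : t ≤ T.b m := h1.trans (TreeSt.la_le h hpj hpm.le hm.1)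
    have h3 := TreeSt.pred_card h hu hp hpm hm.1
    have h4 : ∀ a < t, rho (T.E m) a = rho (T.E j) a := fun a ha => by
      rcases hm.1.eq_or_lt with rfl | h5
      · rfl
      · exact rho_agree (TreeSt.agree h h5 le_rfl)
          (ha.trans_le (h1.trans (TreeSt.la_mono h hpm.le h5)))
    refine ⟨⟨hu.act.lt, h2.trans le_self_add, fun b hb => ?_,
      fun a h5 h6 => hu.act.lt.trans_le (h3 a h5 h6)⟩, fun a h5 h6 => ?_, h2, h1,
      fun d h5 h6 => (TreeSt.pred_ka h hu hp h5 (le1 (h6 ▸ hpm))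
        (Order.add_one_le_iff.1 (h6 ▸ hm.1))).2⟩
    · obtain ⟨a, h5, h6, h7⟩ := hu.act.top b hb
      exact ⟨a, h5, h6, by rw [h4 a h6]; exact h7⟩
    · rcases lt_or_ge a t with h7 | h7
      · rw [h4 a h7]; exact hu.act.card a h5 h7
      · exact hu.act.lt.le.trans (h3 a h7 h6)
  app := fun h hu hp => ⟨⟨hu.act.lt, hp.ta_le.trans le_self_add, (TreeSt.pred_ext h hu hp).top,
    hp.noproj⟩, (TreeSt.pred_agree h hu hp).1⟩
  cof := fun h1 h2 h3 h4 => TreeSt.cof h1 h2 h3 _ h4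
  mp_strong := TreeSt.strong
  mp_comp := TreeSt.comp
  mp_fix := mp_fix

theorem dir (h : ∀ j < c, T.n ≤ j → T.IsTr j) (hn : T.n < c) (hm : ∃ m < c, T.ND m c) :
    Dir (J := {i // i < c ∧ T.ND i c}) (fun i j => i.1 ≤ j.1) (fun i => T.E i.1)
      (fun i => T.b i.1) fun i j => T.mp i.1 j.1 := by
  have tr : ∀ j < c, T.IsTr (max j T.n) := fun j hj => h _ (max_lt hj hn) (le_max_right _ _)
  obtain ⟨m, h1, h2⟩ := hm
  refine ⟨⟨⟨m, h1, h2⟩⟩, fun _ _ _ => le_trans, fun i j => ?_,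
    fun j => (isTr_pm (tr j.1 j.2.1) (le_max_left _ _)).toPM0,
    fun i j hij => TreeSt.strong (tr j.1 j.2.1) (le_max_left _ _) (nd_left i.2.2 j.2.2.1 hij),
    fun i j l hij hjl => TreeSt.comp (tr l.1 l.2.1) (le_max_left _ _) (nd_left i.2.2 j.2.2.1 hij)
      (nd_left j.2.2 l.2.2.1 hjl)⟩
  rcases le_total i.1 j.1 with h3 | h3
  · exact ⟨j, h3, le_rfl⟩
  · exact ⟨i, le_rfl, h3⟩

omit [TreeSt.{u}] in
theorem small_nd (T : IT.{u}) (c : Ordinal.{u}) : _root_.Small.{u} {i // i < c ∧ T.ND i c} :=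
  small_subset (t := {i | i < c ∧ T.ND i c}) (s := Set.Iio c) fun _ h => h.1

instance [IterSt.{u}] [LimSt.{u}] : KWfSt.{u} where
  iterable_of_wf := by
    intro T g hT h1 h2
    refine IterSt.of_wf hT h1 fun U c e1 e2 e3 e4 e5 => ?_
    obtain ⟨h3, h4⟩ := h2 U c e1 e2 e3 e4 e5
    refine ⟨h3, ?_⟩
    have hn : U.n = T.n := e1.1
    have := small_nd U c
    obtain ⟨E', b', m, hl, -⟩ := LimSt.lim (dir (T := U) (hn ▸ e4) (hn ▸ e2) h3)
      fun ⟨s, x, hs⟩ => h4 ⟨fun a => (s a).1, x, fun a =>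
        ⟨(s a).2.1, (s a).2.2, (hs a).2.1, (hs a).1, (hs a).2.2⟩⟩
    refine ⟨fun i => if h : i < c ∧ U.ND i c then m ⟨i, h⟩ else id, fun i hi hn => ?_,
      fun i j hij hj hi hj' x hx => ?_⟩
    · simp only [dif_pos (And.intro hi hn)]
      exact (hl.strong ⟨i, hi, hn⟩).mono.mono fun a ha => lt1 ha
    · simp only [dif_pos (And.intro hj hj'), dif_pos (And.intro (hij.trans_lt hj) hi)]
      exact hl.comm ⟨i, hij.trans_lt hj, hi⟩ ⟨j, hj, hj'⟩ hij x hx

end Pool.Agent.KM.TreeI
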