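import Pool.Agent.Lib.MP_5c0be7_lc.K.Loc
import Pool.Agent.Lib.MP_5c0be7_lc.K.Res
import Pool.Agent.Lib.MP_5c0be7_lc.P.St
import Pool.Agent.Lib.MP_5c0be7_lc.O.StF3

/-!
Project KM, block K: the maximal certified weasel exists.
-/

namespace Pool.Agent.KM

open Ordinal Cardinal Tr Set KE KL
open scoped Classical

universe u

namespace Zorn

variable {E E' E0 : Seq.{u}} {a b b0 c d d' h k r t v x : Ordinal.{u}}
  {s e : Ordinal.{u} → Ordinal.{u}} {C : Cfg.{u}}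

theorem closed_ag (H : Agree E E' h) (h1 : Closed C E h) : Closed C E' h :=
  fun r E1 d hc ha => h1 r E1 d hc (ag_trans ha (ag_symm H))

theorem exit_ag (H : Agree E E' C.be) (h1 : ¬ Exit C E) : ¬ Exit C E' :=
  fun ⟨r, E1, d, c, h2, h3, h4⟩ => h1 ⟨r, E1, d, c, h2, ag_trans h3 (ag_symm H), h4⟩

theorem closed_base (hl : ¬ Suc C.be) (hx : ¬ Exit C E) : Closed C E C.be := by
  intro r E' d hc ha a h1 h2
  by_contra hlt
  have hlt := not_le.1 hlt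
  obtain ⟨c, rfl⟩ := suc_of_rho (hc.pm.ls a h2) (hlt.trans_le h1)
  exact hx ⟨r, E', d, c, hc, ha, le1 (lt_of_le_of_ne h1 fun e => hl ⟨c, e⟩), h2.le, hlt⟩

theorem cert_II (hc : Cert C r E (b + 1)) : II C C.be E b :=
  fun _ _ _ k _ _ hk hb hg => ⟨⟨r, E, b⟩, k, hc, hk, hb, hg⟩

/-- A minimal point of a certified premouse gives a child for a premouse that agrees with it. -/
theorem child_of (hc : Cert C r E d) (hm : MinPt C E d c) (H : Agree E E' (c + 1)) :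
    ∃ r' E1 s, Strong E' (c + 1) E1 (s c + 1) s ∧ (∀ x < rho E' (c + 1), s x = x) ∧
      Cert C r' E1 (s c + 1) :=
  let ⟨r', E1, s, _, h2, h3, h4⟩ := hc.exists_child hm
  ⟨r', E1, s, strong_left H h2, rho_suc H ▸ h3, h4⟩

/-- An initial segment cut at a passive level of minimal projectum is certified. -/
theorem cert_cut (hc : Cert C r E d) (ha : a < d) (hs : Suc a)
    (hm : ∀ a', a ≤ a' → a' < d → rho E a ≤ rho E a') : ∃ r, Cert C r E (a + 1) := by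
  refine Cert.intro' (pm_mono hc.pm (Order.add_one_le_iff.2 ha))
    (fun b k t e hb h1 => absurd (s1inj hb ▸ hs) (ext_lim' h1.toExt)) fun c h1 => ?_
  refine child_of hc ⟨h1.1, (le1 h1.2.1).trans_lt ha, fun a' h2 h3 => ?_⟩ fun _ _ => rfl
  rcases le_total a' a with h4 | h4
  · exact h1.2.2 a' h2 (lt1 h4)
  · exact (h1.2.2 a (le1 h1.2.1) (lt_add_one a)).trans (hm a' h4 h3)

variable [FragSt.{u}]

theorem pm_pas (hE : PM E d) (hl : Lev (pas E d) d) : PM (pas E d) (d + 1) := by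
  have h1 := pm_ag pas_ag hE
  refine ⟨⟨fun b hb => ?_, fun b hb => ?_⟩, fun b hb k t e ha => ?_⟩ <;>
    rcases (le1 hb).eq_or_lt with rfl | hb
  · exact hl
  · exact h1.ls b hb
  · exact Or.inl pas_pas
  · exact h1.act b hb
  · exact absurd pas_pas (act_not_pas ha)
  · exact h1.small b hb k t e ha

omit [FragSt.{u}] in
theorem top_pas : TopOK C (pas E d) (d + 1) :=
  fun _ _ _ _ hb ha => absurd pas_pas (s1inj hb ▸ act_not_pas ha)

/-- One passive step above a certified premouse of limit height. -/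
theorem cert_lim [AmenSt.{u}] (hc : Cert C r E d) (hd : ¬ Suc d) :
    ∃ r, Cert C r (pas E d) (d + 1) := by
  refine Cert.intro' (pm_pas hc.pm (AmenSt.lev_pas _ _ hd pas_pas)) top_pas fun c h1 => ?_
  have h2 : c + 1 < d := lt_of_le_of_ne (le1 h1.2.1) fun e => hd ⟨c, e.symm⟩
  refine child_of hc ⟨h1.1, h2, fun a h3 h4 => ?_⟩ (ag_mono pas_ag h2.le)
  rw [rho_lt pas_ag h2, rho_lt pas_ag h4]
  exact h1.2.2 a h3 (lt1 h4.le)

variable [KEvSt.{u}] [KGoodSt.{u}]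

/-- One passive step above a core of a certified premouse. -/
theorem cert_core (hc : Cert C r E (b + 1)) (h0 : PM E0 (b0 + 1)) (hl : Lev E0 (b0 + 1))
    (hs : Strong E0 (b0 + 1) E (b + 1) s) (hf : ∀ x < rho E0 (b0 + 1), s x = x) :
    ∃ r, Cert C r (pas E0 (b0 + 1)) (b0 + 1 + 1) := by
  have H : Agree E0 (pas E0 (b0 + 1)) (b0 + 1) := pas_ag
  obtain rfl : b = s b0 := s1inj (hs.top b0 rfl)
  refine Cert.intro' (pm_pas h0 (lev_ev (ev_suc H) hl)) top_pas fun c h1 => ?_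
  have hc0 : c ≤ b0 := s1le (le1 h1.2.1)
  have H' : Agree E0 (pas E0 (b0 + 1)) (c + 1) := ag_mono H (by gcongr)
  have hr : rho E0 (c + 1) ≤ rho E0 (b0 + 1) := by
    rw [rho_suc H', rho_suc H]; exact h1.2.2 _ (by gcongr) (lt_add_one _)
  obtain ⟨i1, i2, i3, -, -, i6⟩ := res_spec (C := C) (n := ⟨r, E, s b0⟩) (b := s c) hc
    ((w_le hs.toWeak (lt1 hc0) (lt_add_one _)).2 hc0) (h1.1.trans (w_self hs.toWeak (lt1 hc0)))
  rw [Cn.Ok, i2] at i1
  refine ⟨_, _, (res C ⟨r, E, s b0⟩ (s c)).2 ∘ s,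
    strong_left H' (strong_comp (strong_restrict hs hc0) i3), fun x hx => ?_, i1⟩
  rw [← rho_suc H'] at hx
  have hn : NoProj E0 x (c + 1) (b0 + 1) := fun a h2 h3 => by
    rw [rho_lt H h3]
    exact (rho_suc H' ▸ hx).trans_le (h1.2.2 a h2 (h3.trans (lt_add_one _)))
  have := good_noProj (KGoodSt.strong_good h0.toPM0 hc.pm.toPM0 hs) hc0 hn
  rw [hf x (hx.trans_le hr)] at this
  show (res C _ (s c)).2 (s x) = x
  rw [hf x (hx.trans_le hr)]
  exact i6 x this x le_rfl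

omit [FragSt.{u}] in
/-- Above the base no extender of a certified premouse overlaps the base. -/
theorem cert_cutPt [KActSt.{u}] (hc : Cert C r E (b + 1)) (hb : IsCard E (b + 1) C.be) :
    CutPt E b C.be := by
  intro v k t e h1 h2 ha
  by_contra hk
  have hk := not_le.1 hk
  obtain ⟨i1, i2, i3, -, -, i6⟩ := res_spec (C := C) (n := ⟨r, E, b⟩) (b := v) hc h2 h1
  have h3 : PM0 E (v + 1) := pm0_mono hc.pm.toPM0 (by gcongr)
  have h4 := i1.pm.toPM0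
  rw [i2] at h4
  obtain ⟨e', h5, -⟩ := KActSt.good_act h3 h4 (KGoodSt.strong_good h3 h4 i3) le_rfl ha
  have h6 := (Cert.topOK i1 _ _ _ _ (by rw [i2]) h5).2
  rw [i6 k (fun a h7 h8 => hk.trans_le (hb a (h1.trans ((lt_add_one v).le.trans h7)) h8)) k
    le_rfl] at h6
  exact absurd (C.lt k h6) (not_lt.2 hk.le)

/-- The core of a certified premouse over the base. -/
theorem exists_core [KActSt.{u}] [CoreSt.{u}] (hc : Cert C r E (b + 1)) (hl : ¬ Suc C.be)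
    (hx : ¬ Exit C E) (hb : C.be ≤ b) : ∃ E0 b0 s, PM E0 (b0 + 1) ∧ Lev E0 (b0 + 1) ∧
      Strong E0 (b0 + 1) E (b + 1) s ∧ C.be ≤ rho E0 (b0 + 1) ∧
      (∀ x < rho E0 (b0 + 1), s x = x) ∧
      (∀ a ≤ b, rho E a ≤ rho E0 (b0 + 1) → a ≤ b0 ∧ Agree E0 E (a + 1)) ∧
      ∀ h, rho E0 (b0 + 1) < h → h ≤ b + 1 → TopC E (rho E0 (b0 + 1)) h → ¬ Closed C E h := by
  obtain ⟨E0, b0, s, h1, h2, h3, h4, h5, h6⟩ := CoreSt.core hc.pm (cert_II hc)
    (cert_cutPt hc (closed_base hl hx _ _ _ hc fun _ _ => rfl))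
    (not_lt.1 fun h => hx ⟨r, E, b + 1, b, hc, fun _ _ => rfl, hb, le_rfl, h⟩)
  refine ⟨E0, b0, s, h1, h2, h3, h4, h5, h6, fun h i1 i2 i3 i4 => ?_⟩
  obtain ⟨r', h7⟩ := cert_core hc h1 h2 h3 h5
  have key : ∀ x < h, x ≤ b0 ∧ E0 x = E x := fun x hx =>
    let ⟨a, j1, j2, j3⟩ := i3 x hx
    let ⟨j4, j5⟩ := h6 a (le1 (j2.trans_le i2)) j3
    ⟨j1.trans j4, j5 x (lt1 j1)⟩
  have := i4 r' _ _ h7 (fun x hx => (pas_ag x (lt1 (key x hx).1)).symm.trans (key x hx).2) (b0 + 1)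
    (le_of_forall_lt fun x hx => lt1 (key x hx).1) (lt_add_one _)
  rw [← rho_suc pas_ag] at this
  exact absurd i1 (not_lt.2 this)

end Zorn

open Zorn

/-- The approximations to the weasel. -/
structure Zorn.Apx (C : Cfg.{u}) (E0 : Seq.{u}) (Om : Ordinal.{u}) (E : Seq.{u})
    (d : Ordinal.{u}) : Prop where
  cert : ∃ r, Cert C r E d
  ge : C.be ≤ d
  le : d ≤ Om
  base : Agree E E0 C.be
  closed : ∀ h, C.be ≤ h → h < d → IsCard E d h → Closed C E h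

namespace Zorn

variable {E E0 : Seq.{u}} {d Om : Ordinal.{u}} {C : Cfg.{u}}

/-- A longer certified premouse without new cardinals is an approximation. -/
theorem Apx.ext (h : Apx C E0 Om E d) {E' : Seq.{u}} {d' : Ordinal.{u}} (hc : ∃ r, Cert C r E' d')
    (H : Agree E E' d) (h1 : d ≤ d') (h2 : d' ≤ Om)
    (h3 : ∀ g, d ≤ g → g < d' → IsCard E' d' g → Closed C E' g) : Apx C E0 Om E' d' := by
  refine ⟨hc, h.ge.trans h1, h2, ag_trans (ag_symm (ag_mono H h.ge)) h.base, fun g i1 i2 i3 => ?_⟩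
  rcases lt_or_ge g d with i4 | i4
  · exact closed_ag (ag_mono H i4.le) (h.closed g i1 i4 (card_ag (ag_symm H) (card_mono i3 h1)))
  · exact h3 g i4 i2 i3

variable [FragSt.{u}] [KEvSt.{u}] [KGoodSt.{u}] [KActSt.{u}] [CoreSt.{u}] [AmenSt.{u}]
  [DiagSt.{u}] [AccSt.{u}]

theorem Apx.step {O : Cardinal.{u}} (hO : ℵ₀ < O) (hl : ¬ Suc C.be) (hx : ¬ Exit C E0)
    (h : Apx C E0 O.ord E d) (hd : d < O.ord) :
    ∃ E' d', Apx C E0 O.ord E' d' ∧ d < d' ∧ Agree E E' d := by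
  have hlim : Order.IsSuccLimit O.ord := isSuccLimit_ord hO.le
  have hx' : ¬ Exit C E := exit_ag (ag_symm h.base) hx
  obtain ⟨r, hc⟩ := h.cert
  by_cases hs : Suc d
  · obtain ⟨b, rfl⟩ := hs
    have hb : C.be ≤ b := le1 (lt_of_le_of_ne h.ge fun e => hl ⟨b, e⟩)
    obtain ⟨E1, b1, s, h1, h2, h3, h4, h5, h6, h7⟩ := exists_core hc hl hx' hb
    have hb1 : b1 ≤ b := s1inj (h3.top b1 rfl) ▸ w_self h3.toWeak (lt_add_one b1)
    have hr : rho E1 (b1 + 1) ≤ b1 := DiagSt.rho_top _ _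
    obtain ⟨t, ht⟩ := exists_next (E := E) (lt1 (hr.trans hb1))
    obtain rfl : t = b + 1 := le_antisymm ht.2.1 (not_lt.1 fun i => h7 t ht.1 ht.2.1 ht.2.2.1
      (h.closed t (h4.trans ht.1.le) i (AccSt.next_card _ _ _ _ hc.pm.ls ht)))
    obtain ⟨a, i1, i2, i3⟩ := ht.2.2.1 b (lt_add_one b)
    obtain rfl : a = b := le_antisymm (le1 i2) i1
    obtain ⟨i4, i5⟩ := h6 a le_rfl i3
    obtain rfl : b1 = a := le_antisymm hb1 i4
    have H := ag_trans (ag_symm i5) (pas_ag (E := E1))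
    refine ⟨_, _, h.ext (cert_core hc h1 h2 h3 h5) H (lt_add_one _).le (hlim.add_one_lt hd).le
      fun g j1 j2 j3 => ?_, lt_add_one _, H⟩
    exact absurd ((j1.trans (j3 _ (le1 j2) (lt_add_one _))).trans (DiagSt.rho_top _ _))
      (not_le.2 (lt_add_one _))
  · by_cases hcl : Closed C E d
    · refine ⟨_, _, h.ext (cert_lim hc hs) pas_ag (lt_add_one _).le (hlim.add_one_lt hd).le
        fun g j1 j2 _ => ?_, lt_add_one _, pas_ag⟩
      obtain rfl : g = d := le_antisymm (le1 j2) j1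
      exact closed_ag pas_ag hcl
    · simp only [Closed, IsCard, not_forall, not_le] at hcl
      obtain ⟨r1, E1, d1, h1, h2, a1, h3, h4, h5⟩ := hcl
      obtain ⟨a, ⟨i1, i2⟩, i3⟩ := (InvImage.wf (rho E1) wellFounded_lt).has_min
        {a | d ≤ a ∧ a < d1} ⟨a1, h3, h4⟩
      have i4 : ∀ a', d ≤ a' → a' < d1 → rho E1 a ≤ rho E1 a' := fun a' j1 j2 =>
        not_lt.1 (i3 a' ⟨j1, j2⟩)
      have i5 : rho E1 a < d := (i4 a1 h3 h4).trans_lt h5
      have i6 := h1.pm.ls a i2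
      refine ⟨E1, a + 1, h.ext (cert_cut h1 i2 (suc_of_rho i6 (i5.trans_le i1))
        fun a' j1 => i4 a' (i1.trans j1)) (ag_symm h2) (i1.trans (lt_add_one a).le)
        (Order.add_one_le_iff.2 (lev_lt hO i6 (i5.trans hd))) fun g j1 j2 j3 => ?_, lt1 i1,
        ag_symm h2⟩
      exact absurd (j1.trans (j3 a (le1 j2) (lt_add_one a))) (not_le.2 i5)

omit [KEvSt.{u}] [KGoodSt.{u}] [KActSt.{u}] [CoreSt.{u}] [AmenSt.{u}] [DiagSt.{u}] [AccSt.{u}] in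
theorem Apx.chain {c : Set {p : Seq.{u} × Ordinal.{u} // Apx C E0 Om p.1 p.2}}
    (hc : IsChain (fun p q => p.1.2 ≤ q.1.2 ∧ Agree p.1.1 q.1.1 p.1.2) c) (hn : c.Nonempty) :
    ∃ q : {p : Seq.{u} × Ordinal.{u} // Apx C E0 Om p.1 p.2},
      ∀ p ∈ c, p.1.2 ≤ q.1.2 ∧ Agree p.1.1 q.1.1 p.1.2 := by
  have tot : ∀ p ∈ c, ∀ q ∈ c, p.1.2 ≤ q.1.2 → Agree p.1.1 q.1.1 p.1.2 := fun p hp q hq h => by
    rcases eq_or_ne p q with rfl | e
    · exact fun _ _ => rfl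
    · exact (hc hp hq e).elim (·.2) fun i => ag_symm (ag_mono i.2 h)
  by_cases hm : ∃ q ∈ c, ∀ p ∈ c, p.1.2 ≤ q.1.2
  · obtain ⟨q, hq, h⟩ := hm
    exact ⟨q, fun p hp => ⟨h p hp, tot p hp q hq (h p hp)⟩⟩
  simp only [not_exists, not_and, not_forall, not_le] at hm
  let S : Set Ordinal.{u} := (fun p => p.1.2) '' c
  have hb : ∀ y ∈ S, y ≤ Om := by rintro _ ⟨p, -, rfl⟩; exact p.2.le
  have hbd : BddAbove S := ⟨Om, hb⟩
  have up : ∀ p ∈ c, p.1.2 ≤ sSup S := fun p hp => le_csSup hbd ⟨p, hp, rfl⟩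
  have low : ∀ x < sSup S, ∃ p ∈ c, x < p.1.2 := fun x hx => by
    obtain ⟨_, ⟨p, hp, rfl⟩, h⟩ := (lt_csSup_iff hbd (hn.image _)).1 hx
    exact ⟨p, hp, h⟩
  have lim : ¬ Suc (sSup S) := not_suc_iff.2 fun x hx => by
    obtain ⟨p, hp, h⟩ := low x hx
    obtain ⟨q, hq, h'⟩ := hm p hp
    exact ((Order.add_one_le_iff.2 h).trans_lt h').trans_le (up q hq)
  let U : Seq.{u} := fun v x y => ∃ p ∈ c, v < p.1.2 ∧ p.1.1 v x y
  have ag : ∀ p ∈ c, Agree p.1.1 U p.1.2 := fun p hp v hv => by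
    funext x y
    refine propext ⟨fun h => ⟨p, hp, hv, h⟩, fun ⟨q, hq, h1, h2⟩ => ?_⟩
    rcases le_total p.1.2 q.1.2 with h | h
    · rwa [tot p hp q hq h v hv]
    · rwa [← tot q hq p hp h v h1]
  obtain ⟨p0, hp0⟩ := hn
  refine ⟨⟨(U, sSup S), Cert.intro' (pm_of_loc fun b hb => ?_)
    (fun b _ _ _ hb _ => absurd ⟨b, hb⟩ lim) fun a ha => ?_, p0.2.ge.trans (up p0 hp0),
    csSup_le' hb, ag_trans (ag_symm (ag_mono (ag p0 hp0) p0.2.ge)) p0.2.base,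
    fun g i1 i2 i3 => ?_⟩, fun p hp => ⟨up p hp, ag p hp⟩⟩
  · obtain ⟨p, hp, h⟩ := low b hb
    obtain ⟨r, hr⟩ := p.2.cert
    exact ⟨p.1.1, pm_mono hr.pm (Order.add_one_le_iff.2 h),
      ag_mono (ag p hp) (Order.add_one_le_iff.2 h)⟩
  · obtain ⟨p, hp, h⟩ := low _ ha.2.1
    obtain ⟨r, hr⟩ := p.2.cert
    refine child_of hr ⟨ha.1, h, fun a' j1 j2 => ?_⟩ (ag_mono (ag p hp) h.le)
    rw [rho_lt (ag p hp) h, rho_lt (ag p hp) j2]
    exact ha.2.2 a' j1 (j2.trans_le (up p hp))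
  · obtain ⟨p, hp, h⟩ := low g i2
    exact closed_ag (ag_mono (ag p hp) h.le)
      (p.2.closed g i1 h (card_ag (ag_symm (ag p hp)) (card_mono i3 (up p hp))))

theorem exists_kw {O : Cardinal.{u}} (hO : ℵ₀ < O) (hb : C.be < O.ord) (hl : ¬ Suc C.be)
    (h0 : PM E0 C.be) (hx : ¬ Exit C E0) : ∃ E, KW C E O.ord ∧ Agree E E0 C.be := by
  have base : Apx C E0 O.ord E0 C.be :=
    ⟨Cert.intro' h0 (fun b _ _ _ hb _ => absurd ⟨b, hb⟩ hl) fun c hc =>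
      absurd (hc.1.trans (lt_add_one c).le) (not_le.2 hc.2.1), le_rfl, hb.le, fun _ _ => rfl,
      fun g h1 h2 => absurd h1 (not_le.2 h2)⟩
  have : Nonempty {p : Seq.{u} × Ordinal.{u} // Apx C E0 O.ord p.1 p.2} := ⟨⟨(E0, C.be), base⟩⟩
  obtain ⟨⟨⟨E, d⟩, h⟩, hm⟩ := exists_maximal_of_nonempty_chains_bounded
    (r := fun p q : {p : Seq.{u} × Ordinal.{u} // Apx C E0 O.ord p.1 p.2} =>
      p.1.2 ≤ q.1.2 ∧ Agree p.1.1 q.1.1 p.1.2) (fun c hc hn => Apx.chain hc hn)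
    fun h1 h2 => ⟨h1.1.trans h2.1, ag_trans h1.2 (ag_mono h2.2 h1.1)⟩
  obtain rfl : d = O.ord := le_antisymm h.le (not_lt.1 fun hd => by
    obtain ⟨E', d', h1, h2, h3⟩ := h.step hO hl hx hd
    exact absurd (hm ⟨(E', d'), h1⟩ ⟨h2.le, h3⟩).1 (not_le.2 h2))
  have ho : ¬ Suc O.ord := not_suc_of_limit (isSuccLimit_ord hO.le)
  obtain ⟨r, hc⟩ := h.cert
  have H : Agree (pas E O.ord) E0 C.be := ag_trans (ag_symm (ag_mono pas_ag hb.le)) h.base
  exact ⟨_, ⟨cert_lim hc ho, pas_pas, ho, hb, hl, exit_ag (ag_symm H) hx, fun g i1 i2 i3 =>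
    closed_ag (ag_mono pas_ag i2.le) (h.closed g i1 i2 (card_ag (ag_symm pas_ag) i3))⟩, H⟩

end Zorn

variable [FragSt.{u}] [KEvSt.{u}] [KGoodSt.{u}] [KActSt.{u}] [CoreSt.{u}] [AmenSt.{u}]
  [DiagSt.{u}] [AccSt.{u}]

instance : ZornSt.{u} := ⟨fun _ _ _ => Zorn.exists_kw⟩

end Pool.Agent.KM
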